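import Pool.Agent.Lib.MP_6859a2_co.Defs

namespace Pool.Agent.Lib.MP_6859a2_co

open Finset SimpleGraph

variable {V : Type} [Fintype V] [DecidableEq V] {G : SimpleGraph V}

/-- a walk avoiding a small set -/
theorem IsConn.exists_walk {c : ℕ} (h : IsConn G c) (S : Finset V) (hS : S.card < c) {a b : V}
    (ha : a ∉ S) (hb : b ∉ S) : ∃ p : G.Walk a b, ∀ x ∈ p.support, x ∉ S := by
  obtain ⟨p⟩ := (h.2 S hS).preconnected ⟨a, by simpa using ha⟩ ⟨b, by simpa using hb⟩
  refine ⟨p.map (Embedding.induce _).toHom, ?_⟩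
  intro x hx
  have hx' : x ∈ (p.map (Embedding.induce ((S : Set V)ᶜ)).toHom).support := hx
  rw [Walk.support_map, List.mem_map] at hx'
  obtain ⟨y, -, rfl⟩ := hx'
  exact fun hh => y.2 hh

theorem IsConn.exists_nbr {c : ℕ} (h : IsConn G c) (S : Finset V) (hS : S.card < c) (v : V)
    (hv : v ∉ S) : ∃ a, a ∉ S ∧ G.Adj v a := by
  have h1 : (insert v S).card < (univ : Finset V).card := by
    rw [card_insert_of_notMem hv, card_univ]
    have := h.1
    omega
  obtain ⟨w, -, hw⟩ := exists_mem_notMem_of_card_lt_card h1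
  rw [mem_insert, not_or] at hw
  obtain ⟨p, hp⟩ := h.exists_walk S hS hv hw.2
  cases p with
  | nil => exact absurd rfl hw.1
  | cons hadj q => exact ⟨_, hp _ (by simp), hadj⟩

omit [Fintype V] in
/-- closing a walk between two neighbours of `v` to a cycle -/
theorem exists_cycle {v a b : V} (ha : G.Adj v a) (hb : G.Adj v b) (hab : a ≠ b)
    (p : G.Walk a b) (hv : v ∉ p.support) :
    ∃ C : G.Walk v v, C.IsCycle ∧ ∀ x ∈ C.support, x = v ∨ x ∈ p.support := by
  have hq : p.bypass.IsPath := p.bypass_isPath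
  have hv' : v ∉ p.bypass.support := fun hh => hv (p.support_bypass_subset_support hh)
  refine ⟨Walk.cons ha (p.bypass.concat hb.symm), ?_, ?_⟩
  · rw [Walk.cons_isCycle_iff]
    refine ⟨hq.concat hv' _, ?_⟩
    rw [Walk.edges_concat]
    simp only [List.concat_eq_append, List.mem_append, List.mem_singleton, not_or]
    refine ⟨fun hh => hv' (Walk.fst_mem_support_of_mem_edges _ hh), ?_⟩
    intro hh
    rw [Sym2.eq_iff] at hh
    rcases hh with ⟨h1, -⟩ | ⟨-, h1⟩
    · exact hb.ne h1
    · exact hab h1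
  · intro x hx
    rw [Walk.support_cons, Walk.support_concat] at hx
    simp only [List.mem_cons, List.mem_append, List.not_mem_nil, or_false] at hx
    rcases hx with h | h | h
    · exact Or.inl h
    · exact Or.inr (p.support_bypass_subset_support h)
    · exact Or.inl h

omit [Fintype V] in
/-- To separate the `v i` it suffices to find disjoint walks between two neighbours. -/
theorem separated_of_walks {k : ℕ} (v : Fin k → V) (hv : Function.Injective v)
    (a b : Fin k → V) (p : ∀ i, G.Walk (a i) (b i)) (ha : ∀ i, G.Adj (v i) (a i))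
    (hb : ∀ i, G.Adj (v i) (b i)) (hab : ∀ i, a i ≠ b i)
    (hp : ∀ i j, v j ∉ (p i).support)
    (hd : ∀ i j, i ≠ j → ∀ x ∈ (p i).support, x ∉ (p j).support) : Separated G v := by
  choose C hC1 hC2 using fun i => exists_cycle (ha i) (hb i) (hab i) (p i) (hp i i)
  refine ⟨C, hC1, ?_⟩
  intro i j hij x hi hj
  rcases hC2 i x hi with h1 | h1 <;> rcases hC2 j x hj with h2 | h2
  · exact hij (hv (h1.symm.trans h2))
  · exact hp j i (h1 ▸ h2)
  · exact hp i j (h2 ▸ h1)
  · exact hd i j hij x h1 h2

omit [DecidableEq V] in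
/-- `k` disjoint cycles need `3 k` vertices -/
theorem card_ge_of_separated {k : ℕ} {v : Fin k → V} (h : Separated G v) :
    3 * k ≤ Fintype.card V := by
  classical
  obtain ⟨C, h1, h2⟩ := h
  have h3 : ∀ i, 3 ≤ (C i).support.tail.toFinset.card := by
    intro i
    rw [List.toFinset_card_of_nodup (h1 i).support_nodup, List.length_tail, Walk.length_support]
    exact (h1 i).three_le_length
  have h4 : (univ.biUnion (fun i => (C i).support.tail.toFinset)).card
      = ∑ i, (C i).support.tail.toFinset.card := by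
    apply card_biUnion
    intro i _ j _ hij
    rw [Function.onFun, Finset.disjoint_left]
    intro x hi hj
    rw [List.mem_toFinset] at hi hj
    exact h2 i j hij (List.mem_of_mem_tail hi) (List.mem_of_mem_tail hj)
  have h5 : ∑ _i : Fin k, 3 ≤ ∑ i, (C i).support.tail.toFinset.card :=
    sum_le_sum fun i _ => h3 i
  have h6 := card_le_univ (univ.biUnion (fun i => (C i).support.tail.toFinset))
  simp only [sum_const, card_univ, Fintype.card_fin, smul_eq_mul] at h5
  omega

/-- greedy triangles -/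
theorem triangles {c k : ℕ} (hG : ClawFree G) (h : IsConn G c) (v : Fin k → V) (m : ℕ) :
    ∀ T : Finset (Fin k), T.card = m → k + 2 * m ≤ c →
      ∃ a b : Fin k → V, (∀ i ∈ T, G.Adj (v i) (a i) ∧ G.Adj (v i) (b i) ∧ G.Adj (a i) (b i) ∧
        (∀ j, a i ≠ v j ∧ b i ≠ v j)) ∧
        ∀ i ∈ T, ∀ j ∈ T, i ≠ j → a i ≠ a j ∧ a i ≠ b j ∧ b i ≠ b j := by
  induction m with
  | zero =>
    intro T hT _
    rw [card_eq_zero] at hT
    subst hT
    exact ⟨v, v, by simp, by simp⟩
  | succ m ih =>
    intro T hT hc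
    obtain ⟨i, hi⟩ : T.Nonempty := card_pos.1 (by omega)
    obtain ⟨a, b, h1, h2⟩ := ih (T.erase i) (by rw [card_erase_of_mem hi]; omega) (by omega)
    set S := ((univ.image v).erase (v i)) ∪ ((T.erase i).image a ∪ (T.erase i).image b) with hS
    have cS : S.card + 1 ≤ k + 2 * m := by
      have e1 : ((univ.image v).erase (v i)).card + 1 ≤ k := by
        rw [card_erase_add_one (mem_image_of_mem _ (mem_univ i))]
        exact card_image_le.trans (by simp)
      have e2 : ((T.erase i).image a).card ≤ m :=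
        card_image_le.trans (by rw [card_erase_of_mem hi]; omega)
      have e3 : ((T.erase i).image b).card ≤ m :=
        card_image_le.trans (by rw [card_erase_of_mem hi]; omega)
      have e4 := card_union_le ((univ.image v).erase (v i))
        ((T.erase i).image a ∪ (T.erase i).image b)
      have e5 := card_union_le ((T.erase i).image a) ((T.erase i).image b)
      rw [← hS] at e4
      omega
    have vS : v i ∉ S := by
      simp only [hS, mem_union, mem_erase, mem_image, not_or]
      refine ⟨by simp, ?_, ?_⟩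
      · rintro ⟨j, hj, e⟩
        exact ((h1 j (mem_erase.2 hj)).2.2.2 i).1 e
      · rintro ⟨j, hj, e⟩
        exact ((h1 j (mem_erase.2 hj)).2.2.2 i).2 e
    obtain ⟨x, x1, x2⟩ := h.exists_nbr S (by omega) (v i) vS
    obtain ⟨y, y1, y2⟩ := h.exists_nbr (insert x S)
      (lt_of_le_of_lt (card_insert_le _ _) (by omega)) (v i)
      (by rw [mem_insert, not_or]; exact ⟨x2.ne, vS⟩)
    obtain ⟨z, z1, z2⟩ := h.exists_nbr (insert y (insert x S))
      (lt_of_le_of_lt (card_insert_le _ _)
        (lt_of_le_of_lt (Nat.succ_le_succ (card_insert_le _ _)) (by omega))) (v i)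
      (by rw [mem_insert, mem_insert, not_or, not_or]; exact ⟨y2.ne, x2.ne, vS⟩)
    rw [mem_insert, not_or] at y1
    rw [mem_insert, mem_insert, not_or, not_or] at z1
    have key : ∃ p q, p ∉ S ∧ q ∉ S ∧ G.Adj (v i) p ∧ G.Adj (v i) q ∧ G.Adj p q := by
      rcases hG _ x y z x2 y2 z2 (Ne.symm y1.1) (Ne.symm z1.2.1) (Ne.symm z1.1) with e | e | e
      · exact ⟨x, y, x1, y1.2, x2, y2, e⟩
      · exact ⟨x, z, x1, z1.2.2, x2, z2, e⟩
      · exact ⟨y, z, y1.2, z1.2.2, y2, z2, e⟩
    obtain ⟨p, q, p1, q1, p2, q2, pq⟩ := key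
    have nS : ∀ w, w ∉ S → G.Adj (v i) w → (∀ j, w ≠ v j) ∧
        ∀ j ∈ T.erase i, w ≠ a j ∧ w ≠ b j := by
      intro w hw hadj
      simp only [hS, mem_union, mem_erase, mem_image, not_or] at hw
      refine ⟨fun j e => hw.1 ⟨hadj.ne', j, mem_univ _, e.symm⟩, fun j hj => ⟨fun e => ?_,
        fun e => ?_⟩⟩
      · exact hw.2.1 ⟨j, mem_erase.1 hj, e.symm⟩
      · exact hw.2.2 ⟨j, mem_erase.1 hj, e.symm⟩
    obtain ⟨p3, p4⟩ := nS p p1 p2
    obtain ⟨q3, q4⟩ := nS q q1 q2
    refine ⟨Function.update a i p, Function.update b i q, ?_, ?_⟩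
    · intro j hj
      by_cases e : j = i
      · subst e
        simp only [Function.update_self]
        exact ⟨p2, q2, pq, fun l => ⟨p3 l, q3 l⟩⟩
      · simp only [Function.update_of_ne e]
        exact h1 j (mem_erase.2 ⟨e, hj⟩)
    · intro j hj l hl hjl
      by_cases e : j = i
      · subst e
        have e' : l ≠ j := Ne.symm hjl
        simp only [Function.update_self, Function.update_of_ne e']
        have := mem_erase.2 ⟨e', hl⟩
        exact ⟨(p4 l this).1, (p4 l this).2, (q4 l this).2⟩
      · by_cases e' : l = i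
        · subst e'
          simp only [Function.update_self, Function.update_of_ne e]
          have := mem_erase.2 ⟨e, hj⟩
          exact ⟨(p4 j this).1.symm, (q4 j this).1.symm, (q4 j this).2.symm⟩
        · simp only [Function.update_of_ne e, Function.update_of_ne e']
          exact h2 j (mem_erase.2 ⟨e, hj⟩) l (mem_erase.2 ⟨e', hl⟩) hjl

theorem upper {k : ℕ} (hk : 1 ≤ k) (hG : ClawFree G) (h : IsConn G (3 * k - 1)) (v : Fin k → V)
    (hv : Function.Injective v) : Separated G v := by
  let i : Fin k := ⟨0, hk⟩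
  have cT : (univ.erase i).card = k - 1 := by rw [card_erase_of_mem (mem_univ _)]; simp
  obtain ⟨a, b, h1, h2⟩ := triangles hG h v (k - 1) (univ.erase i) cT (by omega)
  set S := ((univ.image v).erase (v i)) ∪ ((univ.erase i).image a ∪ (univ.erase i).image b)
    with hS
  have cS : S.card + 3 ≤ 3 * k := by
    have e1 : ((univ.image v).erase (v i)).card + 1 ≤ k := by
      rw [card_erase_add_one (mem_image_of_mem _ (mem_univ i))]
      exact card_image_le.trans (by simp)
    have e2 : ((univ.erase i).image a).card ≤ k - 1 := card_image_le.trans cT.le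
    have e3 : ((univ.erase i).image b).card ≤ k - 1 := card_image_le.trans cT.le
    have e4 := card_union_le ((univ.image v).erase (v i))
      ((univ.erase i).image a ∪ (univ.erase i).image b)
    have e5 := card_union_le ((univ.erase i).image a) ((univ.erase i).image b)
    rw [← hS] at e4
    omega
  have vS : v i ∉ S := by
    simp only [hS, mem_union, mem_erase, mem_image, not_or]
    refine ⟨by simp, ?_, ?_⟩
    · rintro ⟨j, hj, e⟩
      exact ((h1 j (mem_erase.2 hj)).2.2.2 i).1 e
    · rintro ⟨j, hj, e⟩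
      exact ((h1 j (mem_erase.2 hj)).2.2.2 i).2 e
  obtain ⟨x, x1, x2⟩ := h.exists_nbr S (by omega) (v i) vS
  obtain ⟨y, y1, y2⟩ := h.exists_nbr (insert x S)
    (lt_of_le_of_lt (card_insert_le _ _) (by omega)) (v i)
    (by rw [mem_insert, not_or]; exact ⟨x2.ne, vS⟩)
  rw [mem_insert, not_or] at y1
  obtain ⟨w, hw⟩ := h.exists_walk (insert (v i) S)
    (lt_of_le_of_lt (card_insert_le _ _) (by omega)) (a := x) (b := y)
    (by rw [mem_insert, not_or]; exact ⟨x2.ne', x1⟩)
    (by rw [mem_insert, not_or]; exact ⟨y2.ne', y1.2⟩)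
  have nS : ∀ z ∈ w.support, (∀ j, z ≠ v j) ∧ ∀ j, j ≠ i → z ≠ a j ∧ z ≠ b j := by
    intro z hz
    have := hw z hz
    simp only [hS, mem_insert, mem_union, mem_erase, mem_image, not_or] at this
    refine ⟨fun j e => this.2.1 ⟨this.1, j, mem_univ _, e.symm⟩, fun j hj => ⟨fun e => ?_,
      fun e => ?_⟩⟩
    · exact this.2.2.1 ⟨j, ⟨hj, mem_univ _⟩, e.symm⟩
    · exact this.2.2.2 ⟨j, ⟨hj, mem_univ _⟩, e.symm⟩
  have mem : ∀ j, j ≠ i → j ∈ univ.erase i := fun j hj => mem_erase.2 ⟨hj, mem_univ _⟩
  have ex : ∀ j, ∃ (a' b' : V) (p : G.Walk a' b'), G.Adj (v j) a' ∧ G.Adj (v j) b' ∧ a' ≠ b' ∧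
      (j = i → ∀ z ∈ p.support, z ∈ w.support) ∧
      (j ≠ i → ∀ z ∈ p.support, z = a j ∨ z = b j) := by
    intro j
    by_cases e : j = i
    · subst e
      exact ⟨x, y, w, x2, y2, Ne.symm y1.1, fun _ _ hz => hz, fun hh => absurd rfl hh⟩
    · obtain ⟨t1, t2, t3, -⟩ := h1 j (mem j e)
      exact ⟨a j, b j, t3.toWalk, t1, t2, t3.ne, fun hh => absurd hh e, fun _ z hz => by
        simpa using hz⟩
  choose a' b' p p1 p2 p3 p4 p5 using ex
  refine separated_of_walks v hv a' b' p p1 p2 p3 ?_ ?_
  · intro j l hl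
    by_cases e : j = i
    · exact (nS _ (p4 j e _ hl)).1 l rfl
    · rcases p5 j e _ hl with t | t
      · exact ((h1 j (mem j e)).2.2.2 l).1 t.symm
      · exact ((h1 j (mem j e)).2.2.2 l).2 t.symm
  · intro j l hjl z hj hl
    by_cases e : j = i
    · have e' : l ≠ i := fun hh => hjl (e.trans hh.symm)
      have := (nS _ (p4 j e _ hj)).2 l e'
      rcases p5 l e' _ hl with t | t
      · exact this.1 t
      · exact this.2 t
    · by_cases e' : l = i
      · have := (nS _ (p4 l e' _ hl)).2 j e
        rcases p5 j e _ hj with t | t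
        · exact this.1 t
        · exact this.2 t
      · have t1 := h2 j (mem j e) l (mem l e') hjl
        have t2 := h2 l (mem l e') j (mem j e) (Ne.symm hjl)
        rcases p5 j e _ hj with t | t <;> rcases p5 l e' _ hl with t' | t'
        · exact t1.1 (t.symm.trans t')
        · exact t1.2.1 (t.symm.trans t')
        · exact t2.2.1 (t'.symm.trans t)
        · exact t1.2.2 (t.symm.trans t')

end Pool.Agent.Lib.MP_6859a2_co
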