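import Pool.Agent.Lib.MP_6859a2_co.Count

/-!
Moving the bad pair to a prescribed pair of live vertices.
-/

namespace Pool.Agent.Lib.MP_6859a2_co

open Finset Function

variable {V : Type} {G : SimpleGraph V} {k : ℕ} {v : Fin k → V}

theorem clq (hG : ClawFree G) {i a p q : V} (h1 : G.Adj i a) (h2 : G.Adj i p) (h3 : G.Adj i q)
    (n1 : ¬ G.Adj a p) (n2 : ¬ G.Adj a q) (d1 : a ≠ p) (d2 : a ≠ q) (d3 : p ≠ q) :
    G.Adj p q := by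
  by_contra hn
  exact claw hG d1 d2 d3 h1 h2 h3 n1 n2 hn

namespace Sys

variable {σ : Sys G v} {i l m : Fin k} {a b x y u w c s : V} {Λ : Finset (Fin k)}

theorem free_of_held {τ : Sys G v} (h : ∀ p, ∃ q, τ.h p = σ.h q) {z : V} (hz : σ.Free z) :
    τ.Free z := ⟨hz.1, fun p e => by
  obtain ⟨q, hq⟩ := h p
  exact hz.2 q (e.trans hq)⟩

theorem swap2 (ho : σ.Opt) (hi : ¬ σ.Good i) (him : i ≠ m) (hp : σ.Pr i a b) (hq : σ.Pr m u w)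
    {p1 q1 p2 q2 : V} (hm : ∀ z ∈ [p1, q1, p2, q2], z = a ∨ z = b ∨ z = u ∨ z = w)
    (hd : [p1, q1, p2, q2].Nodup)
    (a0 : G.Adj (v i) p1) (a1 : G.Adj (v i) q1) (a2 : G.Adj (v m) p2) (a3 : G.Adj (v m) q2)
    (hg : G.Adj p1 q1 ∨ G.Adj p2 q2) :
    ∃ τ : Sys G v, τ.Opt ∧ τ.Pr i p1 q1 ∧ τ.Pr m p2 q2 ∧
      (∀ j, j ≠ i → j ≠ m → ∀ β, τ.h (j, β) = σ.h (j, β)) ∧ ∀ z, σ.Free z → τ.Free z := by
  obtain ⟨β, rfl, rfl⟩ := hp
  obtain ⟨δ, rfl, rfl⟩ := hq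
  obtain ⟨τ, e1, e2, e3, e4, e5, e⟩ := σ.exchange2 him β δ (fun z hz => by
    rcases hm z hz with h | h | h | h <;> simp [h]) hd a0 a1 a2 a3
  have hm' : ∀ z ∈ [p1, q1, p2, q2], ∃ q, z = σ.h q := fun z hz => by
    rcases hm z hz with h | h | h | h <;> exact ⟨_, h⟩
  refine ⟨τ, fun ρ => ?_, ⟨false, e1.symm, e2.symm⟩, ⟨false, e3.symm, e4.symm⟩, e5,
    fun z => free_of_held ?_⟩
  · have := ho ρ
    have := ind_or hg
    have := ind_f hi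
    have := ind_le (σ.Good m)
    omega
  · rintro ⟨j, γ⟩
    by_cases h1 : j = i
    · cases γ <;> rw [h1] <;> [rw [e1]; rw [e2]] <;> exact hm' _ (by simp)
    by_cases h2 : j = m
    · cases γ <;> rw [h2] <;> [rw [e3]; rw [e4]] <;> exact hm' _ (by simp)
    exact ⟨_, e5 j h1 h2 γ⟩

theorem swap3 (ho : σ.Opt) (hi : ¬ σ.Good i) (hil : i ≠ l) (him : i ≠ m) (hlm : l ≠ m)
    (hp : σ.Pr i a b) (hr : σ.Pr l x y) (hq : σ.Pr m u w) {p1 q1 p2 q2 p3 q3 : V}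
    (hm : ∀ z ∈ [p1, q1, p2, q2, p3, q3], z = a ∨ z = b ∨ z = x ∨ z = y ∨ z = u ∨ z = w)
    (hd : [p1, q1, p2, q2, p3, q3].Nodup)
    (a0 : G.Adj (v i) p1) (a1 : G.Adj (v i) q1) (a2 : G.Adj (v l) p2) (a3 : G.Adj (v l) q2)
    (a4 : G.Adj (v m) p3) (a5 : G.Adj (v m) q3)
    (hg : (G.Adj p1 q1 ∧ G.Adj p2 q2) ∨ (G.Adj p1 q1 ∧ G.Adj p3 q3) ∨
      (G.Adj p2 q2 ∧ G.Adj p3 q3)) :
    ∃ τ : Sys G v, τ.Opt ∧ τ.Pr i p1 q1 ∧ τ.Pr l p2 q2 ∧ τ.Pr m p3 q3 ∧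
      (∀ j, j ≠ i → j ≠ l → j ≠ m → ∀ β, τ.h (j, β) = σ.h (j, β)) ∧
      ∀ z, σ.Free z → τ.Free z := by
  obtain ⟨β, rfl, rfl⟩ := hp
  obtain ⟨γ, rfl, rfl⟩ := hr
  obtain ⟨δ, rfl, rfl⟩ := hq
  obtain ⟨τ, e1, e2, e3, e4, e5, e6, e7, e⟩ := σ.exchange3 hil him hlm β γ δ (fun z hz => by
    rcases hm z hz with h | h | h | h | h | h <;> simp [h]) hd a0 a1 a2 a3 a4 a5
  have hm' : ∀ z ∈ [p1, q1, p2, q2, p3, q3], ∃ q, z = σ.h q := fun z hz => by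
    rcases hm z hz with h | h | h | h | h | h <;> exact ⟨_, h⟩
  refine ⟨τ, fun ρ => ?_, ⟨false, e1.symm, e2.symm⟩, ⟨false, e3.symm, e4.symm⟩,
    ⟨false, e5.symm, e6.symm⟩, e7, fun z => free_of_held ?_⟩
  · have := ho ρ
    have := ind_f hi
    have := ind_le (σ.Good l)
    have := ind_le (σ.Good m)
    rcases hg with h | h | h <;> have := ind_t h.1 <;> have := ind_t h.2 <;> omega
  · rintro ⟨j, ε⟩
    by_cases h1 : j = i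
    · cases ε <;> rw [h1] <;> [rw [e1]; rw [e2]] <;> exact hm' _ (by simp)
    by_cases h2 : j = l
    · cases ε <;> rw [h2] <;> [rw [e3]; rw [e4]] <;> exact hm' _ (by simp)
    by_cases h3 : j = m
    · cases ε <;> rw [h3] <;> [rw [e5]; rw [e6]] <;> exact hm' _ (by simp)
    exact ⟨_, e7 j h1 h2 h3 ε⟩

/-- the linked bad players all lie on the side of `b`, with kernel vertices `κ j` -/
def Ker (σ : Sys G v) (i : Fin k) (Λ : Finset (Fin k)) (a b : V) (κ π : Fin k → V) : Prop :=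
  ∀ j ∈ Λ, ¬ σ.Good j ∧ σ.Pr j (κ j) (π j) ∧ RV G (v i) b a (v j) (κ j) (π j)

variable {κ π : Fin k → V}

theorem Pr.ne_v (h : σ.Pr m x y) (j : Fin k) : x ≠ v j := by
  obtain ⟨β, rfl, -⟩ := h
  exact σ.nv _ _

theorem Pr.ne (h : σ.Pr m x y) (h' : σ.Pr l u w) (hml : m ≠ l) : x ≠ u := by
  obtain ⟨β, rfl, -⟩ := h
  obtain ⟨γ, rfl, -⟩ := h'
  exact fun e => hml (congrArg Prod.fst (σ.inj e))

theorem Pr.ne' (h : σ.Pr m x y) : x ≠ y := by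
  obtain ⟨β, rfl, rfl⟩ := h
  exact fun e => by simpa using σ.inj e

theorem RL_i {i a b p u t : V} (h : RL G i a b p u t) :
    G.Adj i p ∧ G.Adj i u ∧ ¬ G.Adj b u := by
  rcases h with h | h <;> exact ⟨h.1, h.2.1, h.2.2.1⟩

theorem Ctx.ker_live (C : σ.Ctx i a b) (hK : σ.Ker i Λ a b κ π) (hw : σ.Live i Λ b a w)
    {j : Fin k} (hj : j ∈ Λ) : G.Adj (v j) w := by
  obtain ⟨-, -, h⟩ := hK j hj
  rcases hw with rfl | ⟨m, t, him, -, hp, hr⟩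
  · exact clq C.hG C.hp.adj1 h.1 C.hp.adj2 h.2.2.2.1 C.nab (C.hp.ne_v j) C.hp.ne'
      (C.hp.symm.ne_v j).symm
  · exact clq C.hG C.hp.adj1 h.1 (RL_i hr).2.1 h.2.2.2.1 (RL_i hr).2.2 (C.hp.ne_v j)
      (C.hp.ne hp him) (hp.ne_v j).symm

theorem Ctx.ker_ker (C : σ.Ctx i a b) (hi : i ∉ Λ) (hK : σ.Ker i Λ a b κ π) {j : Fin k}
    (hj : j ∈ Λ) (h1 : G.Adj (v i) (v l)) (h2 : ¬ G.Adj a (v l)) : G.Adj (v l) (κ j) := by
  obtain ⟨-, hp, h⟩ := hK j hj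
  exact clq C.hG C.hp.adj1 h1 h.2.1 h2 h.2.2.2.2.1 (C.hp.ne_v l)
    (C.hp.ne hp fun e => hi (e ▸ hj)) (hp.ne_v l).symm

variable [Fintype V] [DecidableEq V]

theorem Ctx.conv (C : σ.Ctx i a b) (hc : IsConn G (2 * k)) (hi : i ∉ Λ)
    (hK : σ.Ker i Λ a b κ π) (hf : ∀ j ∈ Λ, ∃ c, σ.Free c) (hs : σ.Live i Λ a b s)
    (hw : σ.Live i Λ b a w) :
    ∃ (τ : Sys G v) (i' : Fin k), i' ∉ Λ ∧ τ.Opt ∧ τ.Pr i' s w ∧
      (∀ j ∈ Λ, ∀ β, τ.h (j, β) = σ.h (j, β)) ∧ (∀ z, σ.Free z → τ.Free z) ∧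
      ∀ j ∈ Λ, G.Adj (v i') (κ j) := by
  have nsw : ¬ G.Adj s w := C.anti (hs.side True) (hw.side _)
  have hik : ∀ j ∈ Λ, G.Adj (v i) (κ j) := fun j hj => (hK j hj).2.2.2.1
  have ne : ∀ {m}, m ∉ Λ → ∀ j ∈ Λ, j ≠ m := fun hm j hj e => hm (e ▸ hj)
  have cross : ∀ {m t} {τ : Sys G v}, i ≠ m → m ∉ Λ → σ.Pr m w t → RL G (v i) b a (v m) w t →
      ¬ G.Adj b (v m) → τ.Opt → τ.Pr m s w → (∀ j ∈ Λ, ∀ β, τ.h (j, β) = σ.h (j, β)) →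
      (∀ z, σ.Free z → τ.Free z) → ∀ j ∈ Λ, G.Adj (v m) (κ j) := by
    intro m t τ him hm hp hr hb ho hq he hF j hj
    obtain ⟨c, hc'⟩ := hf j hj
    obtain ⟨k1, k2, k3⟩ := hK j hj
    have hjm := ne hm j hj
    have hij := (ne hi j hj).symm
    have : G.Adj (v m) (v j) := bad_adj C.hG C.hv ho hc (fun h => nsw (hq.good.1 h))
      (fun h => k1 (by unfold Good at h ⊢; rwa [he j hj, he j hj] at h)) hjm.symm (hF c hc')
    by_contra hn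
    exact cross_ker C.hG (C.hp.ex3 C.ho C.hi hij him hjm k2 hp) (C.hp.nd3 C.hv hij him hjm k2 hp)
      C.hp.adj1 C.hp.adj2 k2.adj1 k2.adj2 hp.adj1 hp.adj2 C.nab k3 (k2.bad k1) hr hb this hn
  rcases hs with rfl | ⟨l, y, hil, hl, hp, hr⟩ <;> rcases hw with rfl | ⟨m, t, him, hm, hq, hr'⟩
  · exact ⟨σ, i, hi, C.ho, C.hp, fun _ _ _ => rfl, fun _ h => h, hik⟩
  · have D := C.hp.nd2 C.hv him hq
    simp only [List.nodup_cons, List.mem_cons, List.not_mem_nil, or_false, not_or,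
      not_false_eq_true, List.nodup_nil, and_true] at D
    rcases conv1 C.hG (C.hp.symm.ex2 C.ho C.hi him hq) (C.hp.symm.nd2 C.hv him hq) C.hp.adj2
      C.hp.adj1 hq.adj1 hq.adj2 C.symm.nab hr' with h | h
    · obtain ⟨τ, t1, t2, -, t4, t5⟩ := swap2 C.ho C.hi him C.hp hq (p1 := s) (q1 := w) (p2 := b)
        (q2 := t) (by simp) (by simp; grind) C.hp.adj1 (RL_i hr').2.1 h.1 hq.adj2 (Or.inr h.2)
      exact ⟨τ, i, hi, t1, t2, fun j hj => t4 j (ne hi j hj) (ne hm j hj), t5, hik⟩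
    · obtain ⟨τ, t1, -, t3, t4, t5⟩ := swap2 C.ho C.hi him C.hp hq (p1 := b) (q1 := t) (p2 := s)
        (q2 := w) (by simp) (by simp; grind) C.hp.adj2 h.2.2.1 h.2.1 hq.adj1 (Or.inl h.2.2.2)
      have t6 := fun j hj => t4 j (ne hi j hj) (ne hm j hj)
      exact ⟨τ, m, hm, t1, t3, t6, t5, cross him hm hq hr' h.1 t1 t3 t6 t5⟩
  · have D := C.hp.nd2 C.hv hil hp
    simp only [List.nodup_cons, List.mem_cons, List.not_mem_nil, or_false, not_or,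
      not_false_eq_true, List.nodup_nil, and_true] at D
    rcases conv1 C.hG (C.hp.ex2 C.ho C.hi hil hp) (C.hp.nd2 C.hv hil hp) C.hp.adj1
      C.hp.adj2 hp.adj1 hp.adj2 C.nab hr with h | h
    · obtain ⟨τ, t1, t2, -, t4, t5⟩ := swap2 C.ho C.hi hil C.hp hp (p1 := s) (q1 := w) (p2 := a)
        (q2 := y) (by simp) (by simp; grind) (RL_i hr).2.1 C.hp.adj2 h.1 hp.adj2 (Or.inr h.2)
      exact ⟨τ, i, hi, t1, t2, fun j hj => t4 j (ne hi j hj) (ne hl j hj), t5, hik⟩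
    · obtain ⟨τ, t1, -, t3, t4, t5⟩ := swap2 C.ho C.hi hil C.hp hp (p1 := a) (q1 := y) (p2 := s)
        (q2 := w) (by simp) (by simp; grind) C.hp.adj1 h.2.2.1 hp.adj1 h.2.1 (Or.inl h.2.2.2)
      exact ⟨τ, l, hl, t1, t3, fun j hj => t4 j (ne hi j hj) (ne hl j hj), t5,
        fun j hj => C.ker_ker hi hK hj (RL_i hr).1 h.1⟩
  · have hlm : l ≠ m := by
      rintro rfl
      exact C.rep_same (e := True) hil ⟨s, y, hp, Or.inr ⟨rfl, Or.inl hr⟩⟩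
        ⟨w, t, hq, Or.inr ⟨rfl, Or.inl hr'⟩⟩
    have D := C.hp.nd3 C.hv hil him hlm hp hq
    have R := conv2 C.hG (C.hp.ex3 C.ho C.hi hil him hlm hp hq) D C.hp.adj1 C.hp.adj2 hp.adj1
      hp.adj2 hq.adj1 hq.adj2 C.nab hr hr'
    simp only [List.nodup_cons, List.mem_cons, List.not_mem_nil, or_false, not_or,
      not_false_eq_true, List.nodup_nil, and_true] at D
    obtain ⟨-, -, -, D⟩ := D
    rcases R with h | h | h | h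
    · obtain ⟨τ, t1, t2, -, -, t4, t5⟩ := swap3 C.ho C.hi hil him hlm C.hp hp hq (p1 := s)
        (q1 := w) (p2 := a) (q2 := y) (p3 := b) (q3 := t) (by simp) (by simp; grind)
        (RL_i hr).2.1 (RL_i hr').2.1 h.1 hp.adj2 h.2.2.1 hq.adj2
        (Or.inr (Or.inr ⟨h.2.1, h.2.2.2⟩))
      exact ⟨τ, i, hi, t1, t2, fun j hj => t4 j (ne hi j hj) (ne hl j hj) (ne hm j hj), t5, hik⟩
    · obtain ⟨τ, t1, -, t2, -, t4, t5⟩ := swap3 C.ho C.hi hil him hlm C.hp hp hq (p1 := a)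
        (q1 := y) (p2 := s) (q2 := w) (p3 := b) (q3 := t) (by simp) (by simp; grind)
        C.hp.adj1 h.2.2.1 hp.adj1 h.2.1 h.2.2.2.2.1 hq.adj2
        (Or.inr (Or.inl ⟨h.2.2.2.1, h.2.2.2.2.2⟩))
      exact ⟨τ, l, hl, t1, t2, fun j hj => t4 j (ne hi j hj) (ne hl j hj) (ne hm j hj), t5,
        fun j hj => C.ker_ker hi hK hj (RL_i hr).1 h.1⟩
    · obtain ⟨τ, t1, -, -, t2, t4, t5⟩ := swap3 C.ho C.hi hil him hlm C.hp hp hq (p1 := b)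
        (q1 := t) (p2 := a) (q2 := y) (p3 := s) (q3 := w) (by simp) (by simp; grind)
        C.hp.adj2 h.2.2.1 h.2.2.2.2.1 hp.adj2 h.2.1 hq.adj1
        (Or.inl ⟨h.2.2.2.1, h.2.2.2.2.2⟩)
      have t6 := fun j hj => t4 j (ne hi j hj) (ne hl j hj) (ne hm j hj)
      exact ⟨τ, m, hm, t1, t2, t6, t5, cross him hm hq hr' h.1 t1 t2 t6 t5⟩
    · obtain ⟨τ, t1, t2, -, -, t4, t5⟩ := swap3 C.ho C.hi hil him hlm C.hp hp hq (p1 := s)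
        (q1 := w) (p2 := b) (q2 := t) (p3 := a) (q3 := y) (by simp) (by simp; grind)
        (RL_i hr).2.1 (RL_i hr').2.1 h.2.2.2.1 h.2.2.2.2.1 h.1 h.2.1
        (Or.inr (Or.inr ⟨h.2.2.2.2.2, h.2.2.1⟩))
      exact ⟨τ, i, hi, t1, t2, fun j hj => t4 j (ne hi j hj) (ne hl j hj) (ne hm j hj), t5, hik⟩

end Sys

end Pool.Agent.Lib.MP_6859a2_co
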