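import Pool.Agent.Lib.MP_6859a2_co.Rep

/-!
Counting: the complement of the two sides is small; bad players are adjacent.
-/

namespace Pool.Agent.Lib.MP_6859a2_co

open Finset Function

variable {V : Type} {G : SimpleGraph V} {k : ℕ} {v : Fin k → V}

theorem ind_imp {p q : Prop} (h : p → q) : ind p + ind (¬ q) ≤ 1 := by
  by_cases hp : p
  · rw [ind_t hp, ind_f (not_not.2 (h hp))]
  · rw [ind_f hp]
    have := ind_le (¬ q)
    omega

theorem ind_or {p q : Prop} (h : p ∨ q) : 1 ≤ ind p + ind q := by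
  rcases h with h | h <;> rw [ind_t h] <;> omega

theorem card_filter_three [DecidableEq V] (p : V → Prop) [DecidablePred p] (x y z : V) :
    #(({x, y, z} : Finset V).filter p) ≤ ind (p x) + ind (p y) + ind (p z) := by
  have h1 : ∀ (x : V) (s : Finset V), #((insert x s).filter p) ≤ ind (p x) + #(s.filter p) := by
    intro x s
    rw [filter_insert]
    split
    · rename_i h
      rw [ind_t h]
      have := card_insert_le x (s.filter p)
      omega
    · omega
  have h2 : #(({z} : Finset V).filter p) ≤ ind (p z) := by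
    have := h1 z ∅
    simpa using this
  have := h1 x {y, z}
  have := h1 y {z}
  omega

section conn

variable [Fintype V] [DecidableEq V]

theorem IsConn.closed {c : ℕ} (h : IsConn G c) (T : Finset V) (hT : #T < c) {a b : V}
    (ha : a ∉ T) (hb : b ∉ T) (Z : V → Prop) (hZ : Z a)
    (hs : ∀ p q, Z p → G.Adj p q → q ∉ T → Z q) : Z b := by
  obtain ⟨p, hp⟩ := h.exists_walk T hT ha hb
  clear ha hb
  induction p with
  | nil => exact hZ
  | cons e q ih =>
    exact ih (hs _ _ hZ e (hp _ (by simp))) fun x hx => hp x (by simp [hx])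

open Classical in
theorem IsConn.deg {c : ℕ} (h : IsConn G c) (x : V) : c ≤ #(univ.filter (G.Adj x)) := by
  by_contra hn
  obtain ⟨a, h1, h2⟩ := h.exists_nbr (univ.filter (G.Adj x)) (by omega) x (by simp)
  exact h1 (by simpa using h2)

end conn

namespace Sys

variable {σ : Sys G v} {i l m : Fin k} {a b x y u w c s : V} {Λ : Finset (Fin k)}

theorem not_free (σ : Sys G v) {z : V} (h : ¬ σ.Free z) :
    ∃ m, z = v m ∨ z = σ.h (m, false) ∨ z = σ.h (m, true) := by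
  by_contra hn
  push Not at hn
  refine h ⟨fun j => (hn j).1, ?_⟩
  rintro ⟨m, β⟩
  cases β
  exacts [(hn m).2.1, (hn m).2.2]

theorem Ctx.blk (C : σ.Ctx i a b) (him : i ≠ m) (hp : σ.Pr m x y) {e1 e2 : Prop} (he : e1)
    (P : V → Prop) (h1 : ∀ s, σ.Rep i a b e1 m s → P s) (h2 : ∀ s, σ.Rep i b a e2 m s → P s) :
    ind (¬ P (v m)) + ind (¬ P x) + ind (¬ P y) +
      (ind (G.Adj (v i) (v m)) + ind (G.Adj (v i) x) + ind (G.Adj (v i) y)) +
      (ind (RE G (v i) a b (v m) x y) + ind (RE G (v i) a b (v m) y x)) ≤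
      4 + ind (¬ G.Adj (v i) (v m) ∧ G.Adj (v i) x ∧ G.Adj (v i) y) := by
  have t1 := ind_le (¬ P (v m))
  have t2 := ind_le (¬ P x)
  have t3 := ind_le (¬ P y)
  have single : ∀ {x y : V}, σ.Pr m x y → G.Adj (v i) (v m) → G.Adj (v i) x → ¬ G.Adj (v i) y →
      P (v m) ∨ P x ∨ P y := fun {x y} hp k0 k1 k2 => by
    rcases cls2 C.hG (C.hp.ex2 C.ho C.hi him hp) (C.hp.nd2 C.hv him hp) C.hp.adj1 C.hp.adj2
      hp.adj1 hp.adj2 C.nab k0 k1 k2 with h | h | h | h | h | h | h | h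
    exacts [Or.inl (h1 _ ⟨x, y, hp, Or.inl ⟨rfl, h⟩⟩),
      Or.inr (Or.inl (h1 _ ⟨x, y, hp, Or.inr ⟨rfl, Or.inl h⟩⟩)),
      Or.inr (Or.inl (h1 _ ⟨x, y, hp, Or.inr ⟨rfl, Or.inr (Or.inl h)⟩⟩)),
      Or.inr (Or.inr (h1 _ ⟨y, x, hp.symm, Or.inr ⟨rfl, Or.inr (Or.inl h)⟩⟩)),
      Or.inl (h2 _ ⟨x, y, hp, Or.inl ⟨rfl, h⟩⟩),
      Or.inr (Or.inl (h2 _ ⟨x, y, hp, Or.inr ⟨rfl, Or.inl h⟩⟩)),
      Or.inr (Or.inl (h2 _ ⟨x, y, hp, Or.inr ⟨rfl, Or.inr (Or.inl h)⟩⟩)),
      Or.inr (Or.inr (h2 _ ⟨y, x, hp.symm, Or.inr ⟨rfl, Or.inr (Or.inl h)⟩⟩))]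
  by_cases k0 : G.Adj (v i) (v m)
  · rw [ind_f (p := RE G (v i) a b (v m) x y) fun h => h.1 k0,
      ind_f (p := RE G (v i) a b (v m) y x) fun h => h.1 k0, ind_t k0]
    by_cases k1 : G.Adj (v i) x <;> by_cases k2 : G.Adj (v i) y
    · have : P x ∧ P y := by
        rcases cls3 C.hG (C.hp.ex2 C.ho C.hi him hp) (C.hp.nd2 C.hv him hp) C.hp.adj1 C.hp.adj2
          hp.adj1 hp.adj2 C.nab k0 k1 k2 with h | h
        exacts [⟨h1 _ ⟨x, y, hp, Or.inr ⟨rfl, Or.inl h.1⟩⟩,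
            h1 _ ⟨y, x, hp.symm, Or.inr ⟨rfl, Or.inl h.2⟩⟩⟩,
          ⟨h2 _ ⟨x, y, hp, Or.inr ⟨rfl, Or.inl h.1⟩⟩,
            h2 _ ⟨y, x, hp.symm, Or.inr ⟨rfl, Or.inl h.2⟩⟩⟩]
      rw [ind_t k1, ind_t k2, ind_f (not_not.2 this.1), ind_f (not_not.2 this.2)]
      omega
    · rw [ind_t k1, ind_f k2]
      rcases single hp k0 k1 k2 with h | h | h <;> rw [ind_f (not_not.2 h)] <;> omega
    · rw [ind_f k1, ind_t k2]
      rcases single hp.symm k0 k2 k1 with h | h | h <;> rw [ind_f (not_not.2 h)] <;> omega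
    · rw [ind_f k1, ind_f k2]
      omega
  · rw [ind_f k0]
    by_cases k1 : G.Adj (v i) x ∧ G.Adj (v i) y
    · rw [ind_t k1.1, ind_t k1.2, ind_t (⟨k0, k1⟩ : ¬ G.Adj (v i) (v m) ∧ _)]
      have := ind_imp (p := RE G (v i) a b (v m) x y) fun h =>
        h1 _ ⟨x, y, hp, Or.inr ⟨rfl, Or.inr (Or.inr ⟨he, h⟩)⟩⟩
      have := ind_imp (p := RE G (v i) a b (v m) y x) fun h =>
        h1 _ ⟨y, x, hp.symm, Or.inr ⟨rfl, Or.inr (Or.inr ⟨he, h⟩)⟩⟩
      omega
    · rw [ind_f (p := RE G (v i) a b (v m) x y) fun h => k1 ⟨h.2.1, h.2.2.1⟩,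
        ind_f (p := RE G (v i) a b (v m) y x) fun h => k1 ⟨h.2.2.1, h.2.1⟩]
      have := ind_imp (p := G.Adj (v i) x) (q := ¬ G.Adj (v i) y) fun h h' => k1 ⟨h, h'⟩
      rw [not_not] at this
      omega

theorem Ctx.blkE (C : σ.Ctx i a b) (him : i ≠ m) (hp : σ.Pr m x y) :
    2 * ind (¬ G.Adj (v i) (v m) ∧ G.Adj (v i) x ∧ G.Adj (v i) y) ≤
      (ind (RE G (v i) a b (v m) x y) + ind (RE G (v i) a b (v m) y x)) +
      (ind (RE G (v i) b a (v m) x y) + ind (RE G (v i) b a (v m) y x)) := by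
  by_cases h : ¬ G.Adj (v i) (v m) ∧ G.Adj (v i) x ∧ G.Adj (v i) y
  · rw [ind_t h]
    have := ind_or (clsE C.hG (C.hp.ex2 C.ho C.hi him hp) (C.hp.nd2 C.hv him hp) C.hp.adj1
      C.hp.adj2 hp.adj1 hp.adj2 C.nab h.1 h.2.1 h.2.2)
    have := ind_or (clsE C.hG (C.hp.ex2 C.ho C.hi him hp.symm) (C.hp.nd2 C.hv him hp.symm)
      C.hp.adj1 C.hp.adj2 hp.adj2 hp.adj1 C.nab h.1 h.2.2 h.2.1)
    omega
  · rw [ind_f h]
    omega

variable [Fintype V] [DecidableEq V]

theorem Ctx.count (C : σ.Ctx i a b) (hc : IsConn G (2 * k)) (hi : i ∉ Λ)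
    (hΛ : ∀ j ∈ Λ, ∃ β, ¬ G.Adj (v i) (σ.h (j, β))) :
    ∃ (e : Prop) (T : Finset V), #T + #Λ < 2 * k ∧ a ∉ T ∧ b ∉ T ∧ ∀ z ∉ T, σ.Free z ∨
      σ.Side i Λ a b e z ∨ σ.Side i Λ b a (¬ e) z ∨ ∃ j ∈ Λ, ∃ β, z = σ.h (j, β) := by
  classical
  set D : Finset (Fin k) := (insert i Λ)ᶜ with hD
  have mD : ∀ m, m ∈ D ↔ i ≠ m ∧ m ∉ Λ := fun m => by
    simp only [hD, mem_compl, mem_insert, not_or]
    exact and_congr_left fun _ => ne_comm
  have cD : #D + (#Λ + 1) = k := by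
    rw [← card_insert_of_notMem hi, hD, card_compl_add_card, Fintype.card_fin]
  set ν : Fin k → ℕ := fun m => ind (G.Adj (v i) (v m)) + ind (G.Adj (v i) (σ.h (m, false))) +
    ind (G.Adj (v i) (σ.h (m, true))) with hν
  set d : Fin k → ℕ := fun m => ind (¬ G.Adj (v i) (v m) ∧ G.Adj (v i) (σ.h (m, false)) ∧
    G.Adj (v i) (σ.h (m, true))) with hd
  set dA : V → V → Fin k → ℕ := fun a b m =>
    ind (RE G (v i) a b (v m) (σ.h (m, false)) (σ.h (m, true))) +
      ind (RE G (v i) a b (v m) (σ.h (m, true)) (σ.h (m, false))) with hdA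
  have n1 : 2 * k ≤ ∑ m, ν m := by
    refine (hc.deg (v i)).trans (le_trans (card_le_card (t := univ.biUnion fun m =>
      ({v m, σ.h (m, false), σ.h (m, true)} : Finset V).filter (G.Adj (v i))) fun z hz => ?_)
      (card_biUnion_le.trans (sum_le_sum fun m _ => card_filter_three _ _ _ _)))
    have hz' : G.Adj (v i) z := by simpa using hz
    obtain ⟨m, hm⟩ := σ.not_free fun hf => C.no_free hf hz'
    exact mem_biUnion.2 ⟨m, mem_univ _, mem_filter.2 ⟨by simpa using hm, hz'⟩⟩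
  have n2 : ∑ m, ν m ≤ ∑ m ∈ D, ν m + (2 + 2 * #Λ) := by
    rw [← sum_compl_add_sum (insert i Λ), sum_insert hi, ← hD]
    have h1 : ν i ≤ 2 := by
      have := ind_f (G.irrefl (v := v i))
      have := ind_le (G.Adj (v i) (σ.h (i, false)))
      have := ind_le (G.Adj (v i) (σ.h (i, true)))
      simp only [hν]
      omega
    have h2 : ∑ j ∈ Λ, ν j ≤ ∑ _j ∈ Λ, 2 := sum_le_sum fun j hj => by
      obtain ⟨β, hβ⟩ := hΛ j hj
      have := ind_le (G.Adj (v i) (v j))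
      have := ind_le (G.Adj (v i) (σ.h (j, false)))
      have := ind_le (G.Adj (v i) (σ.h (j, true)))
      have := ind_f hβ
      simp only [hν]
      cases β <;> omega
    rw [sum_const, smul_eq_mul] at h2
    omega
  have n3 : ∑ m ∈ D, 2 * d m ≤ ∑ m ∈ D, (dA a b m + dA b a m) :=
    sum_le_sum fun m hm => C.blkE ((mD m).1 hm).1 (σ.pr m false)
  rw [← mul_sum, sum_add_distrib] at n3
  set e : Prop := ∑ m ∈ D, d m ≤ ∑ m ∈ D, dA a b m with he
  set P : V → Prop := fun z => σ.Side i Λ a b e z ∨ σ.Side i Λ b a (¬ e) z with hP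
  set t : Fin k → ℕ := fun m => ind (¬ P (v m)) + ind (¬ P (σ.h (m, false))) +
    ind (¬ P (σ.h (m, true))) with ht
  have p1 : ∀ m ∈ D, ∀ s, σ.Rep i a b e m s → P s := fun m hm s h =>
    Or.inl (Or.inr ⟨m, ((mD m).1 hm).1, ((mD m).1 hm).2, h⟩)
  have p2 : ∀ m ∈ D, ∀ s, σ.Rep i b a (¬ e) m s → P s := fun m hm s h =>
    Or.inr (Or.inr ⟨m, ((mD m).1 hm).1, ((mD m).1 hm).2, h⟩)
  have n4 : ∑ m ∈ D, t m + ∑ m ∈ D, ν m ≤ 4 * #D := by
    by_cases h : e
    · have : ∑ m ∈ D, (t m + ν m + dA a b m) ≤ ∑ m ∈ D, (4 + d m) := sum_le_sum fun m hm =>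
        C.blk ((mD m).1 hm).1 (σ.pr m false) h P (p1 m hm) (p2 m hm)
      simp only [sum_add_distrib, sum_const, smul_eq_mul] at this
      omega
    · have : ∑ m ∈ D, (t m + ν m + dA b a m) ≤ ∑ m ∈ D, (4 + d m) := sum_le_sum fun m hm =>
        C.symm.blk ((mD m).1 hm).1 (σ.pr m false) h P (p2 m hm) (p1 m hm)
      simp only [sum_add_distrib, sum_const, smul_eq_mul] at this
      omega
  refine ⟨e, (insert i Λ).image v ∪ D.biUnion fun m =>
    ({v m, σ.h (m, false), σ.h (m, true)} : Finset V).filter fun z => ¬ P z, ?_, ?_, ?_, ?_⟩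
  · have h1 := card_union_le ((insert i Λ).image v) (D.biUnion fun m =>
      ({v m, σ.h (m, false), σ.h (m, true)} : Finset V).filter fun z => ¬ P z)
    have h2 : #((insert i Λ).image v) ≤ #Λ + 1 :=
      card_image_le.trans (card_insert_of_notMem hi).le
    have h3 : #(D.biUnion fun m =>
        ({v m, σ.h (m, false), σ.h (m, true)} : Finset V).filter fun z => ¬ P z) ≤
        ∑ m ∈ D, t m :=
      card_biUnion_le.trans (sum_le_sum fun m _ => card_filter_three (fun z => ¬ P z) _ _ _)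
    omega
  · obtain ⟨β, h, -⟩ := C.hp
    simp only [mem_union, mem_image, mem_biUnion, mem_filter, not_or, not_exists, not_and]
    exact ⟨fun j _ e => σ.nv _ j (h.symm.trans e.symm), fun m _ _ hn => hn (Or.inl (Or.inl rfl))⟩
  · obtain ⟨β, -, h⟩ := C.hp
    simp only [mem_union, mem_image, mem_biUnion, mem_filter, not_or, not_exists, not_and]
    exact ⟨fun j _ e => σ.nv _ j (h.symm.trans e.symm), fun m _ _ hn => hn (Or.inr (Or.inl rfl))⟩
  · intro z hz
    simp only [mem_union, mem_image, mem_biUnion, mem_filter, not_or, not_exists, not_and,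
      not_not] at hz
    by_cases hf : σ.Free z
    · exact Or.inl hf
    right
    obtain ⟨m, hm⟩ := σ.not_free hf
    by_cases hmD : m ∈ D
    · rcases hz.2 m hmD (by simpa using hm) with h | h
      exacts [Or.inl h, Or.inr (Or.inl h)]
    have hm' : m ∈ insert i Λ := by
      by_contra hh
      exact hmD (mem_compl.2 hh)
    rcases hm with h | hm
    · exact (hz.1 m hm' h.symm).elim
    rcases mem_insert.1 hm' with rfl | hm'
    · rcases C.hp.cases (σ.pr m false) with ⟨h1, h2⟩ | ⟨h1, h2⟩ <;> rcases hm with h | h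
      exacts [Or.inl (Or.inl (h.trans h1)), Or.inr (Or.inl (Or.inl (h.trans h2))),
        Or.inr (Or.inl (Or.inl (h.trans h1))), Or.inl (Or.inl (h.trans h2))]
    · rcases hm with h | h
      exacts [Or.inr (Or.inr ⟨m, hm', _, h⟩), Or.inr (Or.inr ⟨m, hm', _, h⟩)]

/-- If some vertex is free, any two bad players of an optimal system are adjacent. -/
theorem bad_adj (hG : ClawFree G) (hv : Injective v) (ho : σ.Opt) (hc : IsConn G (2 * k))
    {i j : Fin k} (hi : ¬ σ.Good i) (hj : ¬ σ.Good j) (hij : i ≠ j) (hf : σ.Free c) :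
    G.Adj (v i) (v j) := by
  classical
  by_contra hn
  have Ci : σ.Ctx i _ _ := ⟨hG, hv, ho, hi, σ.pr i false⟩
  have Cj : σ.Ctx j _ _ := ⟨hG, hv, ho, hj, σ.pr j false⟩
  set A := univ.filter (G.Adj (v i))
  set B := univ.filter (G.Adj (v j))
  have d1 : 2 * k ≤ #A := hc.deg (v i)
  have d2 : 2 * k ≤ #B := hc.deg (v j)
  have d3 := card_union_add_card_inter A B
  have d4 : #(insert (v i) (A ∪ B)) ≤ 3 * k := by
    refine le_trans (card_le_card (t := univ.biUnion fun m =>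
      ({v m, σ.h (m, false), σ.h (m, true)} : Finset V)) fun z hz => ?_)
      (card_biUnion_le.trans ?_)
    · have : ¬ σ.Free z := fun h => by
        simp only [A, B, mem_insert, mem_union, mem_filter, mem_univ, true_and] at hz
        rcases hz with hz | hz | hz
        exacts [h.1 i hz, Ci.no_free h hz, Cj.no_free h hz]
      obtain ⟨m, hm⟩ := σ.not_free this
      exact mem_biUnion.2 ⟨m, mem_univ _, by simpa using hm⟩
    · have : ∑ m : Fin k, #({v m, σ.h (m, false), σ.h (m, true)} : Finset V) ≤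
          ∑ _m : Fin k, 3 := sum_le_sum fun m _ => card_le_three
      simpa [mul_comm] using this
  have d5 : v i ∉ A ∪ B := by
    simp only [A, B, mem_union, mem_filter, mem_univ, true_and, not_or]
    exact ⟨G.irrefl, fun e => hn e.symm⟩
  rw [card_insert_of_notMem d5] at d4
  have d6 : A ∩ B ⊆ A ∪ B := inter_subset_union
  have := hc.closed ((A ∪ B) \ (A ∩ B)) (by rw [card_sdiff_of_subset d6]; omega) (a := v i)
    (b := c) (fun h => d5 (mem_sdiff.1 h).1) (fun h => by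
      have := (mem_sdiff.1 h).1
      simp only [A, B, mem_union, mem_filter, mem_univ, true_and] at this
      exact this.elim (Ci.no_free hf) (Cj.no_free hf))
    (fun z => z = v i ∨ z = v j ∨ (G.Adj (v i) z ∧ G.Adj (v j) z)) (Or.inl rfl) ?_
  · rcases this with h | h | h
    exacts [hf.1 i h, hf.1 j h, Ci.no_free hf h.1]
  intro p q hp hpq hq
  have key : G.Adj (v i) q ∨ G.Adj (v j) q → G.Adj (v i) q ∧ G.Adj (v j) q := fun h => by
    simp only [A, B, mem_sdiff, mem_union, mem_inter, mem_filter, mem_univ, true_and] at hq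
    by_contra hh
    exact hq ⟨h, hh⟩
  rcases hp with rfl | rfl | hp
  · exact Or.inr (Or.inr (key (Or.inl hpq)))
  · exact Or.inr (Or.inr (key (Or.inr hpq)))
  by_cases e1 : q = v i
  · exact Or.inl e1
  by_cases e2 : q = v j
  · exact Or.inr (Or.inl e2)
  rcases hG p (v i) (v j) q hp.1.symm hp.2.symm hpq (hv.ne hij) (Ne.symm e1) (Ne.symm e2) with
    h | h | h
  exacts [(hn h).elim, Or.inr (Or.inr (key (Or.inl h))), Or.inr (Or.inr (key (Or.inr h)))]

end Sys

end Pool.Agent.Lib.MP_6859a2_co
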