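import Mathlib

/-!
Definitions for disjoint cycles through prescribed vertices in claw-free graphs.
-/

namespace Pool.Agent.Lib.MP_6859a2_co

/-- no induced `K_{1,3}`: among any three distinct neighbours of a vertex two are adjacent. -/
def ClawFree {V : Type} (G : SimpleGraph V) : Prop :=
  ∀ v a b c : V, G.Adj v a → G.Adj v b → G.Adj v c → a ≠ b → a ≠ c → b ≠ c →
    G.Adj a b ∨ G.Adj a c ∨ G.Adj b c

/-- more than `c` vertices, and deleting fewer than `c` vertices leaves a connected graph. -/
def IsConn {V : Type} [Fintype V] (G : SimpleGraph V) (c : ℕ) : Prop :=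
  c < Fintype.card V ∧ ∀ S : Finset V, S.card < c → (G.induce ((S : Set V)ᶜ)).Connected

/-- pairwise vertex-disjoint cycles `C i` through the vertices `v i`. -/
def Separated {V : Type} (G : SimpleGraph V) {k : ℕ} (v : Fin k → V) : Prop :=
  ∃ C : ∀ i, G.Walk (v i) (v i), (∀ i, (C i).IsCycle) ∧
    ∀ i j, i ≠ j → List.Disjoint (C i).support (C j).support

end Pool.Agent.Lib.MP_6859a2_co
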