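import Mathlib

/-!
Menger's theorem for digraphs, in the form where every source is linked (via Hall's theorem).
-/

namespace Pool.Agent.Lib.MP_6859a2_co

open Finset Relation

variable {V : Type} [Fintype V] [DecidableEq V]

/-- Either a successor function routing `X` to `Y`, or a small cut. -/
theorem route_or_cut (r : V → V → Prop) (X Y : Finset V) :
    (∃ f : V → V, (∀ a ∉ Y, ∀ b ∉ Y, f a = f b → a = b) ∧
      ∀ z ∉ Y, f z ∉ X ∧ (f z = z ∨ r z (f z))) ∨
    ∃ R Γ : Finset V, #Γ < #X ∧ (∀ x ∈ X, x ∈ R ∨ x ∈ Γ) ∧ (∀ y ∈ Y, y ∉ R) ∧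
      ∀ a ∈ R, ∀ b, r a b → b ∈ R ∨ b ∈ Γ := by
  classical
  by_cases hall : ∀ s : Finset {z // z ∉ Y},
      #s ≤ #(s.biUnion fun z => univ.filter fun w => w ∉ X ∧ (w = z.1 ∨ r z.1 w))
  · left
    obtain ⟨f, f1, f2⟩ := (all_card_le_biUnion_card_iff_exists_injective _).1 hall
    refine ⟨fun z => if h : z ∈ Y then z else f ⟨z, h⟩, fun a ha b hb e => ?_, fun z hz => ?_⟩
    · simp only [dif_neg ha, dif_neg hb] at e
      exact congrArg Subtype.val (f1 e)
    · simp only [dif_neg hz]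
      simpa using f2 ⟨z, hz⟩
  · right
    push Not at hall
    obtain ⟨s, hs⟩ := hall
    set N := s.biUnion fun z : {z // z ∉ Y} =>
      univ.filter fun w => w ∉ X ∧ (w = z.1 ∨ r z.1 w) with hNdef
    have mN : ∀ w, w ∈ N ↔ w ∉ X ∧ ∃ z ∈ s, (w = z.1 ∨ r z.1 w) := fun w => by
      simp only [N, mem_biUnion, mem_filter, mem_univ, true_and]
      exact ⟨fun ⟨a, h1, h2, h3⟩ => ⟨h2, a, h1, h3⟩, fun ⟨h2, a, h1, h3⟩ => ⟨a, h1, h2, h3⟩⟩
    set R := s.map (Function.Embedding.subtype _)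
    have mR : ∀ w, w ∈ R ↔ ∃ z ∈ s, z.1 = w := fun w => by simp only [R, mem_map]; rfl
    have a2 : R ⊆ N ∪ X := fun a ha => by
      obtain ⟨z, hz, rfl⟩ := (mR a).1 ha
      by_cases hx : z.1 ∈ X
      · exact mem_union_right _ hx
      · exact mem_union_left _ ((mN _).2 ⟨hx, z, hz, Or.inl rfl⟩)
    refine ⟨R, (N ∪ X) \ R, ?_, fun x hx => by simp [hx, em], fun y hy hh => ?_,
      fun a ha b hb => ?_⟩
    · have a3 := card_union_le N X
      have a4 : #R = #s := card_map _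
      have a5 := card_le_card a2
      rw [card_sdiff_of_subset a2]
      omega
    · obtain ⟨z, -, rfl⟩ := (mR y).1 hh
      exact z.2 hy
    · obtain ⟨z, hz, rfl⟩ := (mR a).1 ha
      have : b ∉ X → b ∈ N := fun hh => (mN b).2 ⟨hh, z, hz, Or.inr hb⟩
      simp only [mem_sdiff, mem_union]
      tauto

section orbit

variable {X Y : Finset V} {f : V → V}

/-- the orbit relation of a routing -/
def Nxt (Y : Finset V) (f : V → V) (p q : V) : Prop := p ∉ Y ∧ q = f p

omit [Fintype V] [DecidableEq V] in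
theorem orbit_disj (f1 : ∀ a ∉ Y, ∀ b ∉ Y, f a = f b → a = b) (f2 : ∀ z ∉ Y, f z ∉ X)
    {x x' z : V} (hx : x ∈ X) (hx' : x' ∈ X) (h : ReflTransGen (Nxt Y f) x z)
    (h' : ReflTransGen (Nxt Y f) x' z) : x = x' := by
  have key : ∀ {x x' : V}, x' ∈ X → ReflTransGen (Nxt Y f) x x' → x = x' := fun {x x'} hx' h => by
    rcases h.cases_tail with e | ⟨c, -, hc⟩
    · exact e.symm
    · exact (f2 c hc.1 (hc.2 ▸ hx')).elim
  have u : Relator.RightUnique (Function.swap (Nxt Y f)) := fun a b c h1 h2 =>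
    f1 b h1.1 c h2.1 (h1.2.symm.trans h2.2)
  rcases ReflTransGen.total_of_right_unique u (reflTransGen_swap.2 h) (reflTransGen_swap.2 h') with
    e | e
  · exact (key hx (reflTransGen_swap.1 e)).symm
  · exact key hx' (reflTransGen_swap.1 e)

theorem orbit_end (f1 : ∀ a ∉ Y, ∀ b ∉ Y, f a = f b → a = b) (f2 : ∀ z ∉ Y, f z ∉ X)
    {x : V} (hx : x ∈ X) : ∃ y ∈ Y, ReflTransGen (Nxt Y f) x y := by
  classical
  by_contra hn
  push Not at hn
  set P := univ.filter fun z => ReflTransGen (Nxt Y f) x z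
  have mP : ∀ z, z ∈ P ↔ ReflTransGen (Nxt Y f) x z := fun z => by simp [P]
  have nY : ∀ z ∈ P, z ∉ Y := fun z hz hy => hn z hy ((mP z).1 hz)
  have hxP : x ∈ P := (mP x).2 ReflTransGen.refl
  have : #P ≤ #(P.erase x) := card_le_card_of_injOn f (fun z hz => by
    simp only [coe_erase, Set.mem_sdiff, mem_coe, Set.mem_singleton_iff]
    exact ⟨(mP _).2 (((mP z).1 hz).tail ⟨nY z hz, rfl⟩), fun e => f2 z (nY z hz) (e ▸ hx)⟩)
    fun a ha b hb => f1 a (nY a ha) b (nY b hb)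
  have := card_erase_lt_of_mem hxP
  omega

omit [Fintype V] [DecidableEq V] in
theorem orbit_end_unique {x y y' : V} (hy : y ∈ Y) (hy' : y' ∈ Y)
    (h : ReflTransGen (Nxt Y f) x y) (h' : ReflTransGen (Nxt Y f) x y') : y = y' := by
  have key : ∀ {y y' : V}, y ∈ Y → ReflTransGen (Nxt Y f) y y' → y = y' := fun {y y'} hy h => by
    rcases h.cases_head with e | ⟨c, hc, -⟩
    · exact e
    · exact (hc.1 hy).elim
  have u : Relator.RightUnique (Nxt Y f) := fun a b c h1 h2 => h1.2.trans h2.2.symm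
  rcases ReflTransGen.total_of_right_unique u h h' with e | e
  · exact key hy e
  · exact (key hy' e).symm

end orbit

end Pool.Agent.Lib.MP_6859a2_co
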