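import Pool.Agent.Lib.MP_6859a2_co.Conv
import Pool.Agent.Lib.MP_6859a2_co.Menger

/-!
Bad pairs joined by disjoint paths through free vertices.
-/

namespace Pool.Agent.Lib.MP_6859a2_co

open Finset Function Relation

variable {V : Type} {G : SimpleGraph V} {k : ℕ} {v : Fin k → V}

/-- `x` and `y` are joined inside `T` -/
def Reach (G : SimpleGraph V) (T : V → Prop) (x y : V) : Prop :=
  ReflTransGen (fun p q => G.Adj p q ∧ T p ∧ T q) x y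

theorem Reach.symm {T : V → Prop} {x y : V} (h : Reach G T x y) : Reach G T y x := by
  induction h with
  | refl => exact ReflTransGen.refl
  | tail _ e ih => exact ReflTransGen.head ⟨e.1.symm, e.2.2, e.2.1⟩ ih

theorem Reach.walk {T : V → Prop} {x y : V} (h : Reach G T x y) (hx : T x) :
    ∃ p : G.Walk x y, ∀ z ∈ p.support, T z := by
  induction h with
  | refl => exact ⟨SimpleGraph.Walk.nil, by simpa using hx⟩
  | tail _ e ih =>
    obtain ⟨p, hp⟩ := ih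
    refine ⟨p.concat e.1, fun z hz => ?_⟩
    rw [SimpleGraph.Walk.support_concat] at hz
    simp only [List.concat_eq_append, List.mem_append, List.mem_singleton] at hz
    rcases hz with h | rfl
    exacts [hp z h, e.2.2]

namespace Sys

/-- the bad players in `Λ` are linked inside the disjoint free regions `R m` -/
def Linked (σ : Sys G v) (Λ : Finset (Fin k)) (R : Fin k → V → Prop) : Prop :=
  (∀ m ∈ Λ, ∀ z, R m z → σ.Free z) ∧ (∀ m ∈ Λ, ∀ m' ∈ Λ, ∀ z, R m z → R m' z → m = m') ∧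
    ∀ m ∈ Λ, ¬ σ.Good m ∧
      Reach G (fun z => R m z ∨ ∃ β, z = σ.h (m, β)) (σ.h (m, false)) (σ.h (m, true))

variable {σ : Sys G v} {i l m : Fin k} {a b x y u w c s : V} {Λ : Finset (Fin k)}
  {R : Fin k → V → Prop} {κ π : Fin k → V}

theorem Linked.reach (h : σ.Linked Λ R) (hm : m ∈ Λ) (hp : σ.Pr m x y) :
    Reach G (fun z => R m z ∨ z = x ∨ z = y) x y := by
  have h1 := (h.2.2 m hm).2
  obtain ⟨β, rfl, rfl⟩ := hp
  have e : (fun z => R m z ∨ ∃ β, z = σ.h (m, β)) =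
      fun z => R m z ∨ z = σ.h (m, β) ∨ z = σ.h (m, !β) := by
    funext z
    cases β <;> simp [or_comm]
  rw [e] at h1
  cases β
  exacts [h1, h1.symm]

theorem Linked.free (h : σ.Linked Λ R) (hm : m ∈ Λ) : ∃ c, σ.Free c := by
  rcases (h.reach hm (σ.pr m false)).cases_head with e | ⟨c, ⟨h1, -, h2 | rfl | rfl⟩, -⟩
  · exact ((σ.pr m false).ne' e).elim
  · exact ⟨c, h.1 m hm c h2⟩
  · exact (G.irrefl h1).elim
  · exact ((h.2.2 m hm).1 h1).elim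

variable [DecidableEq V]

theorem Linked.separated (h : σ.Linked Λ R) (hv : Injective v) (hall : ∀ m, σ.Good m ∨ m ∈ Λ) :
    Separated G v := by
  have h1 : ∀ m, ∃ p : G.Walk (σ.h (m, false)) (σ.h (m, true)),
      ∀ z ∈ p.support, (m ∈ Λ ∧ R m z) ∨ ∃ β, z = σ.h (m, β) := fun m => by
    rcases hall m with hm | hm
    · refine ⟨SimpleGraph.Walk.cons hm SimpleGraph.Walk.nil, fun z hz => Or.inr ?_⟩
      simp only [SimpleGraph.Walk.support_cons, SimpleGraph.Walk.support_nil, List.mem_cons,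
        List.not_mem_nil, or_false] at hz
      rcases hz with rfl | rfl
      exacts [⟨_, rfl⟩, ⟨_, rfl⟩]
    · obtain ⟨p, hp⟩ := (h.2.2 m hm).2.walk (Or.inr ⟨_, rfl⟩)
      exact ⟨p, fun z hz => (hp z hz).imp (fun e => ⟨hm, e⟩) id⟩
  choose p hp using h1
  refine separated_of_walks v hv _ _ p (fun m => σ.adj (m, false)) (fun m => σ.adj (m, true))
    (fun m => (σ.pr m false).ne') (fun m j hj => ?_) fun m j hmj z h1 h2 => ?_
  · rcases hp m _ hj with ⟨h1, h2⟩ | ⟨β, e⟩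
    exacts [(h.1 m h1 _ h2).1 j rfl, σ.nv _ j e.symm]
  · rcases hp m z h1 with ⟨h1, h3⟩ | ⟨β, e⟩ <;> rcases hp j z h2 with ⟨h2, h4⟩ | ⟨γ, e'⟩
    exacts [hmj (h.2.1 m h1 j h2 z h3 h4), (h.1 m h1 z h3).2 _ e', (h.1 j h2 z h4).2 _ e,
      hmj (congrArg Prod.fst (σ.inj (e.symm.trans e')))]

variable [Fintype V]

theorem Linked.orient (h : σ.Linked Λ R) (hG : ClawFree G) (hv : Injective v) (ho : σ.Opt)
    (hc : IsConn G (2 * k)) (hi : ¬ σ.Good i) (hiΛ : i ∉ Λ) :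
    ∃ a b κ π, σ.Ctx i a b ∧ σ.Ker i Λ a b κ π := by
  have adj : ∀ {j j'}, j ∈ Λ → ¬ σ.Good j' → j' ≠ j → G.Adj (v j') (v j) := fun hj h1 h2 => by
    obtain ⟨c, hf⟩ := h.free hj
    exact bad_adj hG hv ho hc h1 (h.2.2 _ hj).1 h2 hf
  have ne : ∀ {j}, j ∈ Λ → i ≠ j := fun hj e => hiΛ (e ▸ hj)
  have fin : ∀ {a b}, σ.Ctx i a b →
      (∀ j ∈ Λ, ¬ ∃ x y, σ.Pr j x y ∧ RV G (v i) a b (v j) x y) →
      ∃ κ π, σ.Ker i Λ a b κ π := by
    intro a b C hn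
    have : ∀ j, ∃ x y, j ∈ Λ → ¬ σ.Good j ∧ σ.Pr j x y ∧ RV G (v i) b a (v j) x y := fun j => by
      by_cases hj : j ∈ Λ
      · have hb := (h.2.2 j hj).1
        have hp := σ.pr j false
        rcases clsB hG (C.hp.ex2 ho hi (ne hj) hp) (C.hp.nd2 hv (ne hj) hp) C.hp.adj1 C.hp.adj2
          hp.adj1 hp.adj2 C.nab (adj hj hi (ne hj)) (hp.bad hb) with e | e | e | e
        exacts [(hn j hj ⟨_, _, hp, e⟩).elim, (hn j hj ⟨_, _, hp.symm, e⟩).elim,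
          ⟨_, _, fun _ => ⟨hb, hp, e⟩⟩, ⟨_, _, fun _ => ⟨hb, hp.symm, e⟩⟩]
      · exact ⟨v j, v j, fun e => (hj e).elim⟩
    choose κ π hκ using this
    exact ⟨κ, π, hκ⟩
  have C : σ.Ctx i _ _ := ⟨hG, hv, ho, hi, σ.pr i false⟩
  by_cases hn : ∀ j ∈ Λ, ¬ ∃ x y, σ.Pr j x y ∧
      RV G (v i) (σ.h (i, false)) (σ.h (i, !false)) (v j) x y
  · obtain ⟨κ, π, hκ⟩ := fin C hn
    exact ⟨_, _, κ, π, C, hκ⟩
  · push Not at hn
    obtain ⟨j, hj, x, y, hp, hr⟩ := hn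
    obtain ⟨κ, π, hκ⟩ := fin C.symm fun j' hj' ⟨x', y', hp', hr'⟩ => by
      have r1 : σ.Rep i _ _ True j (v j) := ⟨x, y, hp, Or.inl ⟨rfl, hr⟩⟩
      have r2 : σ.Rep i _ _ (¬ True) j' (v j') := ⟨x', y', hp', Or.inl ⟨rfl, hr'⟩⟩
      by_cases e : j = j'
      · subst e
        exact C.rep_same (ne hj) r1 r2
      · exact C.rep_rep (ne hj) (ne hj') r1 r2 (adj hj' (h.2.2 j hj).1 e)
    exact ⟨_, _, κ, π, C.symm, hκ⟩

/-- the auxiliary digraph in which the two sides are contracted to `a` and `b` -/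
def Aux (σ : Sys G v) (i : Fin k) (Λ : Finset (Fin k)) (a b : V) (κ π : Fin k → V)
    (p q : V) : Prop :=
  ((σ.Free p ∨ ∃ j ∈ Λ, p = π j) ∧ (σ.Free q ∨ ∃ j ∈ Λ, q = κ j) ∧ G.Adj p q) ∨
  (p = a ∧ σ.Free q ∧ ∃ s, σ.Live i Λ a b s ∧ G.Adj s q) ∨
  (σ.Free p ∧ q = b ∧ ∃ w, σ.Live i Λ b a w ∧ G.Adj w p)

omit [DecidableEq V] [Fintype V] in
theorem Pr.nf (h : σ.Pr m x y) : ¬ σ.Free x := by
  obtain ⟨β, rfl, -⟩ := h
  exact fun e => e.2 _ rfl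

theorem Ctx.no_cut (C : σ.Ctx i a b) (hc : IsConn G (2 * k)) (hi : i ∉ Λ) (hL : σ.Linked Λ R)
    (hK : σ.Ker i Λ a b κ π) (Q Γ : Finset V) (h0 : #Γ ≤ #Λ)
    (h1 : ∀ x ∈ insert a (Λ.image π), x ∈ Q ∨ x ∈ Γ) (h2 : ∀ y ∈ insert b (Λ.image κ), y ∉ Q)
    (h3 : ∀ p ∈ Q, ∀ q, σ.Aux i Λ a b κ π p q → q ∈ Q ∨ q ∈ Γ) : False := by
  have ne : ∀ {j}, j ∈ Λ → i ≠ j := fun hj e => hi (e ▸ hj)
  have hπ : ∀ j ∈ Λ, π j ∈ Q ∨ π j ∈ Γ := fun j hj =>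
    h1 _ (mem_insert_of_mem (mem_image_of_mem _ hj))
  have hκ : ∀ j ∈ Λ, κ j ∉ Q := fun j hj => h2 _ (mem_insert_of_mem (mem_image_of_mem _ hj))
  have hb : b ∉ Q := h2 _ (mem_insert_self _ _)
  have c1 : ∀ j, ∃ z, j ∈ Λ → z ∈ Γ ∧ (R j z ∨ z = π j ∨ z = κ j) := fun j => by
    by_cases hj : j ∈ Λ
    swap
    · exact ⟨a, fun e => (hj e).elim⟩
    by_contra hn
    push Not at hn
    have hn' : ∀ z, (R j z ∨ z = π j ∨ z = κ j) → z ∉ Γ := fun z hz hΓ => by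
      have := (hn z).2 hΓ
      tauto
    have p0 : π j ∈ Q := (hπ j hj).resolve_right (hn' _ (by simp))
    have : ∀ z, Reach G (fun z => R j z ∨ z = π j ∨ z = κ j) (π j) z → z ∈ Q := fun z hz => by
      induction hz with
      | refl => exact p0
      | @tail p q _ e ih =>
        obtain ⟨e1, e2, e3⟩ := e
        have k1 : σ.Free p ∨ ∃ j ∈ Λ, p = π j := by
          rcases e2 with e2 | e2 | e2
          exacts [Or.inl (hL.1 j hj p e2), Or.inr ⟨j, hj, e2⟩, (hκ j hj (e2 ▸ ih)).elim]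
        rcases e3 with e4 | e4 | e4
        · exact (h3 p ih q (Or.inl ⟨k1, Or.inl (hL.1 j hj q e4), e1⟩)).resolve_right
            (hn' q (Or.inl e4))
        · exact e4 ▸ p0
        · exact (h3 p ih q (Or.inl ⟨k1, Or.inr ⟨j, hj, e4⟩, e1⟩)).resolve_right
            (hn' q (Or.inr (Or.inr e4)))
    exact hκ j hj (this _ (hL.reach hj (hK j hj).2.1.symm))
  choose ζ hζ using c1
  have c2 : Set.InjOn ζ Λ := fun j hj j' hj' e => by
    by_contra hn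
    have p := (hK j hj).2.1
    have p' := (hK j' hj').2.1
    rcases (hζ j hj).2 with e1 | e1 | e1 <;> rcases (hζ j' hj').2 with e2 | e2 | e2
    exacts [hn (hL.2.1 j hj j' hj' _ e1 (e ▸ e2)),
      p'.symm.nf (e2 ▸ e ▸ hL.1 j hj _ e1), p'.nf (e2 ▸ e ▸ hL.1 j hj _ e1),
      p.symm.nf (e1 ▸ e ▸ hL.1 j' hj' _ e2), p.symm.ne p'.symm hn (e1 ▸ e2 ▸ e),
      p.symm.ne p' hn (e1 ▸ e2 ▸ e), p.nf (e1 ▸ e ▸ hL.1 j' hj' _ e2),
      p.ne p'.symm hn (e1 ▸ e2 ▸ e), p.ne p' hn (e1 ▸ e2 ▸ e)]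
  have c3 : Λ.image ζ = Γ := eq_of_subset_of_card_le (fun z hz => by
    obtain ⟨j, hj, rfl⟩ := mem_image.1 hz
    exact (hζ j hj).1) (by rw [card_image_of_injOn c2]; exact h0)
  have c4 : ∀ {a b}, σ.Pr i a b → a ∉ Γ := fun {a b} hp ha => by
    obtain ⟨j, hj, e⟩ := mem_image.1 (c3 ▸ ha)
    have p := (hK j hj).2.1
    rcases (hζ j hj).2 with e1 | e1 | e1
    exacts [hp.nf (e ▸ hL.1 j hj _ e1), hp.ne p.symm (ne hj) (e ▸ e1), hp.ne p (ne hj) (e ▸ e1)]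
  have ha : a ∈ Q := (h1 a (mem_insert_self _ _)).resolve_right (c4 C.hp)
  obtain ⟨e, T, t1, t2, t3, t4⟩ := C.count hc hi fun j hj => by
    obtain ⟨-, ⟨β, -, e⟩, r⟩ := hK j hj
    exact ⟨!β, e ▸ r.2.2.1⟩
  have hcard := card_union_le T Γ
  have := hc.closed (T ∪ Γ) (by omega) (a := a) (b := b) (by simp [t2, c4 C.hp])
    (by simp [t3, c4 C.hp.symm])
    (fun z => σ.Side i Λ a b e z ∨ (z ∈ Q ∧ (σ.Free z ∨ ∃ j ∈ Λ, z = π j))) (Or.inl (Or.inl rfl))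
    ?_
  · rcases this with (h | ⟨m, him, -, u, t, hp, ⟨h, -⟩ | ⟨h, -⟩⟩) | h
    exacts [C.hp.ne' h.symm, C.hp.symm.ne_v m h, C.hp.symm.ne hp him h, hb h.1]
  intro p q hp hpq hq
  rw [mem_union, not_or] at hq
  rcases t4 q hq.1 with h | h | h | ⟨j, hj, β, h⟩
  · refine Or.inr ⟨Or.resolve_right ?_ hq.2, Or.inl h⟩
    rcases hp with hp | hp
    · exact h3 a ha q (Or.inr (Or.inl ⟨rfl, h, C.live hp h hpq⟩))
    · exact h3 p hp.1 q (Or.inl ⟨hp.2, Or.inl h, hpq⟩)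
  · exact Or.inl h
  · exfalso
    rcases hp with hp | ⟨hp, hf | ⟨j, hj, rfl⟩⟩
    · exact C.anti hp h hpq
    · exact (h3 p hp b (Or.inr (Or.inr ⟨hf, rfl, C.symm.live h hf hpq.symm⟩))).elim hb
        (c4 C.hp.symm)
    · exact C.pet (ne hj) hj (hK j hj).1 (hK j hj).2.1 (hK j hj).2.2 h hpq
  · have : q = π j ∨ q = κ j := by
      rcases (hK j hj).2.1.cases (σ.pr j β) with ⟨e, -⟩ | ⟨e, -⟩
      exacts [Or.inr (h.trans e), Or.inl (h.trans e)]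
    rcases this with rfl | rfl
    · exact Or.inr ⟨(hπ j hj).resolve_right hq.2, Or.inr ⟨j, hj, rfl⟩⟩
    · exfalso
      rcases hp with hp | hp
      · exact C.ker (ne hj) hj (hK j hj).1 (hK j hj).2.1 (hK j hj).2.2 hp hpq
      · exact (h3 p hp.1 _ (Or.inl ⟨hp.2, Or.inr ⟨j, hj, rfl⟩, hpq⟩)).elim (hκ j hj) hq.2

end Sys

end Pool.Agent.Lib.MP_6859a2_co
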