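import Pool.Agent.Lib.MP_6859a2_co.Defs

/-!
Local exchange lemmas (machine-generated case analysis) for the order `3 k` theorem.
Notation: `i` is a player whose pair `a, b` is not an edge, `(l; x, y)` and `(m; u, w)` are
other players with their pairs, `c` is a free vertex.
-/

namespace Pool.Agent.Lib.MP_6859a2_co

set_option linter.unusedVariables false
set_option linter.style.longLine false

variable {V : Type} {G : SimpleGraph V} {Fr : V → Prop}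

theorem claw (hG : ClawFree G) {c p q r : V} (h1 : p ≠ q) (h2 : p ≠ r) (h3 : q ≠ r)
    (a1 : G.Adj c p) (a2 : G.Adj c q) (a3 : G.Adj c r) (n1 : ¬ G.Adj p q) (n2 : ¬ G.Adj p r)
    (n3 : ¬ G.Adj q r) : False := by
  rcases hG c p q r a1 a2 a3 h1 h2 h3 with h | h | h
  exacts [n1 h, n2 h, n3 h]

open Classical in
/-- indicator of a proposition -/
noncomputable def ind (p : Prop) : ℕ := if p then 1 else 0

theorem ind_t {p : Prop} (h : p) : ind p = 1 := if_pos h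
theorem ind_f {p : Prop} (h : ¬ p) : ind p = 0 := if_neg h
theorem ind_le (p : Prop) : ind p ≤ 1 := by unfold ind; split <;> omega

/-- the player `v` itself represents its block on the side of `a` -/
def RV (G : SimpleGraph V) (i a b v u t : V) : Prop :=
  G.Adj i v ∧ G.Adj i u ∧ ¬ G.Adj i t ∧ ¬ G.Adj b v ∧ ¬ G.Adj b u ∧ ¬ G.Adj a t

/-- `u` is a live representative on the side of `a` -/
def RL (G : SimpleGraph V) (i a b v u t : V) : Prop :=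
  (G.Adj i v ∧ G.Adj i u ∧ ¬ G.Adj b u ∧ G.Adj i t ∧ ¬ G.Adj b t) ∨
  (G.Adj i v ∧ G.Adj i u ∧ ¬ G.Adj b u ∧ ¬ G.Adj i t ∧ G.Adj a v ∧ G.Adj a t)

/-- `u` is a dead representative on the side of `a` -/
def RD (G : SimpleGraph V) (i a b v u t : V) : Prop :=
  (G.Adj i v ∧ ¬ G.Adj a v ∧ G.Adj i u ∧ ¬ G.Adj i t ∧ ¬ G.Adj b u ∧ ¬ G.Adj a t) ∨
  (G.Adj i v ∧ ¬ G.Adj a v ∧ G.Adj i t ∧ ¬ G.Adj i u ∧ G.Adj a t ∧ G.Adj a u)

/-- `u` lies on the side of `a` and its player `v` is not adjacent to `i` -/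
def RE (G : SimpleGraph V) (i a b v u t : V) : Prop :=
  ¬ G.Adj i v ∧ G.Adj i u ∧ G.Adj i t ∧ ¬ G.Adj b u

/-- no exchange among 1 player(s) increases the number of adjacent pairs -/
def Ex1 (G : SimpleGraph V) (Fr : V → Prop) (i a b : V) : Prop :=
  ∀ p1 q1 : V,
    (p1 = a ∨ p1 = b ∨ Fr p1) →
    (q1 = a ∨ q1 = b ∨ Fr q1) →
    p1 ≠ q1 →
    G.Adj i p1 → G.Adj i q1 →
    ind (G.Adj p1 q1) ≤ 0

theorem Ex1.x1 {i a b p1 q1 : V} (hx : Ex1 G Fr i a b)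
    (m0 : p1 = a ∨ p1 = b ∨ Fr p1)
    (m1 : q1 = a ∨ q1 = b ∨ Fr q1)
    (d0 : p1 ≠ q1)
    (a0 : G.Adj i p1) (a1 : G.Adj i q1)
    (g0 : G.Adj p1 q1) : False := by
  have h := hx _ _ m0 m1 d0 a0 a1
  have := ind_t g0
  omega

/-- no exchange among 2 player(s) increases the number of adjacent pairs -/
def Ex2 (G : SimpleGraph V) (Fr : V → Prop) (i m a b u w : V) : Prop :=
  ∀ p1 q1 p2 q2 : V,
    (p1 = a ∨ p1 = b ∨ p1 = u ∨ p1 = w ∨ Fr p1) →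
    (q1 = a ∨ q1 = b ∨ q1 = u ∨ q1 = w ∨ Fr q1) →
    (p2 = a ∨ p2 = b ∨ p2 = u ∨ p2 = w ∨ Fr p2) →
    (q2 = a ∨ q2 = b ∨ q2 = u ∨ q2 = w ∨ Fr q2) →
    p1 ≠ q1 → p1 ≠ p2 → p1 ≠ q2 → q1 ≠ p2 → q1 ≠ q2 → p2 ≠ q2 →
    G.Adj i p1 → G.Adj i q1 → G.Adj m p2 → G.Adj m q2 →
    ind (G.Adj p1 q1) + ind (G.Adj p2 q2) ≤ ind (G.Adj u w)

theorem Ex2.x1_2 {i m a b u w p1 q1 p2 q2 : V} (hx : Ex2 G Fr i m a b u w)
    (m0 : p1 = a ∨ p1 = b ∨ p1 = u ∨ p1 = w ∨ Fr p1)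
    (m1 : q1 = a ∨ q1 = b ∨ q1 = u ∨ q1 = w ∨ Fr q1)
    (m2 : p2 = a ∨ p2 = b ∨ p2 = u ∨ p2 = w ∨ Fr p2)
    (m3 : q2 = a ∨ q2 = b ∨ q2 = u ∨ q2 = w ∨ Fr q2)
    (d0 : p1 ≠ q1) (d1 : p1 ≠ p2) (d2 : p1 ≠ q2) (d3 : q1 ≠ p2) (d4 : q1 ≠ q2) (d5 : p2 ≠ q2)
    (a0 : G.Adj i p1) (a1 : G.Adj i q1) (a2 : G.Adj m p2) (a3 : G.Adj m q2)
    (b0 : ¬ G.Adj u w) (g0 : G.Adj p1 q1) : False := by
  have h := hx _ _ _ _ m0 m1 m2 m3 d0 d1 d2 d3 d4 d5 a0 a1 a2 a3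
  have := ind_le (G.Adj u w)
  have := ind_f b0
  have := ind_t g0
  omega

theorem Ex2.x2_2 {i m a b u w p1 q1 p2 q2 : V} (hx : Ex2 G Fr i m a b u w)
    (m0 : p1 = a ∨ p1 = b ∨ p1 = u ∨ p1 = w ∨ Fr p1)
    (m1 : q1 = a ∨ q1 = b ∨ q1 = u ∨ q1 = w ∨ Fr q1)
    (m2 : p2 = a ∨ p2 = b ∨ p2 = u ∨ p2 = w ∨ Fr p2)
    (m3 : q2 = a ∨ q2 = b ∨ q2 = u ∨ q2 = w ∨ Fr q2)
    (d0 : p1 ≠ q1) (d1 : p1 ≠ p2) (d2 : p1 ≠ q2) (d3 : q1 ≠ p2) (d4 : q1 ≠ q2) (d5 : p2 ≠ q2)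
    (a0 : G.Adj i p1) (a1 : G.Adj i q1) (a2 : G.Adj m p2) (a3 : G.Adj m q2)
    (b0 : ¬ G.Adj u w) (g1 : G.Adj p2 q2) : False := by
  have h := hx _ _ _ _ m0 m1 m2 m3 d0 d1 d2 d3 d4 d5 a0 a1 a2 a3
  have := ind_le (G.Adj u w)
  have := ind_f b0
  have := ind_t g1
  omega

theorem Ex2.x12 {i m a b u w p1 q1 p2 q2 : V} (hx : Ex2 G Fr i m a b u w)
    (m0 : p1 = a ∨ p1 = b ∨ p1 = u ∨ p1 = w ∨ Fr p1)
    (m1 : q1 = a ∨ q1 = b ∨ q1 = u ∨ q1 = w ∨ Fr q1)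
    (m2 : p2 = a ∨ p2 = b ∨ p2 = u ∨ p2 = w ∨ Fr p2)
    (m3 : q2 = a ∨ q2 = b ∨ q2 = u ∨ q2 = w ∨ Fr q2)
    (d0 : p1 ≠ q1) (d1 : p1 ≠ p2) (d2 : p1 ≠ q2) (d3 : q1 ≠ p2) (d4 : q1 ≠ q2) (d5 : p2 ≠ q2)
    (a0 : G.Adj i p1) (a1 : G.Adj i q1) (a2 : G.Adj m p2) (a3 : G.Adj m q2)
    (g0 : G.Adj p1 q1) (g1 : G.Adj p2 q2) : False := by
  have h := hx _ _ _ _ m0 m1 m2 m3 d0 d1 d2 d3 d4 d5 a0 a1 a2 a3
  have := ind_le (G.Adj u w)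
  have := ind_t g0
  have := ind_t g1
  omega

/-- no exchange among 3 player(s) increases the number of adjacent pairs -/
def Ex3 (G : SimpleGraph V) (Fr : V → Prop) (i l m a b x y u w : V) : Prop :=
  ∀ p1 q1 p2 q2 p3 q3 : V,
    (p1 = a ∨ p1 = b ∨ p1 = x ∨ p1 = y ∨ p1 = u ∨ p1 = w ∨ Fr p1) →
    (q1 = a ∨ q1 = b ∨ q1 = x ∨ q1 = y ∨ q1 = u ∨ q1 = w ∨ Fr q1) →
    (p2 = a ∨ p2 = b ∨ p2 = x ∨ p2 = y ∨ p2 = u ∨ p2 = w ∨ Fr p2) →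
    (q2 = a ∨ q2 = b ∨ q2 = x ∨ q2 = y ∨ q2 = u ∨ q2 = w ∨ Fr q2) →
    (p3 = a ∨ p3 = b ∨ p3 = x ∨ p3 = y ∨ p3 = u ∨ p3 = w ∨ Fr p3) →
    (q3 = a ∨ q3 = b ∨ q3 = x ∨ q3 = y ∨ q3 = u ∨ q3 = w ∨ Fr q3) →
    p1 ≠ q1 → p1 ≠ p2 → p1 ≠ q2 → p1 ≠ p3 → p1 ≠ q3 → q1 ≠ p2 → q1 ≠ q2 → q1 ≠ p3 → q1 ≠ q3 → p2 ≠ q2 → p2 ≠ p3 → p2 ≠ q3 → q2 ≠ p3 → q2 ≠ q3 → p3 ≠ q3 →
    G.Adj i p1 → G.Adj i q1 → G.Adj l p2 → G.Adj l q2 → G.Adj m p3 → G.Adj m q3 →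
    ind (G.Adj p1 q1) + ind (G.Adj p2 q2) + ind (G.Adj p3 q3) ≤ ind (G.Adj x y) + ind (G.Adj u w)

theorem Ex3.x1_23 {i l m a b x y u w p1 q1 p2 q2 p3 q3 : V} (hx : Ex3 G Fr i l m a b x y u w)
    (m0 : p1 = a ∨ p1 = b ∨ p1 = x ∨ p1 = y ∨ p1 = u ∨ p1 = w ∨ Fr p1)
    (m1 : q1 = a ∨ q1 = b ∨ q1 = x ∨ q1 = y ∨ q1 = u ∨ q1 = w ∨ Fr q1)
    (m2 : p2 = a ∨ p2 = b ∨ p2 = x ∨ p2 = y ∨ p2 = u ∨ p2 = w ∨ Fr p2)
    (m3 : q2 = a ∨ q2 = b ∨ q2 = x ∨ q2 = y ∨ q2 = u ∨ q2 = w ∨ Fr q2)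
    (m4 : p3 = a ∨ p3 = b ∨ p3 = x ∨ p3 = y ∨ p3 = u ∨ p3 = w ∨ Fr p3)
    (m5 : q3 = a ∨ q3 = b ∨ q3 = x ∨ q3 = y ∨ q3 = u ∨ q3 = w ∨ Fr q3)
    (d0 : p1 ≠ q1) (d1 : p1 ≠ p2) (d2 : p1 ≠ q2) (d3 : p1 ≠ p3) (d4 : p1 ≠ q3) (d5 : q1 ≠ p2) (d6 : q1 ≠ q2) (d7 : q1 ≠ p3) (d8 : q1 ≠ q3) (d9 : p2 ≠ q2) (d10 : p2 ≠ p3) (d11 : p2 ≠ q3) (d12 : q2 ≠ p3) (d13 : q2 ≠ q3) (d14 : p3 ≠ q3)
    (a0 : G.Adj i p1) (a1 : G.Adj i q1) (a2 : G.Adj l p2) (a3 : G.Adj l q2) (a4 : G.Adj m p3) (a5 : G.Adj m q3)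
    (b0 : ¬ G.Adj x y) (b1 : ¬ G.Adj u w) (g0 : G.Adj p1 q1) : False := by
  have h := hx _ _ _ _ _ _ m0 m1 m2 m3 m4 m5 d0 d1 d2 d3 d4 d5 d6 d7 d8 d9 d10 d11 d12 d13 d14 a0 a1 a2 a3 a4 a5
  have := ind_le (G.Adj x y)
  have := ind_le (G.Adj u w)
  have := ind_f b0
  have := ind_f b1
  have := ind_t g0
  omega

theorem Ex3.x2_23 {i l m a b x y u w p1 q1 p2 q2 p3 q3 : V} (hx : Ex3 G Fr i l m a b x y u w)
    (m0 : p1 = a ∨ p1 = b ∨ p1 = x ∨ p1 = y ∨ p1 = u ∨ p1 = w ∨ Fr p1)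
    (m1 : q1 = a ∨ q1 = b ∨ q1 = x ∨ q1 = y ∨ q1 = u ∨ q1 = w ∨ Fr q1)
    (m2 : p2 = a ∨ p2 = b ∨ p2 = x ∨ p2 = y ∨ p2 = u ∨ p2 = w ∨ Fr p2)
    (m3 : q2 = a ∨ q2 = b ∨ q2 = x ∨ q2 = y ∨ q2 = u ∨ q2 = w ∨ Fr q2)
    (m4 : p3 = a ∨ p3 = b ∨ p3 = x ∨ p3 = y ∨ p3 = u ∨ p3 = w ∨ Fr p3)
    (m5 : q3 = a ∨ q3 = b ∨ q3 = x ∨ q3 = y ∨ q3 = u ∨ q3 = w ∨ Fr q3)
    (d0 : p1 ≠ q1) (d1 : p1 ≠ p2) (d2 : p1 ≠ q2) (d3 : p1 ≠ p3) (d4 : p1 ≠ q3) (d5 : q1 ≠ p2) (d6 : q1 ≠ q2) (d7 : q1 ≠ p3) (d8 : q1 ≠ q3) (d9 : p2 ≠ q2) (d10 : p2 ≠ p3) (d11 : p2 ≠ q3) (d12 : q2 ≠ p3) (d13 : q2 ≠ q3) (d14 : p3 ≠ q3)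
    (a0 : G.Adj i p1) (a1 : G.Adj i q1) (a2 : G.Adj l p2) (a3 : G.Adj l q2) (a4 : G.Adj m p3) (a5 : G.Adj m q3)
    (b0 : ¬ G.Adj x y) (b1 : ¬ G.Adj u w) (g1 : G.Adj p2 q2) : False := by
  have h := hx _ _ _ _ _ _ m0 m1 m2 m3 m4 m5 d0 d1 d2 d3 d4 d5 d6 d7 d8 d9 d10 d11 d12 d13 d14 a0 a1 a2 a3 a4 a5
  have := ind_le (G.Adj x y)
  have := ind_le (G.Adj u w)
  have := ind_f b0
  have := ind_f b1
  have := ind_t g1
  omega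

theorem Ex3.x3_23 {i l m a b x y u w p1 q1 p2 q2 p3 q3 : V} (hx : Ex3 G Fr i l m a b x y u w)
    (m0 : p1 = a ∨ p1 = b ∨ p1 = x ∨ p1 = y ∨ p1 = u ∨ p1 = w ∨ Fr p1)
    (m1 : q1 = a ∨ q1 = b ∨ q1 = x ∨ q1 = y ∨ q1 = u ∨ q1 = w ∨ Fr q1)
    (m2 : p2 = a ∨ p2 = b ∨ p2 = x ∨ p2 = y ∨ p2 = u ∨ p2 = w ∨ Fr p2)
    (m3 : q2 = a ∨ q2 = b ∨ q2 = x ∨ q2 = y ∨ q2 = u ∨ q2 = w ∨ Fr q2)
    (m4 : p3 = a ∨ p3 = b ∨ p3 = x ∨ p3 = y ∨ p3 = u ∨ p3 = w ∨ Fr p3)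
    (m5 : q3 = a ∨ q3 = b ∨ q3 = x ∨ q3 = y ∨ q3 = u ∨ q3 = w ∨ Fr q3)
    (d0 : p1 ≠ q1) (d1 : p1 ≠ p2) (d2 : p1 ≠ q2) (d3 : p1 ≠ p3) (d4 : p1 ≠ q3) (d5 : q1 ≠ p2) (d6 : q1 ≠ q2) (d7 : q1 ≠ p3) (d8 : q1 ≠ q3) (d9 : p2 ≠ q2) (d10 : p2 ≠ p3) (d11 : p2 ≠ q3) (d12 : q2 ≠ p3) (d13 : q2 ≠ q3) (d14 : p3 ≠ q3)
    (a0 : G.Adj i p1) (a1 : G.Adj i q1) (a2 : G.Adj l p2) (a3 : G.Adj l q2) (a4 : G.Adj m p3) (a5 : G.Adj m q3)
    (b0 : ¬ G.Adj x y) (b1 : ¬ G.Adj u w) (g2 : G.Adj p3 q3) : False := by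
  have h := hx _ _ _ _ _ _ m0 m1 m2 m3 m4 m5 d0 d1 d2 d3 d4 d5 d6 d7 d8 d9 d10 d11 d12 d13 d14 a0 a1 a2 a3 a4 a5
  have := ind_le (G.Adj x y)
  have := ind_le (G.Adj u w)
  have := ind_f b0
  have := ind_f b1
  have := ind_t g2
  omega

theorem Ex3.x12_2 {i l m a b x y u w p1 q1 p2 q2 p3 q3 : V} (hx : Ex3 G Fr i l m a b x y u w)
    (m0 : p1 = a ∨ p1 = b ∨ p1 = x ∨ p1 = y ∨ p1 = u ∨ p1 = w ∨ Fr p1)
    (m1 : q1 = a ∨ q1 = b ∨ q1 = x ∨ q1 = y ∨ q1 = u ∨ q1 = w ∨ Fr q1)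
    (m2 : p2 = a ∨ p2 = b ∨ p2 = x ∨ p2 = y ∨ p2 = u ∨ p2 = w ∨ Fr p2)
    (m3 : q2 = a ∨ q2 = b ∨ q2 = x ∨ q2 = y ∨ q2 = u ∨ q2 = w ∨ Fr q2)
    (m4 : p3 = a ∨ p3 = b ∨ p3 = x ∨ p3 = y ∨ p3 = u ∨ p3 = w ∨ Fr p3)
    (m5 : q3 = a ∨ q3 = b ∨ q3 = x ∨ q3 = y ∨ q3 = u ∨ q3 = w ∨ Fr q3)
    (d0 : p1 ≠ q1) (d1 : p1 ≠ p2) (d2 : p1 ≠ q2) (d3 : p1 ≠ p3) (d4 : p1 ≠ q3) (d5 : q1 ≠ p2) (d6 : q1 ≠ q2) (d7 : q1 ≠ p3) (d8 : q1 ≠ q3) (d9 : p2 ≠ q2) (d10 : p2 ≠ p3) (d11 : p2 ≠ q3) (d12 : q2 ≠ p3) (d13 : q2 ≠ q3) (d14 : p3 ≠ q3)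
    (a0 : G.Adj i p1) (a1 : G.Adj i q1) (a2 : G.Adj l p2) (a3 : G.Adj l q2) (a4 : G.Adj m p3) (a5 : G.Adj m q3)
    (b0 : ¬ G.Adj x y) (g0 : G.Adj p1 q1) (g1 : G.Adj p2 q2) : False := by
  have h := hx _ _ _ _ _ _ m0 m1 m2 m3 m4 m5 d0 d1 d2 d3 d4 d5 d6 d7 d8 d9 d10 d11 d12 d13 d14 a0 a1 a2 a3 a4 a5
  have := ind_le (G.Adj x y)
  have := ind_le (G.Adj u w)
  have := ind_f b0
  have := ind_t g0
  have := ind_t g1
  omega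

theorem Ex3.x12_3 {i l m a b x y u w p1 q1 p2 q2 p3 q3 : V} (hx : Ex3 G Fr i l m a b x y u w)
    (m0 : p1 = a ∨ p1 = b ∨ p1 = x ∨ p1 = y ∨ p1 = u ∨ p1 = w ∨ Fr p1)
    (m1 : q1 = a ∨ q1 = b ∨ q1 = x ∨ q1 = y ∨ q1 = u ∨ q1 = w ∨ Fr q1)
    (m2 : p2 = a ∨ p2 = b ∨ p2 = x ∨ p2 = y ∨ p2 = u ∨ p2 = w ∨ Fr p2)
    (m3 : q2 = a ∨ q2 = b ∨ q2 = x ∨ q2 = y ∨ q2 = u ∨ q2 = w ∨ Fr q2)
    (m4 : p3 = a ∨ p3 = b ∨ p3 = x ∨ p3 = y ∨ p3 = u ∨ p3 = w ∨ Fr p3)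
    (m5 : q3 = a ∨ q3 = b ∨ q3 = x ∨ q3 = y ∨ q3 = u ∨ q3 = w ∨ Fr q3)
    (d0 : p1 ≠ q1) (d1 : p1 ≠ p2) (d2 : p1 ≠ q2) (d3 : p1 ≠ p3) (d4 : p1 ≠ q3) (d5 : q1 ≠ p2) (d6 : q1 ≠ q2) (d7 : q1 ≠ p3) (d8 : q1 ≠ q3) (d9 : p2 ≠ q2) (d10 : p2 ≠ p3) (d11 : p2 ≠ q3) (d12 : q2 ≠ p3) (d13 : q2 ≠ q3) (d14 : p3 ≠ q3)
    (a0 : G.Adj i p1) (a1 : G.Adj i q1) (a2 : G.Adj l p2) (a3 : G.Adj l q2) (a4 : G.Adj m p3) (a5 : G.Adj m q3)
    (b1 : ¬ G.Adj u w) (g0 : G.Adj p1 q1) (g1 : G.Adj p2 q2) : False := by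
  have h := hx _ _ _ _ _ _ m0 m1 m2 m3 m4 m5 d0 d1 d2 d3 d4 d5 d6 d7 d8 d9 d10 d11 d12 d13 d14 a0 a1 a2 a3 a4 a5
  have := ind_le (G.Adj x y)
  have := ind_le (G.Adj u w)
  have := ind_f b1
  have := ind_t g0
  have := ind_t g1
  omega

theorem Ex3.x13_2 {i l m a b x y u w p1 q1 p2 q2 p3 q3 : V} (hx : Ex3 G Fr i l m a b x y u w)
    (m0 : p1 = a ∨ p1 = b ∨ p1 = x ∨ p1 = y ∨ p1 = u ∨ p1 = w ∨ Fr p1)
    (m1 : q1 = a ∨ q1 = b ∨ q1 = x ∨ q1 = y ∨ q1 = u ∨ q1 = w ∨ Fr q1)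
    (m2 : p2 = a ∨ p2 = b ∨ p2 = x ∨ p2 = y ∨ p2 = u ∨ p2 = w ∨ Fr p2)
    (m3 : q2 = a ∨ q2 = b ∨ q2 = x ∨ q2 = y ∨ q2 = u ∨ q2 = w ∨ Fr q2)
    (m4 : p3 = a ∨ p3 = b ∨ p3 = x ∨ p3 = y ∨ p3 = u ∨ p3 = w ∨ Fr p3)
    (m5 : q3 = a ∨ q3 = b ∨ q3 = x ∨ q3 = y ∨ q3 = u ∨ q3 = w ∨ Fr q3)
    (d0 : p1 ≠ q1) (d1 : p1 ≠ p2) (d2 : p1 ≠ q2) (d3 : p1 ≠ p3) (d4 : p1 ≠ q3) (d5 : q1 ≠ p2) (d6 : q1 ≠ q2) (d7 : q1 ≠ p3) (d8 : q1 ≠ q3) (d9 : p2 ≠ q2) (d10 : p2 ≠ p3) (d11 : p2 ≠ q3) (d12 : q2 ≠ p3) (d13 : q2 ≠ q3) (d14 : p3 ≠ q3)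
    (a0 : G.Adj i p1) (a1 : G.Adj i q1) (a2 : G.Adj l p2) (a3 : G.Adj l q2) (a4 : G.Adj m p3) (a5 : G.Adj m q3)
    (b0 : ¬ G.Adj x y) (g0 : G.Adj p1 q1) (g2 : G.Adj p3 q3) : False := by
  have h := hx _ _ _ _ _ _ m0 m1 m2 m3 m4 m5 d0 d1 d2 d3 d4 d5 d6 d7 d8 d9 d10 d11 d12 d13 d14 a0 a1 a2 a3 a4 a5
  have := ind_le (G.Adj x y)
  have := ind_le (G.Adj u w)
  have := ind_f b0
  have := ind_t g0
  have := ind_t g2
  omega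

theorem Ex3.x13_3 {i l m a b x y u w p1 q1 p2 q2 p3 q3 : V} (hx : Ex3 G Fr i l m a b x y u w)
    (m0 : p1 = a ∨ p1 = b ∨ p1 = x ∨ p1 = y ∨ p1 = u ∨ p1 = w ∨ Fr p1)
    (m1 : q1 = a ∨ q1 = b ∨ q1 = x ∨ q1 = y ∨ q1 = u ∨ q1 = w ∨ Fr q1)
    (m2 : p2 = a ∨ p2 = b ∨ p2 = x ∨ p2 = y ∨ p2 = u ∨ p2 = w ∨ Fr p2)
    (m3 : q2 = a ∨ q2 = b ∨ q2 = x ∨ q2 = y ∨ q2 = u ∨ q2 = w ∨ Fr q2)
    (m4 : p3 = a ∨ p3 = b ∨ p3 = x ∨ p3 = y ∨ p3 = u ∨ p3 = w ∨ Fr p3)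
    (m5 : q3 = a ∨ q3 = b ∨ q3 = x ∨ q3 = y ∨ q3 = u ∨ q3 = w ∨ Fr q3)
    (d0 : p1 ≠ q1) (d1 : p1 ≠ p2) (d2 : p1 ≠ q2) (d3 : p1 ≠ p3) (d4 : p1 ≠ q3) (d5 : q1 ≠ p2) (d6 : q1 ≠ q2) (d7 : q1 ≠ p3) (d8 : q1 ≠ q3) (d9 : p2 ≠ q2) (d10 : p2 ≠ p3) (d11 : p2 ≠ q3) (d12 : q2 ≠ p3) (d13 : q2 ≠ q3) (d14 : p3 ≠ q3)
    (a0 : G.Adj i p1) (a1 : G.Adj i q1) (a2 : G.Adj l p2) (a3 : G.Adj l q2) (a4 : G.Adj m p3) (a5 : G.Adj m q3)
    (b1 : ¬ G.Adj u w) (g0 : G.Adj p1 q1) (g2 : G.Adj p3 q3) : False := by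
  have h := hx _ _ _ _ _ _ m0 m1 m2 m3 m4 m5 d0 d1 d2 d3 d4 d5 d6 d7 d8 d9 d10 d11 d12 d13 d14 a0 a1 a2 a3 a4 a5
  have := ind_le (G.Adj x y)
  have := ind_le (G.Adj u w)
  have := ind_f b1
  have := ind_t g0
  have := ind_t g2
  omega

theorem Ex3.x23_2 {i l m a b x y u w p1 q1 p2 q2 p3 q3 : V} (hx : Ex3 G Fr i l m a b x y u w)
    (m0 : p1 = a ∨ p1 = b ∨ p1 = x ∨ p1 = y ∨ p1 = u ∨ p1 = w ∨ Fr p1)
    (m1 : q1 = a ∨ q1 = b ∨ q1 = x ∨ q1 = y ∨ q1 = u ∨ q1 = w ∨ Fr q1)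
    (m2 : p2 = a ∨ p2 = b ∨ p2 = x ∨ p2 = y ∨ p2 = u ∨ p2 = w ∨ Fr p2)
    (m3 : q2 = a ∨ q2 = b ∨ q2 = x ∨ q2 = y ∨ q2 = u ∨ q2 = w ∨ Fr q2)
    (m4 : p3 = a ∨ p3 = b ∨ p3 = x ∨ p3 = y ∨ p3 = u ∨ p3 = w ∨ Fr p3)
    (m5 : q3 = a ∨ q3 = b ∨ q3 = x ∨ q3 = y ∨ q3 = u ∨ q3 = w ∨ Fr q3)
    (d0 : p1 ≠ q1) (d1 : p1 ≠ p2) (d2 : p1 ≠ q2) (d3 : p1 ≠ p3) (d4 : p1 ≠ q3) (d5 : q1 ≠ p2) (d6 : q1 ≠ q2) (d7 : q1 ≠ p3) (d8 : q1 ≠ q3) (d9 : p2 ≠ q2) (d10 : p2 ≠ p3) (d11 : p2 ≠ q3) (d12 : q2 ≠ p3) (d13 : q2 ≠ q3) (d14 : p3 ≠ q3)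
    (a0 : G.Adj i p1) (a1 : G.Adj i q1) (a2 : G.Adj l p2) (a3 : G.Adj l q2) (a4 : G.Adj m p3) (a5 : G.Adj m q3)
    (b0 : ¬ G.Adj x y) (g1 : G.Adj p2 q2) (g2 : G.Adj p3 q3) : False := by
  have h := hx _ _ _ _ _ _ m0 m1 m2 m3 m4 m5 d0 d1 d2 d3 d4 d5 d6 d7 d8 d9 d10 d11 d12 d13 d14 a0 a1 a2 a3 a4 a5
  have := ind_le (G.Adj x y)
  have := ind_le (G.Adj u w)
  have := ind_f b0
  have := ind_t g1
  have := ind_t g2
  omega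

theorem Ex3.x23_3 {i l m a b x y u w p1 q1 p2 q2 p3 q3 : V} (hx : Ex3 G Fr i l m a b x y u w)
    (m0 : p1 = a ∨ p1 = b ∨ p1 = x ∨ p1 = y ∨ p1 = u ∨ p1 = w ∨ Fr p1)
    (m1 : q1 = a ∨ q1 = b ∨ q1 = x ∨ q1 = y ∨ q1 = u ∨ q1 = w ∨ Fr q1)
    (m2 : p2 = a ∨ p2 = b ∨ p2 = x ∨ p2 = y ∨ p2 = u ∨ p2 = w ∨ Fr p2)
    (m3 : q2 = a ∨ q2 = b ∨ q2 = x ∨ q2 = y ∨ q2 = u ∨ q2 = w ∨ Fr q2)
    (m4 : p3 = a ∨ p3 = b ∨ p3 = x ∨ p3 = y ∨ p3 = u ∨ p3 = w ∨ Fr p3)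
    (m5 : q3 = a ∨ q3 = b ∨ q3 = x ∨ q3 = y ∨ q3 = u ∨ q3 = w ∨ Fr q3)
    (d0 : p1 ≠ q1) (d1 : p1 ≠ p2) (d2 : p1 ≠ q2) (d3 : p1 ≠ p3) (d4 : p1 ≠ q3) (d5 : q1 ≠ p2) (d6 : q1 ≠ q2) (d7 : q1 ≠ p3) (d8 : q1 ≠ q3) (d9 : p2 ≠ q2) (d10 : p2 ≠ p3) (d11 : p2 ≠ q3) (d12 : q2 ≠ p3) (d13 : q2 ≠ q3) (d14 : p3 ≠ q3)
    (a0 : G.Adj i p1) (a1 : G.Adj i q1) (a2 : G.Adj l p2) (a3 : G.Adj l q2) (a4 : G.Adj m p3) (a5 : G.Adj m q3)
    (b1 : ¬ G.Adj u w) (g1 : G.Adj p2 q2) (g2 : G.Adj p3 q3) : False := by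
  have h := hx _ _ _ _ _ _ m0 m1 m2 m3 m4 m5 d0 d1 d2 d3 d4 d5 d6 d7 d8 d9 d10 d11 d12 d13 d14 a0 a1 a2 a3 a4 a5
  have := ind_le (G.Adj x y)
  have := ind_le (G.Adj u w)
  have := ind_f b1
  have := ind_t g1
  have := ind_t g2
  omega

theorem Ex3.x123 {i l m a b x y u w p1 q1 p2 q2 p3 q3 : V} (hx : Ex3 G Fr i l m a b x y u w)
    (m0 : p1 = a ∨ p1 = b ∨ p1 = x ∨ p1 = y ∨ p1 = u ∨ p1 = w ∨ Fr p1)
    (m1 : q1 = a ∨ q1 = b ∨ q1 = x ∨ q1 = y ∨ q1 = u ∨ q1 = w ∨ Fr q1)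
    (m2 : p2 = a ∨ p2 = b ∨ p2 = x ∨ p2 = y ∨ p2 = u ∨ p2 = w ∨ Fr p2)
    (m3 : q2 = a ∨ q2 = b ∨ q2 = x ∨ q2 = y ∨ q2 = u ∨ q2 = w ∨ Fr q2)
    (m4 : p3 = a ∨ p3 = b ∨ p3 = x ∨ p3 = y ∨ p3 = u ∨ p3 = w ∨ Fr p3)
    (m5 : q3 = a ∨ q3 = b ∨ q3 = x ∨ q3 = y ∨ q3 = u ∨ q3 = w ∨ Fr q3)
    (d0 : p1 ≠ q1) (d1 : p1 ≠ p2) (d2 : p1 ≠ q2) (d3 : p1 ≠ p3) (d4 : p1 ≠ q3) (d5 : q1 ≠ p2) (d6 : q1 ≠ q2) (d7 : q1 ≠ p3) (d8 : q1 ≠ q3) (d9 : p2 ≠ q2) (d10 : p2 ≠ p3) (d11 : p2 ≠ q3) (d12 : q2 ≠ p3) (d13 : q2 ≠ q3) (d14 : p3 ≠ q3)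
    (a0 : G.Adj i p1) (a1 : G.Adj i q1) (a2 : G.Adj l p2) (a3 : G.Adj l q2) (a4 : G.Adj m p3) (a5 : G.Adj m q3)
    (g0 : G.Adj p1 q1) (g1 : G.Adj p2 q2) (g2 : G.Adj p3 q3) : False := by
  have h := hx _ _ _ _ _ _ m0 m1 m2 m3 m4 m5 d0 d1 d2 d3 d4 d5 d6 d7 d8 d9 d10 d11 d12 d13 d14 a0 a1 a2 a3 a4 a5
  have := ind_le (G.Adj x y)
  have := ind_le (G.Adj u w)
  have := ind_t g0
  have := ind_t g1
  have := ind_t g2
  omega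

/-- a bad player has no free neighbour -/
theorem bad_free {i a b c : V} (hG : ClawFree G) (hx : Ex1 G Fr i a b)
    (hd : [i, a, b, c].Nodup) (hF_c : Fr c)
    (h_i_a : G.Adj i a) (h_i_b : G.Adj i b) (h_a_b : ¬ G.Adj a b)
    (k0 : G.Adj i c)
    : False := by
  simp only [List.nodup_cons, List.mem_cons, List.not_mem_nil, or_false, not_or, not_false_eq_true, List.nodup_nil, and_true, ← ne_eq] at hd
  obtain ⟨⟨n_i_a, n_i_b, n_i_c⟩, ⟨n_a_b, n_a_c⟩, n_b_c⟩ := hd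
  have h_i_c : G.Adj i c := k0
  by_cases h_a_c : G.Adj a c
  · exact Ex1.x1 hx (Or.inl rfl) (Or.inr (Or.inr (hF_c))) n_a_c h_i_a h_i_c  h_a_c
  by_cases h_b_c : G.Adj b c
  · exact Ex1.x1 hx (Or.inr (Or.inl rfl)) (Or.inr (Or.inr (hF_c))) n_b_c h_i_b h_i_c  h_b_c
  exact claw hG n_a_b n_a_c n_b_c h_i_a h_i_b h_i_c h_a_b h_a_c h_b_c

/-- blocks with three neighbours of `i` -/
theorem cls3 {i m a b u w : V} (hG : ClawFree G) (hx : Ex2 G Fr i m a b u w)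
    (hd : [i, m, a, b, u, w].Nodup)
    (h_i_a : G.Adj i a) (h_i_b : G.Adj i b) (h_m_u : G.Adj m u) (h_m_w : G.Adj m w) (h_a_b : ¬ G.Adj a b)
    (k0 : G.Adj i m)
    (k1 : G.Adj i u)
    (k2 : G.Adj i w)
    : (RL G i a b m u w ∧ RL G i a b m w u) ∨ (RL G i b a m u w ∧ RL G i b a m w u) := by
  simp only [List.nodup_cons, List.mem_cons, List.not_mem_nil, or_false, not_or, not_false_eq_true, List.nodup_nil, and_true, ← ne_eq] at hd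
  obtain ⟨⟨n_i_m, n_i_a, n_i_b, n_i_u, n_i_w⟩, ⟨n_m_a, n_m_b, n_m_u, n_m_w⟩, ⟨n_a_b, n_a_u, n_a_w⟩, ⟨n_b_u, n_b_w⟩, n_u_w⟩ := hd
  by_contra hgoal
  have h_i_m : G.Adj i m := k0
  have h_i_u : G.Adj i u := k1
  have h_i_w : G.Adj i w := k2
  by_cases h_b_u : G.Adj b u
  · by_cases h_a_w : G.Adj a w
    · by_cases h_m_b : G.Adj m b
      · exact Ex2.x12 hx (Or.inl rfl) (Or.inr (Or.inr (Or.inr (Or.inl rfl)))) (Or.inr (Or.inl rfl)) (Or.inr (Or.inr (Or.inl rfl))) n_a_w n_a_b n_a_u n_b_w.symm n_u_w.symm n_b_u h_i_a h_i_w h_m_b h_m_u  h_a_w h_b_u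
      by_cases h_m_a : G.Adj m a
      · exact Ex2.x12 hx (Or.inr (Or.inl rfl)) (Or.inr (Or.inr (Or.inl rfl))) (Or.inl rfl) (Or.inr (Or.inr (Or.inr (Or.inl rfl)))) n_b_u n_a_b.symm n_b_w n_a_u.symm n_u_w n_a_w h_i_b h_i_u h_m_a h_m_w  h_b_u h_a_w
      exact claw hG n_m_a n_m_b n_a_b h_i_m h_i_a h_i_b h_m_a h_m_b h_a_b
    by_cases h_a_u : G.Adj a u
    · by_cases h_b_w : G.Adj b w
      · by_cases h_m_b : G.Adj m b
        · exact Ex2.x12 hx (Or.inl rfl) (Or.inr (Or.inr (Or.inl rfl))) (Or.inr (Or.inl rfl)) (Or.inr (Or.inr (Or.inr (Or.inl rfl)))) n_a_u n_a_b n_a_w n_b_u.symm n_u_w n_b_w h_i_a h_i_u h_m_b h_m_w  h_a_u h_b_w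
        by_cases h_m_a : G.Adj m a
        · exact Ex2.x12 hx (Or.inr (Or.inl rfl)) (Or.inr (Or.inr (Or.inr (Or.inl rfl)))) (Or.inl rfl) (Or.inr (Or.inr (Or.inl rfl))) n_b_w n_a_b.symm n_b_u n_a_w.symm n_u_w.symm n_a_u h_i_b h_i_w h_m_a h_m_u  h_b_w h_a_u
        exact claw hG n_m_a n_m_b n_a_b h_i_m h_i_a h_i_b h_m_a h_m_b h_a_b
      exact claw hG n_a_b n_a_w n_b_w h_i_a h_i_b h_i_w h_a_b h_a_w h_b_w
    exact hgoal (Or.inr (⟨(Or.inl ⟨h_i_m, h_i_u, h_a_u, h_i_w, h_a_w⟩), (Or.inl ⟨h_i_m, h_i_w, h_a_w, h_i_u, h_a_u⟩)⟩))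
  by_cases h_b_w : G.Adj b w
  · by_cases h_a_u : G.Adj a u
    · by_cases h_m_b : G.Adj m b
      · exact Ex2.x12 hx (Or.inl rfl) (Or.inr (Or.inr (Or.inl rfl))) (Or.inr (Or.inl rfl)) (Or.inr (Or.inr (Or.inr (Or.inl rfl)))) n_a_u n_a_b n_a_w n_b_u.symm n_u_w n_b_w h_i_a h_i_u h_m_b h_m_w  h_a_u h_b_w
      by_cases h_m_a : G.Adj m a
      · exact Ex2.x12 hx (Or.inr (Or.inl rfl)) (Or.inr (Or.inr (Or.inr (Or.inl rfl)))) (Or.inl rfl) (Or.inr (Or.inr (Or.inl rfl))) n_b_w n_a_b.symm n_b_u n_a_w.symm n_u_w.symm n_a_u h_i_b h_i_w h_m_a h_m_u  h_b_w h_a_u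
      exact claw hG n_m_a n_m_b n_a_b h_i_m h_i_a h_i_b h_m_a h_m_b h_a_b
    exact claw hG n_a_b n_a_u n_b_u h_i_a h_i_b h_i_u h_a_b h_a_u h_b_u
  exact hgoal (Or.inl ⟨(Or.inl ⟨h_i_m, h_i_u, h_b_u, h_i_w, h_b_w⟩), (Or.inl ⟨h_i_m, h_i_w, h_b_w, h_i_u, h_b_u⟩)⟩)

/-- blocks with a player and one vertex adjacent to `i` -/
theorem cls2 {i m a b u w : V} (hG : ClawFree G) (hx : Ex2 G Fr i m a b u w)
    (hd : [i, m, a, b, u, w].Nodup)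
    (h_i_a : G.Adj i a) (h_i_b : G.Adj i b) (h_m_u : G.Adj m u) (h_m_w : G.Adj m w) (h_a_b : ¬ G.Adj a b)
    (k0 : G.Adj i m)
    (k1 : G.Adj i u)
    (k2 : ¬ G.Adj i w)
    : RV G i a b m u w ∨ RL G i a b m u w ∨ RD G i a b m u w ∨ RD G i a b m w u ∨ RV G i b a m u w ∨ RL G i b a m u w ∨ RD G i b a m u w ∨ RD G i b a m w u := by
  simp only [List.nodup_cons, List.mem_cons, List.not_mem_nil, or_false, not_or, not_false_eq_true, List.nodup_nil, and_true, ← ne_eq] at hd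
  obtain ⟨⟨n_i_m, n_i_a, n_i_b, n_i_u, n_i_w⟩, ⟨n_m_a, n_m_b, n_m_u, n_m_w⟩, ⟨n_a_b, n_a_u, n_a_w⟩, ⟨n_b_u, n_b_w⟩, n_u_w⟩ := hd
  by_contra hgoal
  have h_i_m : G.Adj i m := k0
  have h_i_u : G.Adj i u := k1
  have h_i_w : ¬ G.Adj i w := k2
  by_cases h_m_a : G.Adj m a
  · by_cases h_a_w : G.Adj a w
    · by_cases h_b_u : G.Adj b u
      · exact Ex2.x12 hx (Or.inr (Or.inl rfl)) (Or.inr (Or.inr (Or.inl rfl))) (Or.inl rfl) (Or.inr (Or.inr (Or.inr (Or.inl rfl)))) n_b_u n_a_b.symm n_b_w n_a_u.symm n_u_w n_a_w h_i_b h_i_u h_m_a h_m_w  h_b_u h_a_w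
      exact hgoal (Or.inr (Or.inl (Or.inr ⟨h_i_m, h_i_u, h_b_u, h_i_w, h_m_a.symm, h_a_w⟩)))
    by_cases h_m_b : G.Adj m b
    · by_cases h_b_w : G.Adj b w
      · by_cases h_a_u : G.Adj a u
        · exact Ex2.x12 hx (Or.inl rfl) (Or.inr (Or.inr (Or.inl rfl))) (Or.inr (Or.inl rfl)) (Or.inr (Or.inr (Or.inr (Or.inl rfl)))) n_a_u n_a_b n_a_w n_b_u.symm n_u_w n_b_w h_i_a h_i_u h_m_b h_m_w  h_a_u h_b_w
        exact hgoal (Or.inr (Or.inr (Or.inr (Or.inr (Or.inr (Or.inl (Or.inr ⟨h_i_m, h_i_u, h_a_u, h_i_w, h_m_b.symm, h_b_w⟩)))))))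
      exact claw hG n_a_b n_a_w n_b_w h_m_a h_m_b h_m_w h_a_b h_a_w h_b_w
    by_cases h_b_u : G.Adj b u
    · by_cases h_u_w : G.Adj u w
      · by_cases h_b_w : G.Adj b w
        · exact hgoal (Or.inr (Or.inr (Or.inr (Or.inr (Or.inr (Or.inr (Or.inr ((Or.inr ⟨h_i_m, (fun e => h_m_b e.symm), h_i_u, h_i_w, h_b_u, h_b_w⟩)))))))))
        by_cases h_a_u : G.Adj a u
        · exact claw hG n_a_b n_a_w n_b_w h_a_u.symm h_b_u.symm h_u_w h_a_b h_a_w h_b_w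
        exact hgoal (Or.inr (Or.inr (Or.inr (Or.inr (Or.inr (Or.inr (Or.inl (Or.inl ⟨h_i_m, (fun e => h_m_b e.symm), h_i_u, h_i_w, h_a_u, h_b_w⟩))))))))
      exact Ex2.x1_2 hx (Or.inr (Or.inl rfl)) (Or.inr (Or.inr (Or.inl rfl))) (Or.inl rfl) (Or.inr (Or.inr (Or.inr (Or.inl rfl)))) n_b_u n_a_b.symm n_b_w n_a_u.symm n_u_w n_a_w h_i_b h_i_u h_m_a h_m_w h_u_w h_b_u
    exact hgoal (Or.inl ⟨h_i_m, h_i_u, h_i_w, (fun e => h_m_b e.symm), h_b_u, h_a_w⟩)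
  by_cases h_m_b : G.Adj m b
  · by_cases h_a_u : G.Adj a u
    · by_cases h_a_w : G.Adj a w
      · exact hgoal (Or.inr (Or.inr (Or.inr (Or.inl (Or.inr ⟨h_i_m, (fun e => h_m_a e.symm), h_i_u, h_i_w, h_a_u, h_a_w⟩)))))
      by_cases h_u_w : G.Adj u w
      · by_cases h_b_w : G.Adj b w
        · exact Ex2.x12 hx (Or.inl rfl) (Or.inr (Or.inr (Or.inl rfl))) (Or.inr (Or.inl rfl)) (Or.inr (Or.inr (Or.inr (Or.inl rfl)))) n_a_u n_a_b n_a_w n_b_u.symm n_u_w n_b_w h_i_a h_i_u h_m_b h_m_w  h_a_u h_b_w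
        by_cases h_b_u : G.Adj b u
        · exact claw hG n_a_b n_a_w n_b_w h_a_u.symm h_b_u.symm h_u_w h_a_b h_a_w h_b_w
        exact hgoal (Or.inr (Or.inr (Or.inl (Or.inl ⟨h_i_m, (fun e => h_m_a e.symm), h_i_u, h_i_w, h_b_u, h_a_w⟩))))
      exact Ex2.x1_2 hx (Or.inl rfl) (Or.inr (Or.inr (Or.inl rfl))) (Or.inr (Or.inl rfl)) (Or.inr (Or.inr (Or.inr (Or.inl rfl)))) n_a_u n_a_b n_a_w n_b_u.symm n_u_w n_b_w h_i_a h_i_u h_m_b h_m_w h_u_w h_a_u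
    by_cases h_b_w : G.Adj b w
    · exact hgoal (Or.inr (Or.inr (Or.inr (Or.inr (Or.inr (Or.inl (Or.inr ⟨h_i_m, h_i_u, h_a_u, h_i_w, h_m_b.symm, h_b_w⟩)))))))
    exact hgoal (Or.inr (Or.inr (Or.inr (Or.inr (Or.inl ⟨h_i_m, h_i_u, h_i_w, (fun e => h_m_a e.symm), h_a_u, h_b_w⟩)))))
  exact claw hG n_m_a n_m_b n_a_b h_i_m h_i_a h_i_b h_m_a h_m_b h_a_b

theorem clsE {i m a b u w : V} (hG : ClawFree G) (hx : Ex2 G Fr i m a b u w)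
    (hd : [i, m, a, b, u, w].Nodup)
    (h_i_a : G.Adj i a) (h_i_b : G.Adj i b) (h_m_u : G.Adj m u) (h_m_w : G.Adj m w) (h_a_b : ¬ G.Adj a b)
    (k0 : ¬ G.Adj i m)
    (k1 : G.Adj i u)
    (k2 : G.Adj i w)
    : RE G i a b m u w ∨ RE G i b a m u w := by
  simp only [List.nodup_cons, List.mem_cons, List.not_mem_nil, or_false, not_or, not_false_eq_true, List.nodup_nil, and_true, ← ne_eq] at hd
  obtain ⟨⟨n_i_m, n_i_a, n_i_b, n_i_u, n_i_w⟩, ⟨n_m_a, n_m_b, n_m_u, n_m_w⟩, ⟨n_a_b, n_a_u, n_a_w⟩, ⟨n_b_u, n_b_w⟩, n_u_w⟩ := hd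
  by_contra hgoal
  have h_i_m : ¬ G.Adj i m := k0
  have h_i_u : G.Adj i u := k1
  have h_i_w : G.Adj i w := k2
  by_cases h_b_u : G.Adj b u
  · by_cases h_a_u : G.Adj a u
    · by_cases h_m_b : G.Adj m b
      · by_cases h_a_w : G.Adj a w
        · exact Ex2.x12 hx (Or.inl rfl) (Or.inr (Or.inr (Or.inr (Or.inl rfl)))) (Or.inr (Or.inl rfl)) (Or.inr (Or.inr (Or.inl rfl))) n_a_w n_a_b n_a_u n_b_w.symm n_u_w.symm n_b_u h_i_a h_i_w h_m_b h_m_u  h_a_w h_b_u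
        by_cases h_b_w : G.Adj b w
        · exact Ex2.x12 hx (Or.inl rfl) (Or.inr (Or.inr (Or.inl rfl))) (Or.inr (Or.inl rfl)) (Or.inr (Or.inr (Or.inr (Or.inl rfl)))) n_a_u n_a_b n_a_w n_b_u.symm n_u_w n_b_w h_i_a h_i_u h_m_b h_m_w  h_a_u h_b_w
        exact claw hG n_a_b n_a_w n_b_w h_i_a h_i_b h_i_w h_a_b h_a_w h_b_w
      by_cases h_m_a : G.Adj m a
      · by_cases h_a_w : G.Adj a w
        · exact Ex2.x12 hx (Or.inr (Or.inl rfl)) (Or.inr (Or.inr (Or.inl rfl))) (Or.inl rfl) (Or.inr (Or.inr (Or.inr (Or.inl rfl)))) n_b_u n_a_b.symm n_b_w n_a_u.symm n_u_w n_a_w h_i_b h_i_u h_m_a h_m_w  h_b_u h_a_w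
        by_cases h_b_w : G.Adj b w
        · exact Ex2.x12 hx (Or.inr (Or.inl rfl)) (Or.inr (Or.inr (Or.inr (Or.inl rfl)))) (Or.inl rfl) (Or.inr (Or.inr (Or.inl rfl))) n_b_w n_a_b.symm n_b_u n_a_w.symm n_u_w.symm n_a_u h_i_b h_i_w h_m_a h_m_u  h_b_w h_a_u
        exact claw hG n_a_b n_a_w n_b_w h_i_a h_i_b h_i_w h_a_b h_a_w h_b_w
      exact claw hG n_m_a n_m_b n_a_b h_m_u.symm h_a_u.symm h_b_u.symm h_m_a h_m_b h_a_b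
    exact hgoal (Or.inr (⟨h_i_m, h_i_u, h_i_w, h_a_u⟩))
  exact hgoal (Or.inl ⟨h_i_m, h_i_u, h_i_w, h_b_u⟩)

/-- two adjacent bad players -/
theorem clsB {i m a b u w : V} (hG : ClawFree G) (hx : Ex2 G Fr i m a b u w)
    (hd : [i, m, a, b, u, w].Nodup)
    (h_i_a : G.Adj i a) (h_i_b : G.Adj i b) (h_m_u : G.Adj m u) (h_m_w : G.Adj m w) (h_a_b : ¬ G.Adj a b)
    (k0 : G.Adj i m)
    (k1 : ¬ G.Adj u w)
    : RV G i a b m u w ∨ RV G i a b m w u ∨ RV G i b a m u w ∨ RV G i b a m w u := by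
  simp only [List.nodup_cons, List.mem_cons, List.not_mem_nil, or_false, not_or, not_false_eq_true, List.nodup_nil, and_true, ← ne_eq] at hd
  obtain ⟨⟨n_i_m, n_i_a, n_i_b, n_i_u, n_i_w⟩, ⟨n_m_a, n_m_b, n_m_u, n_m_w⟩, ⟨n_a_b, n_a_u, n_a_w⟩, ⟨n_b_u, n_b_w⟩, n_u_w⟩ := hd
  by_contra hgoal
  have h_i_m : G.Adj i m := k0
  have h_u_w : ¬ G.Adj u w := k1
  by_cases h_m_a : G.Adj m a
  · by_cases h_i_u : G.Adj i u
    · by_cases h_b_u : G.Adj b u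
      · exact Ex2.x1_2 hx (Or.inr (Or.inl rfl)) (Or.inr (Or.inr (Or.inl rfl))) (Or.inl rfl) (Or.inr (Or.inr (Or.inr (Or.inl rfl)))) n_b_u n_a_b.symm n_b_w n_a_u.symm n_u_w n_a_w h_i_b h_i_u h_m_a h_m_w h_u_w h_b_u
      by_cases h_a_u : G.Adj a u
      · by_cases h_i_w : G.Adj i w
        · exact Ex2.x2_2 hx (Or.inr (Or.inl rfl)) (Or.inr (Or.inr (Or.inr (Or.inl rfl)))) (Or.inl rfl) (Or.inr (Or.inr (Or.inl rfl))) n_b_w n_a_b.symm n_b_u n_a_w.symm n_u_w.symm n_a_u h_i_b h_i_w h_m_a h_m_u h_u_w h_a_u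
        by_cases h_m_b : G.Adj m b
        · exact Ex2.x1_2 hx (Or.inl rfl) (Or.inr (Or.inr (Or.inl rfl))) (Or.inr (Or.inl rfl)) (Or.inr (Or.inr (Or.inr (Or.inl rfl)))) n_a_u n_a_b n_a_w n_b_u.symm n_u_w n_b_w h_i_a h_i_u h_m_b h_m_w h_u_w h_a_u
        by_cases h_a_w : G.Adj a w
        · exact Ex2.x2_2 hx (Or.inr (Or.inl rfl)) (Or.inr (Or.inr (Or.inl rfl))) (Or.inl rfl) (Or.inr (Or.inr (Or.inr (Or.inl rfl)))) n_b_u n_a_b.symm n_b_w n_a_u.symm n_u_w n_a_w h_i_b h_i_u h_m_a h_m_w h_u_w h_a_w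
        exact hgoal (Or.inl ⟨h_i_m, h_i_u, h_i_w, (fun e => h_m_b e.symm), h_b_u, h_a_w⟩)
      exact claw hG n_a_b n_a_u n_b_u h_i_a h_i_b h_i_u h_a_b h_a_u h_b_u
    by_cases h_i_w : G.Adj i w
    · by_cases h_b_w : G.Adj b w
      · exact Ex2.x1_2 hx (Or.inr (Or.inl rfl)) (Or.inr (Or.inr (Or.inr (Or.inl rfl)))) (Or.inl rfl) (Or.inr (Or.inr (Or.inl rfl))) n_b_w n_a_b.symm n_b_u n_a_w.symm n_u_w.symm n_a_u h_i_b h_i_w h_m_a h_m_u h_u_w h_b_w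
      by_cases h_a_w : G.Adj a w
      · by_cases h_m_b : G.Adj m b
        · exact Ex2.x1_2 hx (Or.inl rfl) (Or.inr (Or.inr (Or.inr (Or.inl rfl)))) (Or.inr (Or.inl rfl)) (Or.inr (Or.inr (Or.inl rfl))) n_a_w n_a_b n_a_u n_b_w.symm n_u_w.symm n_b_u h_i_a h_i_w h_m_b h_m_u h_u_w h_a_w
        by_cases h_a_u : G.Adj a u
        · exact Ex2.x2_2 hx (Or.inr (Or.inl rfl)) (Or.inr (Or.inr (Or.inr (Or.inl rfl)))) (Or.inl rfl) (Or.inr (Or.inr (Or.inl rfl))) n_b_w n_a_b.symm n_b_u n_a_w.symm n_u_w.symm n_a_u h_i_b h_i_w h_m_a h_m_u h_u_w h_a_u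
        exact hgoal (Or.inr (Or.inl ⟨h_i_m, h_i_w, h_i_u, (fun e => h_m_b e.symm), h_b_w, h_a_u⟩))
      exact claw hG n_a_b n_a_w n_b_w h_i_a h_i_b h_i_w h_a_b h_a_w h_b_w
    exact claw hG n_i_u n_i_w n_u_w h_i_m.symm h_m_u h_m_w h_i_u h_i_w h_u_w
  by_cases h_m_b : G.Adj m b
  · by_cases h_i_u : G.Adj i u
    · by_cases h_a_u : G.Adj a u
      · exact Ex2.x1_2 hx (Or.inl rfl) (Or.inr (Or.inr (Or.inl rfl))) (Or.inr (Or.inl rfl)) (Or.inr (Or.inr (Or.inr (Or.inl rfl)))) n_a_u n_a_b n_a_w n_b_u.symm n_u_w n_b_w h_i_a h_i_u h_m_b h_m_w h_u_w h_a_u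
      by_cases h_b_w : G.Adj b w
      · exact Ex2.x2_2 hx (Or.inl rfl) (Or.inr (Or.inr (Or.inl rfl))) (Or.inr (Or.inl rfl)) (Or.inr (Or.inr (Or.inr (Or.inl rfl)))) n_a_u n_a_b n_a_w n_b_u.symm n_u_w n_b_w h_i_a h_i_u h_m_b h_m_w h_u_w h_b_w
      by_cases h_b_u : G.Adj b u
      · by_cases h_i_w : G.Adj i w
        · exact Ex2.x2_2 hx (Or.inl rfl) (Or.inr (Or.inr (Or.inr (Or.inl rfl)))) (Or.inr (Or.inl rfl)) (Or.inr (Or.inr (Or.inl rfl))) n_a_w n_a_b n_a_u n_b_w.symm n_u_w.symm n_b_u h_i_a h_i_w h_m_b h_m_u h_u_w h_b_u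
        exact hgoal (Or.inr (Or.inr (Or.inl ⟨h_i_m, h_i_u, h_i_w, (fun e => h_m_a e.symm), h_a_u, h_b_w⟩)))
      exact claw hG n_a_b n_a_u n_b_u h_i_a h_i_b h_i_u h_a_b h_a_u h_b_u
    by_cases h_i_w : G.Adj i w
    · by_cases h_a_w : G.Adj a w
      · exact Ex2.x1_2 hx (Or.inl rfl) (Or.inr (Or.inr (Or.inr (Or.inl rfl)))) (Or.inr (Or.inl rfl)) (Or.inr (Or.inr (Or.inl rfl))) n_a_w n_a_b n_a_u n_b_w.symm n_u_w.symm n_b_u h_i_a h_i_w h_m_b h_m_u h_u_w h_a_w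
      by_cases h_b_u : G.Adj b u
      · exact Ex2.x2_2 hx (Or.inl rfl) (Or.inr (Or.inr (Or.inr (Or.inl rfl)))) (Or.inr (Or.inl rfl)) (Or.inr (Or.inr (Or.inl rfl))) n_a_w n_a_b n_a_u n_b_w.symm n_u_w.symm n_b_u h_i_a h_i_w h_m_b h_m_u h_u_w h_b_u
      exact hgoal (Or.inr (Or.inr (Or.inr (⟨h_i_m, h_i_w, h_i_u, (fun e => h_m_a e.symm), h_a_w, h_b_u⟩))))
    exact claw hG n_i_u n_i_w n_u_w h_i_m.symm h_m_u h_m_w h_i_u h_i_w h_u_w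
  exact claw hG n_m_a n_m_b n_a_b h_i_m h_i_a h_i_b h_m_a h_m_b h_a_b

theorem same_RV_RV {i m a b u w : V} (hG : ClawFree G) (hx : Ex2 G Fr i m a b u w)
    (hd : [i, m, a, b, u, w].Nodup)
    (h_i_a : G.Adj i a) (h_i_b : G.Adj i b) (h_m_u : G.Adj m u) (h_m_w : G.Adj m w) (h_a_b : ¬ G.Adj a b)
    (k0 : RV G i a b m u w)
    (k1 : RV G i b a m u w)
    : False := by
  simp only [List.nodup_cons, List.mem_cons, List.not_mem_nil, or_false, not_or, not_false_eq_true, List.nodup_nil, and_true, ← ne_eq] at hd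
  obtain ⟨⟨n_i_m, n_i_a, n_i_b, n_i_u, n_i_w⟩, ⟨n_m_a, n_m_b, n_m_u, n_m_w⟩, ⟨n_a_b, n_a_u, n_a_w⟩, ⟨n_b_u, n_b_w⟩, n_u_w⟩ := hd
  rcases k0 with ⟨k0_0, k0_1, k0_2, k0_3, k0_4, k0_5⟩
  have h_i_m : G.Adj i m := k0_0
  have h_i_u : G.Adj i u := k0_1
  have h_i_w : ¬ G.Adj i w := k0_2
  have h_m_b : ¬ G.Adj m b := fun e => k0_3 e.symm
  have h_b_u : ¬ G.Adj b u := k0_4
  have h_a_w : ¬ G.Adj a w := k0_5
  rcases k1 with ⟨k1_0, k1_1, k1_2, k1_3, k1_4, k1_5⟩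
  have h_m_a : ¬ G.Adj m a := fun e => k1_3 e.symm
  have h_a_u : ¬ G.Adj a u := k1_4
  have h_b_w : ¬ G.Adj b w := k1_5
  exact claw hG n_m_a n_m_b n_a_b h_i_m h_i_a h_i_b h_m_a h_m_b h_a_b

theorem opp_RV_RV {i m a b u w : V} (hG : ClawFree G) (hx : Ex2 G Fr i m a b u w)
    (hd : [i, m, a, b, u, w].Nodup)
    (h_i_a : G.Adj i a) (h_i_b : G.Adj i b) (h_m_u : G.Adj m u) (h_m_w : G.Adj m w) (h_a_b : ¬ G.Adj a b)
    (k0 : RV G i a b m u w)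
    (k1 : RV G i b a m w u)
    : False := by
  simp only [List.nodup_cons, List.mem_cons, List.not_mem_nil, or_false, not_or, not_false_eq_true, List.nodup_nil, and_true, ← ne_eq] at hd
  obtain ⟨⟨n_i_m, n_i_a, n_i_b, n_i_u, n_i_w⟩, ⟨n_m_a, n_m_b, n_m_u, n_m_w⟩, ⟨n_a_b, n_a_u, n_a_w⟩, ⟨n_b_u, n_b_w⟩, n_u_w⟩ := hd
  rcases k0 with ⟨k0_0, k0_1, k0_2, k0_3, k0_4, k0_5⟩
  have h_i_m : G.Adj i m := k0_0
  have h_i_u : G.Adj i u := k0_1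
  have h_i_w : ¬ G.Adj i w := k0_2
  have h_m_b : ¬ G.Adj m b := fun e => k0_3 e.symm
  have h_b_u : ¬ G.Adj b u := k0_4
  have h_a_w : ¬ G.Adj a w := k0_5
  rcases k1 with ⟨k1_0, k1_1, k1_2, k1_3, k1_4, k1_5⟩
  exact (h_i_w (k1_1)).elim

theorem safe_RV_RV {i l m a b x y u w : V} (hG : ClawFree G) (hx : Ex3 G Fr i l m a b x y u w)
    (hd : [i, l, m, a, b, x, y, u, w].Nodup)
    (h_i_a : G.Adj i a) (h_i_b : G.Adj i b) (h_l_x : G.Adj l x) (h_l_y : G.Adj l y) (h_m_u : G.Adj m u) (h_m_w : G.Adj m w) (h_a_b : ¬ G.Adj a b)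
    (k0 : RV G i a b l x y)
    (k1 : RV G i b a m u w)
    (k2 : G.Adj l m)
    : False := by
  simp only [List.nodup_cons, List.mem_cons, List.not_mem_nil, or_false, not_or, not_false_eq_true, List.nodup_nil, and_true, ← ne_eq] at hd
  obtain ⟨⟨n_i_l, n_i_m, n_i_a, n_i_b, n_i_x, n_i_y, n_i_u, n_i_w⟩, ⟨n_l_m, n_l_a, n_l_b, n_l_x, n_l_y, n_l_u, n_l_w⟩, ⟨n_m_a, n_m_b, n_m_x, n_m_y, n_m_u, n_m_w⟩, ⟨n_a_b, n_a_x, n_a_y, n_a_u, n_a_w⟩, ⟨n_b_x, n_b_y, n_b_u, n_b_w⟩, ⟨n_x_y, n_x_u, n_x_w⟩, ⟨n_y_u, n_y_w⟩, n_u_w⟩ := hd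
  rcases k0 with ⟨k0_0, k0_1, k0_2, k0_3, k0_4, k0_5⟩
  have h_i_l : G.Adj i l := k0_0
  have h_i_x : G.Adj i x := k0_1
  have h_i_y : ¬ G.Adj i y := k0_2
  have h_l_b : ¬ G.Adj l b := fun e => k0_3 e.symm
  have h_b_x : ¬ G.Adj b x := k0_4
  have h_a_y : ¬ G.Adj a y := k0_5
  rcases k1 with ⟨k1_0, k1_1, k1_2, k1_3, k1_4, k1_5⟩
  have h_i_m : G.Adj i m := k1_0
  have h_i_u : G.Adj i u := k1_1
  have h_i_w : ¬ G.Adj i w := k1_2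
  have h_m_a : ¬ G.Adj m a := fun e => k1_3 e.symm
  have h_a_u : ¬ G.Adj a u := k1_4
  have h_b_w : ¬ G.Adj b w := k1_5
  have h_l_m : G.Adj l m := k2
  by_cases h_l_a : G.Adj l a
  · by_cases h_a_x : G.Adj a x
    · by_cases h_b_u : G.Adj b u
      · by_cases h_m_y : G.Adj m y
        · by_cases h_y_w : G.Adj y w
          · exact Ex3.x123 hx (Or.inr (Or.inl rfl)) (Or.inr (Or.inr (Or.inr (Or.inr (Or.inl rfl))))) (Or.inl rfl) (Or.inr (Or.inr (Or.inl rfl))) (Or.inr (Or.inr (Or.inr (Or.inl rfl)))) (Or.inr (Or.inr (Or.inr (Or.inr (Or.inr (Or.inl rfl)))))) n_b_u n_a_b.symm n_b_x n_b_y n_b_w n_a_u.symm n_x_u.symm n_y_u.symm n_u_w n_a_x n_a_y n_a_w n_x_y n_x_w n_y_w h_i_b h_i_u h_l_a h_l_x h_m_y h_m_w  h_b_u h_a_x h_y_w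
          exact claw hG n_i_y n_i_w n_y_w h_i_m.symm h_m_y h_m_w h_i_y h_i_w h_y_w
        exact claw hG n_m_a n_m_y n_a_y h_l_m h_l_a h_l_y h_m_a h_m_y h_a_y
      exact claw hG n_a_b n_a_u n_b_u h_i_a h_i_b h_i_u h_a_b h_a_u h_b_u
    exact claw hG n_a_b n_a_x n_b_x h_i_a h_i_b h_i_x h_a_b h_a_x h_b_x
  exact claw hG n_l_a n_l_b n_a_b h_i_l h_i_a h_i_b h_l_a h_l_b h_a_b

theorem same_RV_RL {i m a b u w : V} (hG : ClawFree G) (hx : Ex2 G Fr i m a b u w)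
    (hd : [i, m, a, b, u, w].Nodup)
    (h_i_a : G.Adj i a) (h_i_b : G.Adj i b) (h_m_u : G.Adj m u) (h_m_w : G.Adj m w) (h_a_b : ¬ G.Adj a b)
    (k0 : RV G i a b m u w)
    (k1 : RL G i b a m u w)
    : False := by
  simp only [List.nodup_cons, List.mem_cons, List.not_mem_nil, or_false, not_or, not_false_eq_true, List.nodup_nil, and_true, ← ne_eq] at hd
  obtain ⟨⟨n_i_m, n_i_a, n_i_b, n_i_u, n_i_w⟩, ⟨n_m_a, n_m_b, n_m_u, n_m_w⟩, ⟨n_a_b, n_a_u, n_a_w⟩, ⟨n_b_u, n_b_w⟩, n_u_w⟩ := hd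
  rcases k0 with ⟨k0_0, k0_1, k0_2, k0_3, k0_4, k0_5⟩
  have h_i_m : G.Adj i m := k0_0
  have h_i_u : G.Adj i u := k0_1
  have h_i_w : ¬ G.Adj i w := k0_2
  have h_m_b : ¬ G.Adj m b := fun e => k0_3 e.symm
  have h_b_u : ¬ G.Adj b u := k0_4
  have h_a_w : ¬ G.Adj a w := k0_5
  rcases k1 with ⟨k1_0, k1_1, k1_2, k1_3, k1_4⟩ | ⟨k1_0, k1_1, k1_2, k1_3, k1_4, k1_5⟩
  · have h_a_u : ¬ G.Adj a u := k1_2
    exact (h_i_w (k1_3)).elim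
  · have h_a_u : ¬ G.Adj a u := k1_2
    exact (h_m_b (k1_4.symm)).elim

theorem opp_RV_RL {i m a b u w : V} (hG : ClawFree G) (hx : Ex2 G Fr i m a b u w)
    (hd : [i, m, a, b, u, w].Nodup)
    (h_i_a : G.Adj i a) (h_i_b : G.Adj i b) (h_m_u : G.Adj m u) (h_m_w : G.Adj m w) (h_a_b : ¬ G.Adj a b)
    (k0 : RV G i a b m u w)
    (k1 : RL G i b a m w u)
    : False := by
  simp only [List.nodup_cons, List.mem_cons, List.not_mem_nil, or_false, not_or, not_false_eq_true, List.nodup_nil, and_true, ← ne_eq] at hd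
  obtain ⟨⟨n_i_m, n_i_a, n_i_b, n_i_u, n_i_w⟩, ⟨n_m_a, n_m_b, n_m_u, n_m_w⟩, ⟨n_a_b, n_a_u, n_a_w⟩, ⟨n_b_u, n_b_w⟩, n_u_w⟩ := hd
  rcases k0 with ⟨k0_0, k0_1, k0_2, k0_3, k0_4, k0_5⟩
  have h_i_m : G.Adj i m := k0_0
  have h_i_u : G.Adj i u := k0_1
  have h_i_w : ¬ G.Adj i w := k0_2
  have h_m_b : ¬ G.Adj m b := fun e => k0_3 e.symm
  have h_b_u : ¬ G.Adj b u := k0_4
  have h_a_w : ¬ G.Adj a w := k0_5
  rcases k1 with ⟨k1_0, k1_1, k1_2, k1_3, k1_4⟩ | ⟨k1_0, k1_1, k1_2, k1_3, k1_4, k1_5⟩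
  · exact (h_i_w (k1_1)).elim
  · exact (h_i_w (k1_1)).elim

theorem safe_RV_RL {i l m a b x y u w : V} (hG : ClawFree G) (hx : Ex3 G Fr i l m a b x y u w)
    (hd : [i, l, m, a, b, x, y, u, w].Nodup)
    (h_i_a : G.Adj i a) (h_i_b : G.Adj i b) (h_l_x : G.Adj l x) (h_l_y : G.Adj l y) (h_m_u : G.Adj m u) (h_m_w : G.Adj m w) (h_a_b : ¬ G.Adj a b)
    (k0 : RV G i a b l x y)
    (k1 : RL G i b a m u w)
    (k2 : G.Adj l u)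
    : False := by
  simp only [List.nodup_cons, List.mem_cons, List.not_mem_nil, or_false, not_or, not_false_eq_true, List.nodup_nil, and_true, ← ne_eq] at hd
  obtain ⟨⟨n_i_l, n_i_m, n_i_a, n_i_b, n_i_x, n_i_y, n_i_u, n_i_w⟩, ⟨n_l_m, n_l_a, n_l_b, n_l_x, n_l_y, n_l_u, n_l_w⟩, ⟨n_m_a, n_m_b, n_m_x, n_m_y, n_m_u, n_m_w⟩, ⟨n_a_b, n_a_x, n_a_y, n_a_u, n_a_w⟩, ⟨n_b_x, n_b_y, n_b_u, n_b_w⟩, ⟨n_x_y, n_x_u, n_x_w⟩, ⟨n_y_u, n_y_w⟩, n_u_w⟩ := hd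
  rcases k0 with ⟨k0_0, k0_1, k0_2, k0_3, k0_4, k0_5⟩
  have h_i_l : G.Adj i l := k0_0
  have h_i_x : G.Adj i x := k0_1
  have h_i_y : ¬ G.Adj i y := k0_2
  have h_l_b : ¬ G.Adj l b := fun e => k0_3 e.symm
  have h_b_x : ¬ G.Adj b x := k0_4
  have h_a_y : ¬ G.Adj a y := k0_5
  rcases k1 with ⟨k1_0, k1_1, k1_2, k1_3, k1_4⟩ | ⟨k1_0, k1_1, k1_2, k1_3, k1_4, k1_5⟩
  · have h_i_m : G.Adj i m := k1_0
    have h_i_u : G.Adj i u := k1_1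
    have h_a_u : ¬ G.Adj a u := k1_2
    have h_i_w : G.Adj i w := k1_3
    have h_a_w : ¬ G.Adj a w := k1_4
    have h_l_u : G.Adj l u := k2
    by_cases h_l_a : G.Adj l a
    · by_cases h_a_x : G.Adj a x
      · by_cases h_b_w : G.Adj b w
        · by_cases h_y_u : G.Adj y u
          · by_cases h_m_b : G.Adj m b
            · exact Ex3.x123 hx (Or.inl rfl) (Or.inr (Or.inr (Or.inl rfl))) (Or.inr (Or.inr (Or.inr (Or.inl rfl)))) (Or.inr (Or.inr (Or.inr (Or.inr (Or.inl rfl))))) (Or.inr (Or.inl rfl)) (Or.inr (Or.inr (Or.inr (Or.inr (Or.inr (Or.inl rfl)))))) n_a_x n_a_y n_a_u n_a_b n_a_w n_x_y n_x_u n_b_x.symm n_x_w n_y_u n_b_y.symm n_y_w n_b_u.symm n_u_w n_b_w h_i_a h_i_x h_l_y h_l_u h_m_b h_m_w  h_a_x h_y_u h_b_w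
            by_cases h_m_a : G.Adj m a
            · by_cases h_m_x : G.Adj m x
              · exact Ex3.x123 hx (Or.inr (Or.inl rfl)) (Or.inr (Or.inr (Or.inr (Or.inr (Or.inr (Or.inl rfl)))))) (Or.inr (Or.inr (Or.inr (Or.inl rfl)))) (Or.inr (Or.inr (Or.inr (Or.inr (Or.inl rfl))))) (Or.inl rfl) (Or.inr (Or.inr (Or.inl rfl))) n_b_w n_b_y n_b_u n_a_b.symm n_b_x n_y_w.symm n_u_w.symm n_a_w.symm n_x_w.symm n_y_u n_a_y.symm n_x_y.symm n_a_u.symm n_x_u.symm n_a_x h_i_b h_i_w h_l_y h_l_u h_m_a h_m_x  h_b_w h_y_u h_a_x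
              exact claw hG n_m_b n_m_x n_b_x h_i_m h_i_b h_i_x h_m_b h_m_x h_b_x
            exact claw hG n_m_a n_m_b n_a_b h_i_m h_i_a h_i_b h_m_a h_m_b h_a_b
          exact claw hG n_a_y n_a_u n_y_u h_l_a h_l_y h_l_u h_a_y h_a_u h_y_u
        exact claw hG n_a_b n_a_w n_b_w h_i_a h_i_b h_i_w h_a_b h_a_w h_b_w
      exact claw hG n_a_b n_a_x n_b_x h_i_a h_i_b h_i_x h_a_b h_a_x h_b_x
    exact claw hG n_l_a n_l_b n_a_b h_i_l h_i_a h_i_b h_l_a h_l_b h_a_b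
  · have h_i_m : G.Adj i m := k1_0
    have h_i_u : G.Adj i u := k1_1
    have h_a_u : ¬ G.Adj a u := k1_2
    have h_i_w : ¬ G.Adj i w := k1_3
    have h_m_b : G.Adj m b := k1_4.symm
    have h_b_w : G.Adj b w := k1_5
    have h_l_u : G.Adj l u := k2
    by_cases h_a_x : G.Adj a x
    · by_cases h_y_u : G.Adj y u
      · exact Ex3.x123 hx (Or.inl rfl) (Or.inr (Or.inr (Or.inl rfl))) (Or.inr (Or.inr (Or.inr (Or.inl rfl)))) (Or.inr (Or.inr (Or.inr (Or.inr (Or.inl rfl))))) (Or.inr (Or.inl rfl)) (Or.inr (Or.inr (Or.inr (Or.inr (Or.inr (Or.inl rfl)))))) n_a_x n_a_y n_a_u n_a_b n_a_w n_x_y n_x_u n_b_x.symm n_x_w n_y_u n_b_y.symm n_y_w n_b_u.symm n_u_w n_b_w h_i_a h_i_x h_l_y h_l_u h_m_b h_m_w  h_a_x h_y_u h_b_w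
      by_cases h_l_a : G.Adj l a
      · exact claw hG n_a_y n_a_u n_y_u h_l_a h_l_y h_l_u h_a_y h_a_u h_y_u
      exact claw hG n_l_a n_l_b n_a_b h_i_l h_i_a h_i_b h_l_a h_l_b h_a_b
    exact claw hG n_a_b n_a_x n_b_x h_i_a h_i_b h_i_x h_a_b h_a_x h_b_x

theorem same_RV_RD {i m a b u w : V} (hG : ClawFree G) (hx : Ex2 G Fr i m a b u w)
    (hd : [i, m, a, b, u, w].Nodup)
    (h_i_a : G.Adj i a) (h_i_b : G.Adj i b) (h_m_u : G.Adj m u) (h_m_w : G.Adj m w) (h_a_b : ¬ G.Adj a b)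
    (k0 : RV G i a b m u w)
    (k1 : RD G i b a m u w)
    : False := by
  simp only [List.nodup_cons, List.mem_cons, List.not_mem_nil, or_false, not_or, not_false_eq_true, List.nodup_nil, and_true, ← ne_eq] at hd
  obtain ⟨⟨n_i_m, n_i_a, n_i_b, n_i_u, n_i_w⟩, ⟨n_m_a, n_m_b, n_m_u, n_m_w⟩, ⟨n_a_b, n_a_u, n_a_w⟩, ⟨n_b_u, n_b_w⟩, n_u_w⟩ := hd
  rcases k0 with ⟨k0_0, k0_1, k0_2, k0_3, k0_4, k0_5⟩
  have h_i_m : G.Adj i m := k0_0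
  have h_i_u : G.Adj i u := k0_1
  have h_i_w : ¬ G.Adj i w := k0_2
  have h_m_b : ¬ G.Adj m b := fun e => k0_3 e.symm
  have h_b_u : ¬ G.Adj b u := k0_4
  have h_a_w : ¬ G.Adj a w := k0_5
  rcases k1 with ⟨k1_0, k1_1, k1_2, k1_3, k1_4, k1_5⟩ | ⟨k1_0, k1_1, k1_2, k1_3, k1_4, k1_5⟩
  · have h_a_u : ¬ G.Adj a u := k1_4
    have h_b_w : ¬ G.Adj b w := k1_5
    exact claw hG n_a_b n_a_u n_b_u h_i_a h_i_b h_i_u h_a_b h_a_u h_b_u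
  · exact (h_i_w (k1_2)).elim

theorem opp_RV_RD {i m a b u w : V} (hG : ClawFree G) (hx : Ex2 G Fr i m a b u w)
    (hd : [i, m, a, b, u, w].Nodup)
    (h_i_a : G.Adj i a) (h_i_b : G.Adj i b) (h_m_u : G.Adj m u) (h_m_w : G.Adj m w) (h_a_b : ¬ G.Adj a b)
    (k0 : RV G i a b m u w)
    (k1 : RD G i b a m w u)
    : False := by
  simp only [List.nodup_cons, List.mem_cons, List.not_mem_nil, or_false, not_or, not_false_eq_true, List.nodup_nil, and_true, ← ne_eq] at hd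
  obtain ⟨⟨n_i_m, n_i_a, n_i_b, n_i_u, n_i_w⟩, ⟨n_m_a, n_m_b, n_m_u, n_m_w⟩, ⟨n_a_b, n_a_u, n_a_w⟩, ⟨n_b_u, n_b_w⟩, n_u_w⟩ := hd
  rcases k0 with ⟨k0_0, k0_1, k0_2, k0_3, k0_4, k0_5⟩
  have h_i_m : G.Adj i m := k0_0
  have h_i_u : G.Adj i u := k0_1
  have h_i_w : ¬ G.Adj i w := k0_2
  have h_m_b : ¬ G.Adj m b := fun e => k0_3 e.symm
  have h_b_u : ¬ G.Adj b u := k0_4
  have h_a_w : ¬ G.Adj a w := k0_5
  rcases k1 with ⟨k1_0, k1_1, k1_2, k1_3, k1_4, k1_5⟩ | ⟨k1_0, k1_1, k1_2, k1_3, k1_4, k1_5⟩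
  · exact (h_i_w (k1_2)).elim
  · exact (h_b_u (k1_4)).elim

theorem safe_RV_RD {i l m a b x y u w : V} (hG : ClawFree G) (hx : Ex3 G Fr i l m a b x y u w)
    (hd : [i, l, m, a, b, x, y, u, w].Nodup)
    (h_i_a : G.Adj i a) (h_i_b : G.Adj i b) (h_l_x : G.Adj l x) (h_l_y : G.Adj l y) (h_m_u : G.Adj m u) (h_m_w : G.Adj m w) (h_a_b : ¬ G.Adj a b)
    (k0 : RV G i a b l x y)
    (k1 : RD G i b a m u w)
    (k2 : G.Adj l u)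
    : False := by
  simp only [List.nodup_cons, List.mem_cons, List.not_mem_nil, or_false, not_or, not_false_eq_true, List.nodup_nil, and_true, ← ne_eq] at hd
  obtain ⟨⟨n_i_l, n_i_m, n_i_a, n_i_b, n_i_x, n_i_y, n_i_u, n_i_w⟩, ⟨n_l_m, n_l_a, n_l_b, n_l_x, n_l_y, n_l_u, n_l_w⟩, ⟨n_m_a, n_m_b, n_m_x, n_m_y, n_m_u, n_m_w⟩, ⟨n_a_b, n_a_x, n_a_y, n_a_u, n_a_w⟩, ⟨n_b_x, n_b_y, n_b_u, n_b_w⟩, ⟨n_x_y, n_x_u, n_x_w⟩, ⟨n_y_u, n_y_w⟩, n_u_w⟩ := hd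
  rcases k0 with ⟨k0_0, k0_1, k0_2, k0_3, k0_4, k0_5⟩
  have h_i_l : G.Adj i l := k0_0
  have h_i_x : G.Adj i x := k0_1
  have h_i_y : ¬ G.Adj i y := k0_2
  have h_l_b : ¬ G.Adj l b := fun e => k0_3 e.symm
  have h_b_x : ¬ G.Adj b x := k0_4
  have h_a_y : ¬ G.Adj a y := k0_5
  rcases k1 with ⟨k1_0, k1_1, k1_2, k1_3, k1_4, k1_5⟩ | ⟨k1_0, k1_1, k1_2, k1_3, k1_4, k1_5⟩
  · have h_i_m : G.Adj i m := k1_0
    have h_m_b : ¬ G.Adj m b := fun e => k1_1 e.symm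
    have h_i_u : G.Adj i u := k1_2
    have h_i_w : ¬ G.Adj i w := k1_3
    have h_a_u : ¬ G.Adj a u := k1_4
    have h_b_w : ¬ G.Adj b w := k1_5
    have h_l_u : G.Adj l u := k2
    by_cases h_b_u : G.Adj b u
    · by_cases h_l_a : G.Adj l a
      · by_cases h_a_x : G.Adj a x
        · by_cases h_m_a : G.Adj m a
          · by_cases h_m_x : G.Adj m x
            · by_cases h_y_u : G.Adj y u
              · by_cases h_u_w : G.Adj u w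
                · by_cases h_y_w : G.Adj y w
                  · by_cases h_l_w : G.Adj l w
                    · exact Ex3.x123 hx (Or.inr (Or.inl rfl)) (Or.inr (Or.inr (Or.inr (Or.inr (Or.inl rfl))))) (Or.inr (Or.inr (Or.inr (Or.inl rfl)))) (Or.inr (Or.inr (Or.inr (Or.inr (Or.inr (Or.inl rfl)))))) (Or.inl rfl) (Or.inr (Or.inr (Or.inl rfl))) n_b_u n_b_y n_b_w n_a_b.symm n_b_x n_y_u.symm n_u_w n_a_u.symm n_x_u.symm n_y_w n_a_y.symm n_x_y.symm n_a_w.symm n_x_w.symm n_a_x h_i_b h_i_u h_l_y h_l_w h_m_a h_m_x  h_b_u h_y_w h_a_x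
                    exact claw hG n_l_b n_l_w n_b_w h_l_u.symm h_b_u.symm h_u_w h_l_b h_l_w h_b_w
                  exact claw hG n_i_y n_i_w n_y_w h_i_u.symm h_y_u.symm h_u_w h_i_y h_i_w h_y_w
                by_cases h_x_y : G.Adj x y
                · exact Ex3.x12_3 hx (Or.inr (Or.inl rfl)) (Or.inr (Or.inr (Or.inr (Or.inr (Or.inl rfl))))) (Or.inr (Or.inr (Or.inl rfl))) (Or.inr (Or.inr (Or.inr (Or.inl rfl)))) (Or.inl rfl) (Or.inr (Or.inr (Or.inr (Or.inr (Or.inr (Or.inl rfl)))))) n_b_u n_b_x n_b_y n_a_b.symm n_b_w n_x_u.symm n_y_u.symm n_a_u.symm n_u_w n_x_y n_a_x.symm n_x_w n_a_y.symm n_y_w n_a_w h_i_b h_i_u h_l_x h_l_y h_m_a h_m_w h_u_w h_b_u h_x_y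
                exact Ex3.x1_23 hx (Or.inr (Or.inl rfl)) (Or.inr (Or.inr (Or.inr (Or.inr (Or.inl rfl))))) (Or.inr (Or.inr (Or.inl rfl))) (Or.inr (Or.inr (Or.inr (Or.inl rfl)))) (Or.inl rfl) (Or.inr (Or.inr (Or.inr (Or.inr (Or.inr (Or.inl rfl)))))) n_b_u n_b_x n_b_y n_a_b.symm n_b_w n_x_u.symm n_y_u.symm n_a_u.symm n_u_w n_x_y n_a_x.symm n_x_w n_a_y.symm n_y_w n_a_w h_i_b h_i_u h_l_x h_l_y h_m_a h_m_w h_x_y h_u_w h_b_u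
              exact claw hG n_a_y n_a_u n_y_u h_l_a h_l_y h_l_u h_a_y h_a_u h_y_u
            exact claw hG n_m_b n_m_x n_b_x h_i_m h_i_b h_i_x h_m_b h_m_x h_b_x
          exact claw hG n_m_a n_m_b n_a_b h_i_m h_i_a h_i_b h_m_a h_m_b h_a_b
        exact claw hG n_a_b n_a_x n_b_x h_i_a h_i_b h_i_x h_a_b h_a_x h_b_x
      exact claw hG n_l_a n_l_b n_a_b h_i_l h_i_a h_i_b h_l_a h_l_b h_a_b
    exact claw hG n_a_b n_a_u n_b_u h_i_a h_i_b h_i_u h_a_b h_a_u h_b_u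
  · have h_i_m : G.Adj i m := k1_0
    have h_m_b : ¬ G.Adj m b := fun e => k1_1 e.symm
    have h_i_w : G.Adj i w := k1_2
    have h_i_u : ¬ G.Adj i u := k1_3
    have h_b_w : G.Adj b w := k1_4
    have h_b_u : G.Adj b u := k1_5
    have h_l_u : G.Adj l u := k2
    by_cases h_m_a : G.Adj m a
    · by_cases h_m_x : G.Adj m x
      · by_cases h_y_u : G.Adj y u
        · by_cases h_a_x : G.Adj a x
          · exact Ex3.x123 hx (Or.inr (Or.inl rfl)) (Or.inr (Or.inr (Or.inr (Or.inr (Or.inr (Or.inl rfl)))))) (Or.inr (Or.inr (Or.inr (Or.inl rfl)))) (Or.inr (Or.inr (Or.inr (Or.inr (Or.inl rfl))))) (Or.inl rfl) (Or.inr (Or.inr (Or.inl rfl))) n_b_w n_b_y n_b_u n_a_b.symm n_b_x n_y_w.symm n_u_w.symm n_a_w.symm n_x_w.symm n_y_u n_a_y.symm n_x_y.symm n_a_u.symm n_x_u.symm n_a_x h_i_b h_i_w h_l_y h_l_u h_m_a h_m_x  h_b_w h_y_u h_a_x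
          exact claw hG n_a_b n_a_x n_b_x h_i_a h_i_b h_i_x h_a_b h_a_x h_b_x
        exact claw hG n_i_y n_i_u n_y_u h_i_l.symm h_l_y h_l_u h_i_y h_i_u h_y_u
      exact claw hG n_m_b n_m_x n_b_x h_i_m h_i_b h_i_x h_m_b h_m_x h_b_x
    exact claw hG n_m_a n_m_b n_a_b h_i_m h_i_a h_i_b h_m_a h_m_b h_a_b

theorem same_RV_RE {i m a b u w : V} (hG : ClawFree G) (hx : Ex2 G Fr i m a b u w)
    (hd : [i, m, a, b, u, w].Nodup)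
    (h_i_a : G.Adj i a) (h_i_b : G.Adj i b) (h_m_u : G.Adj m u) (h_m_w : G.Adj m w) (h_a_b : ¬ G.Adj a b)
    (k0 : RV G i a b m u w)
    (k1 : RE G i b a m u w)
    : False := by
  simp only [List.nodup_cons, List.mem_cons, List.not_mem_nil, or_false, not_or, not_false_eq_true, List.nodup_nil, and_true, ← ne_eq] at hd
  obtain ⟨⟨n_i_m, n_i_a, n_i_b, n_i_u, n_i_w⟩, ⟨n_m_a, n_m_b, n_m_u, n_m_w⟩, ⟨n_a_b, n_a_u, n_a_w⟩, ⟨n_b_u, n_b_w⟩, n_u_w⟩ := hd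
  rcases k0 with ⟨k0_0, k0_1, k0_2, k0_3, k0_4, k0_5⟩
  have h_i_m : G.Adj i m := k0_0
  have h_i_u : G.Adj i u := k0_1
  have h_i_w : ¬ G.Adj i w := k0_2
  have h_m_b : ¬ G.Adj m b := fun e => k0_3 e.symm
  have h_b_u : ¬ G.Adj b u := k0_4
  have h_a_w : ¬ G.Adj a w := k0_5
  rcases k1 with ⟨k1_0, k1_1, k1_2, k1_3⟩
  exact ((k1_0 : ¬ G.Adj i m) h_i_m).elim

theorem opp_RV_RE {i m a b u w : V} (hG : ClawFree G) (hx : Ex2 G Fr i m a b u w)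
    (hd : [i, m, a, b, u, w].Nodup)
    (h_i_a : G.Adj i a) (h_i_b : G.Adj i b) (h_m_u : G.Adj m u) (h_m_w : G.Adj m w) (h_a_b : ¬ G.Adj a b)
    (k0 : RV G i a b m u w)
    (k1 : RE G i b a m w u)
    : False := by
  simp only [List.nodup_cons, List.mem_cons, List.not_mem_nil, or_false, not_or, not_false_eq_true, List.nodup_nil, and_true, ← ne_eq] at hd
  obtain ⟨⟨n_i_m, n_i_a, n_i_b, n_i_u, n_i_w⟩, ⟨n_m_a, n_m_b, n_m_u, n_m_w⟩, ⟨n_a_b, n_a_u, n_a_w⟩, ⟨n_b_u, n_b_w⟩, n_u_w⟩ := hd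
  rcases k0 with ⟨k0_0, k0_1, k0_2, k0_3, k0_4, k0_5⟩
  have h_i_m : G.Adj i m := k0_0
  have h_i_u : G.Adj i u := k0_1
  have h_i_w : ¬ G.Adj i w := k0_2
  have h_m_b : ¬ G.Adj m b := fun e => k0_3 e.symm
  have h_b_u : ¬ G.Adj b u := k0_4
  have h_a_w : ¬ G.Adj a w := k0_5
  rcases k1 with ⟨k1_0, k1_1, k1_2, k1_3⟩
  exact ((k1_0 : ¬ G.Adj i m) h_i_m).elim

theorem safe_RV_RE {i l m a b x y u w : V} (hG : ClawFree G) (hx : Ex3 G Fr i l m a b x y u w)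
    (hd : [i, l, m, a, b, x, y, u, w].Nodup)
    (h_i_a : G.Adj i a) (h_i_b : G.Adj i b) (h_l_x : G.Adj l x) (h_l_y : G.Adj l y) (h_m_u : G.Adj m u) (h_m_w : G.Adj m w) (h_a_b : ¬ G.Adj a b)
    (k0 : RV G i a b l x y)
    (k1 : RE G i b a m u w)
    (k2 : G.Adj l u)
    : False := by
  simp only [List.nodup_cons, List.mem_cons, List.not_mem_nil, or_false, not_or, not_false_eq_true, List.nodup_nil, and_true, ← ne_eq] at hd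
  obtain ⟨⟨n_i_l, n_i_m, n_i_a, n_i_b, n_i_x, n_i_y, n_i_u, n_i_w⟩, ⟨n_l_m, n_l_a, n_l_b, n_l_x, n_l_y, n_l_u, n_l_w⟩, ⟨n_m_a, n_m_b, n_m_x, n_m_y, n_m_u, n_m_w⟩, ⟨n_a_b, n_a_x, n_a_y, n_a_u, n_a_w⟩, ⟨n_b_x, n_b_y, n_b_u, n_b_w⟩, ⟨n_x_y, n_x_u, n_x_w⟩, ⟨n_y_u, n_y_w⟩, n_u_w⟩ := hd
  rcases k0 with ⟨k0_0, k0_1, k0_2, k0_3, k0_4, k0_5⟩
  have h_i_l : G.Adj i l := k0_0
  have h_i_x : G.Adj i x := k0_1
  have h_i_y : ¬ G.Adj i y := k0_2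
  have h_l_b : ¬ G.Adj l b := fun e => k0_3 e.symm
  have h_b_x : ¬ G.Adj b x := k0_4
  have h_a_y : ¬ G.Adj a y := k0_5
  rcases k1 with ⟨k1_0, k1_1, k1_2, k1_3⟩
  have h_i_m : ¬ G.Adj i m := k1_0
  have h_i_u : G.Adj i u := k1_1
  have h_i_w : G.Adj i w := k1_2
  have h_a_u : ¬ G.Adj a u := k1_3
  have h_l_u : G.Adj l u := k2
  by_cases h_l_a : G.Adj l a
  · by_cases h_a_x : G.Adj a x
    · by_cases h_b_u : G.Adj b u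
      · by_cases h_y_u : G.Adj y u
        · by_cases h_m_y : G.Adj m y
          · by_cases h_u_w : G.Adj u w
            · by_cases h_x_y : G.Adj x y
              · by_cases h_b_w : G.Adj b w
                · exact Ex3.x123 hx (Or.inr (Or.inl rfl)) (Or.inr (Or.inr (Or.inr (Or.inr (Or.inr (Or.inl rfl)))))) (Or.inl rfl) (Or.inr (Or.inr (Or.inl rfl))) (Or.inr (Or.inr (Or.inr (Or.inl rfl)))) (Or.inr (Or.inr (Or.inr (Or.inr (Or.inl rfl))))) n_b_w n_a_b.symm n_b_x n_b_y n_b_u n_a_w.symm n_x_w.symm n_y_w.symm n_u_w.symm n_a_x n_a_y n_a_u n_x_y n_x_u n_y_u h_i_b h_i_w h_l_a h_l_x h_m_y h_m_u  h_b_w h_a_x h_y_u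
                by_cases h_l_w : G.Adj l w
                · by_cases h_a_w : G.Adj a w
                  · by_cases h_m_b : G.Adj m b
                    · exact Ex3.x123 hx (Or.inl rfl) (Or.inr (Or.inr (Or.inr (Or.inr (Or.inr (Or.inl rfl)))))) (Or.inr (Or.inr (Or.inl rfl))) (Or.inr (Or.inr (Or.inr (Or.inl rfl)))) (Or.inr (Or.inl rfl)) (Or.inr (Or.inr (Or.inr (Or.inr (Or.inl rfl))))) n_a_w n_a_x n_a_y n_a_b n_a_u n_x_w.symm n_y_w.symm n_b_w.symm n_u_w.symm n_x_y n_b_x.symm n_x_u n_b_y.symm n_y_u n_b_u h_i_a h_i_w h_l_x h_l_y h_m_b h_m_u  h_a_w h_x_y h_b_u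
                    by_cases h_m_x : G.Adj m x
                    · exact Ex3.x123 hx (Or.inr (Or.inl rfl)) (Or.inr (Or.inr (Or.inr (Or.inr (Or.inl rfl))))) (Or.inl rfl) (Or.inr (Or.inr (Or.inr (Or.inr (Or.inr (Or.inl rfl)))))) (Or.inr (Or.inr (Or.inl rfl))) (Or.inr (Or.inr (Or.inr (Or.inl rfl)))) n_b_u n_a_b.symm n_b_w n_b_x n_b_y n_a_u.symm n_u_w n_x_u.symm n_y_u.symm n_a_w n_a_x n_a_y n_x_w.symm n_y_w.symm n_x_y h_i_b h_i_u h_l_a h_l_w h_m_x h_m_y  h_b_u h_a_w h_x_y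
                    by_cases h_b_y : G.Adj b y
                    · exact claw hG n_m_b n_m_x n_b_x h_m_y.symm h_b_y.symm h_x_y.symm h_m_b h_m_x h_b_x
                    by_cases h_y_w : G.Adj y w
                    · exact Ex3.x123 hx (Or.inr (Or.inl rfl)) (Or.inr (Or.inr (Or.inr (Or.inr (Or.inl rfl))))) (Or.inl rfl) (Or.inr (Or.inr (Or.inl rfl))) (Or.inr (Or.inr (Or.inr (Or.inl rfl)))) (Or.inr (Or.inr (Or.inr (Or.inr (Or.inr (Or.inl rfl)))))) n_b_u n_a_b.symm n_b_x n_b_y n_b_w n_a_u.symm n_x_u.symm n_y_u.symm n_u_w n_a_x n_a_y n_a_w n_x_y n_x_w n_y_w h_i_b h_i_u h_l_a h_l_x h_m_y h_m_w  h_b_u h_a_x h_y_w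
                    exact claw hG n_b_y n_b_w n_y_w h_b_u.symm h_y_u.symm h_u_w h_b_y h_b_w h_y_w
                  exact claw hG n_a_b n_a_w n_b_w h_i_a h_i_b h_i_w h_a_b h_a_w h_b_w
                exact claw hG n_l_b n_l_w n_b_w h_i_l h_i_b h_i_w h_l_b h_l_w h_b_w
              exact Ex3.x12_2 hx (Or.inr (Or.inl rfl)) (Or.inr (Or.inr (Or.inr (Or.inr (Or.inl rfl))))) (Or.inl rfl) (Or.inr (Or.inr (Or.inl rfl))) (Or.inr (Or.inr (Or.inr (Or.inl rfl)))) (Or.inr (Or.inr (Or.inr (Or.inr (Or.inr (Or.inl rfl)))))) n_b_u n_a_b.symm n_b_x n_b_y n_b_w n_a_u.symm n_x_u.symm n_y_u.symm n_u_w n_a_x n_a_y n_a_w n_x_y n_x_w n_y_w h_i_b h_i_u h_l_a h_l_x h_m_y h_m_w h_x_y h_b_u h_a_x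
            exact Ex3.x12_3 hx (Or.inr (Or.inl rfl)) (Or.inr (Or.inr (Or.inr (Or.inr (Or.inl rfl))))) (Or.inl rfl) (Or.inr (Or.inr (Or.inl rfl))) (Or.inr (Or.inr (Or.inr (Or.inl rfl)))) (Or.inr (Or.inr (Or.inr (Or.inr (Or.inr (Or.inl rfl)))))) n_b_u n_a_b.symm n_b_x n_b_y n_b_w n_a_u.symm n_x_u.symm n_y_u.symm n_u_w n_a_x n_a_y n_a_w n_x_y n_x_w n_y_w h_i_b h_i_u h_l_a h_l_x h_m_y h_m_w h_u_w h_b_u h_a_x
          exact claw hG n_i_m n_i_y n_m_y h_i_u.symm h_m_u.symm h_y_u.symm h_i_m h_i_y h_m_y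
        exact claw hG n_a_y n_a_u n_y_u h_l_a h_l_y h_l_u h_a_y h_a_u h_y_u
      exact claw hG n_a_b n_a_u n_b_u h_i_a h_i_b h_i_u h_a_b h_a_u h_b_u
    exact claw hG n_a_b n_a_x n_b_x h_i_a h_i_b h_i_x h_a_b h_a_x h_b_x
  exact claw hG n_l_a n_l_b n_a_b h_i_l h_i_a h_i_b h_l_a h_l_b h_a_b

theorem same_RL_RV {i m a b u w : V} (hG : ClawFree G) (hx : Ex2 G Fr i m a b u w)
    (hd : [i, m, a, b, u, w].Nodup)
    (h_i_a : G.Adj i a) (h_i_b : G.Adj i b) (h_m_u : G.Adj m u) (h_m_w : G.Adj m w) (h_a_b : ¬ G.Adj a b)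
    (k0 : RL G i a b m u w)
    (k1 : RV G i b a m u w)
    : False := by
  simp only [List.nodup_cons, List.mem_cons, List.not_mem_nil, or_false, not_or, not_false_eq_true, List.nodup_nil, and_true, ← ne_eq] at hd
  obtain ⟨⟨n_i_m, n_i_a, n_i_b, n_i_u, n_i_w⟩, ⟨n_m_a, n_m_b, n_m_u, n_m_w⟩, ⟨n_a_b, n_a_u, n_a_w⟩, ⟨n_b_u, n_b_w⟩, n_u_w⟩ := hd
  rcases k0 with ⟨k0_0, k0_1, k0_2, k0_3, k0_4⟩ | ⟨k0_0, k0_1, k0_2, k0_3, k0_4, k0_5⟩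
  · have h_i_m : G.Adj i m := k0_0
    have h_i_u : G.Adj i u := k0_1
    have h_b_u : ¬ G.Adj b u := k0_2
    have h_i_w : G.Adj i w := k0_3
    have h_b_w : ¬ G.Adj b w := k0_4
    rcases k1 with ⟨k1_0, k1_1, k1_2, k1_3, k1_4, k1_5⟩
    exact ((k1_2 : ¬ G.Adj i w) h_i_w).elim
  · have h_i_m : G.Adj i m := k0_0
    have h_i_u : G.Adj i u := k0_1
    have h_b_u : ¬ G.Adj b u := k0_2
    have h_i_w : ¬ G.Adj i w := k0_3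
    have h_m_a : G.Adj m a := k0_4.symm
    have h_a_w : G.Adj a w := k0_5
    rcases k1 with ⟨k1_0, k1_1, k1_2, k1_3, k1_4, k1_5⟩
    exact ((fun e => k1_3 e.symm : ¬ G.Adj m a) h_m_a).elim

theorem opp_RL_RV {i m a b u w : V} (hG : ClawFree G) (hx : Ex2 G Fr i m a b u w)
    (hd : [i, m, a, b, u, w].Nodup)
    (h_i_a : G.Adj i a) (h_i_b : G.Adj i b) (h_m_u : G.Adj m u) (h_m_w : G.Adj m w) (h_a_b : ¬ G.Adj a b)
    (k0 : RL G i a b m u w)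
    (k1 : RV G i b a m w u)
    : False := by
  simp only [List.nodup_cons, List.mem_cons, List.not_mem_nil, or_false, not_or, not_false_eq_true, List.nodup_nil, and_true, ← ne_eq] at hd
  obtain ⟨⟨n_i_m, n_i_a, n_i_b, n_i_u, n_i_w⟩, ⟨n_m_a, n_m_b, n_m_u, n_m_w⟩, ⟨n_a_b, n_a_u, n_a_w⟩, ⟨n_b_u, n_b_w⟩, n_u_w⟩ := hd
  rcases k0 with ⟨k0_0, k0_1, k0_2, k0_3, k0_4⟩ | ⟨k0_0, k0_1, k0_2, k0_3, k0_4, k0_5⟩
  · have h_i_m : G.Adj i m := k0_0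
    have h_i_u : G.Adj i u := k0_1
    have h_b_u : ¬ G.Adj b u := k0_2
    have h_i_w : G.Adj i w := k0_3
    have h_b_w : ¬ G.Adj b w := k0_4
    rcases k1 with ⟨k1_0, k1_1, k1_2, k1_3, k1_4, k1_5⟩
    exact ((k1_2 : ¬ G.Adj i u) h_i_u).elim
  · have h_i_m : G.Adj i m := k0_0
    have h_i_u : G.Adj i u := k0_1
    have h_b_u : ¬ G.Adj b u := k0_2
    have h_i_w : ¬ G.Adj i w := k0_3
    have h_m_a : G.Adj m a := k0_4.symm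
    have h_a_w : G.Adj a w := k0_5
    rcases k1 with ⟨k1_0, k1_1, k1_2, k1_3, k1_4, k1_5⟩
    exact (h_i_w (k1_1)).elim

theorem safe_RL_RV {i l m a b x y u w : V} (hG : ClawFree G) (hx : Ex3 G Fr i l m a b x y u w)
    (hd : [i, l, m, a, b, x, y, u, w].Nodup)
    (h_i_a : G.Adj i a) (h_i_b : G.Adj i b) (h_l_x : G.Adj l x) (h_l_y : G.Adj l y) (h_m_u : G.Adj m u) (h_m_w : G.Adj m w) (h_a_b : ¬ G.Adj a b)
    (k0 : RL G i a b l x y)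
    (k1 : RV G i b a m u w)
    (k2 : G.Adj x m)
    : False := by
  simp only [List.nodup_cons, List.mem_cons, List.not_mem_nil, or_false, not_or, not_false_eq_true, List.nodup_nil, and_true, ← ne_eq] at hd
  obtain ⟨⟨n_i_l, n_i_m, n_i_a, n_i_b, n_i_x, n_i_y, n_i_u, n_i_w⟩, ⟨n_l_m, n_l_a, n_l_b, n_l_x, n_l_y, n_l_u, n_l_w⟩, ⟨n_m_a, n_m_b, n_m_x, n_m_y, n_m_u, n_m_w⟩, ⟨n_a_b, n_a_x, n_a_y, n_a_u, n_a_w⟩, ⟨n_b_x, n_b_y, n_b_u, n_b_w⟩, ⟨n_x_y, n_x_u, n_x_w⟩, ⟨n_y_u, n_y_w⟩, n_u_w⟩ := hd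
  rcases k0 with ⟨k0_0, k0_1, k0_2, k0_3, k0_4⟩ | ⟨k0_0, k0_1, k0_2, k0_3, k0_4, k0_5⟩
  · have h_i_l : G.Adj i l := k0_0
    have h_i_x : G.Adj i x := k0_1
    have h_b_x : ¬ G.Adj b x := k0_2
    have h_i_y : G.Adj i y := k0_3
    have h_b_y : ¬ G.Adj b y := k0_4
    rcases k1 with ⟨k1_0, k1_1, k1_2, k1_3, k1_4, k1_5⟩
    have h_i_m : G.Adj i m := k1_0
    have h_i_u : G.Adj i u := k1_1
    have h_i_w : ¬ G.Adj i w := k1_2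
    have h_m_a : ¬ G.Adj m a := fun e => k1_3 e.symm
    have h_a_u : ¬ G.Adj a u := k1_4
    have h_b_w : ¬ G.Adj b w := k1_5
    have h_m_x : G.Adj m x := k2.symm
    by_cases h_m_b : G.Adj m b
    · by_cases h_b_u : G.Adj b u
      · by_cases h_a_y : G.Adj a y
        · by_cases h_x_w : G.Adj x w
          · by_cases h_l_a : G.Adj l a
            · exact Ex3.x123 hx (Or.inr (Or.inl rfl)) (Or.inr (Or.inr (Or.inr (Or.inr (Or.inl rfl))))) (Or.inl rfl) (Or.inr (Or.inr (Or.inr (Or.inl rfl)))) (Or.inr (Or.inr (Or.inl rfl))) (Or.inr (Or.inr (Or.inr (Or.inr (Or.inr (Or.inl rfl)))))) n_b_u n_a_b.symm n_b_y n_b_x n_b_w n_a_u.symm n_y_u.symm n_x_u.symm n_u_w n_a_y n_a_x n_a_w n_x_y.symm n_y_w n_x_w h_i_b h_i_u h_l_a h_l_y h_m_x h_m_w  h_b_u h_a_y h_x_w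
            by_cases h_l_b : G.Adj l b
            · by_cases h_l_u : G.Adj l u
              · exact Ex3.x123 hx (Or.inl rfl) (Or.inr (Or.inr (Or.inr (Or.inl rfl)))) (Or.inr (Or.inl rfl)) (Or.inr (Or.inr (Or.inr (Or.inr (Or.inl rfl))))) (Or.inr (Or.inr (Or.inl rfl))) (Or.inr (Or.inr (Or.inr (Or.inr (Or.inr (Or.inl rfl)))))) n_a_y n_a_b n_a_u n_a_x n_a_w n_b_y.symm n_y_u n_x_y.symm n_y_w n_b_u n_b_x n_b_w n_x_u.symm n_u_w n_x_w h_i_a h_i_y h_l_b h_l_u h_m_x h_m_w  h_a_y h_b_u h_x_w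
              exact claw hG n_l_a n_l_u n_a_u h_i_l h_i_a h_i_u h_l_a h_l_u h_a_u
            exact claw hG n_l_a n_l_b n_a_b h_i_l h_i_a h_i_b h_l_a h_l_b h_a_b
          exact claw hG n_b_x n_b_w n_x_w h_m_b h_m_x h_m_w h_b_x h_b_w h_x_w
        exact claw hG n_a_b n_a_y n_b_y h_i_a h_i_b h_i_y h_a_b h_a_y h_b_y
      exact claw hG n_a_b n_a_u n_b_u h_i_a h_i_b h_i_u h_a_b h_a_u h_b_u
    exact claw hG n_m_a n_m_b n_a_b h_i_m h_i_a h_i_b h_m_a h_m_b h_a_b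
  · have h_i_l : G.Adj i l := k0_0
    have h_i_x : G.Adj i x := k0_1
    have h_b_x : ¬ G.Adj b x := k0_2
    have h_i_y : ¬ G.Adj i y := k0_3
    have h_l_a : G.Adj l a := k0_4.symm
    have h_a_y : G.Adj a y := k0_5
    rcases k1 with ⟨k1_0, k1_1, k1_2, k1_3, k1_4, k1_5⟩
    have h_i_m : G.Adj i m := k1_0
    have h_i_u : G.Adj i u := k1_1
    have h_i_w : ¬ G.Adj i w := k1_2
    have h_m_a : ¬ G.Adj m a := fun e => k1_3 e.symm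
    have h_a_u : ¬ G.Adj a u := k1_4
    have h_b_w : ¬ G.Adj b w := k1_5
    have h_m_x : G.Adj m x := k2.symm
    by_cases h_b_u : G.Adj b u
    · by_cases h_x_w : G.Adj x w
      · exact Ex3.x123 hx (Or.inr (Or.inl rfl)) (Or.inr (Or.inr (Or.inr (Or.inr (Or.inl rfl))))) (Or.inl rfl) (Or.inr (Or.inr (Or.inr (Or.inl rfl)))) (Or.inr (Or.inr (Or.inl rfl))) (Or.inr (Or.inr (Or.inr (Or.inr (Or.inr (Or.inl rfl)))))) n_b_u n_a_b.symm n_b_y n_b_x n_b_w n_a_u.symm n_y_u.symm n_x_u.symm n_u_w n_a_y n_a_x n_a_w n_x_y.symm n_y_w n_x_w h_i_b h_i_u h_l_a h_l_y h_m_x h_m_w  h_b_u h_a_y h_x_w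
      by_cases h_m_b : G.Adj m b
      · exact claw hG n_b_x n_b_w n_x_w h_m_b h_m_x h_m_w h_b_x h_b_w h_x_w
      exact claw hG n_m_a n_m_b n_a_b h_i_m h_i_a h_i_b h_m_a h_m_b h_a_b
    exact claw hG n_a_b n_a_u n_b_u h_i_a h_i_b h_i_u h_a_b h_a_u h_b_u

theorem same_RL_RL {i m a b u w : V} (hG : ClawFree G) (hx : Ex2 G Fr i m a b u w)
    (hd : [i, m, a, b, u, w].Nodup)
    (h_i_a : G.Adj i a) (h_i_b : G.Adj i b) (h_m_u : G.Adj m u) (h_m_w : G.Adj m w) (h_a_b : ¬ G.Adj a b)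
    (k0 : RL G i a b m u w)
    (k1 : RL G i b a m u w)
    : False := by
  simp only [List.nodup_cons, List.mem_cons, List.not_mem_nil, or_false, not_or, not_false_eq_true, List.nodup_nil, and_true, ← ne_eq] at hd
  obtain ⟨⟨n_i_m, n_i_a, n_i_b, n_i_u, n_i_w⟩, ⟨n_m_a, n_m_b, n_m_u, n_m_w⟩, ⟨n_a_b, n_a_u, n_a_w⟩, ⟨n_b_u, n_b_w⟩, n_u_w⟩ := hd
  rcases k0 with ⟨k0_0, k0_1, k0_2, k0_3, k0_4⟩ | ⟨k0_0, k0_1, k0_2, k0_3, k0_4, k0_5⟩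
  · have h_i_m : G.Adj i m := k0_0
    have h_i_u : G.Adj i u := k0_1
    have h_b_u : ¬ G.Adj b u := k0_2
    have h_i_w : G.Adj i w := k0_3
    have h_b_w : ¬ G.Adj b w := k0_4
    rcases k1 with ⟨k1_0, k1_1, k1_2, k1_3, k1_4⟩ | ⟨k1_0, k1_1, k1_2, k1_3, k1_4, k1_5⟩
    · have h_a_u : ¬ G.Adj a u := k1_2
      have h_a_w : ¬ G.Adj a w := k1_4
      exact claw hG n_a_b n_a_u n_b_u h_i_a h_i_b h_i_u h_a_b h_a_u h_b_u
    · have h_a_u : ¬ G.Adj a u := k1_2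
      exact ((k1_3 : ¬ G.Adj i w) h_i_w).elim
  · have h_i_m : G.Adj i m := k0_0
    have h_i_u : G.Adj i u := k0_1
    have h_b_u : ¬ G.Adj b u := k0_2
    have h_i_w : ¬ G.Adj i w := k0_3
    have h_m_a : G.Adj m a := k0_4.symm
    have h_a_w : G.Adj a w := k0_5
    rcases k1 with ⟨k1_0, k1_1, k1_2, k1_3, k1_4⟩ | ⟨k1_0, k1_1, k1_2, k1_3, k1_4, k1_5⟩
    · have h_a_u : ¬ G.Adj a u := k1_2
      exact (h_i_w (k1_3)).elim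
    · have h_a_u : ¬ G.Adj a u := k1_2
      have h_m_b : G.Adj m b := k1_4.symm
      have h_b_w : G.Adj b w := k1_5
      exact claw hG n_a_b n_a_u n_b_u h_i_a h_i_b h_i_u h_a_b h_a_u h_b_u

theorem opp_RL_RL {i m a b u w : V} (hG : ClawFree G) (hx : Ex2 G Fr i m a b u w)
    (hd : [i, m, a, b, u, w].Nodup)
    (h_i_a : G.Adj i a) (h_i_b : G.Adj i b) (h_m_u : G.Adj m u) (h_m_w : G.Adj m w) (h_a_b : ¬ G.Adj a b)
    (k0 : RL G i a b m u w)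
    (k1 : RL G i b a m w u)
    : False := by
  simp only [List.nodup_cons, List.mem_cons, List.not_mem_nil, or_false, not_or, not_false_eq_true, List.nodup_nil, and_true, ← ne_eq] at hd
  obtain ⟨⟨n_i_m, n_i_a, n_i_b, n_i_u, n_i_w⟩, ⟨n_m_a, n_m_b, n_m_u, n_m_w⟩, ⟨n_a_b, n_a_u, n_a_w⟩, ⟨n_b_u, n_b_w⟩, n_u_w⟩ := hd
  rcases k0 with ⟨k0_0, k0_1, k0_2, k0_3, k0_4⟩ | ⟨k0_0, k0_1, k0_2, k0_3, k0_4, k0_5⟩
  · have h_i_m : G.Adj i m := k0_0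
    have h_i_u : G.Adj i u := k0_1
    have h_b_u : ¬ G.Adj b u := k0_2
    have h_i_w : G.Adj i w := k0_3
    have h_b_w : ¬ G.Adj b w := k0_4
    rcases k1 with ⟨k1_0, k1_1, k1_2, k1_3, k1_4⟩ | ⟨k1_0, k1_1, k1_2, k1_3, k1_4, k1_5⟩
    · have h_a_w : ¬ G.Adj a w := k1_2
      have h_a_u : ¬ G.Adj a u := k1_4
      exact claw hG n_a_b n_a_u n_b_u h_i_a h_i_b h_i_u h_a_b h_a_u h_b_u
    · have h_a_w : ¬ G.Adj a w := k1_2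
      exact ((k1_3 : ¬ G.Adj i u) h_i_u).elim
  · have h_i_m : G.Adj i m := k0_0
    have h_i_u : G.Adj i u := k0_1
    have h_b_u : ¬ G.Adj b u := k0_2
    have h_i_w : ¬ G.Adj i w := k0_3
    have h_m_a : G.Adj m a := k0_4.symm
    have h_a_w : G.Adj a w := k0_5
    rcases k1 with ⟨k1_0, k1_1, k1_2, k1_3, k1_4⟩ | ⟨k1_0, k1_1, k1_2, k1_3, k1_4, k1_5⟩
    · exact (h_i_w (k1_1)).elim
    · exact (h_i_w (k1_1)).elim

theorem safe_RL_RL {i l m a b x y u w : V} (hG : ClawFree G) (hx : Ex3 G Fr i l m a b x y u w)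
    (hd : [i, l, m, a, b, x, y, u, w].Nodup)
    (h_i_a : G.Adj i a) (h_i_b : G.Adj i b) (h_l_x : G.Adj l x) (h_l_y : G.Adj l y) (h_m_u : G.Adj m u) (h_m_w : G.Adj m w) (h_a_b : ¬ G.Adj a b)
    (k0 : RL G i a b l x y)
    (k1 : RL G i b a m u w)
    (k2 : G.Adj x u)
    : False := by
  simp only [List.nodup_cons, List.mem_cons, List.not_mem_nil, or_false, not_or, not_false_eq_true, List.nodup_nil, and_true, ← ne_eq] at hd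
  obtain ⟨⟨n_i_l, n_i_m, n_i_a, n_i_b, n_i_x, n_i_y, n_i_u, n_i_w⟩, ⟨n_l_m, n_l_a, n_l_b, n_l_x, n_l_y, n_l_u, n_l_w⟩, ⟨n_m_a, n_m_b, n_m_x, n_m_y, n_m_u, n_m_w⟩, ⟨n_a_b, n_a_x, n_a_y, n_a_u, n_a_w⟩, ⟨n_b_x, n_b_y, n_b_u, n_b_w⟩, ⟨n_x_y, n_x_u, n_x_w⟩, ⟨n_y_u, n_y_w⟩, n_u_w⟩ := hd
  rcases k0 with ⟨k0_0, k0_1, k0_2, k0_3, k0_4⟩ | ⟨k0_0, k0_1, k0_2, k0_3, k0_4, k0_5⟩
  · have h_i_l : G.Adj i l := k0_0
    have h_i_x : G.Adj i x := k0_1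
    have h_b_x : ¬ G.Adj b x := k0_2
    have h_i_y : G.Adj i y := k0_3
    have h_b_y : ¬ G.Adj b y := k0_4
    rcases k1 with ⟨k1_0, k1_1, k1_2, k1_3, k1_4⟩ | ⟨k1_0, k1_1, k1_2, k1_3, k1_4, k1_5⟩
    · have h_i_m : G.Adj i m := k1_0
      have h_i_u : G.Adj i u := k1_1
      have h_a_u : ¬ G.Adj a u := k1_2
      have h_i_w : G.Adj i w := k1_3
      have h_a_w : ¬ G.Adj a w := k1_4
      have h_x_u : G.Adj x u := k2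
      by_cases h_a_y : G.Adj a y
      · by_cases h_b_w : G.Adj b w
        · by_cases h_l_a : G.Adj l a
          · by_cases h_m_b : G.Adj m b
            · exact Ex3.x123 hx (Or.inr (Or.inr (Or.inl rfl))) (Or.inr (Or.inr (Or.inr (Or.inr (Or.inl rfl))))) (Or.inl rfl) (Or.inr (Or.inr (Or.inr (Or.inl rfl)))) (Or.inr (Or.inl rfl)) (Or.inr (Or.inr (Or.inr (Or.inr (Or.inr (Or.inl rfl)))))) n_x_u n_a_x.symm n_x_y n_b_x.symm n_x_w n_a_u.symm n_y_u.symm n_b_u.symm n_u_w n_a_y n_a_b n_a_w n_b_y.symm n_y_w n_b_w h_i_x h_i_u h_l_a h_l_y h_m_b h_m_w  h_x_u h_a_y h_b_w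
            by_cases h_m_x : G.Adj m x
            · exact Ex3.x123 hx (Or.inr (Or.inl rfl)) (Or.inr (Or.inr (Or.inr (Or.inr (Or.inr (Or.inl rfl)))))) (Or.inl rfl) (Or.inr (Or.inr (Or.inr (Or.inl rfl)))) (Or.inr (Or.inr (Or.inl rfl))) (Or.inr (Or.inr (Or.inr (Or.inr (Or.inl rfl))))) n_b_w n_a_b.symm n_b_y n_b_x n_b_u n_a_w.symm n_y_w.symm n_x_w.symm n_u_w.symm n_a_y n_a_x n_a_u n_x_y.symm n_y_u n_x_u h_i_b h_i_w h_l_a h_l_y h_m_x h_m_u  h_b_w h_a_y h_x_u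
            exact claw hG n_m_b n_m_x n_b_x h_i_m h_i_b h_i_x h_m_b h_m_x h_b_x
          by_cases h_l_u : G.Adj l u
          · by_cases h_m_b : G.Adj m b
            · exact Ex3.x123 hx (Or.inl rfl) (Or.inr (Or.inr (Or.inr (Or.inl rfl)))) (Or.inr (Or.inr (Or.inl rfl))) (Or.inr (Or.inr (Or.inr (Or.inr (Or.inl rfl))))) (Or.inr (Or.inl rfl)) (Or.inr (Or.inr (Or.inr (Or.inr (Or.inr (Or.inl rfl)))))) n_a_y n_a_x n_a_u n_a_b n_a_w n_x_y.symm n_y_u n_b_y.symm n_y_w n_x_u n_b_x.symm n_x_w n_b_u.symm n_u_w n_b_w h_i_a h_i_y h_l_x h_l_u h_m_b h_m_w  h_a_y h_x_u h_b_w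
            by_cases h_m_x : G.Adj m x
            · by_cases h_l_b : G.Adj l b
              · by_cases h_l_w : G.Adj l w
                · exact Ex3.x123 hx (Or.inl rfl) (Or.inr (Or.inr (Or.inr (Or.inl rfl)))) (Or.inr (Or.inl rfl)) (Or.inr (Or.inr (Or.inr (Or.inr (Or.inr (Or.inl rfl)))))) (Or.inr (Or.inr (Or.inl rfl))) (Or.inr (Or.inr (Or.inr (Or.inr (Or.inl rfl))))) n_a_y n_a_b n_a_w n_a_x n_a_u n_b_y.symm n_y_w n_x_y.symm n_y_u n_b_w n_b_x n_b_u n_x_w.symm n_u_w.symm n_x_u h_i_a h_i_y h_l_b h_l_w h_m_x h_m_u  h_a_y h_b_w h_x_u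
                exact claw hG n_l_a n_l_w n_a_w h_i_l h_i_a h_i_w h_l_a h_l_w h_a_w
              exact claw hG n_l_a n_l_b n_a_b h_i_l h_i_a h_i_b h_l_a h_l_b h_a_b
            exact claw hG n_m_b n_m_x n_b_x h_i_m h_i_b h_i_x h_m_b h_m_x h_b_x
          exact claw hG n_l_a n_l_u n_a_u h_i_l h_i_a h_i_u h_l_a h_l_u h_a_u
        exact claw hG n_a_b n_a_w n_b_w h_i_a h_i_b h_i_w h_a_b h_a_w h_b_w
      exact claw hG n_a_b n_a_y n_b_y h_i_a h_i_b h_i_y h_a_b h_a_y h_b_y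
    · have h_i_m : G.Adj i m := k1_0
      have h_i_u : G.Adj i u := k1_1
      have h_a_u : ¬ G.Adj a u := k1_2
      have h_i_w : ¬ G.Adj i w := k1_3
      have h_m_b : G.Adj m b := k1_4.symm
      have h_b_w : G.Adj b w := k1_5
      have h_x_u : G.Adj x u := k2
      by_cases h_a_y : G.Adj a y
      · by_cases h_l_a : G.Adj l a
        · exact Ex3.x123 hx (Or.inr (Or.inr (Or.inl rfl))) (Or.inr (Or.inr (Or.inr (Or.inr (Or.inl rfl))))) (Or.inl rfl) (Or.inr (Or.inr (Or.inr (Or.inl rfl)))) (Or.inr (Or.inl rfl)) (Or.inr (Or.inr (Or.inr (Or.inr (Or.inr (Or.inl rfl)))))) n_x_u n_a_x.symm n_x_y n_b_x.symm n_x_w n_a_u.symm n_y_u.symm n_b_u.symm n_u_w n_a_y n_a_b n_a_w n_b_y.symm n_y_w n_b_w h_i_x h_i_u h_l_a h_l_y h_m_b h_m_w  h_x_u h_a_y h_b_w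
        by_cases h_l_u : G.Adj l u
        · exact Ex3.x123 hx (Or.inl rfl) (Or.inr (Or.inr (Or.inr (Or.inl rfl)))) (Or.inr (Or.inr (Or.inl rfl))) (Or.inr (Or.inr (Or.inr (Or.inr (Or.inl rfl))))) (Or.inr (Or.inl rfl)) (Or.inr (Or.inr (Or.inr (Or.inr (Or.inr (Or.inl rfl)))))) n_a_y n_a_x n_a_u n_a_b n_a_w n_x_y.symm n_y_u n_b_y.symm n_y_w n_x_u n_b_x.symm n_x_w n_b_u.symm n_u_w n_b_w h_i_a h_i_y h_l_x h_l_u h_m_b h_m_w  h_a_y h_x_u h_b_w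
        exact claw hG n_l_a n_l_u n_a_u h_i_l h_i_a h_i_u h_l_a h_l_u h_a_u
      exact claw hG n_a_b n_a_y n_b_y h_i_a h_i_b h_i_y h_a_b h_a_y h_b_y
  · have h_i_l : G.Adj i l := k0_0
    have h_i_x : G.Adj i x := k0_1
    have h_b_x : ¬ G.Adj b x := k0_2
    have h_i_y : ¬ G.Adj i y := k0_3
    have h_l_a : G.Adj l a := k0_4.symm
    have h_a_y : G.Adj a y := k0_5
    rcases k1 with ⟨k1_0, k1_1, k1_2, k1_3, k1_4⟩ | ⟨k1_0, k1_1, k1_2, k1_3, k1_4, k1_5⟩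
    · have h_i_m : G.Adj i m := k1_0
      have h_i_u : G.Adj i u := k1_1
      have h_a_u : ¬ G.Adj a u := k1_2
      have h_i_w : G.Adj i w := k1_3
      have h_a_w : ¬ G.Adj a w := k1_4
      have h_x_u : G.Adj x u := k2
      by_cases h_b_w : G.Adj b w
      · by_cases h_m_b : G.Adj m b
        · exact Ex3.x123 hx (Or.inr (Or.inr (Or.inl rfl))) (Or.inr (Or.inr (Or.inr (Or.inr (Or.inl rfl))))) (Or.inl rfl) (Or.inr (Or.inr (Or.inr (Or.inl rfl)))) (Or.inr (Or.inl rfl)) (Or.inr (Or.inr (Or.inr (Or.inr (Or.inr (Or.inl rfl)))))) n_x_u n_a_x.symm n_x_y n_b_x.symm n_x_w n_a_u.symm n_y_u.symm n_b_u.symm n_u_w n_a_y n_a_b n_a_w n_b_y.symm n_y_w n_b_w h_i_x h_i_u h_l_a h_l_y h_m_b h_m_w  h_x_u h_a_y h_b_w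
        by_cases h_m_x : G.Adj m x
        · exact Ex3.x123 hx (Or.inr (Or.inl rfl)) (Or.inr (Or.inr (Or.inr (Or.inr (Or.inr (Or.inl rfl)))))) (Or.inl rfl) (Or.inr (Or.inr (Or.inr (Or.inl rfl)))) (Or.inr (Or.inr (Or.inl rfl))) (Or.inr (Or.inr (Or.inr (Or.inr (Or.inl rfl))))) n_b_w n_a_b.symm n_b_y n_b_x n_b_u n_a_w.symm n_y_w.symm n_x_w.symm n_u_w.symm n_a_y n_a_x n_a_u n_x_y.symm n_y_u n_x_u h_i_b h_i_w h_l_a h_l_y h_m_x h_m_u  h_b_w h_a_y h_x_u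
        exact claw hG n_m_b n_m_x n_b_x h_i_m h_i_b h_i_x h_m_b h_m_x h_b_x
      exact claw hG n_a_b n_a_w n_b_w h_i_a h_i_b h_i_w h_a_b h_a_w h_b_w
    · have h_i_m : G.Adj i m := k1_0
      have h_i_u : G.Adj i u := k1_1
      have h_a_u : ¬ G.Adj a u := k1_2
      have h_i_w : ¬ G.Adj i w := k1_3
      have h_m_b : G.Adj m b := k1_4.symm
      have h_b_w : G.Adj b w := k1_5
      have h_x_u : G.Adj x u := k2
      exact Ex3.x123 hx (Or.inr (Or.inr (Or.inl rfl))) (Or.inr (Or.inr (Or.inr (Or.inr (Or.inl rfl))))) (Or.inl rfl) (Or.inr (Or.inr (Or.inr (Or.inl rfl)))) (Or.inr (Or.inl rfl)) (Or.inr (Or.inr (Or.inr (Or.inr (Or.inr (Or.inl rfl)))))) n_x_u n_a_x.symm n_x_y n_b_x.symm n_x_w n_a_u.symm n_y_u.symm n_b_u.symm n_u_w n_a_y n_a_b n_a_w n_b_y.symm n_y_w n_b_w h_i_x h_i_u h_l_a h_l_y h_m_b h_m_w  h_x_u h_a_y h_b_w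

theorem same_RL_RD {i m a b u w : V} (hG : ClawFree G) (hx : Ex2 G Fr i m a b u w)
    (hd : [i, m, a, b, u, w].Nodup)
    (h_i_a : G.Adj i a) (h_i_b : G.Adj i b) (h_m_u : G.Adj m u) (h_m_w : G.Adj m w) (h_a_b : ¬ G.Adj a b)
    (k0 : RL G i a b m u w)
    (k1 : RD G i b a m u w)
    : False := by
  simp only [List.nodup_cons, List.mem_cons, List.not_mem_nil, or_false, not_or, not_false_eq_true, List.nodup_nil, and_true, ← ne_eq] at hd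
  obtain ⟨⟨n_i_m, n_i_a, n_i_b, n_i_u, n_i_w⟩, ⟨n_m_a, n_m_b, n_m_u, n_m_w⟩, ⟨n_a_b, n_a_u, n_a_w⟩, ⟨n_b_u, n_b_w⟩, n_u_w⟩ := hd
  rcases k0 with ⟨k0_0, k0_1, k0_2, k0_3, k0_4⟩ | ⟨k0_0, k0_1, k0_2, k0_3, k0_4, k0_5⟩
  · have h_i_m : G.Adj i m := k0_0
    have h_i_u : G.Adj i u := k0_1
    have h_b_u : ¬ G.Adj b u := k0_2
    have h_i_w : G.Adj i w := k0_3
    have h_b_w : ¬ G.Adj b w := k0_4
    rcases k1 with ⟨k1_0, k1_1, k1_2, k1_3, k1_4, k1_5⟩ | ⟨k1_0, k1_1, k1_2, k1_3, k1_4, k1_5⟩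
    · have h_m_b : ¬ G.Adj m b := fun e => k1_1 e.symm
      exact ((k1_3 : ¬ G.Adj i w) h_i_w).elim
    · have h_m_b : ¬ G.Adj m b := fun e => k1_1 e.symm
      exact ((k1_3 : ¬ G.Adj i u) h_i_u).elim
  · have h_i_m : G.Adj i m := k0_0
    have h_i_u : G.Adj i u := k0_1
    have h_b_u : ¬ G.Adj b u := k0_2
    have h_i_w : ¬ G.Adj i w := k0_3
    have h_m_a : G.Adj m a := k0_4.symm
    have h_a_w : G.Adj a w := k0_5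
    rcases k1 with ⟨k1_0, k1_1, k1_2, k1_3, k1_4, k1_5⟩ | ⟨k1_0, k1_1, k1_2, k1_3, k1_4, k1_5⟩
    · have h_m_b : ¬ G.Adj m b := fun e => k1_1 e.symm
      have h_a_u : ¬ G.Adj a u := k1_4
      have h_b_w : ¬ G.Adj b w := k1_5
      exact claw hG n_a_b n_a_u n_b_u h_i_a h_i_b h_i_u h_a_b h_a_u h_b_u
    · have h_m_b : ¬ G.Adj m b := fun e => k1_1 e.symm
      exact (h_i_w (k1_2)).elim

theorem opp_RL_RD {i m a b u w : V} (hG : ClawFree G) (hx : Ex2 G Fr i m a b u w)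
    (hd : [i, m, a, b, u, w].Nodup)
    (h_i_a : G.Adj i a) (h_i_b : G.Adj i b) (h_m_u : G.Adj m u) (h_m_w : G.Adj m w) (h_a_b : ¬ G.Adj a b)
    (k0 : RL G i a b m u w)
    (k1 : RD G i b a m w u)
    : False := by
  simp only [List.nodup_cons, List.mem_cons, List.not_mem_nil, or_false, not_or, not_false_eq_true, List.nodup_nil, and_true, ← ne_eq] at hd
  obtain ⟨⟨n_i_m, n_i_a, n_i_b, n_i_u, n_i_w⟩, ⟨n_m_a, n_m_b, n_m_u, n_m_w⟩, ⟨n_a_b, n_a_u, n_a_w⟩, ⟨n_b_u, n_b_w⟩, n_u_w⟩ := hd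
  rcases k0 with ⟨k0_0, k0_1, k0_2, k0_3, k0_4⟩ | ⟨k0_0, k0_1, k0_2, k0_3, k0_4, k0_5⟩
  · have h_i_m : G.Adj i m := k0_0
    have h_i_u : G.Adj i u := k0_1
    have h_b_u : ¬ G.Adj b u := k0_2
    have h_i_w : G.Adj i w := k0_3
    have h_b_w : ¬ G.Adj b w := k0_4
    rcases k1 with ⟨k1_0, k1_1, k1_2, k1_3, k1_4, k1_5⟩ | ⟨k1_0, k1_1, k1_2, k1_3, k1_4, k1_5⟩
    · have h_m_b : ¬ G.Adj m b := fun e => k1_1 e.symm
      exact ((k1_3 : ¬ G.Adj i u) h_i_u).elim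
    · have h_m_b : ¬ G.Adj m b := fun e => k1_1 e.symm
      exact ((k1_3 : ¬ G.Adj i w) h_i_w).elim
  · have h_i_m : G.Adj i m := k0_0
    have h_i_u : G.Adj i u := k0_1
    have h_b_u : ¬ G.Adj b u := k0_2
    have h_i_w : ¬ G.Adj i w := k0_3
    have h_m_a : G.Adj m a := k0_4.symm
    have h_a_w : G.Adj a w := k0_5
    rcases k1 with ⟨k1_0, k1_1, k1_2, k1_3, k1_4, k1_5⟩ | ⟨k1_0, k1_1, k1_2, k1_3, k1_4, k1_5⟩
    · have h_m_b : ¬ G.Adj m b := fun e => k1_1 e.symm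
      exact (h_i_w (k1_2)).elim
    · have h_m_b : ¬ G.Adj m b := fun e => k1_1 e.symm
      exact (h_b_u (k1_4)).elim

theorem safe_RL_RD {i l m a b x y u w : V} (hG : ClawFree G) (hx : Ex3 G Fr i l m a b x y u w)
    (hd : [i, l, m, a, b, x, y, u, w].Nodup)
    (h_i_a : G.Adj i a) (h_i_b : G.Adj i b) (h_l_x : G.Adj l x) (h_l_y : G.Adj l y) (h_m_u : G.Adj m u) (h_m_w : G.Adj m w) (h_a_b : ¬ G.Adj a b)
    (k0 : RL G i a b l x y)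
    (k1 : RD G i b a m u w)
    (k2 : G.Adj x u)
    : False := by
  simp only [List.nodup_cons, List.mem_cons, List.not_mem_nil, or_false, not_or, not_false_eq_true, List.nodup_nil, and_true, ← ne_eq] at hd
  obtain ⟨⟨n_i_l, n_i_m, n_i_a, n_i_b, n_i_x, n_i_y, n_i_u, n_i_w⟩, ⟨n_l_m, n_l_a, n_l_b, n_l_x, n_l_y, n_l_u, n_l_w⟩, ⟨n_m_a, n_m_b, n_m_x, n_m_y, n_m_u, n_m_w⟩, ⟨n_a_b, n_a_x, n_a_y, n_a_u, n_a_w⟩, ⟨n_b_x, n_b_y, n_b_u, n_b_w⟩, ⟨n_x_y, n_x_u, n_x_w⟩, ⟨n_y_u, n_y_w⟩, n_u_w⟩ := hd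
  rcases k0 with ⟨k0_0, k0_1, k0_2, k0_3, k0_4⟩ | ⟨k0_0, k0_1, k0_2, k0_3, k0_4, k0_5⟩
  · have h_i_l : G.Adj i l := k0_0
    have h_i_x : G.Adj i x := k0_1
    have h_b_x : ¬ G.Adj b x := k0_2
    have h_i_y : G.Adj i y := k0_3
    have h_b_y : ¬ G.Adj b y := k0_4
    rcases k1 with ⟨k1_0, k1_1, k1_2, k1_3, k1_4, k1_5⟩ | ⟨k1_0, k1_1, k1_2, k1_3, k1_4, k1_5⟩
    · have h_i_m : G.Adj i m := k1_0
      have h_m_b : ¬ G.Adj m b := fun e => k1_1 e.symm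
      have h_i_u : G.Adj i u := k1_2
      have h_i_w : ¬ G.Adj i w := k1_3
      have h_a_u : ¬ G.Adj a u := k1_4
      have h_b_w : ¬ G.Adj b w := k1_5
      have h_x_u : G.Adj x u := k2
      by_cases h_b_u : G.Adj b u
      · by_cases h_m_x : G.Adj m x
        · by_cases h_x_y : G.Adj x y
          · by_cases h_m_a : G.Adj m a
            · by_cases h_u_w : G.Adj u w
              · by_cases h_a_y : G.Adj a y
                · by_cases h_x_w : G.Adj x w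
                  · by_cases h_l_a : G.Adj l a
                    · exact Ex3.x123 hx (Or.inr (Or.inl rfl)) (Or.inr (Or.inr (Or.inr (Or.inr (Or.inl rfl))))) (Or.inl rfl) (Or.inr (Or.inr (Or.inr (Or.inl rfl)))) (Or.inr (Or.inr (Or.inl rfl))) (Or.inr (Or.inr (Or.inr (Or.inr (Or.inr (Or.inl rfl)))))) n_b_u n_a_b.symm n_b_y n_b_x n_b_w n_a_u.symm n_y_u.symm n_x_u.symm n_u_w n_a_y n_a_x n_a_w n_x_y.symm n_y_w n_x_w h_i_b h_i_u h_l_a h_l_y h_m_x h_m_w  h_b_u h_a_y h_x_w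
                    by_cases h_l_u : G.Adj l u
                    · by_cases h_l_b : G.Adj l b
                      · exact Ex3.x123 hx (Or.inl rfl) (Or.inr (Or.inr (Or.inr (Or.inl rfl)))) (Or.inr (Or.inl rfl)) (Or.inr (Or.inr (Or.inr (Or.inr (Or.inl rfl))))) (Or.inr (Or.inr (Or.inl rfl))) (Or.inr (Or.inr (Or.inr (Or.inr (Or.inr (Or.inl rfl)))))) n_a_y n_a_b n_a_u n_a_x n_a_w n_b_y.symm n_y_u n_x_y.symm n_y_w n_b_u n_b_x n_b_w n_x_u.symm n_u_w n_x_w h_i_a h_i_y h_l_b h_l_u h_m_x h_m_w  h_a_y h_b_u h_x_w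
                      exact claw hG n_l_a n_l_b n_a_b h_i_l h_i_a h_i_b h_l_a h_l_b h_a_b
                    exact claw hG n_l_a n_l_u n_a_u h_i_l h_i_a h_i_u h_l_a h_l_u h_a_u
                  exact claw hG n_b_x n_b_w n_x_w h_b_u.symm h_x_u.symm h_u_w h_b_x h_b_w h_x_w
                exact claw hG n_a_b n_a_y n_b_y h_i_a h_i_b h_i_y h_a_b h_a_y h_b_y
              exact Ex3.x12_3 hx (Or.inr (Or.inl rfl)) (Or.inr (Or.inr (Or.inr (Or.inr (Or.inl rfl))))) (Or.inr (Or.inr (Or.inl rfl))) (Or.inr (Or.inr (Or.inr (Or.inl rfl)))) (Or.inl rfl) (Or.inr (Or.inr (Or.inr (Or.inr (Or.inr (Or.inl rfl)))))) n_b_u n_b_x n_b_y n_a_b.symm n_b_w n_x_u.symm n_y_u.symm n_a_u.symm n_u_w n_x_y n_a_x.symm n_x_w n_a_y.symm n_y_w n_a_w h_i_b h_i_u h_l_x h_l_y h_m_a h_m_w h_u_w h_b_u h_x_y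
            exact claw hG n_m_a n_m_b n_a_b h_i_m h_i_a h_i_b h_m_a h_m_b h_a_b
          exact claw hG n_b_x n_b_y n_x_y h_i_b h_i_x h_i_y h_b_x h_b_y h_x_y
        exact claw hG n_m_b n_m_x n_b_x h_i_m h_i_b h_i_x h_m_b h_m_x h_b_x
      exact claw hG n_a_b n_a_u n_b_u h_i_a h_i_b h_i_u h_a_b h_a_u h_b_u
    · have h_i_m : G.Adj i m := k1_0
      have h_m_b : ¬ G.Adj m b := fun e => k1_1 e.symm
      have h_i_w : G.Adj i w := k1_2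
      have h_i_u : ¬ G.Adj i u := k1_3
      have h_b_w : G.Adj b w := k1_4
      have h_b_u : G.Adj b u := k1_5
      have h_x_u : G.Adj x u := k2
      by_cases h_m_x : G.Adj m x
      · by_cases h_x_y : G.Adj x y
        · by_cases h_m_a : G.Adj m a
          · by_cases h_m_y : G.Adj m y
            · by_cases h_a_y : G.Adj a y
              · by_cases h_a_x : G.Adj a x
                · by_cases h_l_a : G.Adj l a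
                  · exact Ex3.x123 hx (Or.inr (Or.inl rfl)) (Or.inr (Or.inr (Or.inr (Or.inr (Or.inr (Or.inl rfl)))))) (Or.inl rfl) (Or.inr (Or.inr (Or.inr (Or.inl rfl)))) (Or.inr (Or.inr (Or.inl rfl))) (Or.inr (Or.inr (Or.inr (Or.inr (Or.inl rfl))))) n_b_w n_a_b.symm n_b_y n_b_x n_b_u n_a_w.symm n_y_w.symm n_x_w.symm n_u_w.symm n_a_y n_a_x n_a_u n_x_y.symm n_y_u n_x_u h_i_b h_i_w h_l_a h_l_y h_m_x h_m_u  h_b_w h_a_y h_x_u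
                  by_cases h_l_u : G.Adj l u
                  · exact Ex3.x123 hx (Or.inr (Or.inl rfl)) (Or.inr (Or.inr (Or.inr (Or.inr (Or.inr (Or.inl rfl)))))) (Or.inr (Or.inr (Or.inl rfl))) (Or.inr (Or.inr (Or.inr (Or.inr (Or.inl rfl))))) (Or.inl rfl) (Or.inr (Or.inr (Or.inr (Or.inl rfl)))) n_b_w n_b_x n_b_u n_a_b.symm n_b_y n_x_w.symm n_u_w.symm n_a_w.symm n_y_w.symm n_x_u n_a_x.symm n_x_y n_a_u.symm n_y_u.symm n_a_y h_i_b h_i_w h_l_x h_l_u h_m_a h_m_y  h_b_w h_x_u h_a_y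
                  by_cases h_a_u : G.Adj a u
                  · exact Ex3.x123 hx (Or.inr (Or.inl rfl)) (Or.inr (Or.inr (Or.inr (Or.inr (Or.inr (Or.inl rfl)))))) (Or.inr (Or.inr (Or.inl rfl))) (Or.inr (Or.inr (Or.inr (Or.inl rfl)))) (Or.inl rfl) (Or.inr (Or.inr (Or.inr (Or.inr (Or.inl rfl))))) n_b_w n_b_x n_b_y n_a_b.symm n_b_u n_x_w.symm n_y_w.symm n_a_w.symm n_u_w.symm n_x_y n_a_x.symm n_x_u n_a_y.symm n_y_u n_a_u h_i_b h_i_w h_l_x h_l_y h_m_a h_m_u  h_b_w h_x_y h_a_u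
                  exact claw hG n_l_a n_l_u n_a_u h_l_x.symm h_a_x.symm h_x_u h_l_a h_l_u h_a_u
                exact claw hG n_a_b n_a_x n_b_x h_i_a h_i_b h_i_x h_a_b h_a_x h_b_x
              exact claw hG n_a_b n_a_y n_b_y h_i_a h_i_b h_i_y h_a_b h_a_y h_b_y
            exact claw hG n_m_b n_m_y n_b_y h_i_m h_i_b h_i_y h_m_b h_m_y h_b_y
          exact claw hG n_m_a n_m_b n_a_b h_i_m h_i_a h_i_b h_m_a h_m_b h_a_b
        exact claw hG n_b_x n_b_y n_x_y h_i_b h_i_x h_i_y h_b_x h_b_y h_x_y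
      exact claw hG n_m_b n_m_x n_b_x h_i_m h_i_b h_i_x h_m_b h_m_x h_b_x
  · have h_i_l : G.Adj i l := k0_0
    have h_i_x : G.Adj i x := k0_1
    have h_b_x : ¬ G.Adj b x := k0_2
    have h_i_y : ¬ G.Adj i y := k0_3
    have h_l_a : G.Adj l a := k0_4.symm
    have h_a_y : G.Adj a y := k0_5
    rcases k1 with ⟨k1_0, k1_1, k1_2, k1_3, k1_4, k1_5⟩ | ⟨k1_0, k1_1, k1_2, k1_3, k1_4, k1_5⟩
    · have h_i_m : G.Adj i m := k1_0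
      have h_m_b : ¬ G.Adj m b := fun e => k1_1 e.symm
      have h_i_u : G.Adj i u := k1_2
      have h_i_w : ¬ G.Adj i w := k1_3
      have h_a_u : ¬ G.Adj a u := k1_4
      have h_b_w : ¬ G.Adj b w := k1_5
      have h_x_u : G.Adj x u := k2
      by_cases h_m_x : G.Adj m x
      · by_cases h_b_u : G.Adj b u
        · by_cases h_u_w : G.Adj u w
          · by_cases h_x_w : G.Adj x w
            · exact Ex3.x123 hx (Or.inr (Or.inl rfl)) (Or.inr (Or.inr (Or.inr (Or.inr (Or.inl rfl))))) (Or.inl rfl) (Or.inr (Or.inr (Or.inr (Or.inl rfl)))) (Or.inr (Or.inr (Or.inl rfl))) (Or.inr (Or.inr (Or.inr (Or.inr (Or.inr (Or.inl rfl)))))) n_b_u n_a_b.symm n_b_y n_b_x n_b_w n_a_u.symm n_y_u.symm n_x_u.symm n_u_w n_a_y n_a_x n_a_w n_x_y.symm n_y_w n_x_w h_i_b h_i_u h_l_a h_l_y h_m_x h_m_w  h_b_u h_a_y h_x_w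
            exact claw hG n_b_x n_b_w n_x_w h_b_u.symm h_x_u.symm h_u_w h_b_x h_b_w h_x_w
          exact Ex3.x12_3 hx (Or.inr (Or.inl rfl)) (Or.inr (Or.inr (Or.inr (Or.inr (Or.inl rfl))))) (Or.inl rfl) (Or.inr (Or.inr (Or.inr (Or.inl rfl)))) (Or.inr (Or.inr (Or.inl rfl))) (Or.inr (Or.inr (Or.inr (Or.inr (Or.inr (Or.inl rfl)))))) n_b_u n_a_b.symm n_b_y n_b_x n_b_w n_a_u.symm n_y_u.symm n_x_u.symm n_u_w n_a_y n_a_x n_a_w n_x_y.symm n_y_w n_x_w h_i_b h_i_u h_l_a h_l_y h_m_x h_m_w h_u_w h_b_u h_a_y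
        exact claw hG n_a_b n_a_u n_b_u h_i_a h_i_b h_i_u h_a_b h_a_u h_b_u
      exact claw hG n_m_b n_m_x n_b_x h_i_m h_i_b h_i_x h_m_b h_m_x h_b_x
    · have h_i_m : G.Adj i m := k1_0
      have h_m_b : ¬ G.Adj m b := fun e => k1_1 e.symm
      have h_i_w : G.Adj i w := k1_2
      have h_i_u : ¬ G.Adj i u := k1_3
      have h_b_w : G.Adj b w := k1_4
      have h_b_u : G.Adj b u := k1_5
      have h_x_u : G.Adj x u := k2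
      by_cases h_m_x : G.Adj m x
      · exact Ex3.x123 hx (Or.inr (Or.inl rfl)) (Or.inr (Or.inr (Or.inr (Or.inr (Or.inr (Or.inl rfl)))))) (Or.inl rfl) (Or.inr (Or.inr (Or.inr (Or.inl rfl)))) (Or.inr (Or.inr (Or.inl rfl))) (Or.inr (Or.inr (Or.inr (Or.inr (Or.inl rfl))))) n_b_w n_a_b.symm n_b_y n_b_x n_b_u n_a_w.symm n_y_w.symm n_x_w.symm n_u_w.symm n_a_y n_a_x n_a_u n_x_y.symm n_y_u n_x_u h_i_b h_i_w h_l_a h_l_y h_m_x h_m_u  h_b_w h_a_y h_x_u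
      exact claw hG n_m_b n_m_x n_b_x h_i_m h_i_b h_i_x h_m_b h_m_x h_b_x

theorem same_RL_RE {i m a b u w : V} (hG : ClawFree G) (hx : Ex2 G Fr i m a b u w)
    (hd : [i, m, a, b, u, w].Nodup)
    (h_i_a : G.Adj i a) (h_i_b : G.Adj i b) (h_m_u : G.Adj m u) (h_m_w : G.Adj m w) (h_a_b : ¬ G.Adj a b)
    (k0 : RL G i a b m u w)
    (k1 : RE G i b a m u w)
    : False := by
  simp only [List.nodup_cons, List.mem_cons, List.not_mem_nil, or_false, not_or, not_false_eq_true, List.nodup_nil, and_true, ← ne_eq] at hd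
  obtain ⟨⟨n_i_m, n_i_a, n_i_b, n_i_u, n_i_w⟩, ⟨n_m_a, n_m_b, n_m_u, n_m_w⟩, ⟨n_a_b, n_a_u, n_a_w⟩, ⟨n_b_u, n_b_w⟩, n_u_w⟩ := hd
  rcases k0 with ⟨k0_0, k0_1, k0_2, k0_3, k0_4⟩ | ⟨k0_0, k0_1, k0_2, k0_3, k0_4, k0_5⟩
  · have h_i_m : G.Adj i m := k0_0
    have h_i_u : G.Adj i u := k0_1
    have h_b_u : ¬ G.Adj b u := k0_2
    have h_i_w : G.Adj i w := k0_3
    have h_b_w : ¬ G.Adj b w := k0_4
    rcases k1 with ⟨k1_0, k1_1, k1_2, k1_3⟩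
    exact ((k1_0 : ¬ G.Adj i m) h_i_m).elim
  · have h_i_m : G.Adj i m := k0_0
    have h_i_u : G.Adj i u := k0_1
    have h_b_u : ¬ G.Adj b u := k0_2
    have h_i_w : ¬ G.Adj i w := k0_3
    have h_m_a : G.Adj m a := k0_4.symm
    have h_a_w : G.Adj a w := k0_5
    rcases k1 with ⟨k1_0, k1_1, k1_2, k1_3⟩
    exact ((k1_0 : ¬ G.Adj i m) h_i_m).elim

theorem opp_RL_RE {i m a b u w : V} (hG : ClawFree G) (hx : Ex2 G Fr i m a b u w)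
    (hd : [i, m, a, b, u, w].Nodup)
    (h_i_a : G.Adj i a) (h_i_b : G.Adj i b) (h_m_u : G.Adj m u) (h_m_w : G.Adj m w) (h_a_b : ¬ G.Adj a b)
    (k0 : RL G i a b m u w)
    (k1 : RE G i b a m w u)
    : False := by
  simp only [List.nodup_cons, List.mem_cons, List.not_mem_nil, or_false, not_or, not_false_eq_true, List.nodup_nil, and_true, ← ne_eq] at hd
  obtain ⟨⟨n_i_m, n_i_a, n_i_b, n_i_u, n_i_w⟩, ⟨n_m_a, n_m_b, n_m_u, n_m_w⟩, ⟨n_a_b, n_a_u, n_a_w⟩, ⟨n_b_u, n_b_w⟩, n_u_w⟩ := hd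
  rcases k0 with ⟨k0_0, k0_1, k0_2, k0_3, k0_4⟩ | ⟨k0_0, k0_1, k0_2, k0_3, k0_4, k0_5⟩
  · have h_i_m : G.Adj i m := k0_0
    have h_i_u : G.Adj i u := k0_1
    have h_b_u : ¬ G.Adj b u := k0_2
    have h_i_w : G.Adj i w := k0_3
    have h_b_w : ¬ G.Adj b w := k0_4
    rcases k1 with ⟨k1_0, k1_1, k1_2, k1_3⟩
    exact ((k1_0 : ¬ G.Adj i m) h_i_m).elim
  · have h_i_m : G.Adj i m := k0_0
    have h_i_u : G.Adj i u := k0_1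
    have h_b_u : ¬ G.Adj b u := k0_2
    have h_i_w : ¬ G.Adj i w := k0_3
    have h_m_a : G.Adj m a := k0_4.symm
    have h_a_w : G.Adj a w := k0_5
    rcases k1 with ⟨k1_0, k1_1, k1_2, k1_3⟩
    exact ((k1_0 : ¬ G.Adj i m) h_i_m).elim

theorem safe_RL_RE {i l m a b x y u w : V} (hG : ClawFree G) (hx : Ex3 G Fr i l m a b x y u w)
    (hd : [i, l, m, a, b, x, y, u, w].Nodup)
    (h_i_a : G.Adj i a) (h_i_b : G.Adj i b) (h_l_x : G.Adj l x) (h_l_y : G.Adj l y) (h_m_u : G.Adj m u) (h_m_w : G.Adj m w) (h_a_b : ¬ G.Adj a b)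
    (k0 : RL G i a b l x y)
    (k1 : RE G i b a m u w)
    (k2 : G.Adj x u)
    : False := by
  simp only [List.nodup_cons, List.mem_cons, List.not_mem_nil, or_false, not_or, not_false_eq_true, List.nodup_nil, and_true, ← ne_eq] at hd
  obtain ⟨⟨n_i_l, n_i_m, n_i_a, n_i_b, n_i_x, n_i_y, n_i_u, n_i_w⟩, ⟨n_l_m, n_l_a, n_l_b, n_l_x, n_l_y, n_l_u, n_l_w⟩, ⟨n_m_a, n_m_b, n_m_x, n_m_y, n_m_u, n_m_w⟩, ⟨n_a_b, n_a_x, n_a_y, n_a_u, n_a_w⟩, ⟨n_b_x, n_b_y, n_b_u, n_b_w⟩, ⟨n_x_y, n_x_u, n_x_w⟩, ⟨n_y_u, n_y_w⟩, n_u_w⟩ := hd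
  rcases k0 with ⟨k0_0, k0_1, k0_2, k0_3, k0_4⟩ | ⟨k0_0, k0_1, k0_2, k0_3, k0_4, k0_5⟩
  · have h_i_l : G.Adj i l := k0_0
    have h_i_x : G.Adj i x := k0_1
    have h_b_x : ¬ G.Adj b x := k0_2
    have h_i_y : G.Adj i y := k0_3
    have h_b_y : ¬ G.Adj b y := k0_4
    rcases k1 with ⟨k1_0, k1_1, k1_2, k1_3⟩
    have h_i_m : ¬ G.Adj i m := k1_0
    have h_i_u : G.Adj i u := k1_1
    have h_i_w : G.Adj i w := k1_2
    have h_a_u : ¬ G.Adj a u := k1_3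
    have h_x_u : G.Adj x u := k2
    by_cases h_a_y : G.Adj a y
    · by_cases h_b_u : G.Adj b u
      · by_cases h_x_y : G.Adj x y
        · by_cases h_b_w : G.Adj b w
          · by_cases h_m_b : G.Adj m b
            · by_cases h_l_a : G.Adj l a
              · exact Ex3.x123 hx (Or.inr (Or.inr (Or.inl rfl))) (Or.inr (Or.inr (Or.inr (Or.inr (Or.inl rfl))))) (Or.inl rfl) (Or.inr (Or.inr (Or.inr (Or.inl rfl)))) (Or.inr (Or.inl rfl)) (Or.inr (Or.inr (Or.inr (Or.inr (Or.inr (Or.inl rfl)))))) n_x_u n_a_x.symm n_x_y n_b_x.symm n_x_w n_a_u.symm n_y_u.symm n_b_u.symm n_u_w n_a_y n_a_b n_a_w n_b_y.symm n_y_w n_b_w h_i_x h_i_u h_l_a h_l_y h_m_b h_m_w  h_x_u h_a_y h_b_w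
              by_cases h_l_u : G.Adj l u
              · exact Ex3.x123 hx (Or.inl rfl) (Or.inr (Or.inr (Or.inr (Or.inl rfl)))) (Or.inr (Or.inr (Or.inl rfl))) (Or.inr (Or.inr (Or.inr (Or.inr (Or.inl rfl))))) (Or.inr (Or.inl rfl)) (Or.inr (Or.inr (Or.inr (Or.inr (Or.inr (Or.inl rfl)))))) n_a_y n_a_x n_a_u n_a_b n_a_w n_x_y.symm n_y_u n_b_y.symm n_y_w n_x_u n_b_x.symm n_x_w n_b_u.symm n_u_w n_b_w h_i_a h_i_y h_l_x h_l_u h_m_b h_m_w  h_a_y h_x_u h_b_w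
              exact claw hG n_l_a n_l_u n_a_u h_i_l h_i_a h_i_u h_l_a h_l_u h_a_u
            by_cases h_m_x : G.Adj m x
            · by_cases h_l_a : G.Adj l a
              · exact Ex3.x123 hx (Or.inr (Or.inl rfl)) (Or.inr (Or.inr (Or.inr (Or.inr (Or.inr (Or.inl rfl)))))) (Or.inl rfl) (Or.inr (Or.inr (Or.inr (Or.inl rfl)))) (Or.inr (Or.inr (Or.inl rfl))) (Or.inr (Or.inr (Or.inr (Or.inr (Or.inl rfl))))) n_b_w n_a_b.symm n_b_y n_b_x n_b_u n_a_w.symm n_y_w.symm n_x_w.symm n_u_w.symm n_a_y n_a_x n_a_u n_x_y.symm n_y_u n_x_u h_i_b h_i_w h_l_a h_l_y h_m_x h_m_u  h_b_w h_a_y h_x_u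
              by_cases h_l_b : G.Adj l b
              · by_cases h_l_w : G.Adj l w
                · exact Ex3.x123 hx (Or.inl rfl) (Or.inr (Or.inr (Or.inr (Or.inl rfl)))) (Or.inr (Or.inl rfl)) (Or.inr (Or.inr (Or.inr (Or.inr (Or.inr (Or.inl rfl)))))) (Or.inr (Or.inr (Or.inl rfl))) (Or.inr (Or.inr (Or.inr (Or.inr (Or.inl rfl))))) n_a_y n_a_b n_a_w n_a_x n_a_u n_b_y.symm n_y_w n_x_y.symm n_y_u n_b_w n_b_x n_b_u n_x_w.symm n_u_w.symm n_x_u h_i_a h_i_y h_l_b h_l_w h_m_x h_m_u  h_a_y h_b_w h_x_u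
                by_cases h_a_w : G.Adj a w
                · by_cases h_m_a : G.Adj m a
                  · exact Ex3.x123 hx (Or.inr (Or.inl rfl)) (Or.inr (Or.inr (Or.inr (Or.inr (Or.inl rfl))))) (Or.inr (Or.inr (Or.inl rfl))) (Or.inr (Or.inr (Or.inr (Or.inl rfl)))) (Or.inl rfl) (Or.inr (Or.inr (Or.inr (Or.inr (Or.inr (Or.inl rfl)))))) n_b_u n_b_x n_b_y n_a_b.symm n_b_w n_x_u.symm n_y_u.symm n_a_u.symm n_u_w n_x_y n_a_x.symm n_x_w n_a_y.symm n_y_w n_a_w h_i_b h_i_u h_l_x h_l_y h_m_a h_m_w  h_b_u h_x_y h_a_w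
                  exact claw hG n_m_a n_m_b n_a_b h_m_w.symm h_a_w.symm h_b_w.symm h_m_a h_m_b h_a_b
                exact claw hG n_l_a n_l_w n_a_w h_i_l h_i_a h_i_w h_l_a h_l_w h_a_w
              exact claw hG n_l_a n_l_b n_a_b h_i_l h_i_a h_i_b h_l_a h_l_b h_a_b
            exact claw hG n_m_b n_m_x n_b_x h_m_u.symm h_b_u.symm h_x_u.symm h_m_b h_m_x h_b_x
          by_cases h_a_w : G.Adj a w
          · by_cases h_m_b : G.Adj m b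
            · exact Ex3.x123 hx (Or.inl rfl) (Or.inr (Or.inr (Or.inr (Or.inr (Or.inr (Or.inl rfl)))))) (Or.inr (Or.inr (Or.inl rfl))) (Or.inr (Or.inr (Or.inr (Or.inl rfl)))) (Or.inr (Or.inl rfl)) (Or.inr (Or.inr (Or.inr (Or.inr (Or.inl rfl))))) n_a_w n_a_x n_a_y n_a_b n_a_u n_x_w.symm n_y_w.symm n_b_w.symm n_u_w.symm n_x_y n_b_x.symm n_x_u n_b_y.symm n_y_u n_b_u h_i_a h_i_w h_l_x h_l_y h_m_b h_m_u  h_a_w h_x_y h_b_u
            by_cases h_x_w : G.Adj x w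
            · by_cases h_m_x : G.Adj m x
              · by_cases h_l_a : G.Adj l a
                · exact Ex3.x123 hx (Or.inr (Or.inl rfl)) (Or.inr (Or.inr (Or.inr (Or.inr (Or.inl rfl))))) (Or.inl rfl) (Or.inr (Or.inr (Or.inr (Or.inl rfl)))) (Or.inr (Or.inr (Or.inl rfl))) (Or.inr (Or.inr (Or.inr (Or.inr (Or.inr (Or.inl rfl)))))) n_b_u n_a_b.symm n_b_y n_b_x n_b_w n_a_u.symm n_y_u.symm n_x_u.symm n_u_w n_a_y n_a_x n_a_w n_x_y.symm n_y_w n_x_w h_i_b h_i_u h_l_a h_l_y h_m_x h_m_w  h_b_u h_a_y h_x_w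
                by_cases h_l_b : G.Adj l b
                · by_cases h_l_u : G.Adj l u
                  · exact Ex3.x123 hx (Or.inl rfl) (Or.inr (Or.inr (Or.inr (Or.inl rfl)))) (Or.inr (Or.inl rfl)) (Or.inr (Or.inr (Or.inr (Or.inr (Or.inl rfl))))) (Or.inr (Or.inr (Or.inl rfl))) (Or.inr (Or.inr (Or.inr (Or.inr (Or.inr (Or.inl rfl)))))) n_a_y n_a_b n_a_u n_a_x n_a_w n_b_y.symm n_y_u n_x_y.symm n_y_w n_b_u n_b_x n_b_w n_x_u.symm n_u_w n_x_w h_i_a h_i_y h_l_b h_l_u h_m_x h_m_w  h_a_y h_b_u h_x_w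
                  exact claw hG n_l_a n_l_u n_a_u h_i_l h_i_a h_i_u h_l_a h_l_u h_a_u
                exact claw hG n_l_a n_l_b n_a_b h_i_l h_i_a h_i_b h_l_a h_l_b h_a_b
              exact claw hG n_m_b n_m_x n_b_x h_m_u.symm h_b_u.symm h_x_u.symm h_m_b h_m_x h_b_x
            exact claw hG n_b_x n_b_w n_x_w h_i_b h_i_x h_i_w h_b_x h_b_w h_x_w
          exact claw hG n_a_b n_a_w n_b_w h_i_a h_i_b h_i_w h_a_b h_a_w h_b_w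
        exact claw hG n_b_x n_b_y n_x_y h_i_b h_i_x h_i_y h_b_x h_b_y h_x_y
      exact claw hG n_a_b n_a_u n_b_u h_i_a h_i_b h_i_u h_a_b h_a_u h_b_u
    exact claw hG n_a_b n_a_y n_b_y h_i_a h_i_b h_i_y h_a_b h_a_y h_b_y
  · have h_i_l : G.Adj i l := k0_0
    have h_i_x : G.Adj i x := k0_1
    have h_b_x : ¬ G.Adj b x := k0_2
    have h_i_y : ¬ G.Adj i y := k0_3
    have h_l_a : G.Adj l a := k0_4.symm
    have h_a_y : G.Adj a y := k0_5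
    rcases k1 with ⟨k1_0, k1_1, k1_2, k1_3⟩
    have h_i_m : ¬ G.Adj i m := k1_0
    have h_i_u : G.Adj i u := k1_1
    have h_i_w : G.Adj i w := k1_2
    have h_a_u : ¬ G.Adj a u := k1_3
    have h_x_u : G.Adj x u := k2
    by_cases h_b_u : G.Adj b u
    · by_cases h_b_w : G.Adj b w
      · by_cases h_m_b : G.Adj m b
        · exact Ex3.x123 hx (Or.inr (Or.inr (Or.inl rfl))) (Or.inr (Or.inr (Or.inr (Or.inr (Or.inl rfl))))) (Or.inl rfl) (Or.inr (Or.inr (Or.inr (Or.inl rfl)))) (Or.inr (Or.inl rfl)) (Or.inr (Or.inr (Or.inr (Or.inr (Or.inr (Or.inl rfl)))))) n_x_u n_a_x.symm n_x_y n_b_x.symm n_x_w n_a_u.symm n_y_u.symm n_b_u.symm n_u_w n_a_y n_a_b n_a_w n_b_y.symm n_y_w n_b_w h_i_x h_i_u h_l_a h_l_y h_m_b h_m_w  h_x_u h_a_y h_b_w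
        by_cases h_m_x : G.Adj m x
        · exact Ex3.x123 hx (Or.inr (Or.inl rfl)) (Or.inr (Or.inr (Or.inr (Or.inr (Or.inr (Or.inl rfl)))))) (Or.inl rfl) (Or.inr (Or.inr (Or.inr (Or.inl rfl)))) (Or.inr (Or.inr (Or.inl rfl))) (Or.inr (Or.inr (Or.inr (Or.inr (Or.inl rfl))))) n_b_w n_a_b.symm n_b_y n_b_x n_b_u n_a_w.symm n_y_w.symm n_x_w.symm n_u_w.symm n_a_y n_a_x n_a_u n_x_y.symm n_y_u n_x_u h_i_b h_i_w h_l_a h_l_y h_m_x h_m_u  h_b_w h_a_y h_x_u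
        exact claw hG n_m_b n_m_x n_b_x h_m_u.symm h_b_u.symm h_x_u.symm h_m_b h_m_x h_b_x
      by_cases h_x_w : G.Adj x w
      · by_cases h_m_b : G.Adj m b
        · exact Ex3.x123 hx (Or.inr (Or.inr (Or.inl rfl))) (Or.inr (Or.inr (Or.inr (Or.inr (Or.inr (Or.inl rfl)))))) (Or.inl rfl) (Or.inr (Or.inr (Or.inr (Or.inl rfl)))) (Or.inr (Or.inl rfl)) (Or.inr (Or.inr (Or.inr (Or.inr (Or.inl rfl))))) n_x_w n_a_x.symm n_x_y n_b_x.symm n_x_u n_a_w.symm n_y_w.symm n_b_w.symm n_u_w.symm n_a_y n_a_b n_a_u n_b_y.symm n_y_u n_b_u h_i_x h_i_w h_l_a h_l_y h_m_b h_m_u  h_x_w h_a_y h_b_u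
        by_cases h_m_x : G.Adj m x
        · exact Ex3.x123 hx (Or.inr (Or.inl rfl)) (Or.inr (Or.inr (Or.inr (Or.inr (Or.inl rfl))))) (Or.inl rfl) (Or.inr (Or.inr (Or.inr (Or.inl rfl)))) (Or.inr (Or.inr (Or.inl rfl))) (Or.inr (Or.inr (Or.inr (Or.inr (Or.inr (Or.inl rfl)))))) n_b_u n_a_b.symm n_b_y n_b_x n_b_w n_a_u.symm n_y_u.symm n_x_u.symm n_u_w n_a_y n_a_x n_a_w n_x_y.symm n_y_w n_x_w h_i_b h_i_u h_l_a h_l_y h_m_x h_m_w  h_b_u h_a_y h_x_w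
        exact claw hG n_m_b n_m_x n_b_x h_m_u.symm h_b_u.symm h_x_u.symm h_m_b h_m_x h_b_x
      exact claw hG n_b_x n_b_w n_x_w h_i_b h_i_x h_i_w h_b_x h_b_w h_x_w
    exact claw hG n_a_b n_a_u n_b_u h_i_a h_i_b h_i_u h_a_b h_a_u h_b_u

theorem same_RD_RV {i m a b u w : V} (hG : ClawFree G) (hx : Ex2 G Fr i m a b u w)
    (hd : [i, m, a, b, u, w].Nodup)
    (h_i_a : G.Adj i a) (h_i_b : G.Adj i b) (h_m_u : G.Adj m u) (h_m_w : G.Adj m w) (h_a_b : ¬ G.Adj a b)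
    (k0 : RD G i a b m u w)
    (k1 : RV G i b a m u w)
    : False := by
  simp only [List.nodup_cons, List.mem_cons, List.not_mem_nil, or_false, not_or, not_false_eq_true, List.nodup_nil, and_true, ← ne_eq] at hd
  obtain ⟨⟨n_i_m, n_i_a, n_i_b, n_i_u, n_i_w⟩, ⟨n_m_a, n_m_b, n_m_u, n_m_w⟩, ⟨n_a_b, n_a_u, n_a_w⟩, ⟨n_b_u, n_b_w⟩, n_u_w⟩ := hd
  rcases k0 with ⟨k0_0, k0_1, k0_2, k0_3, k0_4, k0_5⟩ | ⟨k0_0, k0_1, k0_2, k0_3, k0_4, k0_5⟩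
  · have h_i_m : G.Adj i m := k0_0
    have h_m_a : ¬ G.Adj m a := fun e => k0_1 e.symm
    have h_i_u : G.Adj i u := k0_2
    have h_i_w : ¬ G.Adj i w := k0_3
    have h_b_u : ¬ G.Adj b u := k0_4
    have h_a_w : ¬ G.Adj a w := k0_5
    rcases k1 with ⟨k1_0, k1_1, k1_2, k1_3, k1_4, k1_5⟩
    have h_a_u : ¬ G.Adj a u := k1_4
    have h_b_w : ¬ G.Adj b w := k1_5
    exact claw hG n_a_b n_a_u n_b_u h_i_a h_i_b h_i_u h_a_b h_a_u h_b_u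
  · have h_i_m : G.Adj i m := k0_0
    have h_m_a : ¬ G.Adj m a := fun e => k0_1 e.symm
    have h_i_w : G.Adj i w := k0_2
    have h_i_u : ¬ G.Adj i u := k0_3
    have h_a_w : G.Adj a w := k0_4
    have h_a_u : G.Adj a u := k0_5
    rcases k1 with ⟨k1_0, k1_1, k1_2, k1_3, k1_4, k1_5⟩
    exact (h_i_u (k1_1)).elim

theorem opp_RD_RV {i m a b u w : V} (hG : ClawFree G) (hx : Ex2 G Fr i m a b u w)
    (hd : [i, m, a, b, u, w].Nodup)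
    (h_i_a : G.Adj i a) (h_i_b : G.Adj i b) (h_m_u : G.Adj m u) (h_m_w : G.Adj m w) (h_a_b : ¬ G.Adj a b)
    (k0 : RD G i a b m u w)
    (k1 : RV G i b a m w u)
    : False := by
  simp only [List.nodup_cons, List.mem_cons, List.not_mem_nil, or_false, not_or, not_false_eq_true, List.nodup_nil, and_true, ← ne_eq] at hd
  obtain ⟨⟨n_i_m, n_i_a, n_i_b, n_i_u, n_i_w⟩, ⟨n_m_a, n_m_b, n_m_u, n_m_w⟩, ⟨n_a_b, n_a_u, n_a_w⟩, ⟨n_b_u, n_b_w⟩, n_u_w⟩ := hd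
  rcases k0 with ⟨k0_0, k0_1, k0_2, k0_3, k0_4, k0_5⟩ | ⟨k0_0, k0_1, k0_2, k0_3, k0_4, k0_5⟩
  · have h_i_m : G.Adj i m := k0_0
    have h_m_a : ¬ G.Adj m a := fun e => k0_1 e.symm
    have h_i_u : G.Adj i u := k0_2
    have h_i_w : ¬ G.Adj i w := k0_3
    have h_b_u : ¬ G.Adj b u := k0_4
    have h_a_w : ¬ G.Adj a w := k0_5
    rcases k1 with ⟨k1_0, k1_1, k1_2, k1_3, k1_4, k1_5⟩
    exact (h_i_w (k1_1)).elim
  · have h_i_m : G.Adj i m := k0_0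
    have h_m_a : ¬ G.Adj m a := fun e => k0_1 e.symm
    have h_i_w : G.Adj i w := k0_2
    have h_i_u : ¬ G.Adj i u := k0_3
    have h_a_w : G.Adj a w := k0_4
    have h_a_u : G.Adj a u := k0_5
    rcases k1 with ⟨k1_0, k1_1, k1_2, k1_3, k1_4, k1_5⟩
    exact ((k1_4 : ¬ G.Adj a w) h_a_w).elim

theorem safe_RD_RV {i l m a b x y u w : V} (hG : ClawFree G) (hx : Ex3 G Fr i l m a b x y u w)
    (hd : [i, l, m, a, b, x, y, u, w].Nodup)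
    (h_i_a : G.Adj i a) (h_i_b : G.Adj i b) (h_l_x : G.Adj l x) (h_l_y : G.Adj l y) (h_m_u : G.Adj m u) (h_m_w : G.Adj m w) (h_a_b : ¬ G.Adj a b)
    (k0 : RD G i a b l x y)
    (k1 : RV G i b a m u w)
    (k2 : G.Adj x m)
    : False := by
  simp only [List.nodup_cons, List.mem_cons, List.not_mem_nil, or_false, not_or, not_false_eq_true, List.nodup_nil, and_true, ← ne_eq] at hd
  obtain ⟨⟨n_i_l, n_i_m, n_i_a, n_i_b, n_i_x, n_i_y, n_i_u, n_i_w⟩, ⟨n_l_m, n_l_a, n_l_b, n_l_x, n_l_y, n_l_u, n_l_w⟩, ⟨n_m_a, n_m_b, n_m_x, n_m_y, n_m_u, n_m_w⟩, ⟨n_a_b, n_a_x, n_a_y, n_a_u, n_a_w⟩, ⟨n_b_x, n_b_y, n_b_u, n_b_w⟩, ⟨n_x_y, n_x_u, n_x_w⟩, ⟨n_y_u, n_y_w⟩, n_u_w⟩ := hd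
  rcases k0 with ⟨k0_0, k0_1, k0_2, k0_3, k0_4, k0_5⟩ | ⟨k0_0, k0_1, k0_2, k0_3, k0_4, k0_5⟩
  · have h_i_l : G.Adj i l := k0_0
    have h_l_a : ¬ G.Adj l a := fun e => k0_1 e.symm
    have h_i_x : G.Adj i x := k0_2
    have h_i_y : ¬ G.Adj i y := k0_3
    have h_b_x : ¬ G.Adj b x := k0_4
    have h_a_y : ¬ G.Adj a y := k0_5
    rcases k1 with ⟨k1_0, k1_1, k1_2, k1_3, k1_4, k1_5⟩
    have h_i_m : G.Adj i m := k1_0
    have h_i_u : G.Adj i u := k1_1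
    have h_i_w : ¬ G.Adj i w := k1_2
    have h_m_a : ¬ G.Adj m a := fun e => k1_3 e.symm
    have h_a_u : ¬ G.Adj a u := k1_4
    have h_b_w : ¬ G.Adj b w := k1_5
    have h_m_x : G.Adj m x := k2.symm
    by_cases h_a_x : G.Adj a x
    · by_cases h_l_u : G.Adj l u
      · by_cases h_m_b : G.Adj m b
        · by_cases h_b_u : G.Adj b u
          · by_cases h_l_b : G.Adj l b
            · by_cases h_x_w : G.Adj x w
              · by_cases h_x_y : G.Adj x y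
                · by_cases h_y_w : G.Adj y w
                  · by_cases h_m_y : G.Adj m y
                    · exact Ex3.x123 hx (Or.inl rfl) (Or.inr (Or.inr (Or.inl rfl))) (Or.inr (Or.inl rfl)) (Or.inr (Or.inr (Or.inr (Or.inr (Or.inl rfl))))) (Or.inr (Or.inr (Or.inr (Or.inl rfl)))) (Or.inr (Or.inr (Or.inr (Or.inr (Or.inr (Or.inl rfl)))))) n_a_x n_a_b n_a_u n_a_y n_a_w n_b_x.symm n_x_u n_x_y n_x_w n_b_u n_b_y n_b_w n_y_u.symm n_u_w n_y_w h_i_a h_i_x h_l_b h_l_u h_m_y h_m_w  h_a_x h_b_u h_y_w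
                    exact claw hG n_m_a n_m_y n_a_y h_m_x.symm h_a_x.symm h_x_y h_m_a h_m_y h_a_y
                  exact claw hG n_i_y n_i_w n_y_w h_i_x.symm h_x_y h_x_w h_i_y h_i_w h_y_w
                by_cases h_u_w : G.Adj u w
                · exact Ex3.x13_2 hx (Or.inl rfl) (Or.inr (Or.inr (Or.inl rfl))) (Or.inr (Or.inl rfl)) (Or.inr (Or.inr (Or.inr (Or.inl rfl)))) (Or.inr (Or.inr (Or.inr (Or.inr (Or.inl rfl))))) (Or.inr (Or.inr (Or.inr (Or.inr (Or.inr (Or.inl rfl)))))) n_a_x n_a_b n_a_y n_a_u n_a_w n_b_x.symm n_x_y n_x_u n_x_w n_b_y n_b_u n_b_w n_y_u n_y_w n_u_w h_i_a h_i_x h_l_b h_l_y h_m_u h_m_w h_x_y h_a_x h_u_w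
                exact Ex3.x1_23 hx (Or.inl rfl) (Or.inr (Or.inr (Or.inl rfl))) (Or.inr (Or.inr (Or.inr (Or.inl rfl)))) (Or.inr (Or.inr (Or.inr (Or.inr (Or.inl rfl))))) (Or.inr (Or.inl rfl)) (Or.inr (Or.inr (Or.inr (Or.inr (Or.inr (Or.inl rfl)))))) n_a_x n_a_y n_a_u n_a_b n_a_w n_x_y n_x_u n_b_x.symm n_x_w n_y_u n_b_y.symm n_y_w n_b_u.symm n_u_w n_b_w h_i_a h_i_x h_l_y h_l_u h_m_b h_m_w h_x_y h_u_w h_a_x
              exact claw hG n_b_x n_b_w n_x_w h_m_b h_m_x h_m_w h_b_x h_b_w h_x_w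
            exact claw hG n_l_a n_l_b n_a_b h_i_l h_i_a h_i_b h_l_a h_l_b h_a_b
          exact claw hG n_a_b n_a_u n_b_u h_i_a h_i_b h_i_u h_a_b h_a_u h_b_u
        exact claw hG n_m_a n_m_b n_a_b h_i_m h_i_a h_i_b h_m_a h_m_b h_a_b
      exact claw hG n_l_a n_l_u n_a_u h_i_l h_i_a h_i_u h_l_a h_l_u h_a_u
    exact claw hG n_a_b n_a_x n_b_x h_i_a h_i_b h_i_x h_a_b h_a_x h_b_x
  · have h_i_l : G.Adj i l := k0_0
    have h_l_a : ¬ G.Adj l a := fun e => k0_1 e.symm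
    have h_i_y : G.Adj i y := k0_2
    have h_i_x : ¬ G.Adj i x := k0_3
    have h_a_y : G.Adj a y := k0_4
    have h_a_x : G.Adj a x := k0_5
    rcases k1 with ⟨k1_0, k1_1, k1_2, k1_3, k1_4, k1_5⟩
    have h_i_m : G.Adj i m := k1_0
    have h_i_u : G.Adj i u := k1_1
    have h_i_w : ¬ G.Adj i w := k1_2
    have h_m_a : ¬ G.Adj m a := fun e => k1_3 e.symm
    have h_a_u : ¬ G.Adj a u := k1_4
    have h_b_w : ¬ G.Adj b w := k1_5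
    have h_m_x : G.Adj m x := k2.symm
    by_cases h_l_b : G.Adj l b
    · by_cases h_l_u : G.Adj l u
      · by_cases h_x_w : G.Adj x w
        · by_cases h_b_u : G.Adj b u
          · exact Ex3.x123 hx (Or.inl rfl) (Or.inr (Or.inr (Or.inr (Or.inl rfl)))) (Or.inr (Or.inl rfl)) (Or.inr (Or.inr (Or.inr (Or.inr (Or.inl rfl))))) (Or.inr (Or.inr (Or.inl rfl))) (Or.inr (Or.inr (Or.inr (Or.inr (Or.inr (Or.inl rfl)))))) n_a_y n_a_b n_a_u n_a_x n_a_w n_b_y.symm n_y_u n_x_y.symm n_y_w n_b_u n_b_x n_b_w n_x_u.symm n_u_w n_x_w h_i_a h_i_y h_l_b h_l_u h_m_x h_m_w  h_a_y h_b_u h_x_w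
          exact claw hG n_a_b n_a_u n_b_u h_i_a h_i_b h_i_u h_a_b h_a_u h_b_u
        exact claw hG n_i_x n_i_w n_x_w h_i_m.symm h_m_x h_m_w h_i_x h_i_w h_x_w
      exact claw hG n_l_a n_l_u n_a_u h_i_l h_i_a h_i_u h_l_a h_l_u h_a_u
    exact claw hG n_l_a n_l_b n_a_b h_i_l h_i_a h_i_b h_l_a h_l_b h_a_b

theorem same_RD_RL {i m a b u w : V} (hG : ClawFree G) (hx : Ex2 G Fr i m a b u w)
    (hd : [i, m, a, b, u, w].Nodup)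
    (h_i_a : G.Adj i a) (h_i_b : G.Adj i b) (h_m_u : G.Adj m u) (h_m_w : G.Adj m w) (h_a_b : ¬ G.Adj a b)
    (k0 : RD G i a b m u w)
    (k1 : RL G i b a m u w)
    : False := by
  simp only [List.nodup_cons, List.mem_cons, List.not_mem_nil, or_false, not_or, not_false_eq_true, List.nodup_nil, and_true, ← ne_eq] at hd
  obtain ⟨⟨n_i_m, n_i_a, n_i_b, n_i_u, n_i_w⟩, ⟨n_m_a, n_m_b, n_m_u, n_m_w⟩, ⟨n_a_b, n_a_u, n_a_w⟩, ⟨n_b_u, n_b_w⟩, n_u_w⟩ := hd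
  rcases k0 with ⟨k0_0, k0_1, k0_2, k0_3, k0_4, k0_5⟩ | ⟨k0_0, k0_1, k0_2, k0_3, k0_4, k0_5⟩
  · have h_i_m : G.Adj i m := k0_0
    have h_m_a : ¬ G.Adj m a := fun e => k0_1 e.symm
    have h_i_u : G.Adj i u := k0_2
    have h_i_w : ¬ G.Adj i w := k0_3
    have h_b_u : ¬ G.Adj b u := k0_4
    have h_a_w : ¬ G.Adj a w := k0_5
    rcases k1 with ⟨k1_0, k1_1, k1_2, k1_3, k1_4⟩ | ⟨k1_0, k1_1, k1_2, k1_3, k1_4, k1_5⟩
    · have h_a_u : ¬ G.Adj a u := k1_2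
      exact (h_i_w (k1_3)).elim
    · have h_a_u : ¬ G.Adj a u := k1_2
      have h_m_b : G.Adj m b := k1_4.symm
      have h_b_w : G.Adj b w := k1_5
      exact claw hG n_a_b n_a_u n_b_u h_i_a h_i_b h_i_u h_a_b h_a_u h_b_u
  · have h_i_m : G.Adj i m := k0_0
    have h_m_a : ¬ G.Adj m a := fun e => k0_1 e.symm
    have h_i_w : G.Adj i w := k0_2
    have h_i_u : ¬ G.Adj i u := k0_3
    have h_a_w : G.Adj a w := k0_4
    have h_a_u : G.Adj a u := k0_5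
    rcases k1 with ⟨k1_0, k1_1, k1_2, k1_3, k1_4⟩ | ⟨k1_0, k1_1, k1_2, k1_3, k1_4, k1_5⟩
    · exact (h_i_u (k1_1)).elim
    · exact (h_i_u (k1_1)).elim

theorem opp_RD_RL {i m a b u w : V} (hG : ClawFree G) (hx : Ex2 G Fr i m a b u w)
    (hd : [i, m, a, b, u, w].Nodup)
    (h_i_a : G.Adj i a) (h_i_b : G.Adj i b) (h_m_u : G.Adj m u) (h_m_w : G.Adj m w) (h_a_b : ¬ G.Adj a b)
    (k0 : RD G i a b m u w)
    (k1 : RL G i b a m w u)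
    : False := by
  simp only [List.nodup_cons, List.mem_cons, List.not_mem_nil, or_false, not_or, not_false_eq_true, List.nodup_nil, and_true, ← ne_eq] at hd
  obtain ⟨⟨n_i_m, n_i_a, n_i_b, n_i_u, n_i_w⟩, ⟨n_m_a, n_m_b, n_m_u, n_m_w⟩, ⟨n_a_b, n_a_u, n_a_w⟩, ⟨n_b_u, n_b_w⟩, n_u_w⟩ := hd
  rcases k0 with ⟨k0_0, k0_1, k0_2, k0_3, k0_4, k0_5⟩ | ⟨k0_0, k0_1, k0_2, k0_3, k0_4, k0_5⟩
  · have h_i_m : G.Adj i m := k0_0
    have h_m_a : ¬ G.Adj m a := fun e => k0_1 e.symm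
    have h_i_u : G.Adj i u := k0_2
    have h_i_w : ¬ G.Adj i w := k0_3
    have h_b_u : ¬ G.Adj b u := k0_4
    have h_a_w : ¬ G.Adj a w := k0_5
    rcases k1 with ⟨k1_0, k1_1, k1_2, k1_3, k1_4⟩ | ⟨k1_0, k1_1, k1_2, k1_3, k1_4, k1_5⟩
    · exact (h_i_w (k1_1)).elim
    · exact (h_i_w (k1_1)).elim
  · have h_i_m : G.Adj i m := k0_0
    have h_m_a : ¬ G.Adj m a := fun e => k0_1 e.symm
    have h_i_w : G.Adj i w := k0_2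
    have h_i_u : ¬ G.Adj i u := k0_3
    have h_a_w : G.Adj a w := k0_4
    have h_a_u : G.Adj a u := k0_5
    rcases k1 with ⟨k1_0, k1_1, k1_2, k1_3, k1_4⟩ | ⟨k1_0, k1_1, k1_2, k1_3, k1_4, k1_5⟩
    · exact ((k1_2 : ¬ G.Adj a w) h_a_w).elim
    · exact ((k1_2 : ¬ G.Adj a w) h_a_w).elim

theorem safe_RD_RL {i l m a b x y u w : V} (hG : ClawFree G) (hx : Ex3 G Fr i l m a b x y u w)
    (hd : [i, l, m, a, b, x, y, u, w].Nodup)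
    (h_i_a : G.Adj i a) (h_i_b : G.Adj i b) (h_l_x : G.Adj l x) (h_l_y : G.Adj l y) (h_m_u : G.Adj m u) (h_m_w : G.Adj m w) (h_a_b : ¬ G.Adj a b)
    (k0 : RD G i a b l x y)
    (k1 : RL G i b a m u w)
    (k2 : G.Adj x u)
    : False := by
  simp only [List.nodup_cons, List.mem_cons, List.not_mem_nil, or_false, not_or, not_false_eq_true, List.nodup_nil, and_true, ← ne_eq] at hd
  obtain ⟨⟨n_i_l, n_i_m, n_i_a, n_i_b, n_i_x, n_i_y, n_i_u, n_i_w⟩, ⟨n_l_m, n_l_a, n_l_b, n_l_x, n_l_y, n_l_u, n_l_w⟩, ⟨n_m_a, n_m_b, n_m_x, n_m_y, n_m_u, n_m_w⟩, ⟨n_a_b, n_a_x, n_a_y, n_a_u, n_a_w⟩, ⟨n_b_x, n_b_y, n_b_u, n_b_w⟩, ⟨n_x_y, n_x_u, n_x_w⟩, ⟨n_y_u, n_y_w⟩, n_u_w⟩ := hd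
  rcases k0 with ⟨k0_0, k0_1, k0_2, k0_3, k0_4, k0_5⟩ | ⟨k0_0, k0_1, k0_2, k0_3, k0_4, k0_5⟩
  · have h_i_l : G.Adj i l := k0_0
    have h_l_a : ¬ G.Adj l a := fun e => k0_1 e.symm
    have h_i_x : G.Adj i x := k0_2
    have h_i_y : ¬ G.Adj i y := k0_3
    have h_b_x : ¬ G.Adj b x := k0_4
    have h_a_y : ¬ G.Adj a y := k0_5
    rcases k1 with ⟨k1_0, k1_1, k1_2, k1_3, k1_4⟩ | ⟨k1_0, k1_1, k1_2, k1_3, k1_4, k1_5⟩
    · have h_i_m : G.Adj i m := k1_0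
      have h_i_u : G.Adj i u := k1_1
      have h_a_u : ¬ G.Adj a u := k1_2
      have h_i_w : G.Adj i w := k1_3
      have h_a_w : ¬ G.Adj a w := k1_4
      have h_x_u : G.Adj x u := k2
      by_cases h_a_x : G.Adj a x
      · by_cases h_l_u : G.Adj l u
        · by_cases h_u_w : G.Adj u w
          · by_cases h_l_b : G.Adj l b
            · by_cases h_x_y : G.Adj x y
              · by_cases h_b_w : G.Adj b w
                · by_cases h_y_u : G.Adj y u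
                  · by_cases h_m_b : G.Adj m b
                    · exact Ex3.x123 hx (Or.inl rfl) (Or.inr (Or.inr (Or.inl rfl))) (Or.inr (Or.inr (Or.inr (Or.inl rfl)))) (Or.inr (Or.inr (Or.inr (Or.inr (Or.inl rfl))))) (Or.inr (Or.inl rfl)) (Or.inr (Or.inr (Or.inr (Or.inr (Or.inr (Or.inl rfl)))))) n_a_x n_a_y n_a_u n_a_b n_a_w n_x_y n_x_u n_b_x.symm n_x_w n_y_u n_b_y.symm n_y_w n_b_u.symm n_u_w n_b_w h_i_a h_i_x h_l_y h_l_u h_m_b h_m_w  h_a_x h_y_u h_b_w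
                    by_cases h_m_x : G.Adj m x
                    · by_cases h_m_a : G.Adj m a
                      · exact Ex3.x123 hx (Or.inr (Or.inl rfl)) (Or.inr (Or.inr (Or.inr (Or.inr (Or.inr (Or.inl rfl)))))) (Or.inr (Or.inr (Or.inr (Or.inl rfl)))) (Or.inr (Or.inr (Or.inr (Or.inr (Or.inl rfl))))) (Or.inl rfl) (Or.inr (Or.inr (Or.inl rfl))) n_b_w n_b_y n_b_u n_a_b.symm n_b_x n_y_w.symm n_u_w.symm n_a_w.symm n_x_w.symm n_y_u n_a_y.symm n_x_y.symm n_a_u.symm n_x_u.symm n_a_x h_i_b h_i_w h_l_y h_l_u h_m_a h_m_x  h_b_w h_y_u h_a_x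
                      exact claw hG n_m_a n_m_b n_a_b h_i_m h_i_a h_i_b h_m_a h_m_b h_a_b
                    exact claw hG n_m_b n_m_x n_b_x h_i_m h_i_b h_i_x h_m_b h_m_x h_b_x
                  exact claw hG n_a_y n_a_u n_y_u h_a_x.symm h_x_y h_x_u h_a_y h_a_u h_y_u
                exact claw hG n_a_b n_a_w n_b_w h_i_a h_i_b h_i_w h_a_b h_a_w h_b_w
              exact Ex3.x13_2 hx (Or.inl rfl) (Or.inr (Or.inr (Or.inl rfl))) (Or.inr (Or.inl rfl)) (Or.inr (Or.inr (Or.inr (Or.inl rfl)))) (Or.inr (Or.inr (Or.inr (Or.inr (Or.inl rfl))))) (Or.inr (Or.inr (Or.inr (Or.inr (Or.inr (Or.inl rfl)))))) n_a_x n_a_b n_a_y n_a_u n_a_w n_b_x.symm n_x_y n_x_u n_x_w n_b_y n_b_u n_b_w n_y_u n_y_w n_u_w h_i_a h_i_x h_l_b h_l_y h_m_u h_m_w h_x_y h_a_x h_u_w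
            exact claw hG n_l_a n_l_b n_a_b h_i_l h_i_a h_i_b h_l_a h_l_b h_a_b
          exact claw hG n_a_u n_a_w n_u_w h_i_a h_i_u h_i_w h_a_u h_a_w h_u_w
        exact claw hG n_l_a n_l_u n_a_u h_i_l h_i_a h_i_u h_l_a h_l_u h_a_u
      exact claw hG n_a_b n_a_x n_b_x h_i_a h_i_b h_i_x h_a_b h_a_x h_b_x
    · have h_i_m : G.Adj i m := k1_0
      have h_i_u : G.Adj i u := k1_1
      have h_a_u : ¬ G.Adj a u := k1_2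
      have h_i_w : ¬ G.Adj i w := k1_3
      have h_m_b : G.Adj m b := k1_4.symm
      have h_b_w : G.Adj b w := k1_5
      have h_x_u : G.Adj x u := k2
      by_cases h_l_u : G.Adj l u
      · by_cases h_a_x : G.Adj a x
        · by_cases h_x_y : G.Adj x y
          · by_cases h_y_u : G.Adj y u
            · exact Ex3.x123 hx (Or.inl rfl) (Or.inr (Or.inr (Or.inl rfl))) (Or.inr (Or.inr (Or.inr (Or.inl rfl)))) (Or.inr (Or.inr (Or.inr (Or.inr (Or.inl rfl))))) (Or.inr (Or.inl rfl)) (Or.inr (Or.inr (Or.inr (Or.inr (Or.inr (Or.inl rfl)))))) n_a_x n_a_y n_a_u n_a_b n_a_w n_x_y n_x_u n_b_x.symm n_x_w n_y_u n_b_y.symm n_y_w n_b_u.symm n_u_w n_b_w h_i_a h_i_x h_l_y h_l_u h_m_b h_m_w  h_a_x h_y_u h_b_w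
            exact claw hG n_a_y n_a_u n_y_u h_a_x.symm h_x_y h_x_u h_a_y h_a_u h_y_u
          exact Ex3.x13_2 hx (Or.inl rfl) (Or.inr (Or.inr (Or.inl rfl))) (Or.inr (Or.inr (Or.inr (Or.inl rfl)))) (Or.inr (Or.inr (Or.inr (Or.inr (Or.inl rfl))))) (Or.inr (Or.inl rfl)) (Or.inr (Or.inr (Or.inr (Or.inr (Or.inr (Or.inl rfl)))))) n_a_x n_a_y n_a_u n_a_b n_a_w n_x_y n_x_u n_b_x.symm n_x_w n_y_u n_b_y.symm n_y_w n_b_u.symm n_u_w n_b_w h_i_a h_i_x h_l_y h_l_u h_m_b h_m_w h_x_y h_a_x h_b_w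
        exact claw hG n_a_b n_a_x n_b_x h_i_a h_i_b h_i_x h_a_b h_a_x h_b_x
      exact claw hG n_l_a n_l_u n_a_u h_i_l h_i_a h_i_u h_l_a h_l_u h_a_u
  · have h_i_l : G.Adj i l := k0_0
    have h_l_a : ¬ G.Adj l a := fun e => k0_1 e.symm
    have h_i_y : G.Adj i y := k0_2
    have h_i_x : ¬ G.Adj i x := k0_3
    have h_a_y : G.Adj a y := k0_4
    have h_a_x : G.Adj a x := k0_5
    rcases k1 with ⟨k1_0, k1_1, k1_2, k1_3, k1_4⟩ | ⟨k1_0, k1_1, k1_2, k1_3, k1_4, k1_5⟩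
    · have h_i_m : G.Adj i m := k1_0
      have h_i_u : G.Adj i u := k1_1
      have h_a_u : ¬ G.Adj a u := k1_2
      have h_i_w : G.Adj i w := k1_3
      have h_a_w : ¬ G.Adj a w := k1_4
      have h_x_u : G.Adj x u := k2
      by_cases h_l_u : G.Adj l u
      · by_cases h_u_w : G.Adj u w
        · by_cases h_l_b : G.Adj l b
          · by_cases h_l_w : G.Adj l w
            · by_cases h_b_w : G.Adj b w
              · by_cases h_b_u : G.Adj b u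
                · by_cases h_m_b : G.Adj m b
                  · exact Ex3.x123 hx (Or.inl rfl) (Or.inr (Or.inr (Or.inr (Or.inl rfl)))) (Or.inr (Or.inr (Or.inl rfl))) (Or.inr (Or.inr (Or.inr (Or.inr (Or.inl rfl))))) (Or.inr (Or.inl rfl)) (Or.inr (Or.inr (Or.inr (Or.inr (Or.inr (Or.inl rfl)))))) n_a_y n_a_x n_a_u n_a_b n_a_w n_x_y.symm n_y_u n_b_y.symm n_y_w n_x_u n_b_x.symm n_x_w n_b_u.symm n_u_w n_b_w h_i_a h_i_y h_l_x h_l_u h_m_b h_m_w  h_a_y h_x_u h_b_w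
                  by_cases h_m_x : G.Adj m x
                  · exact Ex3.x123 hx (Or.inl rfl) (Or.inr (Or.inr (Or.inr (Or.inl rfl)))) (Or.inr (Or.inl rfl)) (Or.inr (Or.inr (Or.inr (Or.inr (Or.inr (Or.inl rfl)))))) (Or.inr (Or.inr (Or.inl rfl))) (Or.inr (Or.inr (Or.inr (Or.inr (Or.inl rfl))))) n_a_y n_a_b n_a_w n_a_x n_a_u n_b_y.symm n_y_w n_x_y.symm n_y_u n_b_w n_b_x n_b_u n_x_w.symm n_u_w.symm n_x_u h_i_a h_i_y h_l_b h_l_w h_m_x h_m_u  h_a_y h_b_w h_x_u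
                  by_cases h_b_x : G.Adj b x
                  · exact Ex3.x123 hx (Or.inl rfl) (Or.inr (Or.inr (Or.inr (Or.inl rfl)))) (Or.inr (Or.inl rfl)) (Or.inr (Or.inr (Or.inl rfl))) (Or.inr (Or.inr (Or.inr (Or.inr (Or.inl rfl))))) (Or.inr (Or.inr (Or.inr (Or.inr (Or.inr (Or.inl rfl)))))) n_a_y n_a_b n_a_x n_a_u n_a_w n_b_y.symm n_x_y.symm n_y_u n_y_w n_b_x n_b_u n_b_w n_x_u n_x_w n_u_w h_i_a h_i_y h_l_b h_l_x h_m_u h_m_w  h_a_y h_b_x h_u_w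
                  exact claw hG n_m_b n_m_x n_b_x h_m_u.symm h_b_u.symm h_x_u.symm h_m_b h_m_x h_b_x
                exact claw hG n_a_b n_a_u n_b_u h_i_a h_i_b h_i_u h_a_b h_a_u h_b_u
              exact claw hG n_a_b n_a_w n_b_w h_i_a h_i_b h_i_w h_a_b h_a_w h_b_w
            exact claw hG n_l_a n_l_w n_a_w h_i_l h_i_a h_i_w h_l_a h_l_w h_a_w
          exact claw hG n_l_a n_l_b n_a_b h_i_l h_i_a h_i_b h_l_a h_l_b h_a_b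
        exact claw hG n_a_u n_a_w n_u_w h_i_a h_i_u h_i_w h_a_u h_a_w h_u_w
      exact claw hG n_l_a n_l_u n_a_u h_i_l h_i_a h_i_u h_l_a h_l_u h_a_u
    · have h_i_m : G.Adj i m := k1_0
      have h_i_u : G.Adj i u := k1_1
      have h_a_u : ¬ G.Adj a u := k1_2
      have h_i_w : ¬ G.Adj i w := k1_3
      have h_m_b : G.Adj m b := k1_4.symm
      have h_b_w : G.Adj b w := k1_5
      have h_x_u : G.Adj x u := k2
      by_cases h_l_u : G.Adj l u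
      · exact Ex3.x123 hx (Or.inl rfl) (Or.inr (Or.inr (Or.inr (Or.inl rfl)))) (Or.inr (Or.inr (Or.inl rfl))) (Or.inr (Or.inr (Or.inr (Or.inr (Or.inl rfl))))) (Or.inr (Or.inl rfl)) (Or.inr (Or.inr (Or.inr (Or.inr (Or.inr (Or.inl rfl)))))) n_a_y n_a_x n_a_u n_a_b n_a_w n_x_y.symm n_y_u n_b_y.symm n_y_w n_x_u n_b_x.symm n_x_w n_b_u.symm n_u_w n_b_w h_i_a h_i_y h_l_x h_l_u h_m_b h_m_w  h_a_y h_x_u h_b_w
      exact claw hG n_l_a n_l_u n_a_u h_i_l h_i_a h_i_u h_l_a h_l_u h_a_u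

theorem same_RD_RD {i m a b u w : V} (hG : ClawFree G) (hx : Ex2 G Fr i m a b u w)
    (hd : [i, m, a, b, u, w].Nodup)
    (h_i_a : G.Adj i a) (h_i_b : G.Adj i b) (h_m_u : G.Adj m u) (h_m_w : G.Adj m w) (h_a_b : ¬ G.Adj a b)
    (k0 : RD G i a b m u w)
    (k1 : RD G i b a m u w)
    : False := by
  simp only [List.nodup_cons, List.mem_cons, List.not_mem_nil, or_false, not_or, not_false_eq_true, List.nodup_nil, and_true, ← ne_eq] at hd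
  obtain ⟨⟨n_i_m, n_i_a, n_i_b, n_i_u, n_i_w⟩, ⟨n_m_a, n_m_b, n_m_u, n_m_w⟩, ⟨n_a_b, n_a_u, n_a_w⟩, ⟨n_b_u, n_b_w⟩, n_u_w⟩ := hd
  rcases k0 with ⟨k0_0, k0_1, k0_2, k0_3, k0_4, k0_5⟩ | ⟨k0_0, k0_1, k0_2, k0_3, k0_4, k0_5⟩
  · have h_i_m : G.Adj i m := k0_0
    have h_m_a : ¬ G.Adj m a := fun e => k0_1 e.symm
    have h_i_u : G.Adj i u := k0_2
    have h_i_w : ¬ G.Adj i w := k0_3
    have h_b_u : ¬ G.Adj b u := k0_4
    have h_a_w : ¬ G.Adj a w := k0_5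
    rcases k1 with ⟨k1_0, k1_1, k1_2, k1_3, k1_4, k1_5⟩ | ⟨k1_0, k1_1, k1_2, k1_3, k1_4, k1_5⟩
    · have h_m_b : ¬ G.Adj m b := fun e => k1_1 e.symm
      have h_a_u : ¬ G.Adj a u := k1_4
      have h_b_w : ¬ G.Adj b w := k1_5
      exact claw hG n_m_a n_m_b n_a_b h_i_m h_i_a h_i_b h_m_a h_m_b h_a_b
    · have h_m_b : ¬ G.Adj m b := fun e => k1_1 e.symm
      exact (h_i_w (k1_2)).elim
  · have h_i_m : G.Adj i m := k0_0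
    have h_m_a : ¬ G.Adj m a := fun e => k0_1 e.symm
    have h_i_w : G.Adj i w := k0_2
    have h_i_u : ¬ G.Adj i u := k0_3
    have h_a_w : G.Adj a w := k0_4
    have h_a_u : G.Adj a u := k0_5
    rcases k1 with ⟨k1_0, k1_1, k1_2, k1_3, k1_4, k1_5⟩ | ⟨k1_0, k1_1, k1_2, k1_3, k1_4, k1_5⟩
    · have h_m_b : ¬ G.Adj m b := fun e => k1_1 e.symm
      exact (h_i_u (k1_2)).elim
    · have h_m_b : ¬ G.Adj m b := fun e => k1_1 e.symm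
      have h_b_w : G.Adj b w := k1_4
      have h_b_u : G.Adj b u := k1_5
      exact claw hG n_m_a n_m_b n_a_b h_i_m h_i_a h_i_b h_m_a h_m_b h_a_b

theorem opp_RD_RD {i m a b u w : V} (hG : ClawFree G) (hx : Ex2 G Fr i m a b u w)
    (hd : [i, m, a, b, u, w].Nodup)
    (h_i_a : G.Adj i a) (h_i_b : G.Adj i b) (h_m_u : G.Adj m u) (h_m_w : G.Adj m w) (h_a_b : ¬ G.Adj a b)
    (k0 : RD G i a b m u w)
    (k1 : RD G i b a m w u)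
    : False := by
  simp only [List.nodup_cons, List.mem_cons, List.not_mem_nil, or_false, not_or, not_false_eq_true, List.nodup_nil, and_true, ← ne_eq] at hd
  obtain ⟨⟨n_i_m, n_i_a, n_i_b, n_i_u, n_i_w⟩, ⟨n_m_a, n_m_b, n_m_u, n_m_w⟩, ⟨n_a_b, n_a_u, n_a_w⟩, ⟨n_b_u, n_b_w⟩, n_u_w⟩ := hd
  rcases k0 with ⟨k0_0, k0_1, k0_2, k0_3, k0_4, k0_5⟩ | ⟨k0_0, k0_1, k0_2, k0_3, k0_4, k0_5⟩
  · have h_i_m : G.Adj i m := k0_0
    have h_m_a : ¬ G.Adj m a := fun e => k0_1 e.symm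
    have h_i_u : G.Adj i u := k0_2
    have h_i_w : ¬ G.Adj i w := k0_3
    have h_b_u : ¬ G.Adj b u := k0_4
    have h_a_w : ¬ G.Adj a w := k0_5
    rcases k1 with ⟨k1_0, k1_1, k1_2, k1_3, k1_4, k1_5⟩ | ⟨k1_0, k1_1, k1_2, k1_3, k1_4, k1_5⟩
    · have h_m_b : ¬ G.Adj m b := fun e => k1_1 e.symm
      exact (h_i_w (k1_2)).elim
    · have h_m_b : ¬ G.Adj m b := fun e => k1_1 e.symm
      exact (h_b_u (k1_4)).elim
  · have h_i_m : G.Adj i m := k0_0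
    have h_m_a : ¬ G.Adj m a := fun e => k0_1 e.symm
    have h_i_w : G.Adj i w := k0_2
    have h_i_u : ¬ G.Adj i u := k0_3
    have h_a_w : G.Adj a w := k0_4
    have h_a_u : G.Adj a u := k0_5
    rcases k1 with ⟨k1_0, k1_1, k1_2, k1_3, k1_4, k1_5⟩ | ⟨k1_0, k1_1, k1_2, k1_3, k1_4, k1_5⟩
    · have h_m_b : ¬ G.Adj m b := fun e => k1_1 e.symm
      exact ((k1_4 : ¬ G.Adj a w) h_a_w).elim
    · have h_m_b : ¬ G.Adj m b := fun e => k1_1 e.symm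
      exact (h_i_u (k1_2)).elim

theorem safe_RD_RD {i l m a b x y u w : V} (hG : ClawFree G) (hx : Ex3 G Fr i l m a b x y u w)
    (hd : [i, l, m, a, b, x, y, u, w].Nodup)
    (h_i_a : G.Adj i a) (h_i_b : G.Adj i b) (h_l_x : G.Adj l x) (h_l_y : G.Adj l y) (h_m_u : G.Adj m u) (h_m_w : G.Adj m w) (h_a_b : ¬ G.Adj a b)
    (k0 : RD G i a b l x y)
    (k1 : RD G i b a m u w)
    (k2 : G.Adj x u)
    : False := by
  simp only [List.nodup_cons, List.mem_cons, List.not_mem_nil, or_false, not_or, not_false_eq_true, List.nodup_nil, and_true, ← ne_eq] at hd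
  obtain ⟨⟨n_i_l, n_i_m, n_i_a, n_i_b, n_i_x, n_i_y, n_i_u, n_i_w⟩, ⟨n_l_m, n_l_a, n_l_b, n_l_x, n_l_y, n_l_u, n_l_w⟩, ⟨n_m_a, n_m_b, n_m_x, n_m_y, n_m_u, n_m_w⟩, ⟨n_a_b, n_a_x, n_a_y, n_a_u, n_a_w⟩, ⟨n_b_x, n_b_y, n_b_u, n_b_w⟩, ⟨n_x_y, n_x_u, n_x_w⟩, ⟨n_y_u, n_y_w⟩, n_u_w⟩ := hd
  rcases k0 with ⟨k0_0, k0_1, k0_2, k0_3, k0_4, k0_5⟩ | ⟨k0_0, k0_1, k0_2, k0_3, k0_4, k0_5⟩
  · have h_i_l : G.Adj i l := k0_0
    have h_l_a : ¬ G.Adj l a := fun e => k0_1 e.symm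
    have h_i_x : G.Adj i x := k0_2
    have h_i_y : ¬ G.Adj i y := k0_3
    have h_b_x : ¬ G.Adj b x := k0_4
    have h_a_y : ¬ G.Adj a y := k0_5
    rcases k1 with ⟨k1_0, k1_1, k1_2, k1_3, k1_4, k1_5⟩ | ⟨k1_0, k1_1, k1_2, k1_3, k1_4, k1_5⟩
    · have h_i_m : G.Adj i m := k1_0
      have h_m_b : ¬ G.Adj m b := fun e => k1_1 e.symm
      have h_i_u : G.Adj i u := k1_2
      have h_i_w : ¬ G.Adj i w := k1_3
      have h_a_u : ¬ G.Adj a u := k1_4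
      have h_b_w : ¬ G.Adj b w := k1_5
      have h_x_u : G.Adj x u := k2
      by_cases h_l_b : G.Adj l b
      · by_cases h_l_u : G.Adj l u
        · by_cases h_m_a : G.Adj m a
          · by_cases h_a_x : G.Adj a x
            · by_cases h_b_u : G.Adj b u
              · by_cases h_x_y : G.Adj x y
                · by_cases h_u_w : G.Adj u w
                  · by_cases h_y_u : G.Adj y u
                    · by_cases h_y_w : G.Adj y w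
                      · by_cases h_b_y : G.Adj b y
                        · exact Ex3.x123 hx (Or.inl rfl) (Or.inr (Or.inr (Or.inl rfl))) (Or.inr (Or.inl rfl)) (Or.inr (Or.inr (Or.inr (Or.inl rfl)))) (Or.inr (Or.inr (Or.inr (Or.inr (Or.inl rfl))))) (Or.inr (Or.inr (Or.inr (Or.inr (Or.inr (Or.inl rfl)))))) n_a_x n_a_b n_a_y n_a_u n_a_w n_b_x.symm n_x_y n_x_u n_x_w n_b_y n_b_u n_b_w n_y_u n_y_w n_u_w h_i_a h_i_x h_l_b h_l_y h_m_u h_m_w  h_a_x h_b_y h_u_w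
                        by_cases h_m_y : G.Adj m y
                        · exact Ex3.x123 hx (Or.inl rfl) (Or.inr (Or.inr (Or.inl rfl))) (Or.inr (Or.inl rfl)) (Or.inr (Or.inr (Or.inr (Or.inr (Or.inl rfl))))) (Or.inr (Or.inr (Or.inr (Or.inl rfl)))) (Or.inr (Or.inr (Or.inr (Or.inr (Or.inr (Or.inl rfl)))))) n_a_x n_a_b n_a_u n_a_y n_a_w n_b_x.symm n_x_u n_x_y n_x_w n_b_u n_b_y n_b_w n_y_u.symm n_u_w n_y_w h_i_a h_i_x h_l_b h_l_u h_m_y h_m_w  h_a_x h_b_u h_y_w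
                        exact claw hG n_m_b n_m_y n_b_y h_m_u.symm h_b_u.symm h_y_u.symm h_m_b h_m_y h_b_y
                      exact claw hG n_i_y n_i_w n_y_w h_i_u.symm h_y_u.symm h_u_w h_i_y h_i_w h_y_w
                    exact claw hG n_a_y n_a_u n_y_u h_a_x.symm h_x_y h_x_u h_a_y h_a_u h_y_u
                  exact Ex3.x12_3 hx (Or.inr (Or.inl rfl)) (Or.inr (Or.inr (Or.inr (Or.inr (Or.inl rfl))))) (Or.inr (Or.inr (Or.inl rfl))) (Or.inr (Or.inr (Or.inr (Or.inl rfl)))) (Or.inl rfl) (Or.inr (Or.inr (Or.inr (Or.inr (Or.inr (Or.inl rfl)))))) n_b_u n_b_x n_b_y n_a_b.symm n_b_w n_x_u.symm n_y_u.symm n_a_u.symm n_u_w n_x_y n_a_x.symm n_x_w n_a_y.symm n_y_w n_a_w h_i_b h_i_u h_l_x h_l_y h_m_a h_m_w h_u_w h_b_u h_x_y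
                by_cases h_u_w : G.Adj u w
                · exact Ex3.x13_2 hx (Or.inl rfl) (Or.inr (Or.inr (Or.inl rfl))) (Or.inr (Or.inl rfl)) (Or.inr (Or.inr (Or.inr (Or.inl rfl)))) (Or.inr (Or.inr (Or.inr (Or.inr (Or.inl rfl))))) (Or.inr (Or.inr (Or.inr (Or.inr (Or.inr (Or.inl rfl)))))) n_a_x n_a_b n_a_y n_a_u n_a_w n_b_x.symm n_x_y n_x_u n_x_w n_b_y n_b_u n_b_w n_y_u n_y_w n_u_w h_i_a h_i_x h_l_b h_l_y h_m_u h_m_w h_x_y h_a_x h_u_w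
                exact Ex3.x1_23 hx (Or.inr (Or.inr (Or.inl rfl))) (Or.inr (Or.inr (Or.inr (Or.inr (Or.inl rfl))))) (Or.inr (Or.inl rfl)) (Or.inr (Or.inr (Or.inr (Or.inl rfl)))) (Or.inl rfl) (Or.inr (Or.inr (Or.inr (Or.inr (Or.inr (Or.inl rfl)))))) n_x_u n_b_x.symm n_x_y n_a_x.symm n_x_w n_b_u.symm n_y_u.symm n_a_u.symm n_u_w n_b_y n_a_b.symm n_b_w n_a_y.symm n_y_w n_a_w h_i_x h_i_u h_l_b h_l_y h_m_a h_m_w h_x_y h_u_w h_x_u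
              exact claw hG n_a_b n_a_u n_b_u h_i_a h_i_b h_i_u h_a_b h_a_u h_b_u
            exact claw hG n_a_b n_a_x n_b_x h_i_a h_i_b h_i_x h_a_b h_a_x h_b_x
          exact claw hG n_m_a n_m_b n_a_b h_i_m h_i_a h_i_b h_m_a h_m_b h_a_b
        exact claw hG n_l_a n_l_u n_a_u h_i_l h_i_a h_i_u h_l_a h_l_u h_a_u
      exact claw hG n_l_a n_l_b n_a_b h_i_l h_i_a h_i_b h_l_a h_l_b h_a_b
    · have h_i_m : G.Adj i m := k1_0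
      have h_m_b : ¬ G.Adj m b := fun e => k1_1 e.symm
      have h_i_w : G.Adj i w := k1_2
      have h_i_u : ¬ G.Adj i u := k1_3
      have h_b_w : G.Adj b w := k1_4
      have h_b_u : G.Adj b u := k1_5
      have h_x_u : G.Adj x u := k2
      by_cases h_m_x : G.Adj m x
      · by_cases h_m_a : G.Adj m a
        · by_cases h_a_x : G.Adj a x
          · by_cases h_l_u : G.Adj l u
            · by_cases h_y_u : G.Adj y u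
              · exact Ex3.x123 hx (Or.inr (Or.inl rfl)) (Or.inr (Or.inr (Or.inr (Or.inr (Or.inr (Or.inl rfl)))))) (Or.inr (Or.inr (Or.inr (Or.inl rfl)))) (Or.inr (Or.inr (Or.inr (Or.inr (Or.inl rfl))))) (Or.inl rfl) (Or.inr (Or.inr (Or.inl rfl))) n_b_w n_b_y n_b_u n_a_b.symm n_b_x n_y_w.symm n_u_w.symm n_a_w.symm n_x_w.symm n_y_u n_a_y.symm n_x_y.symm n_a_u.symm n_x_u.symm n_a_x h_i_b h_i_w h_l_y h_l_u h_m_a h_m_x  h_b_w h_y_u h_a_x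
              exact claw hG n_i_y n_i_u n_y_u h_i_l.symm h_l_y h_l_u h_i_y h_i_u h_y_u
            by_cases h_a_u : G.Adj a u
            · by_cases h_x_y : G.Adj x y
              · exact Ex3.x123 hx (Or.inr (Or.inl rfl)) (Or.inr (Or.inr (Or.inr (Or.inr (Or.inr (Or.inl rfl)))))) (Or.inr (Or.inr (Or.inl rfl))) (Or.inr (Or.inr (Or.inr (Or.inl rfl)))) (Or.inl rfl) (Or.inr (Or.inr (Or.inr (Or.inr (Or.inl rfl))))) n_b_w n_b_x n_b_y n_a_b.symm n_b_u n_x_w.symm n_y_w.symm n_a_w.symm n_u_w.symm n_x_y n_a_x.symm n_x_u n_a_y.symm n_y_u n_a_u h_i_b h_i_w h_l_x h_l_y h_m_a h_m_u  h_b_w h_x_y h_a_u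
              exact Ex3.x13_2 hx (Or.inr (Or.inl rfl)) (Or.inr (Or.inr (Or.inr (Or.inr (Or.inr (Or.inl rfl)))))) (Or.inr (Or.inr (Or.inl rfl))) (Or.inr (Or.inr (Or.inr (Or.inl rfl)))) (Or.inl rfl) (Or.inr (Or.inr (Or.inr (Or.inr (Or.inl rfl))))) n_b_w n_b_x n_b_y n_a_b.symm n_b_u n_x_w.symm n_y_w.symm n_a_w.symm n_u_w.symm n_x_y n_a_x.symm n_x_u n_a_y.symm n_y_u n_a_u h_i_b h_i_w h_l_x h_l_y h_m_a h_m_u h_x_y h_b_w h_a_u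
            exact claw hG n_l_a n_l_u n_a_u h_l_x.symm h_a_x.symm h_x_u h_l_a h_l_u h_a_u
          exact claw hG n_a_b n_a_x n_b_x h_i_a h_i_b h_i_x h_a_b h_a_x h_b_x
        exact claw hG n_m_a n_m_b n_a_b h_i_m h_i_a h_i_b h_m_a h_m_b h_a_b
      exact claw hG n_m_b n_m_x n_b_x h_i_m h_i_b h_i_x h_m_b h_m_x h_b_x
  · have h_i_l : G.Adj i l := k0_0
    have h_l_a : ¬ G.Adj l a := fun e => k0_1 e.symm
    have h_i_y : G.Adj i y := k0_2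
    have h_i_x : ¬ G.Adj i x := k0_3
    have h_a_y : G.Adj a y := k0_4
    have h_a_x : G.Adj a x := k0_5
    rcases k1 with ⟨k1_0, k1_1, k1_2, k1_3, k1_4, k1_5⟩ | ⟨k1_0, k1_1, k1_2, k1_3, k1_4, k1_5⟩
    · have h_i_m : G.Adj i m := k1_0
      have h_m_b : ¬ G.Adj m b := fun e => k1_1 e.symm
      have h_i_u : G.Adj i u := k1_2
      have h_i_w : ¬ G.Adj i w := k1_3
      have h_a_u : ¬ G.Adj a u := k1_4
      have h_b_w : ¬ G.Adj b w := k1_5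
      have h_x_u : G.Adj x u := k2
      by_cases h_l_u : G.Adj l u
      · by_cases h_l_b : G.Adj l b
        · by_cases h_m_a : G.Adj m a
          · by_cases h_b_u : G.Adj b u
            · by_cases h_u_w : G.Adj u w
              · by_cases h_x_w : G.Adj x w
                · by_cases h_b_x : G.Adj b x
                  · exact Ex3.x123 hx (Or.inl rfl) (Or.inr (Or.inr (Or.inr (Or.inl rfl)))) (Or.inr (Or.inl rfl)) (Or.inr (Or.inr (Or.inl rfl))) (Or.inr (Or.inr (Or.inr (Or.inr (Or.inl rfl))))) (Or.inr (Or.inr (Or.inr (Or.inr (Or.inr (Or.inl rfl)))))) n_a_y n_a_b n_a_x n_a_u n_a_w n_b_y.symm n_x_y.symm n_y_u n_y_w n_b_x n_b_u n_b_w n_x_u n_x_w n_u_w h_i_a h_i_y h_l_b h_l_x h_m_u h_m_w  h_a_y h_b_x h_u_w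
                  by_cases h_m_x : G.Adj m x
                  · exact Ex3.x123 hx (Or.inl rfl) (Or.inr (Or.inr (Or.inr (Or.inl rfl)))) (Or.inr (Or.inl rfl)) (Or.inr (Or.inr (Or.inr (Or.inr (Or.inl rfl))))) (Or.inr (Or.inr (Or.inl rfl))) (Or.inr (Or.inr (Or.inr (Or.inr (Or.inr (Or.inl rfl)))))) n_a_y n_a_b n_a_u n_a_x n_a_w n_b_y.symm n_y_u n_x_y.symm n_y_w n_b_u n_b_x n_b_w n_x_u.symm n_u_w n_x_w h_i_a h_i_y h_l_b h_l_u h_m_x h_m_w  h_a_y h_b_u h_x_w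
                  exact claw hG n_m_b n_m_x n_b_x h_m_u.symm h_b_u.symm h_x_u.symm h_m_b h_m_x h_b_x
                exact claw hG n_i_x n_i_w n_x_w h_i_u.symm h_x_u.symm h_u_w h_i_x h_i_w h_x_w
              by_cases h_x_y : G.Adj x y
              · exact Ex3.x12_3 hx (Or.inr (Or.inl rfl)) (Or.inr (Or.inr (Or.inr (Or.inr (Or.inl rfl))))) (Or.inr (Or.inr (Or.inl rfl))) (Or.inr (Or.inr (Or.inr (Or.inl rfl)))) (Or.inl rfl) (Or.inr (Or.inr (Or.inr (Or.inr (Or.inr (Or.inl rfl)))))) n_b_u n_b_x n_b_y n_a_b.symm n_b_w n_x_u.symm n_y_u.symm n_a_u.symm n_u_w n_x_y n_a_x.symm n_x_w n_a_y.symm n_y_w n_a_w h_i_b h_i_u h_l_x h_l_y h_m_a h_m_w h_u_w h_b_u h_x_y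
              exact Ex3.x1_23 hx (Or.inl rfl) (Or.inr (Or.inr (Or.inr (Or.inl rfl)))) (Or.inr (Or.inl rfl)) (Or.inr (Or.inr (Or.inl rfl))) (Or.inr (Or.inr (Or.inr (Or.inr (Or.inl rfl))))) (Or.inr (Or.inr (Or.inr (Or.inr (Or.inr (Or.inl rfl)))))) n_a_y n_a_b n_a_x n_a_u n_a_w n_b_y.symm n_x_y.symm n_y_u n_y_w n_b_x n_b_u n_b_w n_x_u n_x_w n_u_w h_i_a h_i_y h_l_b h_l_x h_m_u h_m_w h_x_y h_u_w h_a_y
            exact claw hG n_a_b n_a_u n_b_u h_i_a h_i_b h_i_u h_a_b h_a_u h_b_u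
          exact claw hG n_m_a n_m_b n_a_b h_i_m h_i_a h_i_b h_m_a h_m_b h_a_b
        exact claw hG n_l_a n_l_b n_a_b h_i_l h_i_a h_i_b h_l_a h_l_b h_a_b
      exact claw hG n_l_a n_l_u n_a_u h_i_l h_i_a h_i_u h_l_a h_l_u h_a_u
    · have h_i_m : G.Adj i m := k1_0
      have h_m_b : ¬ G.Adj m b := fun e => k1_1 e.symm
      have h_i_w : G.Adj i w := k1_2
      have h_i_u : ¬ G.Adj i u := k1_3
      have h_b_w : G.Adj b w := k1_4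
      have h_b_u : G.Adj b u := k1_5
      have h_x_u : G.Adj x u := k2
      by_cases h_l_b : G.Adj l b
      · by_cases h_m_a : G.Adj m a
        · by_cases h_a_u : G.Adj a u
          · by_cases h_x_y : G.Adj x y
            · exact Ex3.x123 hx (Or.inr (Or.inl rfl)) (Or.inr (Or.inr (Or.inr (Or.inr (Or.inr (Or.inl rfl)))))) (Or.inr (Or.inr (Or.inl rfl))) (Or.inr (Or.inr (Or.inr (Or.inl rfl)))) (Or.inl rfl) (Or.inr (Or.inr (Or.inr (Or.inr (Or.inl rfl))))) n_b_w n_b_x n_b_y n_a_b.symm n_b_u n_x_w.symm n_y_w.symm n_a_w.symm n_u_w.symm n_x_y n_a_x.symm n_x_u n_a_y.symm n_y_u n_a_u h_i_b h_i_w h_l_x h_l_y h_m_a h_m_u  h_b_w h_x_y h_a_u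
            exact Ex3.x13_2 hx (Or.inr (Or.inl rfl)) (Or.inr (Or.inr (Or.inr (Or.inr (Or.inr (Or.inl rfl)))))) (Or.inr (Or.inr (Or.inl rfl))) (Or.inr (Or.inr (Or.inr (Or.inl rfl)))) (Or.inl rfl) (Or.inr (Or.inr (Or.inr (Or.inr (Or.inl rfl))))) n_b_w n_b_x n_b_y n_a_b.symm n_b_u n_x_w.symm n_y_w.symm n_a_w.symm n_u_w.symm n_x_y n_a_x.symm n_x_u n_a_y.symm n_y_u n_a_u h_i_b h_i_w h_l_x h_l_y h_m_a h_m_u h_x_y h_b_w h_a_u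
          by_cases h_l_u : G.Adj l u
          · by_cases h_m_y : G.Adj m y
            · exact Ex3.x123 hx (Or.inr (Or.inl rfl)) (Or.inr (Or.inr (Or.inr (Or.inr (Or.inr (Or.inl rfl)))))) (Or.inr (Or.inr (Or.inl rfl))) (Or.inr (Or.inr (Or.inr (Or.inr (Or.inl rfl))))) (Or.inl rfl) (Or.inr (Or.inr (Or.inr (Or.inl rfl)))) n_b_w n_b_x n_b_u n_a_b.symm n_b_y n_x_w.symm n_u_w.symm n_a_w.symm n_y_w.symm n_x_u n_a_x.symm n_x_y n_a_u.symm n_y_u.symm n_a_y h_i_b h_i_w h_l_x h_l_u h_m_a h_m_y  h_b_w h_x_u h_a_y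
            by_cases h_b_y : G.Adj b y
            · by_cases h_u_w : G.Adj u w
              · by_cases h_a_w : G.Adj a w
                · exact Ex3.x123 hx (Or.inr (Or.inl rfl)) (Or.inr (Or.inr (Or.inr (Or.inl rfl)))) (Or.inr (Or.inr (Or.inl rfl))) (Or.inr (Or.inr (Or.inr (Or.inr (Or.inl rfl))))) (Or.inl rfl) (Or.inr (Or.inr (Or.inr (Or.inr (Or.inr (Or.inl rfl)))))) n_b_y n_b_x n_b_u n_a_b.symm n_b_w n_x_y.symm n_y_u n_a_y.symm n_y_w n_x_u n_a_x.symm n_x_w n_a_u.symm n_u_w n_a_w h_i_b h_i_y h_l_x h_l_u h_m_a h_m_w  h_b_y h_x_u h_a_w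
                by_cases h_l_w : G.Adj l w
                · by_cases h_m_x : G.Adj m x
                  · exact Ex3.x123 hx (Or.inl rfl) (Or.inr (Or.inr (Or.inr (Or.inl rfl)))) (Or.inr (Or.inl rfl)) (Or.inr (Or.inr (Or.inr (Or.inr (Or.inr (Or.inl rfl)))))) (Or.inr (Or.inr (Or.inl rfl))) (Or.inr (Or.inr (Or.inr (Or.inr (Or.inl rfl))))) n_a_y n_a_b n_a_w n_a_x n_a_u n_b_y.symm n_y_w n_x_y.symm n_y_u n_b_w n_b_x n_b_u n_x_w.symm n_u_w.symm n_x_u h_i_a h_i_y h_l_b h_l_w h_m_x h_m_u  h_a_y h_b_w h_x_u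
                  by_cases h_b_x : G.Adj b x
                  · exact Ex3.x123 hx (Or.inl rfl) (Or.inr (Or.inr (Or.inr (Or.inl rfl)))) (Or.inr (Or.inl rfl)) (Or.inr (Or.inr (Or.inl rfl))) (Or.inr (Or.inr (Or.inr (Or.inr (Or.inl rfl))))) (Or.inr (Or.inr (Or.inr (Or.inr (Or.inr (Or.inl rfl)))))) n_a_y n_a_b n_a_x n_a_u n_a_w n_b_y.symm n_x_y.symm n_y_u n_y_w n_b_x n_b_u n_b_w n_x_u n_x_w n_u_w h_i_a h_i_y h_l_b h_l_x h_m_u h_m_w  h_a_y h_b_x h_u_w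
                  exact claw hG n_m_b n_m_x n_b_x h_m_u.symm h_b_u.symm h_x_u.symm h_m_b h_m_x h_b_x
                exact claw hG n_l_a n_l_w n_a_w h_i_l h_i_a h_i_w h_l_a h_l_w h_a_w
              exact Ex3.x12_3 hx (Or.inr (Or.inl rfl)) (Or.inr (Or.inr (Or.inr (Or.inl rfl)))) (Or.inr (Or.inr (Or.inl rfl))) (Or.inr (Or.inr (Or.inr (Or.inr (Or.inl rfl))))) (Or.inl rfl) (Or.inr (Or.inr (Or.inr (Or.inr (Or.inr (Or.inl rfl)))))) n_b_y n_b_x n_b_u n_a_b.symm n_b_w n_x_y.symm n_y_u n_a_y.symm n_y_w n_x_u n_a_x.symm n_x_w n_a_u.symm n_u_w n_a_w h_i_b h_i_y h_l_x h_l_u h_m_a h_m_w h_u_w h_b_y h_x_u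
            exact claw hG n_m_b n_m_y n_b_y h_i_m h_i_b h_i_y h_m_b h_m_y h_b_y
          exact claw hG n_l_a n_l_u n_a_u h_l_x.symm h_a_x.symm h_x_u h_l_a h_l_u h_a_u
        exact claw hG n_m_a n_m_b n_a_b h_i_m h_i_a h_i_b h_m_a h_m_b h_a_b
      exact claw hG n_l_a n_l_b n_a_b h_i_l h_i_a h_i_b h_l_a h_l_b h_a_b

theorem same_RD_RE {i m a b u w : V} (hG : ClawFree G) (hx : Ex2 G Fr i m a b u w)
    (hd : [i, m, a, b, u, w].Nodup)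
    (h_i_a : G.Adj i a) (h_i_b : G.Adj i b) (h_m_u : G.Adj m u) (h_m_w : G.Adj m w) (h_a_b : ¬ G.Adj a b)
    (k0 : RD G i a b m u w)
    (k1 : RE G i b a m u w)
    : False := by
  simp only [List.nodup_cons, List.mem_cons, List.not_mem_nil, or_false, not_or, not_false_eq_true, List.nodup_nil, and_true, ← ne_eq] at hd
  obtain ⟨⟨n_i_m, n_i_a, n_i_b, n_i_u, n_i_w⟩, ⟨n_m_a, n_m_b, n_m_u, n_m_w⟩, ⟨n_a_b, n_a_u, n_a_w⟩, ⟨n_b_u, n_b_w⟩, n_u_w⟩ := hd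
  rcases k0 with ⟨k0_0, k0_1, k0_2, k0_3, k0_4, k0_5⟩ | ⟨k0_0, k0_1, k0_2, k0_3, k0_4, k0_5⟩
  · have h_i_m : G.Adj i m := k0_0
    have h_m_a : ¬ G.Adj m a := fun e => k0_1 e.symm
    have h_i_u : G.Adj i u := k0_2
    have h_i_w : ¬ G.Adj i w := k0_3
    have h_b_u : ¬ G.Adj b u := k0_4
    have h_a_w : ¬ G.Adj a w := k0_5
    rcases k1 with ⟨k1_0, k1_1, k1_2, k1_3⟩
    exact ((k1_0 : ¬ G.Adj i m) h_i_m).elim
  · have h_i_m : G.Adj i m := k0_0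
    have h_m_a : ¬ G.Adj m a := fun e => k0_1 e.symm
    have h_i_w : G.Adj i w := k0_2
    have h_i_u : ¬ G.Adj i u := k0_3
    have h_a_w : G.Adj a w := k0_4
    have h_a_u : G.Adj a u := k0_5
    rcases k1 with ⟨k1_0, k1_1, k1_2, k1_3⟩
    exact ((k1_0 : ¬ G.Adj i m) h_i_m).elim

theorem opp_RD_RE {i m a b u w : V} (hG : ClawFree G) (hx : Ex2 G Fr i m a b u w)
    (hd : [i, m, a, b, u, w].Nodup)
    (h_i_a : G.Adj i a) (h_i_b : G.Adj i b) (h_m_u : G.Adj m u) (h_m_w : G.Adj m w) (h_a_b : ¬ G.Adj a b)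
    (k0 : RD G i a b m u w)
    (k1 : RE G i b a m w u)
    : False := by
  simp only [List.nodup_cons, List.mem_cons, List.not_mem_nil, or_false, not_or, not_false_eq_true, List.nodup_nil, and_true, ← ne_eq] at hd
  obtain ⟨⟨n_i_m, n_i_a, n_i_b, n_i_u, n_i_w⟩, ⟨n_m_a, n_m_b, n_m_u, n_m_w⟩, ⟨n_a_b, n_a_u, n_a_w⟩, ⟨n_b_u, n_b_w⟩, n_u_w⟩ := hd
  rcases k0 with ⟨k0_0, k0_1, k0_2, k0_3, k0_4, k0_5⟩ | ⟨k0_0, k0_1, k0_2, k0_3, k0_4, k0_5⟩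
  · have h_i_m : G.Adj i m := k0_0
    have h_m_a : ¬ G.Adj m a := fun e => k0_1 e.symm
    have h_i_u : G.Adj i u := k0_2
    have h_i_w : ¬ G.Adj i w := k0_3
    have h_b_u : ¬ G.Adj b u := k0_4
    have h_a_w : ¬ G.Adj a w := k0_5
    rcases k1 with ⟨k1_0, k1_1, k1_2, k1_3⟩
    exact ((k1_0 : ¬ G.Adj i m) h_i_m).elim
  · have h_i_m : G.Adj i m := k0_0
    have h_m_a : ¬ G.Adj m a := fun e => k0_1 e.symm
    have h_i_w : G.Adj i w := k0_2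
    have h_i_u : ¬ G.Adj i u := k0_3
    have h_a_w : G.Adj a w := k0_4
    have h_a_u : G.Adj a u := k0_5
    rcases k1 with ⟨k1_0, k1_1, k1_2, k1_3⟩
    exact ((k1_0 : ¬ G.Adj i m) h_i_m).elim

theorem safe_RD_RE {i l m a b x y u w : V} (hG : ClawFree G) (hx : Ex3 G Fr i l m a b x y u w)
    (hd : [i, l, m, a, b, x, y, u, w].Nodup)
    (h_i_a : G.Adj i a) (h_i_b : G.Adj i b) (h_l_x : G.Adj l x) (h_l_y : G.Adj l y) (h_m_u : G.Adj m u) (h_m_w : G.Adj m w) (h_a_b : ¬ G.Adj a b)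
    (k0 : RD G i a b l x y)
    (k1 : RE G i b a m u w)
    (k2 : G.Adj x u)
    : False := by
  simp only [List.nodup_cons, List.mem_cons, List.not_mem_nil, or_false, not_or, not_false_eq_true, List.nodup_nil, and_true, ← ne_eq] at hd
  obtain ⟨⟨n_i_l, n_i_m, n_i_a, n_i_b, n_i_x, n_i_y, n_i_u, n_i_w⟩, ⟨n_l_m, n_l_a, n_l_b, n_l_x, n_l_y, n_l_u, n_l_w⟩, ⟨n_m_a, n_m_b, n_m_x, n_m_y, n_m_u, n_m_w⟩, ⟨n_a_b, n_a_x, n_a_y, n_a_u, n_a_w⟩, ⟨n_b_x, n_b_y, n_b_u, n_b_w⟩, ⟨n_x_y, n_x_u, n_x_w⟩, ⟨n_y_u, n_y_w⟩, n_u_w⟩ := hd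
  rcases k0 with ⟨k0_0, k0_1, k0_2, k0_3, k0_4, k0_5⟩ | ⟨k0_0, k0_1, k0_2, k0_3, k0_4, k0_5⟩
  · have h_i_l : G.Adj i l := k0_0
    have h_l_a : ¬ G.Adj l a := fun e => k0_1 e.symm
    have h_i_x : G.Adj i x := k0_2
    have h_i_y : ¬ G.Adj i y := k0_3
    have h_b_x : ¬ G.Adj b x := k0_4
    have h_a_y : ¬ G.Adj a y := k0_5
    rcases k1 with ⟨k1_0, k1_1, k1_2, k1_3⟩
    have h_i_m : ¬ G.Adj i m := k1_0
    have h_i_u : G.Adj i u := k1_1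
    have h_i_w : G.Adj i w := k1_2
    have h_a_u : ¬ G.Adj a u := k1_3
    have h_x_u : G.Adj x u := k2
    by_cases h_l_u : G.Adj l u
    · by_cases h_l_b : G.Adj l b
      · by_cases h_a_x : G.Adj a x
        · by_cases h_b_u : G.Adj b u
          · by_cases h_x_y : G.Adj x y
            · by_cases h_y_u : G.Adj y u
              · by_cases h_m_y : G.Adj m y
                · by_cases h_u_w : G.Adj u w
                  · by_cases h_y_w : G.Adj y w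
                    · exact Ex3.x123 hx (Or.inl rfl) (Or.inr (Or.inr (Or.inl rfl))) (Or.inr (Or.inl rfl)) (Or.inr (Or.inr (Or.inr (Or.inr (Or.inl rfl))))) (Or.inr (Or.inr (Or.inr (Or.inl rfl)))) (Or.inr (Or.inr (Or.inr (Or.inr (Or.inr (Or.inl rfl)))))) n_a_x n_a_b n_a_u n_a_y n_a_w n_b_x.symm n_x_u n_x_y n_x_w n_b_u n_b_y n_b_w n_y_u.symm n_u_w n_y_w h_i_a h_i_x h_l_b h_l_u h_m_y h_m_w  h_a_x h_b_u h_y_w
                    by_cases h_b_y : G.Adj b y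
                    · exact Ex3.x123 hx (Or.inl rfl) (Or.inr (Or.inr (Or.inl rfl))) (Or.inr (Or.inl rfl)) (Or.inr (Or.inr (Or.inr (Or.inl rfl)))) (Or.inr (Or.inr (Or.inr (Or.inr (Or.inl rfl))))) (Or.inr (Or.inr (Or.inr (Or.inr (Or.inr (Or.inl rfl)))))) n_a_x n_a_b n_a_y n_a_u n_a_w n_b_x.symm n_x_y n_x_u n_x_w n_b_y n_b_u n_b_w n_y_u n_y_w n_u_w h_i_a h_i_x h_l_b h_l_y h_m_u h_m_w  h_a_x h_b_y h_u_w
                    by_cases h_b_w : G.Adj b w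
                    · by_cases h_m_b : G.Adj m b
                      · exact Ex3.x123 hx (Or.inl rfl) (Or.inr (Or.inr (Or.inl rfl))) (Or.inr (Or.inr (Or.inr (Or.inl rfl)))) (Or.inr (Or.inr (Or.inr (Or.inr (Or.inl rfl))))) (Or.inr (Or.inl rfl)) (Or.inr (Or.inr (Or.inr (Or.inr (Or.inr (Or.inl rfl)))))) n_a_x n_a_y n_a_u n_a_b n_a_w n_x_y n_x_u n_b_x.symm n_x_w n_y_u n_b_y.symm n_y_w n_b_u.symm n_u_w n_b_w h_i_a h_i_x h_l_y h_l_u h_m_b h_m_w  h_a_x h_y_u h_b_w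
                      by_cases h_m_x : G.Adj m x
                      · by_cases h_a_w : G.Adj a w
                        · exact Ex3.x123 hx (Or.inl rfl) (Or.inr (Or.inr (Or.inr (Or.inr (Or.inr (Or.inl rfl)))))) (Or.inr (Or.inl rfl)) (Or.inr (Or.inr (Or.inr (Or.inr (Or.inl rfl))))) (Or.inr (Or.inr (Or.inl rfl))) (Or.inr (Or.inr (Or.inr (Or.inl rfl)))) n_a_w n_a_b n_a_u n_a_x n_a_y n_b_w.symm n_u_w.symm n_x_w.symm n_y_w.symm n_b_u n_b_x n_b_y n_x_u.symm n_y_u.symm n_x_y h_i_a h_i_w h_l_b h_l_u h_m_x h_m_y  h_a_w h_b_u h_x_y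
                        by_cases h_l_w : G.Adj l w
                        · exact Ex3.x123 hx (Or.inl rfl) (Or.inr (Or.inr (Or.inl rfl))) (Or.inr (Or.inl rfl)) (Or.inr (Or.inr (Or.inr (Or.inr (Or.inr (Or.inl rfl)))))) (Or.inr (Or.inr (Or.inr (Or.inl rfl)))) (Or.inr (Or.inr (Or.inr (Or.inr (Or.inl rfl))))) n_a_x n_a_b n_a_w n_a_y n_a_u n_b_x.symm n_x_w n_x_y n_x_u n_b_w n_b_y n_b_u n_y_w.symm n_u_w.symm n_y_u h_i_a h_i_x h_l_b h_l_w h_m_y h_m_u  h_a_x h_b_w h_y_u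
                        exact claw hG n_l_a n_l_w n_a_w h_i_l h_i_a h_i_w h_l_a h_l_w h_a_w
                      exact claw hG n_m_b n_m_x n_b_x h_m_u.symm h_b_u.symm h_x_u.symm h_m_b h_m_x h_b_x
                    exact claw hG n_b_y n_b_w n_y_w h_b_u.symm h_y_u.symm h_u_w h_b_y h_b_w h_y_w
                  exact Ex3.x12_3 hx (Or.inl rfl) (Or.inr (Or.inr (Or.inl rfl))) (Or.inr (Or.inl rfl)) (Or.inr (Or.inr (Or.inr (Or.inr (Or.inl rfl))))) (Or.inr (Or.inr (Or.inr (Or.inl rfl)))) (Or.inr (Or.inr (Or.inr (Or.inr (Or.inr (Or.inl rfl)))))) n_a_x n_a_b n_a_u n_a_y n_a_w n_b_x.symm n_x_u n_x_y n_x_w n_b_u n_b_y n_b_w n_y_u.symm n_u_w n_y_w h_i_a h_i_x h_l_b h_l_u h_m_y h_m_w h_u_w h_a_x h_b_u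
                exact claw hG n_i_m n_i_y n_m_y h_i_u.symm h_m_u.symm h_y_u.symm h_i_m h_i_y h_m_y
              exact claw hG n_a_y n_a_u n_y_u h_a_x.symm h_x_y h_x_u h_a_y h_a_u h_y_u
            by_cases h_u_w : G.Adj u w
            · exact Ex3.x13_2 hx (Or.inl rfl) (Or.inr (Or.inr (Or.inl rfl))) (Or.inr (Or.inl rfl)) (Or.inr (Or.inr (Or.inr (Or.inl rfl)))) (Or.inr (Or.inr (Or.inr (Or.inr (Or.inl rfl))))) (Or.inr (Or.inr (Or.inr (Or.inr (Or.inr (Or.inl rfl)))))) n_a_x n_a_b n_a_y n_a_u n_a_w n_b_x.symm n_x_y n_x_u n_x_w n_b_y n_b_u n_b_w n_y_u n_y_w n_u_w h_i_a h_i_x h_l_b h_l_y h_m_u h_m_w h_x_y h_a_x h_u_w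
            exact Ex3.x1_23 hx (Or.inl rfl) (Or.inr (Or.inr (Or.inl rfl))) (Or.inr (Or.inl rfl)) (Or.inr (Or.inr (Or.inr (Or.inl rfl)))) (Or.inr (Or.inr (Or.inr (Or.inr (Or.inl rfl))))) (Or.inr (Or.inr (Or.inr (Or.inr (Or.inr (Or.inl rfl)))))) n_a_x n_a_b n_a_y n_a_u n_a_w n_b_x.symm n_x_y n_x_u n_x_w n_b_y n_b_u n_b_w n_y_u n_y_w n_u_w h_i_a h_i_x h_l_b h_l_y h_m_u h_m_w h_x_y h_u_w h_a_x
          exact claw hG n_a_b n_a_u n_b_u h_i_a h_i_b h_i_u h_a_b h_a_u h_b_u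
        exact claw hG n_a_b n_a_x n_b_x h_i_a h_i_b h_i_x h_a_b h_a_x h_b_x
      exact claw hG n_l_a n_l_b n_a_b h_i_l h_i_a h_i_b h_l_a h_l_b h_a_b
    exact claw hG n_l_a n_l_u n_a_u h_i_l h_i_a h_i_u h_l_a h_l_u h_a_u
  · have h_i_l : G.Adj i l := k0_0
    have h_l_a : ¬ G.Adj l a := fun e => k0_1 e.symm
    have h_i_y : G.Adj i y := k0_2
    have h_i_x : ¬ G.Adj i x := k0_3
    have h_a_y : G.Adj a y := k0_4
    have h_a_x : G.Adj a x := k0_5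
    rcases k1 with ⟨k1_0, k1_1, k1_2, k1_3⟩
    have h_i_m : ¬ G.Adj i m := k1_0
    have h_i_u : G.Adj i u := k1_1
    have h_i_w : G.Adj i w := k1_2
    have h_a_u : ¬ G.Adj a u := k1_3
    have h_x_u : G.Adj x u := k2
    by_cases h_l_u : G.Adj l u
    · by_cases h_m_x : G.Adj m x
      · by_cases h_l_b : G.Adj l b
        · by_cases h_b_u : G.Adj b u
          · by_cases h_u_w : G.Adj u w
            · by_cases h_x_y : G.Adj x y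
              · by_cases h_x_w : G.Adj x w
                · exact Ex3.x123 hx (Or.inl rfl) (Or.inr (Or.inr (Or.inr (Or.inl rfl)))) (Or.inr (Or.inl rfl)) (Or.inr (Or.inr (Or.inr (Or.inr (Or.inl rfl))))) (Or.inr (Or.inr (Or.inl rfl))) (Or.inr (Or.inr (Or.inr (Or.inr (Or.inr (Or.inl rfl)))))) n_a_y n_a_b n_a_u n_a_x n_a_w n_b_y.symm n_y_u n_x_y.symm n_y_w n_b_u n_b_x n_b_w n_x_u.symm n_u_w n_x_w h_i_a h_i_y h_l_b h_l_u h_m_x h_m_w  h_a_y h_b_u h_x_w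
                by_cases h_b_x : G.Adj b x
                · exact Ex3.x123 hx (Or.inl rfl) (Or.inr (Or.inr (Or.inr (Or.inl rfl)))) (Or.inr (Or.inl rfl)) (Or.inr (Or.inr (Or.inl rfl))) (Or.inr (Or.inr (Or.inr (Or.inr (Or.inl rfl))))) (Or.inr (Or.inr (Or.inr (Or.inr (Or.inr (Or.inl rfl)))))) n_a_y n_a_b n_a_x n_a_u n_a_w n_b_y.symm n_x_y.symm n_y_u n_y_w n_b_x n_b_u n_b_w n_x_u n_x_w n_u_w h_i_a h_i_y h_l_b h_l_x h_m_u h_m_w  h_a_y h_b_x h_u_w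
                by_cases h_b_w : G.Adj b w
                · by_cases h_m_b : G.Adj m b
                  · exact Ex3.x123 hx (Or.inl rfl) (Or.inr (Or.inr (Or.inr (Or.inl rfl)))) (Or.inr (Or.inr (Or.inl rfl))) (Or.inr (Or.inr (Or.inr (Or.inr (Or.inl rfl))))) (Or.inr (Or.inl rfl)) (Or.inr (Or.inr (Or.inr (Or.inr (Or.inr (Or.inl rfl)))))) n_a_y n_a_x n_a_u n_a_b n_a_w n_x_y.symm n_y_u n_b_y.symm n_y_w n_x_u n_b_x.symm n_x_w n_b_u.symm n_u_w n_b_w h_i_a h_i_y h_l_x h_l_u h_m_b h_m_w  h_a_y h_x_u h_b_w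
                  by_cases h_l_w : G.Adj l w
                  · exact Ex3.x123 hx (Or.inl rfl) (Or.inr (Or.inr (Or.inr (Or.inl rfl)))) (Or.inr (Or.inl rfl)) (Or.inr (Or.inr (Or.inr (Or.inr (Or.inr (Or.inl rfl)))))) (Or.inr (Or.inr (Or.inl rfl))) (Or.inr (Or.inr (Or.inr (Or.inr (Or.inl rfl))))) n_a_y n_a_b n_a_w n_a_x n_a_u n_b_y.symm n_y_w n_x_y.symm n_y_u n_b_w n_b_x n_b_u n_x_w.symm n_u_w.symm n_x_u h_i_a h_i_y h_l_b h_l_w h_m_x h_m_u  h_a_y h_b_w h_x_u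
                  by_cases h_a_w : G.Adj a w
                  · by_cases h_m_a : G.Adj m a
                    · exact Ex3.x123 hx (Or.inr (Or.inl rfl)) (Or.inr (Or.inr (Or.inr (Or.inr (Or.inl rfl))))) (Or.inr (Or.inr (Or.inl rfl))) (Or.inr (Or.inr (Or.inr (Or.inl rfl)))) (Or.inl rfl) (Or.inr (Or.inr (Or.inr (Or.inr (Or.inr (Or.inl rfl)))))) n_b_u n_b_x n_b_y n_a_b.symm n_b_w n_x_u.symm n_y_u.symm n_a_u.symm n_u_w n_x_y n_a_x.symm n_x_w n_a_y.symm n_y_w n_a_w h_i_b h_i_u h_l_x h_l_y h_m_a h_m_w  h_b_u h_x_y h_a_w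
                    exact claw hG n_m_a n_m_b n_a_b h_m_w.symm h_a_w.symm h_b_w.symm h_m_a h_m_b h_a_b
                  exact claw hG n_l_a n_l_w n_a_w h_i_l h_i_a h_i_w h_l_a h_l_w h_a_w
                exact claw hG n_b_x n_b_w n_x_w h_b_u.symm h_x_u.symm h_u_w h_b_x h_b_w h_x_w
              exact Ex3.x12_2 hx (Or.inl rfl) (Or.inr (Or.inr (Or.inr (Or.inl rfl)))) (Or.inr (Or.inl rfl)) (Or.inr (Or.inr (Or.inr (Or.inr (Or.inl rfl))))) (Or.inr (Or.inr (Or.inl rfl))) (Or.inr (Or.inr (Or.inr (Or.inr (Or.inr (Or.inl rfl)))))) n_a_y n_a_b n_a_u n_a_x n_a_w n_b_y.symm n_y_u n_x_y.symm n_y_w n_b_u n_b_x n_b_w n_x_u.symm n_u_w n_x_w h_i_a h_i_y h_l_b h_l_u h_m_x h_m_w h_x_y h_a_y h_b_u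
            exact Ex3.x12_3 hx (Or.inl rfl) (Or.inr (Or.inr (Or.inr (Or.inl rfl)))) (Or.inr (Or.inl rfl)) (Or.inr (Or.inr (Or.inr (Or.inr (Or.inl rfl))))) (Or.inr (Or.inr (Or.inl rfl))) (Or.inr (Or.inr (Or.inr (Or.inr (Or.inr (Or.inl rfl)))))) n_a_y n_a_b n_a_u n_a_x n_a_w n_b_y.symm n_y_u n_x_y.symm n_y_w n_b_u n_b_x n_b_w n_x_u.symm n_u_w n_x_w h_i_a h_i_y h_l_b h_l_u h_m_x h_m_w h_u_w h_a_y h_b_u
          exact claw hG n_a_b n_a_u n_b_u h_i_a h_i_b h_i_u h_a_b h_a_u h_b_u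
        exact claw hG n_l_a n_l_b n_a_b h_i_l h_i_a h_i_b h_l_a h_l_b h_a_b
      exact claw hG n_i_m n_i_x n_m_x h_i_u.symm h_m_u.symm h_x_u.symm h_i_m h_i_x h_m_x
    exact claw hG n_l_a n_l_u n_a_u h_i_l h_i_a h_i_u h_l_a h_l_u h_a_u

theorem same_RE_RV {i m a b u w : V} (hG : ClawFree G) (hx : Ex2 G Fr i m a b u w)
    (hd : [i, m, a, b, u, w].Nodup)
    (h_i_a : G.Adj i a) (h_i_b : G.Adj i b) (h_m_u : G.Adj m u) (h_m_w : G.Adj m w) (h_a_b : ¬ G.Adj a b)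
    (k0 : RE G i a b m u w)
    (k1 : RV G i b a m u w)
    : False := by
  simp only [List.nodup_cons, List.mem_cons, List.not_mem_nil, or_false, not_or, not_false_eq_true, List.nodup_nil, and_true, ← ne_eq] at hd
  obtain ⟨⟨n_i_m, n_i_a, n_i_b, n_i_u, n_i_w⟩, ⟨n_m_a, n_m_b, n_m_u, n_m_w⟩, ⟨n_a_b, n_a_u, n_a_w⟩, ⟨n_b_u, n_b_w⟩, n_u_w⟩ := hd
  rcases k0 with ⟨k0_0, k0_1, k0_2, k0_3⟩
  have h_i_m : ¬ G.Adj i m := k0_0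
  have h_i_u : G.Adj i u := k0_1
  have h_i_w : G.Adj i w := k0_2
  have h_b_u : ¬ G.Adj b u := k0_3
  rcases k1 with ⟨k1_0, k1_1, k1_2, k1_3, k1_4, k1_5⟩
  exact (h_i_m (k1_0)).elim

theorem opp_RE_RV {i m a b u w : V} (hG : ClawFree G) (hx : Ex2 G Fr i m a b u w)
    (hd : [i, m, a, b, u, w].Nodup)
    (h_i_a : G.Adj i a) (h_i_b : G.Adj i b) (h_m_u : G.Adj m u) (h_m_w : G.Adj m w) (h_a_b : ¬ G.Adj a b)
    (k0 : RE G i a b m u w)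
    (k1 : RV G i b a m w u)
    : False := by
  simp only [List.nodup_cons, List.mem_cons, List.not_mem_nil, or_false, not_or, not_false_eq_true, List.nodup_nil, and_true, ← ne_eq] at hd
  obtain ⟨⟨n_i_m, n_i_a, n_i_b, n_i_u, n_i_w⟩, ⟨n_m_a, n_m_b, n_m_u, n_m_w⟩, ⟨n_a_b, n_a_u, n_a_w⟩, ⟨n_b_u, n_b_w⟩, n_u_w⟩ := hd
  rcases k0 with ⟨k0_0, k0_1, k0_2, k0_3⟩
  have h_i_m : ¬ G.Adj i m := k0_0
  have h_i_u : G.Adj i u := k0_1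
  have h_i_w : G.Adj i w := k0_2
  have h_b_u : ¬ G.Adj b u := k0_3
  rcases k1 with ⟨k1_0, k1_1, k1_2, k1_3, k1_4, k1_5⟩
  exact (h_i_m (k1_0)).elim

theorem safe_RE_RV {i l m a b x y u w : V} (hG : ClawFree G) (hx : Ex3 G Fr i l m a b x y u w)
    (hd : [i, l, m, a, b, x, y, u, w].Nodup)
    (h_i_a : G.Adj i a) (h_i_b : G.Adj i b) (h_l_x : G.Adj l x) (h_l_y : G.Adj l y) (h_m_u : G.Adj m u) (h_m_w : G.Adj m w) (h_a_b : ¬ G.Adj a b)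
    (k0 : RE G i a b l x y)
    (k1 : RV G i b a m u w)
    (k2 : G.Adj x m)
    : False := by
  simp only [List.nodup_cons, List.mem_cons, List.not_mem_nil, or_false, not_or, not_false_eq_true, List.nodup_nil, and_true, ← ne_eq] at hd
  obtain ⟨⟨n_i_l, n_i_m, n_i_a, n_i_b, n_i_x, n_i_y, n_i_u, n_i_w⟩, ⟨n_l_m, n_l_a, n_l_b, n_l_x, n_l_y, n_l_u, n_l_w⟩, ⟨n_m_a, n_m_b, n_m_x, n_m_y, n_m_u, n_m_w⟩, ⟨n_a_b, n_a_x, n_a_y, n_a_u, n_a_w⟩, ⟨n_b_x, n_b_y, n_b_u, n_b_w⟩, ⟨n_x_y, n_x_u, n_x_w⟩, ⟨n_y_u, n_y_w⟩, n_u_w⟩ := hd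
  rcases k0 with ⟨k0_0, k0_1, k0_2, k0_3⟩
  have h_i_l : ¬ G.Adj i l := k0_0
  have h_i_x : G.Adj i x := k0_1
  have h_i_y : G.Adj i y := k0_2
  have h_b_x : ¬ G.Adj b x := k0_3
  rcases k1 with ⟨k1_0, k1_1, k1_2, k1_3, k1_4, k1_5⟩
  have h_i_m : G.Adj i m := k1_0
  have h_i_u : G.Adj i u := k1_1
  have h_i_w : ¬ G.Adj i w := k1_2
  have h_m_a : ¬ G.Adj m a := fun e => k1_3 e.symm
  have h_a_u : ¬ G.Adj a u := k1_4
  have h_b_w : ¬ G.Adj b w := k1_5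
  have h_m_x : G.Adj m x := k2.symm
  by_cases h_m_b : G.Adj m b
  · by_cases h_b_u : G.Adj b u
    · by_cases h_a_x : G.Adj a x
      · by_cases h_x_w : G.Adj x w
        · by_cases h_l_w : G.Adj l w
          · by_cases h_x_y : G.Adj x y
            · by_cases h_u_w : G.Adj u w
              · by_cases h_a_y : G.Adj a y
                · exact Ex3.x123 hx (Or.inl rfl) (Or.inr (Or.inr (Or.inr (Or.inl rfl)))) (Or.inr (Or.inr (Or.inl rfl))) (Or.inr (Or.inr (Or.inr (Or.inr (Or.inr (Or.inl rfl)))))) (Or.inr (Or.inl rfl)) (Or.inr (Or.inr (Or.inr (Or.inr (Or.inl rfl))))) n_a_y n_a_x n_a_w n_a_b n_a_u n_x_y.symm n_y_w n_b_y.symm n_y_u n_x_w n_b_x.symm n_x_u n_b_w.symm n_u_w.symm n_b_u h_i_a h_i_y h_l_x h_l_w h_m_b h_m_u  h_a_y h_x_w h_b_u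
                by_cases h_m_y : G.Adj m y
                · by_cases h_b_y : G.Adj b y
                  · by_cases h_l_a : G.Adj l a
                    · exact Ex3.x123 hx (Or.inr (Or.inl rfl)) (Or.inr (Or.inr (Or.inr (Or.inl rfl)))) (Or.inl rfl) (Or.inr (Or.inr (Or.inl rfl))) (Or.inr (Or.inr (Or.inr (Or.inr (Or.inl rfl))))) (Or.inr (Or.inr (Or.inr (Or.inr (Or.inr (Or.inl rfl)))))) n_b_y n_a_b.symm n_b_x n_b_u n_b_w n_a_y.symm n_x_y.symm n_y_u n_y_w n_a_x n_a_u n_a_w n_x_u n_x_w n_u_w h_i_b h_i_y h_l_a h_l_x h_m_u h_m_w  h_b_y h_a_x h_u_w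
                    by_cases h_l_u : G.Adj l u
                    · exact Ex3.x123 hx (Or.inl rfl) (Or.inr (Or.inr (Or.inl rfl))) (Or.inr (Or.inr (Or.inr (Or.inr (Or.inl rfl))))) (Or.inr (Or.inr (Or.inr (Or.inr (Or.inr (Or.inl rfl)))))) (Or.inr (Or.inl rfl)) (Or.inr (Or.inr (Or.inr (Or.inl rfl)))) n_a_x n_a_u n_a_w n_a_b n_a_y n_x_u n_x_w n_b_x.symm n_x_y n_u_w n_b_u.symm n_y_u.symm n_b_w.symm n_y_w.symm n_b_y h_i_a h_i_x h_l_u h_l_w h_m_b h_m_y  h_a_x h_u_w h_b_y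
                    by_cases h_a_w : G.Adj a w
                    · exact claw hG n_l_a n_l_u n_a_u h_l_w.symm h_a_w.symm h_u_w.symm h_l_a h_l_u h_a_u
                    by_cases h_y_w : G.Adj y w
                    · exact Ex3.x123 hx (Or.inl rfl) (Or.inr (Or.inr (Or.inl rfl))) (Or.inr (Or.inr (Or.inr (Or.inl rfl)))) (Or.inr (Or.inr (Or.inr (Or.inr (Or.inr (Or.inl rfl)))))) (Or.inr (Or.inl rfl)) (Or.inr (Or.inr (Or.inr (Or.inr (Or.inl rfl))))) n_a_x n_a_y n_a_w n_a_b n_a_u n_x_y n_x_w n_b_x.symm n_x_u n_y_w n_b_y.symm n_y_u n_b_w.symm n_u_w.symm n_b_u h_i_a h_i_x h_l_y h_l_w h_m_b h_m_u  h_a_x h_y_w h_b_u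
                    exact claw hG n_a_y n_a_w n_y_w h_a_x.symm h_x_y h_x_w h_a_y h_a_w h_y_w
                  exact claw hG n_a_b n_a_y n_b_y h_i_a h_i_b h_i_y h_a_b h_a_y h_b_y
                exact claw hG n_m_a n_m_y n_a_y h_i_m h_i_a h_i_y h_m_a h_m_y h_a_y
              exact Ex3.x13_3 hx (Or.inl rfl) (Or.inr (Or.inr (Or.inl rfl))) (Or.inr (Or.inr (Or.inr (Or.inl rfl)))) (Or.inr (Or.inr (Or.inr (Or.inr (Or.inr (Or.inl rfl)))))) (Or.inr (Or.inl rfl)) (Or.inr (Or.inr (Or.inr (Or.inr (Or.inl rfl))))) n_a_x n_a_y n_a_w n_a_b n_a_u n_x_y n_x_w n_b_x.symm n_x_u n_y_w n_b_y.symm n_y_u n_b_w.symm n_u_w.symm n_b_u h_i_a h_i_x h_l_y h_l_w h_m_b h_m_u h_u_w h_a_x h_b_u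
            exact Ex3.x13_2 hx (Or.inl rfl) (Or.inr (Or.inr (Or.inl rfl))) (Or.inr (Or.inr (Or.inr (Or.inl rfl)))) (Or.inr (Or.inr (Or.inr (Or.inr (Or.inr (Or.inl rfl)))))) (Or.inr (Or.inl rfl)) (Or.inr (Or.inr (Or.inr (Or.inr (Or.inl rfl))))) n_a_x n_a_y n_a_w n_a_b n_a_u n_x_y n_x_w n_b_x.symm n_x_u n_y_w n_b_y.symm n_y_u n_b_w.symm n_u_w.symm n_b_u h_i_a h_i_x h_l_y h_l_w h_m_b h_m_u h_x_y h_a_x h_b_u
          exact claw hG n_i_l n_i_w n_l_w h_i_x.symm h_l_x.symm h_x_w h_i_l h_i_w h_l_w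
        exact claw hG n_b_x n_b_w n_x_w h_m_b h_m_x h_m_w h_b_x h_b_w h_x_w
      exact claw hG n_a_b n_a_x n_b_x h_i_a h_i_b h_i_x h_a_b h_a_x h_b_x
    exact claw hG n_a_b n_a_u n_b_u h_i_a h_i_b h_i_u h_a_b h_a_u h_b_u
  exact claw hG n_m_a n_m_b n_a_b h_i_m h_i_a h_i_b h_m_a h_m_b h_a_b

theorem same_RE_RL {i m a b u w : V} (hG : ClawFree G) (hx : Ex2 G Fr i m a b u w)
    (hd : [i, m, a, b, u, w].Nodup)
    (h_i_a : G.Adj i a) (h_i_b : G.Adj i b) (h_m_u : G.Adj m u) (h_m_w : G.Adj m w) (h_a_b : ¬ G.Adj a b)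
    (k0 : RE G i a b m u w)
    (k1 : RL G i b a m u w)
    : False := by
  simp only [List.nodup_cons, List.mem_cons, List.not_mem_nil, or_false, not_or, not_false_eq_true, List.nodup_nil, and_true, ← ne_eq] at hd
  obtain ⟨⟨n_i_m, n_i_a, n_i_b, n_i_u, n_i_w⟩, ⟨n_m_a, n_m_b, n_m_u, n_m_w⟩, ⟨n_a_b, n_a_u, n_a_w⟩, ⟨n_b_u, n_b_w⟩, n_u_w⟩ := hd
  rcases k0 with ⟨k0_0, k0_1, k0_2, k0_3⟩
  have h_i_m : ¬ G.Adj i m := k0_0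
  have h_i_u : G.Adj i u := k0_1
  have h_i_w : G.Adj i w := k0_2
  have h_b_u : ¬ G.Adj b u := k0_3
  rcases k1 with ⟨k1_0, k1_1, k1_2, k1_3, k1_4⟩ | ⟨k1_0, k1_1, k1_2, k1_3, k1_4, k1_5⟩
  · exact (h_i_m (k1_0)).elim
  · exact (h_i_m (k1_0)).elim

theorem opp_RE_RL {i m a b u w : V} (hG : ClawFree G) (hx : Ex2 G Fr i m a b u w)
    (hd : [i, m, a, b, u, w].Nodup)
    (h_i_a : G.Adj i a) (h_i_b : G.Adj i b) (h_m_u : G.Adj m u) (h_m_w : G.Adj m w) (h_a_b : ¬ G.Adj a b)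
    (k0 : RE G i a b m u w)
    (k1 : RL G i b a m w u)
    : False := by
  simp only [List.nodup_cons, List.mem_cons, List.not_mem_nil, or_false, not_or, not_false_eq_true, List.nodup_nil, and_true, ← ne_eq] at hd
  obtain ⟨⟨n_i_m, n_i_a, n_i_b, n_i_u, n_i_w⟩, ⟨n_m_a, n_m_b, n_m_u, n_m_w⟩, ⟨n_a_b, n_a_u, n_a_w⟩, ⟨n_b_u, n_b_w⟩, n_u_w⟩ := hd
  rcases k0 with ⟨k0_0, k0_1, k0_2, k0_3⟩
  have h_i_m : ¬ G.Adj i m := k0_0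
  have h_i_u : G.Adj i u := k0_1
  have h_i_w : G.Adj i w := k0_2
  have h_b_u : ¬ G.Adj b u := k0_3
  rcases k1 with ⟨k1_0, k1_1, k1_2, k1_3, k1_4⟩ | ⟨k1_0, k1_1, k1_2, k1_3, k1_4, k1_5⟩
  · exact (h_i_m (k1_0)).elim
  · exact (h_i_m (k1_0)).elim

theorem safe_RE_RL {i l m a b x y u w : V} (hG : ClawFree G) (hx : Ex3 G Fr i l m a b x y u w)
    (hd : [i, l, m, a, b, x, y, u, w].Nodup)
    (h_i_a : G.Adj i a) (h_i_b : G.Adj i b) (h_l_x : G.Adj l x) (h_l_y : G.Adj l y) (h_m_u : G.Adj m u) (h_m_w : G.Adj m w) (h_a_b : ¬ G.Adj a b)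
    (k0 : RE G i a b l x y)
    (k1 : RL G i b a m u w)
    (k2 : G.Adj x u)
    : False := by
  simp only [List.nodup_cons, List.mem_cons, List.not_mem_nil, or_false, not_or, not_false_eq_true, List.nodup_nil, and_true, ← ne_eq] at hd
  obtain ⟨⟨n_i_l, n_i_m, n_i_a, n_i_b, n_i_x, n_i_y, n_i_u, n_i_w⟩, ⟨n_l_m, n_l_a, n_l_b, n_l_x, n_l_y, n_l_u, n_l_w⟩, ⟨n_m_a, n_m_b, n_m_x, n_m_y, n_m_u, n_m_w⟩, ⟨n_a_b, n_a_x, n_a_y, n_a_u, n_a_w⟩, ⟨n_b_x, n_b_y, n_b_u, n_b_w⟩, ⟨n_x_y, n_x_u, n_x_w⟩, ⟨n_y_u, n_y_w⟩, n_u_w⟩ := hd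
  rcases k0 with ⟨k0_0, k0_1, k0_2, k0_3⟩
  have h_i_l : ¬ G.Adj i l := k0_0
  have h_i_x : G.Adj i x := k0_1
  have h_i_y : G.Adj i y := k0_2
  have h_b_x : ¬ G.Adj b x := k0_3
  rcases k1 with ⟨k1_0, k1_1, k1_2, k1_3, k1_4⟩ | ⟨k1_0, k1_1, k1_2, k1_3, k1_4, k1_5⟩
  · have h_i_m : G.Adj i m := k1_0
    have h_i_u : G.Adj i u := k1_1
    have h_a_u : ¬ G.Adj a u := k1_2
    have h_i_w : G.Adj i w := k1_3
    have h_a_w : ¬ G.Adj a w := k1_4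
    have h_x_u : G.Adj x u := k2
    by_cases h_a_x : G.Adj a x
    · by_cases h_u_w : G.Adj u w
      · by_cases h_b_w : G.Adj b w
        · by_cases h_a_y : G.Adj a y
          · by_cases h_l_a : G.Adj l a
            · by_cases h_m_b : G.Adj m b
              · exact Ex3.x123 hx (Or.inr (Or.inr (Or.inl rfl))) (Or.inr (Or.inr (Or.inr (Or.inr (Or.inl rfl))))) (Or.inl rfl) (Or.inr (Or.inr (Or.inr (Or.inl rfl)))) (Or.inr (Or.inl rfl)) (Or.inr (Or.inr (Or.inr (Or.inr (Or.inr (Or.inl rfl)))))) n_x_u n_a_x.symm n_x_y n_b_x.symm n_x_w n_a_u.symm n_y_u.symm n_b_u.symm n_u_w n_a_y n_a_b n_a_w n_b_y.symm n_y_w n_b_w h_i_x h_i_u h_l_a h_l_y h_m_b h_m_w  h_x_u h_a_y h_b_w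
              by_cases h_m_x : G.Adj m x
              · exact Ex3.x123 hx (Or.inr (Or.inl rfl)) (Or.inr (Or.inr (Or.inr (Or.inr (Or.inr (Or.inl rfl)))))) (Or.inl rfl) (Or.inr (Or.inr (Or.inr (Or.inl rfl)))) (Or.inr (Or.inr (Or.inl rfl))) (Or.inr (Or.inr (Or.inr (Or.inr (Or.inl rfl))))) n_b_w n_a_b.symm n_b_y n_b_x n_b_u n_a_w.symm n_y_w.symm n_x_w.symm n_u_w.symm n_a_y n_a_x n_a_u n_x_y.symm n_y_u n_x_u h_i_b h_i_w h_l_a h_l_y h_m_x h_m_u  h_b_w h_a_y h_x_u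
              exact claw hG n_m_b n_m_x n_b_x h_i_m h_i_b h_i_x h_m_b h_m_x h_b_x
            by_cases h_l_u : G.Adj l u
            · by_cases h_m_b : G.Adj m b
              · exact Ex3.x123 hx (Or.inl rfl) (Or.inr (Or.inr (Or.inr (Or.inl rfl)))) (Or.inr (Or.inr (Or.inl rfl))) (Or.inr (Or.inr (Or.inr (Or.inr (Or.inl rfl))))) (Or.inr (Or.inl rfl)) (Or.inr (Or.inr (Or.inr (Or.inr (Or.inr (Or.inl rfl)))))) n_a_y n_a_x n_a_u n_a_b n_a_w n_x_y.symm n_y_u n_b_y.symm n_y_w n_x_u n_b_x.symm n_x_w n_b_u.symm n_u_w n_b_w h_i_a h_i_y h_l_x h_l_u h_m_b h_m_w  h_a_y h_x_u h_b_w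
              by_cases h_m_a : G.Adj m a
              · by_cases h_m_y : G.Adj m y
                · exact Ex3.x123 hx (Or.inr (Or.inl rfl)) (Or.inr (Or.inr (Or.inr (Or.inr (Or.inr (Or.inl rfl)))))) (Or.inr (Or.inr (Or.inl rfl))) (Or.inr (Or.inr (Or.inr (Or.inr (Or.inl rfl))))) (Or.inl rfl) (Or.inr (Or.inr (Or.inr (Or.inl rfl)))) n_b_w n_b_x n_b_u n_a_b.symm n_b_y n_x_w.symm n_u_w.symm n_a_w.symm n_y_w.symm n_x_u n_a_x.symm n_x_y n_a_u.symm n_y_u.symm n_a_y h_i_b h_i_w h_l_x h_l_u h_m_a h_m_y  h_b_w h_x_u h_a_y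
                by_cases h_b_y : G.Adj b y
                · by_cases h_l_b : G.Adj l b
                  · exact Ex3.x123 hx (Or.inl rfl) (Or.inr (Or.inr (Or.inl rfl))) (Or.inr (Or.inl rfl)) (Or.inr (Or.inr (Or.inr (Or.inl rfl)))) (Or.inr (Or.inr (Or.inr (Or.inr (Or.inl rfl))))) (Or.inr (Or.inr (Or.inr (Or.inr (Or.inr (Or.inl rfl)))))) n_a_x n_a_b n_a_y n_a_u n_a_w n_b_x.symm n_x_y n_x_u n_x_w n_b_y n_b_u n_b_w n_y_u n_y_w n_u_w h_i_a h_i_x h_l_b h_l_y h_m_u h_m_w  h_a_x h_b_y h_u_w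
                  exact claw hG n_l_a n_l_b n_a_b h_l_y.symm h_a_y.symm h_b_y.symm h_l_a h_l_b h_a_b
                exact claw hG n_m_b n_m_y n_b_y h_i_m h_i_b h_i_y h_m_b h_m_y h_b_y
              exact claw hG n_m_a n_m_b n_a_b h_i_m h_i_a h_i_b h_m_a h_m_b h_a_b
            exact claw hG n_l_a n_l_u n_a_u h_l_x.symm h_a_x.symm h_x_u h_l_a h_l_u h_a_u
          by_cases h_b_y : G.Adj b y
          · by_cases h_l_a : G.Adj l a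
            · exact Ex3.x123 hx (Or.inr (Or.inl rfl)) (Or.inr (Or.inr (Or.inr (Or.inl rfl)))) (Or.inl rfl) (Or.inr (Or.inr (Or.inl rfl))) (Or.inr (Or.inr (Or.inr (Or.inr (Or.inl rfl))))) (Or.inr (Or.inr (Or.inr (Or.inr (Or.inr (Or.inl rfl)))))) n_b_y n_a_b.symm n_b_x n_b_u n_b_w n_a_y.symm n_x_y.symm n_y_u n_y_w n_a_x n_a_u n_a_w n_x_u n_x_w n_u_w h_i_b h_i_y h_l_a h_l_x h_m_u h_m_w  h_b_y h_a_x h_u_w
            by_cases h_y_u : G.Adj y u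
            · by_cases h_l_u : G.Adj l u
              · by_cases h_m_b : G.Adj m b
                · exact Ex3.x123 hx (Or.inl rfl) (Or.inr (Or.inr (Or.inl rfl))) (Or.inr (Or.inr (Or.inr (Or.inl rfl)))) (Or.inr (Or.inr (Or.inr (Or.inr (Or.inl rfl))))) (Or.inr (Or.inl rfl)) (Or.inr (Or.inr (Or.inr (Or.inr (Or.inr (Or.inl rfl)))))) n_a_x n_a_y n_a_u n_a_b n_a_w n_x_y n_x_u n_b_x.symm n_x_w n_y_u n_b_y.symm n_y_w n_b_u.symm n_u_w n_b_w h_i_a h_i_x h_l_y h_l_u h_m_b h_m_w  h_a_x h_y_u h_b_w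
                by_cases h_m_a : G.Adj m a
                · by_cases h_m_x : G.Adj m x
                  · exact Ex3.x123 hx (Or.inr (Or.inl rfl)) (Or.inr (Or.inr (Or.inr (Or.inr (Or.inr (Or.inl rfl)))))) (Or.inr (Or.inr (Or.inr (Or.inl rfl)))) (Or.inr (Or.inr (Or.inr (Or.inr (Or.inl rfl))))) (Or.inl rfl) (Or.inr (Or.inr (Or.inl rfl))) n_b_w n_b_y n_b_u n_a_b.symm n_b_x n_y_w.symm n_u_w.symm n_a_w.symm n_x_w.symm n_y_u n_a_y.symm n_x_y.symm n_a_u.symm n_x_u.symm n_a_x h_i_b h_i_w h_l_y h_l_u h_m_a h_m_x  h_b_w h_y_u h_a_x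
                  exact claw hG n_m_b n_m_x n_b_x h_i_m h_i_b h_i_x h_m_b h_m_x h_b_x
                exact claw hG n_m_a n_m_b n_a_b h_i_m h_i_a h_i_b h_m_a h_m_b h_a_b
              exact claw hG n_l_a n_l_u n_a_u h_l_x.symm h_a_x.symm h_x_u h_l_a h_l_u h_a_u
            exact claw hG n_a_y n_a_u n_y_u h_i_a h_i_y h_i_u h_a_y h_a_u h_y_u
          exact claw hG n_a_b n_a_y n_b_y h_i_a h_i_b h_i_y h_a_b h_a_y h_b_y
        exact claw hG n_a_b n_a_w n_b_w h_i_a h_i_b h_i_w h_a_b h_a_w h_b_w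
      exact claw hG n_a_u n_a_w n_u_w h_i_a h_i_u h_i_w h_a_u h_a_w h_u_w
    exact claw hG n_a_b n_a_x n_b_x h_i_a h_i_b h_i_x h_a_b h_a_x h_b_x
  · have h_i_m : G.Adj i m := k1_0
    have h_i_u : G.Adj i u := k1_1
    have h_a_u : ¬ G.Adj a u := k1_2
    have h_i_w : ¬ G.Adj i w := k1_3
    have h_m_b : G.Adj m b := k1_4.symm
    have h_b_w : G.Adj b w := k1_5
    have h_x_u : G.Adj x u := k2
    by_cases h_a_x : G.Adj a x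
    · by_cases h_a_y : G.Adj a y
      · by_cases h_l_a : G.Adj l a
        · exact Ex3.x123 hx (Or.inr (Or.inr (Or.inl rfl))) (Or.inr (Or.inr (Or.inr (Or.inr (Or.inl rfl))))) (Or.inl rfl) (Or.inr (Or.inr (Or.inr (Or.inl rfl)))) (Or.inr (Or.inl rfl)) (Or.inr (Or.inr (Or.inr (Or.inr (Or.inr (Or.inl rfl)))))) n_x_u n_a_x.symm n_x_y n_b_x.symm n_x_w n_a_u.symm n_y_u.symm n_b_u.symm n_u_w n_a_y n_a_b n_a_w n_b_y.symm n_y_w n_b_w h_i_x h_i_u h_l_a h_l_y h_m_b h_m_w  h_x_u h_a_y h_b_w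
        by_cases h_l_u : G.Adj l u
        · exact Ex3.x123 hx (Or.inl rfl) (Or.inr (Or.inr (Or.inr (Or.inl rfl)))) (Or.inr (Or.inr (Or.inl rfl))) (Or.inr (Or.inr (Or.inr (Or.inr (Or.inl rfl))))) (Or.inr (Or.inl rfl)) (Or.inr (Or.inr (Or.inr (Or.inr (Or.inr (Or.inl rfl)))))) n_a_y n_a_x n_a_u n_a_b n_a_w n_x_y.symm n_y_u n_b_y.symm n_y_w n_x_u n_b_x.symm n_x_w n_b_u.symm n_u_w n_b_w h_i_a h_i_y h_l_x h_l_u h_m_b h_m_w  h_a_y h_x_u h_b_w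
        exact claw hG n_l_a n_l_u n_a_u h_l_x.symm h_a_x.symm h_x_u h_l_a h_l_u h_a_u
      by_cases h_y_u : G.Adj y u
      · by_cases h_l_a : G.Adj l a
        · exact Ex3.x123 hx (Or.inr (Or.inr (Or.inr (Or.inl rfl)))) (Or.inr (Or.inr (Or.inr (Or.inr (Or.inl rfl))))) (Or.inl rfl) (Or.inr (Or.inr (Or.inl rfl))) (Or.inr (Or.inl rfl)) (Or.inr (Or.inr (Or.inr (Or.inr (Or.inr (Or.inl rfl)))))) n_y_u n_a_y.symm n_x_y.symm n_b_y.symm n_y_w n_a_u.symm n_x_u.symm n_b_u.symm n_u_w n_a_x n_a_b n_a_w n_b_x.symm n_x_w n_b_w h_i_y h_i_u h_l_a h_l_x h_m_b h_m_w  h_y_u h_a_x h_b_w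
        by_cases h_l_u : G.Adj l u
        · exact Ex3.x123 hx (Or.inl rfl) (Or.inr (Or.inr (Or.inl rfl))) (Or.inr (Or.inr (Or.inr (Or.inl rfl)))) (Or.inr (Or.inr (Or.inr (Or.inr (Or.inl rfl))))) (Or.inr (Or.inl rfl)) (Or.inr (Or.inr (Or.inr (Or.inr (Or.inr (Or.inl rfl)))))) n_a_x n_a_y n_a_u n_a_b n_a_w n_x_y n_x_u n_b_x.symm n_x_w n_y_u n_b_y.symm n_y_w n_b_u.symm n_u_w n_b_w h_i_a h_i_x h_l_y h_l_u h_m_b h_m_w  h_a_x h_y_u h_b_w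
        exact claw hG n_l_a n_l_u n_a_u h_l_x.symm h_a_x.symm h_x_u h_l_a h_l_u h_a_u
      exact claw hG n_a_y n_a_u n_y_u h_i_a h_i_y h_i_u h_a_y h_a_u h_y_u
    exact claw hG n_a_b n_a_x n_b_x h_i_a h_i_b h_i_x h_a_b h_a_x h_b_x

theorem same_RE_RD {i m a b u w : V} (hG : ClawFree G) (hx : Ex2 G Fr i m a b u w)
    (hd : [i, m, a, b, u, w].Nodup)
    (h_i_a : G.Adj i a) (h_i_b : G.Adj i b) (h_m_u : G.Adj m u) (h_m_w : G.Adj m w) (h_a_b : ¬ G.Adj a b)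
    (k0 : RE G i a b m u w)
    (k1 : RD G i b a m u w)
    : False := by
  simp only [List.nodup_cons, List.mem_cons, List.not_mem_nil, or_false, not_or, not_false_eq_true, List.nodup_nil, and_true, ← ne_eq] at hd
  obtain ⟨⟨n_i_m, n_i_a, n_i_b, n_i_u, n_i_w⟩, ⟨n_m_a, n_m_b, n_m_u, n_m_w⟩, ⟨n_a_b, n_a_u, n_a_w⟩, ⟨n_b_u, n_b_w⟩, n_u_w⟩ := hd
  rcases k0 with ⟨k0_0, k0_1, k0_2, k0_3⟩
  have h_i_m : ¬ G.Adj i m := k0_0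
  have h_i_u : G.Adj i u := k0_1
  have h_i_w : G.Adj i w := k0_2
  have h_b_u : ¬ G.Adj b u := k0_3
  rcases k1 with ⟨k1_0, k1_1, k1_2, k1_3, k1_4, k1_5⟩ | ⟨k1_0, k1_1, k1_2, k1_3, k1_4, k1_5⟩
  · exact (h_i_m (k1_0)).elim
  · exact (h_i_m (k1_0)).elim

theorem opp_RE_RD {i m a b u w : V} (hG : ClawFree G) (hx : Ex2 G Fr i m a b u w)
    (hd : [i, m, a, b, u, w].Nodup)
    (h_i_a : G.Adj i a) (h_i_b : G.Adj i b) (h_m_u : G.Adj m u) (h_m_w : G.Adj m w) (h_a_b : ¬ G.Adj a b)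
    (k0 : RE G i a b m u w)
    (k1 : RD G i b a m w u)
    : False := by
  simp only [List.nodup_cons, List.mem_cons, List.not_mem_nil, or_false, not_or, not_false_eq_true, List.nodup_nil, and_true, ← ne_eq] at hd
  obtain ⟨⟨n_i_m, n_i_a, n_i_b, n_i_u, n_i_w⟩, ⟨n_m_a, n_m_b, n_m_u, n_m_w⟩, ⟨n_a_b, n_a_u, n_a_w⟩, ⟨n_b_u, n_b_w⟩, n_u_w⟩ := hd
  rcases k0 with ⟨k0_0, k0_1, k0_2, k0_3⟩
  have h_i_m : ¬ G.Adj i m := k0_0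
  have h_i_u : G.Adj i u := k0_1
  have h_i_w : G.Adj i w := k0_2
  have h_b_u : ¬ G.Adj b u := k0_3
  rcases k1 with ⟨k1_0, k1_1, k1_2, k1_3, k1_4, k1_5⟩ | ⟨k1_0, k1_1, k1_2, k1_3, k1_4, k1_5⟩
  · exact (h_i_m (k1_0)).elim
  · exact (h_i_m (k1_0)).elim

theorem safe_RE_RD {i l m a b x y u w : V} (hG : ClawFree G) (hx : Ex3 G Fr i l m a b x y u w)
    (hd : [i, l, m, a, b, x, y, u, w].Nodup)
    (h_i_a : G.Adj i a) (h_i_b : G.Adj i b) (h_l_x : G.Adj l x) (h_l_y : G.Adj l y) (h_m_u : G.Adj m u) (h_m_w : G.Adj m w) (h_a_b : ¬ G.Adj a b)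
    (k0 : RE G i a b l x y)
    (k1 : RD G i b a m u w)
    (k2 : G.Adj x u)
    : False := by
  simp only [List.nodup_cons, List.mem_cons, List.not_mem_nil, or_false, not_or, not_false_eq_true, List.nodup_nil, and_true, ← ne_eq] at hd
  obtain ⟨⟨n_i_l, n_i_m, n_i_a, n_i_b, n_i_x, n_i_y, n_i_u, n_i_w⟩, ⟨n_l_m, n_l_a, n_l_b, n_l_x, n_l_y, n_l_u, n_l_w⟩, ⟨n_m_a, n_m_b, n_m_x, n_m_y, n_m_u, n_m_w⟩, ⟨n_a_b, n_a_x, n_a_y, n_a_u, n_a_w⟩, ⟨n_b_x, n_b_y, n_b_u, n_b_w⟩, ⟨n_x_y, n_x_u, n_x_w⟩, ⟨n_y_u, n_y_w⟩, n_u_w⟩ := hd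
  rcases k0 with ⟨k0_0, k0_1, k0_2, k0_3⟩
  have h_i_l : ¬ G.Adj i l := k0_0
  have h_i_x : G.Adj i x := k0_1
  have h_i_y : G.Adj i y := k0_2
  have h_b_x : ¬ G.Adj b x := k0_3
  rcases k1 with ⟨k1_0, k1_1, k1_2, k1_3, k1_4, k1_5⟩ | ⟨k1_0, k1_1, k1_2, k1_3, k1_4, k1_5⟩
  · have h_i_m : G.Adj i m := k1_0
    have h_m_b : ¬ G.Adj m b := fun e => k1_1 e.symm
    have h_i_u : G.Adj i u := k1_2
    have h_i_w : ¬ G.Adj i w := k1_3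
    have h_a_u : ¬ G.Adj a u := k1_4
    have h_b_w : ¬ G.Adj b w := k1_5
    have h_x_u : G.Adj x u := k2
    by_cases h_m_x : G.Adj m x
    · by_cases h_m_a : G.Adj m a
      · by_cases h_a_x : G.Adj a x
        · by_cases h_b_u : G.Adj b u
          · by_cases h_u_w : G.Adj u w
            · by_cases h_x_w : G.Adj x w
              · by_cases h_l_w : G.Adj l w
                · by_cases h_x_y : G.Adj x y
                  · by_cases h_y_w : G.Adj y w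
                    · exact Ex3.x123 hx (Or.inr (Or.inl rfl)) (Or.inr (Or.inr (Or.inr (Or.inr (Or.inl rfl))))) (Or.inr (Or.inr (Or.inr (Or.inl rfl)))) (Or.inr (Or.inr (Or.inr (Or.inr (Or.inr (Or.inl rfl)))))) (Or.inl rfl) (Or.inr (Or.inr (Or.inl rfl))) n_b_u n_b_y n_b_w n_a_b.symm n_b_x n_y_u.symm n_u_w n_a_u.symm n_x_u.symm n_y_w n_a_y.symm n_x_y.symm n_a_w.symm n_x_w.symm n_a_x h_i_b h_i_u h_l_y h_l_w h_m_a h_m_x  h_b_u h_y_w h_a_x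
                    by_cases h_a_w : G.Adj a w
                    · exact Ex3.x123 hx (Or.inr (Or.inl rfl)) (Or.inr (Or.inr (Or.inr (Or.inr (Or.inl rfl))))) (Or.inr (Or.inr (Or.inl rfl))) (Or.inr (Or.inr (Or.inr (Or.inl rfl)))) (Or.inl rfl) (Or.inr (Or.inr (Or.inr (Or.inr (Or.inr (Or.inl rfl)))))) n_b_u n_b_x n_b_y n_a_b.symm n_b_w n_x_u.symm n_y_u.symm n_a_u.symm n_u_w n_x_y n_a_x.symm n_x_w n_a_y.symm n_y_w n_a_w h_i_b h_i_u h_l_x h_l_y h_m_a h_m_w  h_b_u h_x_y h_a_w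
                    by_cases h_a_y : G.Adj a y
                    · by_cases h_l_a : G.Adj l a
                      · exact Ex3.x123 hx (Or.inr (Or.inl rfl)) (Or.inr (Or.inr (Or.inr (Or.inr (Or.inl rfl))))) (Or.inl rfl) (Or.inr (Or.inr (Or.inr (Or.inl rfl)))) (Or.inr (Or.inr (Or.inl rfl))) (Or.inr (Or.inr (Or.inr (Or.inr (Or.inr (Or.inl rfl)))))) n_b_u n_a_b.symm n_b_y n_b_x n_b_w n_a_u.symm n_y_u.symm n_x_u.symm n_u_w n_a_y n_a_x n_a_w n_x_y.symm n_y_w n_x_w h_i_b h_i_u h_l_a h_l_y h_m_x h_m_w  h_b_u h_a_y h_x_w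
                      by_cases h_l_u : G.Adj l u
                      · by_cases h_b_y : G.Adj b y
                        · exact Ex3.x123 hx (Or.inr (Or.inl rfl)) (Or.inr (Or.inr (Or.inr (Or.inl rfl)))) (Or.inr (Or.inr (Or.inr (Or.inr (Or.inl rfl))))) (Or.inr (Or.inr (Or.inr (Or.inr (Or.inr (Or.inl rfl)))))) (Or.inl rfl) (Or.inr (Or.inr (Or.inl rfl))) n_b_y n_b_u n_b_w n_a_b.symm n_b_x n_y_u n_y_w n_a_y.symm n_x_y.symm n_u_w n_a_u.symm n_x_u.symm n_a_w.symm n_x_w.symm n_a_x h_i_b h_i_y h_l_u h_l_w h_m_a h_m_x  h_b_y h_u_w h_a_x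
                        by_cases h_m_y : G.Adj m y
                        · exact Ex3.x123 hx (Or.inr (Or.inl rfl)) (Or.inr (Or.inr (Or.inr (Or.inr (Or.inl rfl))))) (Or.inr (Or.inr (Or.inl rfl))) (Or.inr (Or.inr (Or.inr (Or.inr (Or.inr (Or.inl rfl)))))) (Or.inl rfl) (Or.inr (Or.inr (Or.inr (Or.inl rfl)))) n_b_u n_b_x n_b_w n_a_b.symm n_b_y n_x_u.symm n_u_w n_a_u.symm n_y_u.symm n_x_w n_a_x.symm n_x_y n_a_w.symm n_y_w.symm n_a_y h_i_b h_i_u h_l_x h_l_w h_m_a h_m_y  h_b_u h_x_w h_a_y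
                        exact claw hG n_m_b n_m_y n_b_y h_i_m h_i_b h_i_y h_m_b h_m_y h_b_y
                      exact claw hG n_l_a n_l_u n_a_u h_l_x.symm h_a_x.symm h_x_u h_l_a h_l_u h_a_u
                    exact claw hG n_a_y n_a_w n_y_w h_a_x.symm h_x_y h_x_w h_a_y h_a_w h_y_w
                  exact Ex3.x13_2 hx (Or.inr (Or.inl rfl)) (Or.inr (Or.inr (Or.inr (Or.inr (Or.inl rfl))))) (Or.inr (Or.inr (Or.inr (Or.inl rfl)))) (Or.inr (Or.inr (Or.inr (Or.inr (Or.inr (Or.inl rfl)))))) (Or.inl rfl) (Or.inr (Or.inr (Or.inl rfl))) n_b_u n_b_y n_b_w n_a_b.symm n_b_x n_y_u.symm n_u_w n_a_u.symm n_x_u.symm n_y_w n_a_y.symm n_x_y.symm n_a_w.symm n_x_w.symm n_a_x h_i_b h_i_u h_l_y h_l_w h_m_a h_m_x h_x_y h_b_u h_a_x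
                exact claw hG n_i_l n_i_w n_l_w h_i_x.symm h_l_x.symm h_x_w h_i_l h_i_w h_l_w
              exact claw hG n_b_x n_b_w n_x_w h_b_u.symm h_x_u.symm h_u_w h_b_x h_b_w h_x_w
            by_cases h_x_y : G.Adj x y
            · exact Ex3.x12_3 hx (Or.inr (Or.inl rfl)) (Or.inr (Or.inr (Or.inr (Or.inr (Or.inl rfl))))) (Or.inr (Or.inr (Or.inl rfl))) (Or.inr (Or.inr (Or.inr (Or.inl rfl)))) (Or.inl rfl) (Or.inr (Or.inr (Or.inr (Or.inr (Or.inr (Or.inl rfl)))))) n_b_u n_b_x n_b_y n_a_b.symm n_b_w n_x_u.symm n_y_u.symm n_a_u.symm n_u_w n_x_y n_a_x.symm n_x_w n_a_y.symm n_y_w n_a_w h_i_b h_i_u h_l_x h_l_y h_m_a h_m_w h_u_w h_b_u h_x_y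
            exact Ex3.x1_23 hx (Or.inr (Or.inl rfl)) (Or.inr (Or.inr (Or.inr (Or.inr (Or.inl rfl))))) (Or.inr (Or.inr (Or.inl rfl))) (Or.inr (Or.inr (Or.inr (Or.inl rfl)))) (Or.inl rfl) (Or.inr (Or.inr (Or.inr (Or.inr (Or.inr (Or.inl rfl)))))) n_b_u n_b_x n_b_y n_a_b.symm n_b_w n_x_u.symm n_y_u.symm n_a_u.symm n_u_w n_x_y n_a_x.symm n_x_w n_a_y.symm n_y_w n_a_w h_i_b h_i_u h_l_x h_l_y h_m_a h_m_w h_x_y h_u_w h_b_u
          exact claw hG n_a_b n_a_u n_b_u h_i_a h_i_b h_i_u h_a_b h_a_u h_b_u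
        exact claw hG n_a_b n_a_x n_b_x h_i_a h_i_b h_i_x h_a_b h_a_x h_b_x
      exact claw hG n_m_a n_m_b n_a_b h_i_m h_i_a h_i_b h_m_a h_m_b h_a_b
    exact claw hG n_m_b n_m_x n_b_x h_i_m h_i_b h_i_x h_m_b h_m_x h_b_x
  · have h_i_m : G.Adj i m := k1_0
    have h_m_b : ¬ G.Adj m b := fun e => k1_1 e.symm
    have h_i_w : G.Adj i w := k1_2
    have h_i_u : ¬ G.Adj i u := k1_3
    have h_b_w : G.Adj b w := k1_4
    have h_b_u : G.Adj b u := k1_5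
    have h_x_u : G.Adj x u := k2
    by_cases h_m_x : G.Adj m x
    · by_cases h_l_u : G.Adj l u
      · by_cases h_m_a : G.Adj m a
        · by_cases h_a_x : G.Adj a x
          · by_cases h_x_y : G.Adj x y
            · by_cases h_u_w : G.Adj u w
              · by_cases h_y_u : G.Adj y u
                · exact Ex3.x123 hx (Or.inr (Or.inl rfl)) (Or.inr (Or.inr (Or.inr (Or.inr (Or.inr (Or.inl rfl)))))) (Or.inr (Or.inr (Or.inr (Or.inl rfl)))) (Or.inr (Or.inr (Or.inr (Or.inr (Or.inl rfl))))) (Or.inl rfl) (Or.inr (Or.inr (Or.inl rfl))) n_b_w n_b_y n_b_u n_a_b.symm n_b_x n_y_w.symm n_u_w.symm n_a_w.symm n_x_w.symm n_y_u n_a_y.symm n_x_y.symm n_a_u.symm n_x_u.symm n_a_x h_i_b h_i_w h_l_y h_l_u h_m_a h_m_x  h_b_w h_y_u h_a_x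
                by_cases h_a_u : G.Adj a u
                · exact Ex3.x123 hx (Or.inr (Or.inl rfl)) (Or.inr (Or.inr (Or.inr (Or.inr (Or.inr (Or.inl rfl)))))) (Or.inr (Or.inr (Or.inl rfl))) (Or.inr (Or.inr (Or.inr (Or.inl rfl)))) (Or.inl rfl) (Or.inr (Or.inr (Or.inr (Or.inr (Or.inl rfl))))) n_b_w n_b_x n_b_y n_a_b.symm n_b_u n_x_w.symm n_y_w.symm n_a_w.symm n_u_w.symm n_x_y n_a_x.symm n_x_u n_a_y.symm n_y_u n_a_u h_i_b h_i_w h_l_x h_l_y h_m_a h_m_u  h_b_w h_x_y h_a_u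
                by_cases h_a_y : G.Adj a y
                · by_cases h_l_a : G.Adj l a
                  · exact Ex3.x123 hx (Or.inr (Or.inl rfl)) (Or.inr (Or.inr (Or.inr (Or.inr (Or.inr (Or.inl rfl)))))) (Or.inl rfl) (Or.inr (Or.inr (Or.inr (Or.inl rfl)))) (Or.inr (Or.inr (Or.inl rfl))) (Or.inr (Or.inr (Or.inr (Or.inr (Or.inl rfl))))) n_b_w n_a_b.symm n_b_y n_b_x n_b_u n_a_w.symm n_y_w.symm n_x_w.symm n_u_w.symm n_a_y n_a_x n_a_u n_x_y.symm n_y_u n_x_u h_i_b h_i_w h_l_a h_l_y h_m_x h_m_u  h_b_w h_a_y h_x_u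
                  by_cases h_m_y : G.Adj m y
                  · exact Ex3.x123 hx (Or.inr (Or.inl rfl)) (Or.inr (Or.inr (Or.inr (Or.inr (Or.inr (Or.inl rfl)))))) (Or.inr (Or.inr (Or.inl rfl))) (Or.inr (Or.inr (Or.inr (Or.inr (Or.inl rfl))))) (Or.inl rfl) (Or.inr (Or.inr (Or.inr (Or.inl rfl)))) n_b_w n_b_x n_b_u n_a_b.symm n_b_y n_x_w.symm n_u_w.symm n_a_w.symm n_y_w.symm n_x_u n_a_x.symm n_x_y n_a_u.symm n_y_u.symm n_a_y h_i_b h_i_w h_l_x h_l_u h_m_a h_m_y  h_b_w h_x_u h_a_y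
                  by_cases h_b_y : G.Adj b y
                  · by_cases h_l_b : G.Adj l b
                    · exact Ex3.x123 hx (Or.inl rfl) (Or.inr (Or.inr (Or.inl rfl))) (Or.inr (Or.inl rfl)) (Or.inr (Or.inr (Or.inr (Or.inl rfl)))) (Or.inr (Or.inr (Or.inr (Or.inr (Or.inl rfl))))) (Or.inr (Or.inr (Or.inr (Or.inr (Or.inr (Or.inl rfl)))))) n_a_x n_a_b n_a_y n_a_u n_a_w n_b_x.symm n_x_y n_x_u n_x_w n_b_y n_b_u n_b_w n_y_u n_y_w n_u_w h_i_a h_i_x h_l_b h_l_y h_m_u h_m_w  h_a_x h_b_y h_u_w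
                    exact claw hG n_l_a n_l_b n_a_b h_l_y.symm h_a_y.symm h_b_y.symm h_l_a h_l_b h_a_b
                  exact claw hG n_m_b n_m_y n_b_y h_i_m h_i_b h_i_y h_m_b h_m_y h_b_y
                exact claw hG n_a_y n_a_u n_y_u h_a_x.symm h_x_y h_x_u h_a_y h_a_u h_y_u
              exact Ex3.x13_3 hx (Or.inr (Or.inl rfl)) (Or.inr (Or.inr (Or.inr (Or.inr (Or.inr (Or.inl rfl)))))) (Or.inr (Or.inr (Or.inr (Or.inl rfl)))) (Or.inr (Or.inr (Or.inr (Or.inr (Or.inl rfl))))) (Or.inl rfl) (Or.inr (Or.inr (Or.inl rfl))) n_b_w n_b_y n_b_u n_a_b.symm n_b_x n_y_w.symm n_u_w.symm n_a_w.symm n_x_w.symm n_y_u n_a_y.symm n_x_y.symm n_a_u.symm n_x_u.symm n_a_x h_i_b h_i_w h_l_y h_l_u h_m_a h_m_x h_u_w h_b_w h_a_x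
            exact Ex3.x13_2 hx (Or.inr (Or.inl rfl)) (Or.inr (Or.inr (Or.inr (Or.inr (Or.inr (Or.inl rfl)))))) (Or.inr (Or.inr (Or.inr (Or.inl rfl)))) (Or.inr (Or.inr (Or.inr (Or.inr (Or.inl rfl))))) (Or.inl rfl) (Or.inr (Or.inr (Or.inl rfl))) n_b_w n_b_y n_b_u n_a_b.symm n_b_x n_y_w.symm n_u_w.symm n_a_w.symm n_x_w.symm n_y_u n_a_y.symm n_x_y.symm n_a_u.symm n_x_u.symm n_a_x h_i_b h_i_w h_l_y h_l_u h_m_a h_m_x h_x_y h_b_w h_a_x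
          exact claw hG n_a_b n_a_x n_b_x h_i_a h_i_b h_i_x h_a_b h_a_x h_b_x
        exact claw hG n_m_a n_m_b n_a_b h_i_m h_i_a h_i_b h_m_a h_m_b h_a_b
      exact claw hG n_i_l n_i_u n_l_u h_i_x.symm h_l_x.symm h_x_u h_i_l h_i_u h_l_u
    exact claw hG n_m_b n_m_x n_b_x h_i_m h_i_b h_i_x h_m_b h_m_x h_b_x

theorem RD_b {i m a b u w : V} (hG : ClawFree G) (hx : Ex2 G Fr i m a b u w)
    (hd : [i, m, a, b, u, w].Nodup)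
    (h_i_a : G.Adj i a) (h_i_b : G.Adj i b) (h_m_u : G.Adj m u) (h_m_w : G.Adj m w) (h_a_b : ¬ G.Adj a b)
    (k0 : RD G i a b m u w)
    (k1 : G.Adj u b)
    : False := by
  simp only [List.nodup_cons, List.mem_cons, List.not_mem_nil, or_false, not_or, not_false_eq_true, List.nodup_nil, and_true, ← ne_eq] at hd
  obtain ⟨⟨n_i_m, n_i_a, n_i_b, n_i_u, n_i_w⟩, ⟨n_m_a, n_m_b, n_m_u, n_m_w⟩, ⟨n_a_b, n_a_u, n_a_w⟩, ⟨n_b_u, n_b_w⟩, n_u_w⟩ := hd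
  rcases k0 with ⟨k0_0, k0_1, k0_2, k0_3, k0_4, k0_5⟩ | ⟨k0_0, k0_1, k0_2, k0_3, k0_4, k0_5⟩
  · have h_i_m : G.Adj i m := k0_0
    have h_m_a : ¬ G.Adj m a := fun e => k0_1 e.symm
    have h_i_u : G.Adj i u := k0_2
    have h_i_w : ¬ G.Adj i w := k0_3
    have h_b_u : ¬ G.Adj b u := k0_4
    have h_a_w : ¬ G.Adj a w := k0_5
    exact (h_b_u (k1.symm)).elim
  · have h_i_m : G.Adj i m := k0_0
    have h_m_a : ¬ G.Adj m a := fun e => k0_1 e.symm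
    have h_i_w : G.Adj i w := k0_2
    have h_i_u : ¬ G.Adj i u := k0_3
    have h_a_w : G.Adj a w := k0_4
    have h_a_u : G.Adj a u := k0_5
    have h_b_u : G.Adj b u := k1.symm
    by_cases h_m_b : G.Adj m b
    · exact Ex2.x12 hx (Or.inl rfl) (Or.inr (Or.inr (Or.inr (Or.inl rfl)))) (Or.inr (Or.inl rfl)) (Or.inr (Or.inr (Or.inl rfl))) n_a_w n_a_b n_a_u n_b_w.symm n_u_w.symm n_b_u h_i_a h_i_w h_m_b h_m_u  h_a_w h_b_u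
    exact claw hG n_m_a n_m_b n_a_b h_i_m h_i_a h_i_b h_m_a h_m_b h_a_b

theorem RV_free {i m a b u w c : V} (hG : ClawFree G) (hx : Ex2 G Fr i m a b u w)
    (hd : [i, m, a, b, u, w, c].Nodup) (hF_c : Fr c)
    (h_i_a : G.Adj i a) (h_i_b : G.Adj i b) (h_m_u : G.Adj m u) (h_m_w : G.Adj m w) (h_a_b : ¬ G.Adj a b)
    (k0 : RV G i a b m u w)
    (k1 : G.Adj m c)
    : False := by
  simp only [List.nodup_cons, List.mem_cons, List.not_mem_nil, or_false, not_or, not_false_eq_true, List.nodup_nil, and_true, ← ne_eq] at hd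
  obtain ⟨⟨n_i_m, n_i_a, n_i_b, n_i_u, n_i_w, n_i_c⟩, ⟨n_m_a, n_m_b, n_m_u, n_m_w, n_m_c⟩, ⟨n_a_b, n_a_u, n_a_w, n_a_c⟩, ⟨n_b_u, n_b_w, n_b_c⟩, ⟨n_u_w, n_u_c⟩, n_w_c⟩ := hd
  rcases k0 with ⟨k0_0, k0_1, k0_2, k0_3, k0_4, k0_5⟩
  have h_i_m : G.Adj i m := k0_0
  have h_i_u : G.Adj i u := k0_1
  have h_i_w : ¬ G.Adj i w := k0_2
  have h_m_b : ¬ G.Adj m b := fun e => k0_3 e.symm
  have h_b_u : ¬ G.Adj b u := k0_4
  have h_a_w : ¬ G.Adj a w := k0_5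
  have h_m_c : G.Adj m c := k1
  by_cases h_a_u : G.Adj a u
  · by_cases h_u_w : G.Adj u w
    · by_cases h_w_c : G.Adj w c
      · exact Ex2.x12 hx (Or.inl rfl) (Or.inr (Or.inr (Or.inl rfl))) (Or.inr (Or.inr (Or.inr (Or.inl rfl)))) (Or.inr (Or.inr (Or.inr (Or.inr (hF_c))))) n_a_u n_a_w n_a_c n_u_w n_u_c n_w_c h_i_a h_i_u h_m_w h_m_c  h_a_u h_w_c
      by_cases h_i_c : G.Adj i c
      · by_cases h_a_c : G.Adj a c
        · exact Ex2.x12 hx (Or.inl rfl) (Or.inr (Or.inr (Or.inr (Or.inr (hF_c))))) (Or.inr (Or.inr (Or.inl rfl))) (Or.inr (Or.inr (Or.inr (Or.inl rfl)))) n_a_c n_a_u n_a_w n_u_c.symm n_w_c.symm n_u_w h_i_a h_i_c h_m_u h_m_w  h_a_c h_u_w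
        by_cases h_b_c : G.Adj b c
        · exact Ex2.x12 hx (Or.inr (Or.inl rfl)) (Or.inr (Or.inr (Or.inr (Or.inr (hF_c))))) (Or.inr (Or.inr (Or.inl rfl))) (Or.inr (Or.inr (Or.inr (Or.inl rfl)))) n_b_c n_b_u n_b_w n_u_c.symm n_w_c.symm n_u_w h_i_b h_i_c h_m_u h_m_w  h_b_c h_u_w
        exact claw hG n_a_b n_a_c n_b_c h_i_a h_i_b h_i_c h_a_b h_a_c h_b_c
      exact claw hG n_i_w n_i_c n_w_c h_i_m.symm h_m_w h_m_c h_i_w h_i_c h_w_c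
    exact Ex2.x1_2 hx (Or.inl rfl) (Or.inr (Or.inr (Or.inl rfl))) (Or.inr (Or.inr (Or.inr (Or.inl rfl)))) (Or.inr (Or.inr (Or.inr (Or.inr (hF_c))))) n_a_u n_a_w n_a_c n_u_w n_u_c n_w_c h_i_a h_i_u h_m_w h_m_c h_u_w h_a_u
  exact claw hG n_a_b n_a_u n_b_u h_i_a h_i_b h_i_u h_a_b h_a_u h_b_u

theorem RD_free {i m a b u w c : V} (hG : ClawFree G) (hx : Ex2 G Fr i m a b u w)
    (hd : [i, m, a, b, u, w, c].Nodup) (hF_c : Fr c)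
    (h_i_a : G.Adj i a) (h_i_b : G.Adj i b) (h_m_u : G.Adj m u) (h_m_w : G.Adj m w) (h_a_b : ¬ G.Adj a b)
    (k0 : RD G i a b m u w)
    (k1 : G.Adj u c)
    (k2 : ¬ G.Adj a c)
    : False := by
  simp only [List.nodup_cons, List.mem_cons, List.not_mem_nil, or_false, not_or, not_false_eq_true, List.nodup_nil, and_true, ← ne_eq] at hd
  obtain ⟨⟨n_i_m, n_i_a, n_i_b, n_i_u, n_i_w, n_i_c⟩, ⟨n_m_a, n_m_b, n_m_u, n_m_w, n_m_c⟩, ⟨n_a_b, n_a_u, n_a_w, n_a_c⟩, ⟨n_b_u, n_b_w, n_b_c⟩, ⟨n_u_w, n_u_c⟩, n_w_c⟩ := hd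
  rcases k0 with ⟨k0_0, k0_1, k0_2, k0_3, k0_4, k0_5⟩ | ⟨k0_0, k0_1, k0_2, k0_3, k0_4, k0_5⟩
  · have h_i_m : G.Adj i m := k0_0
    have h_m_a : ¬ G.Adj m a := fun e => k0_1 e.symm
    have h_i_u : G.Adj i u := k0_2
    have h_i_w : ¬ G.Adj i w := k0_3
    have h_b_u : ¬ G.Adj b u := k0_4
    have h_a_w : ¬ G.Adj a w := k0_5
    have h_u_c : G.Adj u c := k1
    have h_a_c : ¬ G.Adj a c := k2
    by_cases h_a_u : G.Adj a u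
    · by_cases h_m_c : G.Adj m c
      · by_cases h_u_w : G.Adj u w
        · by_cases h_w_c : G.Adj w c
          · exact Ex2.x12 hx (Or.inl rfl) (Or.inr (Or.inr (Or.inl rfl))) (Or.inr (Or.inr (Or.inr (Or.inl rfl)))) (Or.inr (Or.inr (Or.inr (Or.inr (hF_c))))) n_a_u n_a_w n_a_c n_u_w n_u_c n_w_c h_i_a h_i_u h_m_w h_m_c  h_a_u h_w_c
          exact claw hG n_a_w n_a_c n_w_c h_a_u.symm h_u_w h_u_c h_a_w h_a_c h_w_c
        exact Ex2.x2_2 hx (Or.inl rfl) (Or.inr (Or.inl rfl)) (Or.inr (Or.inr (Or.inl rfl))) (Or.inr (Or.inr (Or.inr (Or.inr (hF_c))))) n_a_b n_a_u n_a_c n_b_u n_b_c n_u_c h_i_a h_i_b h_m_u h_m_c h_u_w h_u_c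
      exact claw hG n_m_a n_m_c n_a_c h_m_u.symm h_a_u.symm h_u_c h_m_a h_m_c h_a_c
    exact claw hG n_a_b n_a_u n_b_u h_i_a h_i_b h_i_u h_a_b h_a_u h_b_u
  · have h_i_m : G.Adj i m := k0_0
    have h_m_a : ¬ G.Adj m a := fun e => k0_1 e.symm
    have h_i_w : G.Adj i w := k0_2
    have h_i_u : ¬ G.Adj i u := k0_3
    have h_a_w : G.Adj a w := k0_4
    have h_a_u : G.Adj a u := k0_5
    have h_u_c : G.Adj u c := k1
    have h_a_c : ¬ G.Adj a c := k2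
    by_cases h_m_c : G.Adj m c
    · exact Ex2.x12 hx (Or.inl rfl) (Or.inr (Or.inr (Or.inr (Or.inl rfl)))) (Or.inr (Or.inr (Or.inl rfl))) (Or.inr (Or.inr (Or.inr (Or.inr (hF_c))))) n_a_w n_a_u n_a_c n_u_w.symm n_w_c n_u_c h_i_a h_i_w h_m_u h_m_c  h_a_w h_u_c
    exact claw hG n_m_a n_m_c n_a_c h_m_u.symm h_a_u.symm h_u_c h_m_a h_m_c h_a_c

theorem RE_free {i m a b u w c : V} (hG : ClawFree G) (hx : Ex2 G Fr i m a b u w)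
    (hd : [i, m, a, b, u, w, c].Nodup) (hF_c : Fr c)
    (h_i_a : G.Adj i a) (h_i_b : G.Adj i b) (h_m_u : G.Adj m u) (h_m_w : G.Adj m w) (h_a_b : ¬ G.Adj a b)
    (k0 : RE G i a b m u w)
    (k1 : G.Adj u c)
    : False := by
  simp only [List.nodup_cons, List.mem_cons, List.not_mem_nil, or_false, not_or, not_false_eq_true, List.nodup_nil, and_true, ← ne_eq] at hd
  obtain ⟨⟨n_i_m, n_i_a, n_i_b, n_i_u, n_i_w, n_i_c⟩, ⟨n_m_a, n_m_b, n_m_u, n_m_w, n_m_c⟩, ⟨n_a_b, n_a_u, n_a_w, n_a_c⟩, ⟨n_b_u, n_b_w, n_b_c⟩, ⟨n_u_w, n_u_c⟩, n_w_c⟩ := hd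
  rcases k0 with ⟨k0_0, k0_1, k0_2, k0_3⟩
  have h_i_m : ¬ G.Adj i m := k0_0
  have h_i_u : G.Adj i u := k0_1
  have h_i_w : G.Adj i w := k0_2
  have h_b_u : ¬ G.Adj b u := k0_3
  have h_u_c : G.Adj u c := k1
  by_cases h_a_u : G.Adj a u
  · by_cases h_m_c : G.Adj m c
    · by_cases h_b_w : G.Adj b w
      · exact Ex2.x12 hx (Or.inr (Or.inl rfl)) (Or.inr (Or.inr (Or.inr (Or.inl rfl)))) (Or.inr (Or.inr (Or.inl rfl))) (Or.inr (Or.inr (Or.inr (Or.inr (hF_c))))) n_b_w n_b_u n_b_c n_u_w.symm n_w_c n_u_c h_i_b h_i_w h_m_u h_m_c  h_b_w h_u_c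
      by_cases h_a_w : G.Adj a w
      · exact Ex2.x12 hx (Or.inl rfl) (Or.inr (Or.inr (Or.inr (Or.inl rfl)))) (Or.inr (Or.inr (Or.inl rfl))) (Or.inr (Or.inr (Or.inr (Or.inr (hF_c))))) n_a_w n_a_u n_a_c n_u_w.symm n_w_c n_u_c h_i_a h_i_w h_m_u h_m_c  h_a_w h_u_c
      exact claw hG n_a_b n_a_w n_b_w h_i_a h_i_b h_i_w h_a_b h_a_w h_b_w
    by_cases h_i_c : G.Adj i c
    · by_cases h_u_w : G.Adj u w
      · by_cases h_a_c : G.Adj a c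
        · exact Ex2.x12 hx (Or.inl rfl) (Or.inr (Or.inr (Or.inr (Or.inr (hF_c))))) (Or.inr (Or.inr (Or.inl rfl))) (Or.inr (Or.inr (Or.inr (Or.inl rfl)))) n_a_c n_a_u n_a_w n_u_c.symm n_w_c.symm n_u_w h_i_a h_i_c h_m_u h_m_w  h_a_c h_u_w
        by_cases h_b_c : G.Adj b c
        · exact Ex2.x12 hx (Or.inr (Or.inl rfl)) (Or.inr (Or.inr (Or.inr (Or.inr (hF_c))))) (Or.inr (Or.inr (Or.inl rfl))) (Or.inr (Or.inr (Or.inr (Or.inl rfl)))) n_b_c n_b_u n_b_w n_u_c.symm n_w_c.symm n_u_w h_i_b h_i_c h_m_u h_m_w  h_b_c h_u_w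
        exact claw hG n_a_b n_a_c n_b_c h_i_a h_i_b h_i_c h_a_b h_a_c h_b_c
      by_cases h_m_a : G.Adj m a
      · exact Ex2.x2_2 hx (Or.inr (Or.inl rfl)) (Or.inr (Or.inr (Or.inr (Or.inl rfl)))) (Or.inl rfl) (Or.inr (Or.inr (Or.inl rfl))) n_b_w n_a_b.symm n_b_u n_a_w.symm n_u_w.symm n_a_u h_i_b h_i_w h_m_a h_m_u h_u_w h_a_u
      by_cases h_a_c : G.Adj a c
      · exact Ex2.x1_2 hx (Or.inl rfl) (Or.inr (Or.inr (Or.inr (Or.inr (hF_c))))) (Or.inr (Or.inr (Or.inl rfl))) (Or.inr (Or.inr (Or.inr (Or.inl rfl)))) n_a_c n_a_u n_a_w n_u_c.symm n_w_c.symm n_u_w h_i_a h_i_c h_m_u h_m_w h_u_w h_a_c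
      exact claw hG n_m_a n_m_c n_a_c h_m_u.symm h_a_u.symm h_u_c h_m_a h_m_c h_a_c
    exact claw hG n_i_m n_i_c n_m_c h_i_u.symm h_m_u.symm h_u_c h_i_m h_i_c h_m_c
  exact claw hG n_a_b n_a_u n_b_u h_i_a h_i_b h_i_u h_a_b h_a_u h_b_u

theorem ker_RV {i l m a b x y u w : V} (hG : ClawFree G) (hx : Ex3 G Fr i l m a b x y u w)
    (hd : [i, l, m, a, b, x, y, u, w].Nodup)
    (h_i_a : G.Adj i a) (h_i_b : G.Adj i b) (h_l_x : G.Adj l x) (h_l_y : G.Adj l y) (h_m_u : G.Adj m u) (h_m_w : G.Adj m w) (h_a_b : ¬ G.Adj a b)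
    (k0 : RV G i b a l x y)
    (k1 : ¬ G.Adj x y)
    (k2 : RV G i a b m u w)
    (k3 : G.Adj m x)
    : False := by
  simp only [List.nodup_cons, List.mem_cons, List.not_mem_nil, or_false, not_or, not_false_eq_true, List.nodup_nil, and_true, ← ne_eq] at hd
  obtain ⟨⟨n_i_l, n_i_m, n_i_a, n_i_b, n_i_x, n_i_y, n_i_u, n_i_w⟩, ⟨n_l_m, n_l_a, n_l_b, n_l_x, n_l_y, n_l_u, n_l_w⟩, ⟨n_m_a, n_m_b, n_m_x, n_m_y, n_m_u, n_m_w⟩, ⟨n_a_b, n_a_x, n_a_y, n_a_u, n_a_w⟩, ⟨n_b_x, n_b_y, n_b_u, n_b_w⟩, ⟨n_x_y, n_x_u, n_x_w⟩, ⟨n_y_u, n_y_w⟩, n_u_w⟩ := hd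
  rcases k0 with ⟨k0_0, k0_1, k0_2, k0_3, k0_4, k0_5⟩
  have h_i_l : G.Adj i l := k0_0
  have h_i_x : G.Adj i x := k0_1
  have h_i_y : ¬ G.Adj i y := k0_2
  have h_l_a : ¬ G.Adj l a := fun e => k0_3 e.symm
  have h_a_x : ¬ G.Adj a x := k0_4
  have h_b_y : ¬ G.Adj b y := k0_5
  have h_x_y : ¬ G.Adj x y := k1
  rcases k2 with ⟨k2_0, k2_1, k2_2, k2_3, k2_4, k2_5⟩
  have h_i_m : G.Adj i m := k2_0
  have h_i_u : G.Adj i u := k2_1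
  have h_i_w : ¬ G.Adj i w := k2_2
  have h_m_b : ¬ G.Adj m b := fun e => k2_3 e.symm
  have h_b_u : ¬ G.Adj b u := k2_4
  have h_a_w : ¬ G.Adj a w := k2_5
  have h_m_x : G.Adj m x := k3
  by_cases h_l_b : G.Adj l b
  · by_cases h_a_u : G.Adj a u
    · by_cases h_m_a : G.Adj m a
      · by_cases h_x_w : G.Adj x w
        · exact Ex3.x13_2 hx (Or.inl rfl) (Or.inr (Or.inr (Or.inr (Or.inr (Or.inl rfl))))) (Or.inr (Or.inl rfl)) (Or.inr (Or.inr (Or.inr (Or.inl rfl)))) (Or.inr (Or.inr (Or.inl rfl))) (Or.inr (Or.inr (Or.inr (Or.inr (Or.inr (Or.inl rfl)))))) n_a_u n_a_b n_a_y n_a_x n_a_w n_b_u.symm n_y_u.symm n_x_u.symm n_u_w n_b_y n_b_x n_b_w n_x_y.symm n_y_w n_x_w h_i_a h_i_u h_l_b h_l_y h_m_x h_m_w h_x_y h_a_u h_x_w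
        exact claw hG n_a_x n_a_w n_x_w h_m_a h_m_x h_m_w h_a_x h_a_w h_x_w
      exact claw hG n_m_a n_m_b n_a_b h_i_m h_i_a h_i_b h_m_a h_m_b h_a_b
    exact claw hG n_a_b n_a_u n_b_u h_i_a h_i_b h_i_u h_a_b h_a_u h_b_u
  exact claw hG n_l_a n_l_b n_a_b h_i_l h_i_a h_i_b h_l_a h_l_b h_a_b

theorem pet_RV {i l m a b x y u w : V} (hG : ClawFree G) (hx : Ex3 G Fr i l m a b x y u w)
    (hd : [i, l, m, a, b, x, y, u, w].Nodup)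
    (h_i_a : G.Adj i a) (h_i_b : G.Adj i b) (h_l_x : G.Adj l x) (h_l_y : G.Adj l y) (h_m_u : G.Adj m u) (h_m_w : G.Adj m w) (h_a_b : ¬ G.Adj a b)
    (k0 : RV G i b a l x y)
    (k1 : ¬ G.Adj x y)
    (k2 : RV G i b a m u w)
    (k3 : G.Adj y m)
    : False := by
  simp only [List.nodup_cons, List.mem_cons, List.not_mem_nil, or_false, not_or, not_false_eq_true, List.nodup_nil, and_true, ← ne_eq] at hd
  obtain ⟨⟨n_i_l, n_i_m, n_i_a, n_i_b, n_i_x, n_i_y, n_i_u, n_i_w⟩, ⟨n_l_m, n_l_a, n_l_b, n_l_x, n_l_y, n_l_u, n_l_w⟩, ⟨n_m_a, n_m_b, n_m_x, n_m_y, n_m_u, n_m_w⟩, ⟨n_a_b, n_a_x, n_a_y, n_a_u, n_a_w⟩, ⟨n_b_x, n_b_y, n_b_u, n_b_w⟩, ⟨n_x_y, n_x_u, n_x_w⟩, ⟨n_y_u, n_y_w⟩, n_u_w⟩ := hd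
  rcases k0 with ⟨k0_0, k0_1, k0_2, k0_3, k0_4, k0_5⟩
  have h_i_l : G.Adj i l := k0_0
  have h_i_x : G.Adj i x := k0_1
  have h_i_y : ¬ G.Adj i y := k0_2
  have h_l_a : ¬ G.Adj l a := fun e => k0_3 e.symm
  have h_a_x : ¬ G.Adj a x := k0_4
  have h_b_y : ¬ G.Adj b y := k0_5
  have h_x_y : ¬ G.Adj x y := k1
  rcases k2 with ⟨k2_0, k2_1, k2_2, k2_3, k2_4, k2_5⟩
  have h_i_m : G.Adj i m := k2_0
  have h_i_u : G.Adj i u := k2_1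
  have h_i_w : ¬ G.Adj i w := k2_2
  have h_m_a : ¬ G.Adj m a := fun e => k2_3 e.symm
  have h_a_u : ¬ G.Adj a u := k2_4
  have h_b_w : ¬ G.Adj b w := k2_5
  have h_m_y : G.Adj m y := k3.symm
  by_cases h_y_w : G.Adj y w
  · by_cases h_l_b : G.Adj l b
    · by_cases h_b_x : G.Adj b x
      · exact Ex3.x23_2 hx (Or.inl rfl) (Or.inr (Or.inr (Or.inr (Or.inr (Or.inl rfl))))) (Or.inr (Or.inl rfl)) (Or.inr (Or.inr (Or.inl rfl))) (Or.inr (Or.inr (Or.inr (Or.inl rfl)))) (Or.inr (Or.inr (Or.inr (Or.inr (Or.inr (Or.inl rfl)))))) n_a_u n_a_b n_a_x n_a_y n_a_w n_b_u.symm n_x_u.symm n_y_u.symm n_u_w n_b_x n_b_y n_b_w n_x_y n_x_w n_y_w h_i_a h_i_u h_l_b h_l_x h_m_y h_m_w h_x_y h_b_x h_y_w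
      exact claw hG n_a_b n_a_x n_b_x h_i_a h_i_b h_i_x h_a_b h_a_x h_b_x
    exact claw hG n_l_a n_l_b n_a_b h_i_l h_i_a h_i_b h_l_a h_l_b h_a_b
  exact claw hG n_i_y n_i_w n_y_w h_i_m.symm h_m_y h_m_w h_i_y h_i_w h_y_w

theorem ker_RL {i l m a b x y u w : V} (hG : ClawFree G) (hx : Ex3 G Fr i l m a b x y u w)
    (hd : [i, l, m, a, b, x, y, u, w].Nodup)
    (h_i_a : G.Adj i a) (h_i_b : G.Adj i b) (h_l_x : G.Adj l x) (h_l_y : G.Adj l y) (h_m_u : G.Adj m u) (h_m_w : G.Adj m w) (h_a_b : ¬ G.Adj a b)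
    (k0 : RV G i b a l x y)
    (k1 : ¬ G.Adj x y)
    (k2 : RL G i a b m u w)
    (k3 : G.Adj u x)
    : False := by
  simp only [List.nodup_cons, List.mem_cons, List.not_mem_nil, or_false, not_or, not_false_eq_true, List.nodup_nil, and_true, ← ne_eq] at hd
  obtain ⟨⟨n_i_l, n_i_m, n_i_a, n_i_b, n_i_x, n_i_y, n_i_u, n_i_w⟩, ⟨n_l_m, n_l_a, n_l_b, n_l_x, n_l_y, n_l_u, n_l_w⟩, ⟨n_m_a, n_m_b, n_m_x, n_m_y, n_m_u, n_m_w⟩, ⟨n_a_b, n_a_x, n_a_y, n_a_u, n_a_w⟩, ⟨n_b_x, n_b_y, n_b_u, n_b_w⟩, ⟨n_x_y, n_x_u, n_x_w⟩, ⟨n_y_u, n_y_w⟩, n_u_w⟩ := hd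
  rcases k0 with ⟨k0_0, k0_1, k0_2, k0_3, k0_4, k0_5⟩
  have h_i_l : G.Adj i l := k0_0
  have h_i_x : G.Adj i x := k0_1
  have h_i_y : ¬ G.Adj i y := k0_2
  have h_l_a : ¬ G.Adj l a := fun e => k0_3 e.symm
  have h_a_x : ¬ G.Adj a x := k0_4
  have h_b_y : ¬ G.Adj b y := k0_5
  have h_x_y : ¬ G.Adj x y := k1
  rcases k2 with ⟨k2_0, k2_1, k2_2, k2_3, k2_4⟩ | ⟨k2_0, k2_1, k2_2, k2_3, k2_4, k2_5⟩
  · have h_i_m : G.Adj i m := k2_0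
    have h_i_u : G.Adj i u := k2_1
    have h_b_u : ¬ G.Adj b u := k2_2
    have h_i_w : G.Adj i w := k2_3
    have h_b_w : ¬ G.Adj b w := k2_4
    have h_x_u : G.Adj x u := k3.symm
    by_cases h_l_b : G.Adj l b
    · by_cases h_a_w : G.Adj a w
      · by_cases h_m_a : G.Adj m a
        · exact Ex3.x13_2 hx (Or.inr (Or.inr (Or.inl rfl))) (Or.inr (Or.inr (Or.inr (Or.inr (Or.inl rfl))))) (Or.inr (Or.inl rfl)) (Or.inr (Or.inr (Or.inr (Or.inl rfl)))) (Or.inl rfl) (Or.inr (Or.inr (Or.inr (Or.inr (Or.inr (Or.inl rfl)))))) n_x_u n_b_x.symm n_x_y n_a_x.symm n_x_w n_b_u.symm n_y_u.symm n_a_u.symm n_u_w n_b_y n_a_b.symm n_b_w n_a_y.symm n_y_w n_a_w h_i_x h_i_u h_l_b h_l_y h_m_a h_m_w h_x_y h_x_u h_a_w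
        by_cases h_m_x : G.Adj m x
        · exact Ex3.x13_2 hx (Or.inl rfl) (Or.inr (Or.inr (Or.inr (Or.inr (Or.inr (Or.inl rfl)))))) (Or.inr (Or.inl rfl)) (Or.inr (Or.inr (Or.inr (Or.inl rfl)))) (Or.inr (Or.inr (Or.inl rfl))) (Or.inr (Or.inr (Or.inr (Or.inr (Or.inl rfl))))) n_a_w n_a_b n_a_y n_a_x n_a_u n_b_w.symm n_y_w.symm n_x_w.symm n_u_w.symm n_b_y n_b_x n_b_u n_x_y.symm n_y_u n_x_u h_i_a h_i_w h_l_b h_l_y h_m_x h_m_u h_x_y h_a_w h_x_u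
        exact claw hG n_m_a n_m_x n_a_x h_i_m h_i_a h_i_x h_m_a h_m_x h_a_x
      exact claw hG n_a_b n_a_w n_b_w h_i_a h_i_b h_i_w h_a_b h_a_w h_b_w
    exact claw hG n_l_a n_l_b n_a_b h_i_l h_i_a h_i_b h_l_a h_l_b h_a_b
  · have h_i_m : G.Adj i m := k2_0
    have h_i_u : G.Adj i u := k2_1
    have h_b_u : ¬ G.Adj b u := k2_2
    have h_i_w : ¬ G.Adj i w := k2_3
    have h_m_a : G.Adj m a := k2_4.symm
    have h_a_w : G.Adj a w := k2_5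
    have h_x_u : G.Adj x u := k3.symm
    by_cases h_l_b : G.Adj l b
    · exact Ex3.x13_2 hx (Or.inr (Or.inr (Or.inl rfl))) (Or.inr (Or.inr (Or.inr (Or.inr (Or.inl rfl))))) (Or.inr (Or.inl rfl)) (Or.inr (Or.inr (Or.inr (Or.inl rfl)))) (Or.inl rfl) (Or.inr (Or.inr (Or.inr (Or.inr (Or.inr (Or.inl rfl)))))) n_x_u n_b_x.symm n_x_y n_a_x.symm n_x_w n_b_u.symm n_y_u.symm n_a_u.symm n_u_w n_b_y n_a_b.symm n_b_w n_a_y.symm n_y_w n_a_w h_i_x h_i_u h_l_b h_l_y h_m_a h_m_w h_x_y h_x_u h_a_w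
    exact claw hG n_l_a n_l_b n_a_b h_i_l h_i_a h_i_b h_l_a h_l_b h_a_b

theorem pet_RL {i l m a b x y u w : V} (hG : ClawFree G) (hx : Ex3 G Fr i l m a b x y u w)
    (hd : [i, l, m, a, b, x, y, u, w].Nodup)
    (h_i_a : G.Adj i a) (h_i_b : G.Adj i b) (h_l_x : G.Adj l x) (h_l_y : G.Adj l y) (h_m_u : G.Adj m u) (h_m_w : G.Adj m w) (h_a_b : ¬ G.Adj a b)
    (k0 : RV G i b a l x y)
    (k1 : ¬ G.Adj x y)
    (k2 : RL G i b a m u w)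
    (k3 : G.Adj y u)
    : False := by
  simp only [List.nodup_cons, List.mem_cons, List.not_mem_nil, or_false, not_or, not_false_eq_true, List.nodup_nil, and_true, ← ne_eq] at hd
  obtain ⟨⟨n_i_l, n_i_m, n_i_a, n_i_b, n_i_x, n_i_y, n_i_u, n_i_w⟩, ⟨n_l_m, n_l_a, n_l_b, n_l_x, n_l_y, n_l_u, n_l_w⟩, ⟨n_m_a, n_m_b, n_m_x, n_m_y, n_m_u, n_m_w⟩, ⟨n_a_b, n_a_x, n_a_y, n_a_u, n_a_w⟩, ⟨n_b_x, n_b_y, n_b_u, n_b_w⟩, ⟨n_x_y, n_x_u, n_x_w⟩, ⟨n_y_u, n_y_w⟩, n_u_w⟩ := hd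
  rcases k0 with ⟨k0_0, k0_1, k0_2, k0_3, k0_4, k0_5⟩
  have h_i_l : G.Adj i l := k0_0
  have h_i_x : G.Adj i x := k0_1
  have h_i_y : ¬ G.Adj i y := k0_2
  have h_l_a : ¬ G.Adj l a := fun e => k0_3 e.symm
  have h_a_x : ¬ G.Adj a x := k0_4
  have h_b_y : ¬ G.Adj b y := k0_5
  have h_x_y : ¬ G.Adj x y := k1
  rcases k2 with ⟨k2_0, k2_1, k2_2, k2_3, k2_4⟩ | ⟨k2_0, k2_1, k2_2, k2_3, k2_4, k2_5⟩
  · have h_i_m : G.Adj i m := k2_0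
    have h_i_u : G.Adj i u := k2_1
    have h_a_u : ¬ G.Adj a u := k2_2
    have h_i_w : G.Adj i w := k2_3
    have h_a_w : ¬ G.Adj a w := k2_4
    have h_y_u : G.Adj y u := k3
    by_cases h_b_x : G.Adj b x
    · by_cases h_l_u : G.Adj l u
      · by_cases h_m_a : G.Adj m a
        · exact Ex3.x12_2 hx (Or.inr (Or.inl rfl)) (Or.inr (Or.inr (Or.inl rfl))) (Or.inr (Or.inr (Or.inr (Or.inl rfl)))) (Or.inr (Or.inr (Or.inr (Or.inr (Or.inl rfl))))) (Or.inl rfl) (Or.inr (Or.inr (Or.inr (Or.inr (Or.inr (Or.inl rfl)))))) n_b_x n_b_y n_b_u n_a_b.symm n_b_w n_x_y n_x_u n_a_x.symm n_x_w n_y_u n_a_y.symm n_y_w n_a_u.symm n_u_w n_a_w h_i_b h_i_x h_l_y h_l_u h_m_a h_m_w h_x_y h_b_x h_y_u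
        by_cases h_m_b : G.Adj m b
        · by_cases h_m_x : G.Adj m x
          · exact Ex3.x23_2 hx (Or.inl rfl) (Or.inr (Or.inr (Or.inr (Or.inr (Or.inr (Or.inl rfl)))))) (Or.inr (Or.inr (Or.inr (Or.inl rfl)))) (Or.inr (Or.inr (Or.inr (Or.inr (Or.inl rfl))))) (Or.inr (Or.inl rfl)) (Or.inr (Or.inr (Or.inl rfl))) n_a_w n_a_y n_a_u n_a_b n_a_x n_y_w.symm n_u_w.symm n_b_w.symm n_x_w.symm n_y_u n_b_y.symm n_x_y.symm n_b_u.symm n_x_u.symm n_b_x h_i_a h_i_w h_l_y h_l_u h_m_b h_m_x h_x_y h_y_u h_b_x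
          exact claw hG n_m_a n_m_x n_a_x h_i_m h_i_a h_i_x h_m_a h_m_x h_a_x
        exact claw hG n_m_a n_m_b n_a_b h_i_m h_i_a h_i_b h_m_a h_m_b h_a_b
      exact claw hG n_l_a n_l_u n_a_u h_i_l h_i_a h_i_u h_l_a h_l_u h_a_u
    exact claw hG n_a_b n_a_x n_b_x h_i_a h_i_b h_i_x h_a_b h_a_x h_b_x
  · have h_i_m : G.Adj i m := k2_0
    have h_i_u : G.Adj i u := k2_1
    have h_a_u : ¬ G.Adj a u := k2_2
    have h_i_w : ¬ G.Adj i w := k2_3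
    have h_m_b : G.Adj m b := k2_4.symm
    have h_b_w : G.Adj b w := k2_5
    have h_y_u : G.Adj y u := k3
    by_cases h_l_u : G.Adj l u
    · exact Ex3.x23_2 hx (Or.inl rfl) (Or.inr (Or.inr (Or.inl rfl))) (Or.inr (Or.inr (Or.inr (Or.inl rfl)))) (Or.inr (Or.inr (Or.inr (Or.inr (Or.inl rfl))))) (Or.inr (Or.inl rfl)) (Or.inr (Or.inr (Or.inr (Or.inr (Or.inr (Or.inl rfl)))))) n_a_x n_a_y n_a_u n_a_b n_a_w n_x_y n_x_u n_b_x.symm n_x_w n_y_u n_b_y.symm n_y_w n_b_u.symm n_u_w n_b_w h_i_a h_i_x h_l_y h_l_u h_m_b h_m_w h_x_y h_y_u h_b_w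
    exact claw hG n_l_a n_l_u n_a_u h_i_l h_i_a h_i_u h_l_a h_l_u h_a_u

theorem ker_RD {i l m a b x y u w : V} (hG : ClawFree G) (hx : Ex3 G Fr i l m a b x y u w)
    (hd : [i, l, m, a, b, x, y, u, w].Nodup)
    (h_i_a : G.Adj i a) (h_i_b : G.Adj i b) (h_l_x : G.Adj l x) (h_l_y : G.Adj l y) (h_m_u : G.Adj m u) (h_m_w : G.Adj m w) (h_a_b : ¬ G.Adj a b)
    (k0 : RV G i b a l x y)
    (k1 : ¬ G.Adj x y)
    (k2 : RD G i a b m u w)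
    (k3 : G.Adj u x)
    : False := by
  simp only [List.nodup_cons, List.mem_cons, List.not_mem_nil, or_false, not_or, not_false_eq_true, List.nodup_nil, and_true, ← ne_eq] at hd
  obtain ⟨⟨n_i_l, n_i_m, n_i_a, n_i_b, n_i_x, n_i_y, n_i_u, n_i_w⟩, ⟨n_l_m, n_l_a, n_l_b, n_l_x, n_l_y, n_l_u, n_l_w⟩, ⟨n_m_a, n_m_b, n_m_x, n_m_y, n_m_u, n_m_w⟩, ⟨n_a_b, n_a_x, n_a_y, n_a_u, n_a_w⟩, ⟨n_b_x, n_b_y, n_b_u, n_b_w⟩, ⟨n_x_y, n_x_u, n_x_w⟩, ⟨n_y_u, n_y_w⟩, n_u_w⟩ := hd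
  rcases k0 with ⟨k0_0, k0_1, k0_2, k0_3, k0_4, k0_5⟩
  have h_i_l : G.Adj i l := k0_0
  have h_i_x : G.Adj i x := k0_1
  have h_i_y : ¬ G.Adj i y := k0_2
  have h_l_a : ¬ G.Adj l a := fun e => k0_3 e.symm
  have h_a_x : ¬ G.Adj a x := k0_4
  have h_b_y : ¬ G.Adj b y := k0_5
  have h_x_y : ¬ G.Adj x y := k1
  rcases k2 with ⟨k2_0, k2_1, k2_2, k2_3, k2_4, k2_5⟩ | ⟨k2_0, k2_1, k2_2, k2_3, k2_4, k2_5⟩
  · have h_i_m : G.Adj i m := k2_0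
    have h_m_a : ¬ G.Adj m a := fun e => k2_1 e.symm
    have h_i_u : G.Adj i u := k2_2
    have h_i_w : ¬ G.Adj i w := k2_3
    have h_b_u : ¬ G.Adj b u := k2_4
    have h_a_w : ¬ G.Adj a w := k2_5
    have h_x_u : G.Adj x u := k3.symm
    by_cases h_l_b : G.Adj l b
    · by_cases h_a_u : G.Adj a u
      · by_cases h_m_x : G.Adj m x
        · by_cases h_u_w : G.Adj u w
          · by_cases h_x_w : G.Adj x w
            · exact Ex3.x13_2 hx (Or.inl rfl) (Or.inr (Or.inr (Or.inr (Or.inr (Or.inl rfl))))) (Or.inr (Or.inl rfl)) (Or.inr (Or.inr (Or.inr (Or.inl rfl)))) (Or.inr (Or.inr (Or.inl rfl))) (Or.inr (Or.inr (Or.inr (Or.inr (Or.inr (Or.inl rfl)))))) n_a_u n_a_b n_a_y n_a_x n_a_w n_b_u.symm n_y_u.symm n_x_u.symm n_u_w n_b_y n_b_x n_b_w n_x_y.symm n_y_w n_x_w h_i_a h_i_u h_l_b h_l_y h_m_x h_m_w h_x_y h_a_u h_x_w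
            exact claw hG n_a_x n_a_w n_x_w h_a_u.symm h_x_u.symm h_u_w h_a_x h_a_w h_x_w
          exact Ex3.x1_23 hx (Or.inl rfl) (Or.inr (Or.inr (Or.inr (Or.inr (Or.inl rfl))))) (Or.inr (Or.inl rfl)) (Or.inr (Or.inr (Or.inr (Or.inl rfl)))) (Or.inr (Or.inr (Or.inl rfl))) (Or.inr (Or.inr (Or.inr (Or.inr (Or.inr (Or.inl rfl)))))) n_a_u n_a_b n_a_y n_a_x n_a_w n_b_u.symm n_y_u.symm n_x_u.symm n_u_w n_b_y n_b_x n_b_w n_x_y.symm n_y_w n_x_w h_i_a h_i_u h_l_b h_l_y h_m_x h_m_w h_x_y h_u_w h_a_u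
        exact claw hG n_m_a n_m_x n_a_x h_i_m h_i_a h_i_x h_m_a h_m_x h_a_x
      exact claw hG n_a_b n_a_u n_b_u h_i_a h_i_b h_i_u h_a_b h_a_u h_b_u
    exact claw hG n_l_a n_l_b n_a_b h_i_l h_i_a h_i_b h_l_a h_l_b h_a_b
  · have h_i_m : G.Adj i m := k2_0
    have h_m_a : ¬ G.Adj m a := fun e => k2_1 e.symm
    have h_i_w : G.Adj i w := k2_2
    have h_i_u : ¬ G.Adj i u := k2_3
    have h_a_w : G.Adj a w := k2_4
    have h_a_u : G.Adj a u := k2_5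
    have h_x_u : G.Adj x u := k3.symm
    by_cases h_m_x : G.Adj m x
    · by_cases h_l_b : G.Adj l b
      · exact Ex3.x13_2 hx (Or.inl rfl) (Or.inr (Or.inr (Or.inr (Or.inr (Or.inr (Or.inl rfl)))))) (Or.inr (Or.inl rfl)) (Or.inr (Or.inr (Or.inr (Or.inl rfl)))) (Or.inr (Or.inr (Or.inl rfl))) (Or.inr (Or.inr (Or.inr (Or.inr (Or.inl rfl))))) n_a_w n_a_b n_a_y n_a_x n_a_u n_b_w.symm n_y_w.symm n_x_w.symm n_u_w.symm n_b_y n_b_x n_b_u n_x_y.symm n_y_u n_x_u h_i_a h_i_w h_l_b h_l_y h_m_x h_m_u h_x_y h_a_w h_x_u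
      exact claw hG n_l_a n_l_b n_a_b h_i_l h_i_a h_i_b h_l_a h_l_b h_a_b
    exact claw hG n_m_a n_m_x n_a_x h_i_m h_i_a h_i_x h_m_a h_m_x h_a_x

theorem pet_RD {i l m a b x y u w : V} (hG : ClawFree G) (hx : Ex3 G Fr i l m a b x y u w)
    (hd : [i, l, m, a, b, x, y, u, w].Nodup)
    (h_i_a : G.Adj i a) (h_i_b : G.Adj i b) (h_l_x : G.Adj l x) (h_l_y : G.Adj l y) (h_m_u : G.Adj m u) (h_m_w : G.Adj m w) (h_a_b : ¬ G.Adj a b)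
    (k0 : RV G i b a l x y)
    (k1 : ¬ G.Adj x y)
    (k2 : RD G i b a m u w)
    (k3 : G.Adj y u)
    : False := by
  simp only [List.nodup_cons, List.mem_cons, List.not_mem_nil, or_false, not_or, not_false_eq_true, List.nodup_nil, and_true, ← ne_eq] at hd
  obtain ⟨⟨n_i_l, n_i_m, n_i_a, n_i_b, n_i_x, n_i_y, n_i_u, n_i_w⟩, ⟨n_l_m, n_l_a, n_l_b, n_l_x, n_l_y, n_l_u, n_l_w⟩, ⟨n_m_a, n_m_b, n_m_x, n_m_y, n_m_u, n_m_w⟩, ⟨n_a_b, n_a_x, n_a_y, n_a_u, n_a_w⟩, ⟨n_b_x, n_b_y, n_b_u, n_b_w⟩, ⟨n_x_y, n_x_u, n_x_w⟩, ⟨n_y_u, n_y_w⟩, n_u_w⟩ := hd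
  rcases k0 with ⟨k0_0, k0_1, k0_2, k0_3, k0_4, k0_5⟩
  have h_i_l : G.Adj i l := k0_0
  have h_i_x : G.Adj i x := k0_1
  have h_i_y : ¬ G.Adj i y := k0_2
  have h_l_a : ¬ G.Adj l a := fun e => k0_3 e.symm
  have h_a_x : ¬ G.Adj a x := k0_4
  have h_b_y : ¬ G.Adj b y := k0_5
  have h_x_y : ¬ G.Adj x y := k1
  rcases k2 with ⟨k2_0, k2_1, k2_2, k2_3, k2_4, k2_5⟩ | ⟨k2_0, k2_1, k2_2, k2_3, k2_4, k2_5⟩
  · have h_i_m : G.Adj i m := k2_0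
    have h_m_b : ¬ G.Adj m b := fun e => k2_1 e.symm
    have h_i_u : G.Adj i u := k2_2
    have h_i_w : ¬ G.Adj i w := k2_3
    have h_a_u : ¬ G.Adj a u := k2_4
    have h_b_w : ¬ G.Adj b w := k2_5
    have h_y_u : G.Adj y u := k3
    by_cases h_b_x : G.Adj b x
    · by_cases h_m_a : G.Adj m a
      · by_cases h_l_u : G.Adj l u
        · exact Ex3.x12_2 hx (Or.inr (Or.inl rfl)) (Or.inr (Or.inr (Or.inl rfl))) (Or.inr (Or.inr (Or.inr (Or.inl rfl)))) (Or.inr (Or.inr (Or.inr (Or.inr (Or.inl rfl))))) (Or.inl rfl) (Or.inr (Or.inr (Or.inr (Or.inr (Or.inr (Or.inl rfl)))))) n_b_x n_b_y n_b_u n_a_b.symm n_b_w n_x_y n_x_u n_a_x.symm n_x_w n_y_u n_a_y.symm n_y_w n_a_u.symm n_u_w n_a_w h_i_b h_i_x h_l_y h_l_u h_m_a h_m_w h_x_y h_b_x h_y_u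
        exact claw hG n_l_a n_l_u n_a_u h_i_l h_i_a h_i_u h_l_a h_l_u h_a_u
      exact claw hG n_m_a n_m_b n_a_b h_i_m h_i_a h_i_b h_m_a h_m_b h_a_b
    exact claw hG n_a_b n_a_x n_b_x h_i_a h_i_b h_i_x h_a_b h_a_x h_b_x
  · have h_i_m : G.Adj i m := k2_0
    have h_m_b : ¬ G.Adj m b := fun e => k2_1 e.symm
    have h_i_w : G.Adj i w := k2_2
    have h_i_u : ¬ G.Adj i u := k2_3
    have h_b_w : G.Adj b w := k2_4
    have h_b_u : G.Adj b u := k2_5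
    have h_y_u : G.Adj y u := k3
    by_cases h_b_x : G.Adj b x
    · by_cases h_l_b : G.Adj l b
      · by_cases h_m_y : G.Adj m y
        · exact Ex3.x23_2 hx (Or.inl rfl) (Or.inr (Or.inr (Or.inr (Or.inr (Or.inr (Or.inl rfl)))))) (Or.inr (Or.inl rfl)) (Or.inr (Or.inr (Or.inl rfl))) (Or.inr (Or.inr (Or.inr (Or.inl rfl)))) (Or.inr (Or.inr (Or.inr (Or.inr (Or.inl rfl))))) n_a_w n_a_b n_a_x n_a_y n_a_u n_b_w.symm n_x_w.symm n_y_w.symm n_u_w.symm n_b_x n_b_y n_b_u n_x_y n_x_u n_y_u h_i_a h_i_w h_l_b h_l_x h_m_y h_m_u h_x_y h_b_x h_y_u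
        exact claw hG n_m_b n_m_y n_b_y h_m_u.symm h_b_u.symm h_y_u.symm h_m_b h_m_y h_b_y
      exact claw hG n_l_a n_l_b n_a_b h_i_l h_i_a h_i_b h_l_a h_l_b h_a_b
    exact claw hG n_a_b n_a_x n_b_x h_i_a h_i_b h_i_x h_a_b h_a_x h_b_x

theorem ker_RE {i l m a b x y u w : V} (hG : ClawFree G) (hx : Ex3 G Fr i l m a b x y u w)
    (hd : [i, l, m, a, b, x, y, u, w].Nodup)
    (h_i_a : G.Adj i a) (h_i_b : G.Adj i b) (h_l_x : G.Adj l x) (h_l_y : G.Adj l y) (h_m_u : G.Adj m u) (h_m_w : G.Adj m w) (h_a_b : ¬ G.Adj a b)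
    (k0 : RV G i b a l x y)
    (k1 : ¬ G.Adj x y)
    (k2 : RE G i a b m u w)
    (k3 : G.Adj u x)
    : False := by
  simp only [List.nodup_cons, List.mem_cons, List.not_mem_nil, or_false, not_or, not_false_eq_true, List.nodup_nil, and_true, ← ne_eq] at hd
  obtain ⟨⟨n_i_l, n_i_m, n_i_a, n_i_b, n_i_x, n_i_y, n_i_u, n_i_w⟩, ⟨n_l_m, n_l_a, n_l_b, n_l_x, n_l_y, n_l_u, n_l_w⟩, ⟨n_m_a, n_m_b, n_m_x, n_m_y, n_m_u, n_m_w⟩, ⟨n_a_b, n_a_x, n_a_y, n_a_u, n_a_w⟩, ⟨n_b_x, n_b_y, n_b_u, n_b_w⟩, ⟨n_x_y, n_x_u, n_x_w⟩, ⟨n_y_u, n_y_w⟩, n_u_w⟩ := hd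
  rcases k0 with ⟨k0_0, k0_1, k0_2, k0_3, k0_4, k0_5⟩
  have h_i_l : G.Adj i l := k0_0
  have h_i_x : G.Adj i x := k0_1
  have h_i_y : ¬ G.Adj i y := k0_2
  have h_l_a : ¬ G.Adj l a := fun e => k0_3 e.symm
  have h_a_x : ¬ G.Adj a x := k0_4
  have h_b_y : ¬ G.Adj b y := k0_5
  have h_x_y : ¬ G.Adj x y := k1
  rcases k2 with ⟨k2_0, k2_1, k2_2, k2_3⟩
  have h_i_m : ¬ G.Adj i m := k2_0
  have h_i_u : G.Adj i u := k2_1
  have h_i_w : G.Adj i w := k2_2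
  have h_b_u : ¬ G.Adj b u := k2_3
  have h_x_u : G.Adj x u := k3.symm
  by_cases h_l_b : G.Adj l b
  · by_cases h_a_u : G.Adj a u
    · by_cases h_m_a : G.Adj m a
      · by_cases h_a_w : G.Adj a w
        · exact Ex3.x13_2 hx (Or.inr (Or.inr (Or.inl rfl))) (Or.inr (Or.inr (Or.inr (Or.inr (Or.inl rfl))))) (Or.inr (Or.inl rfl)) (Or.inr (Or.inr (Or.inr (Or.inl rfl)))) (Or.inl rfl) (Or.inr (Or.inr (Or.inr (Or.inr (Or.inr (Or.inl rfl)))))) n_x_u n_b_x.symm n_x_y n_a_x.symm n_x_w n_b_u.symm n_y_u.symm n_a_u.symm n_u_w n_b_y n_a_b.symm n_b_w n_a_y.symm n_y_w n_a_w h_i_x h_i_u h_l_b h_l_y h_m_a h_m_w h_x_y h_x_u h_a_w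
        by_cases h_x_w : G.Adj x w
        · exact Ex3.x13_2 hx (Or.inr (Or.inr (Or.inl rfl))) (Or.inr (Or.inr (Or.inr (Or.inr (Or.inr (Or.inl rfl)))))) (Or.inr (Or.inl rfl)) (Or.inr (Or.inr (Or.inr (Or.inl rfl)))) (Or.inl rfl) (Or.inr (Or.inr (Or.inr (Or.inr (Or.inl rfl))))) n_x_w n_b_x.symm n_x_y n_a_x.symm n_x_u n_b_w.symm n_y_w.symm n_a_w.symm n_u_w.symm n_b_y n_a_b.symm n_b_u n_a_y.symm n_y_u n_a_u h_i_x h_i_w h_l_b h_l_y h_m_a h_m_u h_x_y h_x_w h_a_u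
        exact claw hG n_a_x n_a_w n_x_w h_i_a h_i_x h_i_w h_a_x h_a_w h_x_w
      by_cases h_m_x : G.Adj m x
      · by_cases h_a_w : G.Adj a w
        · exact Ex3.x13_2 hx (Or.inl rfl) (Or.inr (Or.inr (Or.inr (Or.inr (Or.inr (Or.inl rfl)))))) (Or.inr (Or.inl rfl)) (Or.inr (Or.inr (Or.inr (Or.inl rfl)))) (Or.inr (Or.inr (Or.inl rfl))) (Or.inr (Or.inr (Or.inr (Or.inr (Or.inl rfl))))) n_a_w n_a_b n_a_y n_a_x n_a_u n_b_w.symm n_y_w.symm n_x_w.symm n_u_w.symm n_b_y n_b_x n_b_u n_x_y.symm n_y_u n_x_u h_i_a h_i_w h_l_b h_l_y h_m_x h_m_u h_x_y h_a_w h_x_u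
        by_cases h_x_w : G.Adj x w
        · exact Ex3.x13_2 hx (Or.inl rfl) (Or.inr (Or.inr (Or.inr (Or.inr (Or.inl rfl))))) (Or.inr (Or.inl rfl)) (Or.inr (Or.inr (Or.inr (Or.inl rfl)))) (Or.inr (Or.inr (Or.inl rfl))) (Or.inr (Or.inr (Or.inr (Or.inr (Or.inr (Or.inl rfl)))))) n_a_u n_a_b n_a_y n_a_x n_a_w n_b_u.symm n_y_u.symm n_x_u.symm n_u_w n_b_y n_b_x n_b_w n_x_y.symm n_y_w n_x_w h_i_a h_i_u h_l_b h_l_y h_m_x h_m_w h_x_y h_a_u h_x_w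
        exact claw hG n_a_x n_a_w n_x_w h_i_a h_i_x h_i_w h_a_x h_a_w h_x_w
      exact claw hG n_m_a n_m_x n_a_x h_m_u.symm h_a_u.symm h_x_u.symm h_m_a h_m_x h_a_x
    exact claw hG n_a_b n_a_u n_b_u h_i_a h_i_b h_i_u h_a_b h_a_u h_b_u
  exact claw hG n_l_a n_l_b n_a_b h_i_l h_i_a h_i_b h_l_a h_l_b h_a_b

theorem pet_RE {i l m a b x y u w : V} (hG : ClawFree G) (hx : Ex3 G Fr i l m a b x y u w)
    (hd : [i, l, m, a, b, x, y, u, w].Nodup)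
    (h_i_a : G.Adj i a) (h_i_b : G.Adj i b) (h_l_x : G.Adj l x) (h_l_y : G.Adj l y) (h_m_u : G.Adj m u) (h_m_w : G.Adj m w) (h_a_b : ¬ G.Adj a b)
    (k0 : RV G i b a l x y)
    (k1 : ¬ G.Adj x y)
    (k2 : RE G i b a m u w)
    (k3 : G.Adj y u)
    : False := by
  simp only [List.nodup_cons, List.mem_cons, List.not_mem_nil, or_false, not_or, not_false_eq_true, List.nodup_nil, and_true, ← ne_eq] at hd
  obtain ⟨⟨n_i_l, n_i_m, n_i_a, n_i_b, n_i_x, n_i_y, n_i_u, n_i_w⟩, ⟨n_l_m, n_l_a, n_l_b, n_l_x, n_l_y, n_l_u, n_l_w⟩, ⟨n_m_a, n_m_b, n_m_x, n_m_y, n_m_u, n_m_w⟩, ⟨n_a_b, n_a_x, n_a_y, n_a_u, n_a_w⟩, ⟨n_b_x, n_b_y, n_b_u, n_b_w⟩, ⟨n_x_y, n_x_u, n_x_w⟩, ⟨n_y_u, n_y_w⟩, n_u_w⟩ := hd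
  rcases k0 with ⟨k0_0, k0_1, k0_2, k0_3, k0_4, k0_5⟩
  have h_i_l : G.Adj i l := k0_0
  have h_i_x : G.Adj i x := k0_1
  have h_i_y : ¬ G.Adj i y := k0_2
  have h_l_a : ¬ G.Adj l a := fun e => k0_3 e.symm
  have h_a_x : ¬ G.Adj a x := k0_4
  have h_b_y : ¬ G.Adj b y := k0_5
  have h_x_y : ¬ G.Adj x y := k1
  rcases k2 with ⟨k2_0, k2_1, k2_2, k2_3⟩
  have h_i_m : ¬ G.Adj i m := k2_0
  have h_i_u : G.Adj i u := k2_1
  have h_i_w : G.Adj i w := k2_2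
  have h_a_u : ¬ G.Adj a u := k2_3
  have h_y_u : G.Adj y u := k3
  by_cases h_m_y : G.Adj m y
  · by_cases h_l_b : G.Adj l b
    · by_cases h_b_x : G.Adj b x
      · exact Ex3.x23_2 hx (Or.inl rfl) (Or.inr (Or.inr (Or.inr (Or.inr (Or.inr (Or.inl rfl)))))) (Or.inr (Or.inl rfl)) (Or.inr (Or.inr (Or.inl rfl))) (Or.inr (Or.inr (Or.inr (Or.inl rfl)))) (Or.inr (Or.inr (Or.inr (Or.inr (Or.inl rfl))))) n_a_w n_a_b n_a_x n_a_y n_a_u n_b_w.symm n_x_w.symm n_y_w.symm n_u_w.symm n_b_x n_b_y n_b_u n_x_y n_x_u n_y_u h_i_a h_i_w h_l_b h_l_x h_m_y h_m_u h_x_y h_b_x h_y_u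
      exact claw hG n_a_b n_a_x n_b_x h_i_a h_i_b h_i_x h_a_b h_a_x h_b_x
    exact claw hG n_l_a n_l_b n_a_b h_i_l h_i_a h_i_b h_l_a h_l_b h_a_b
  exact claw hG n_i_m n_i_y n_m_y h_i_u.symm h_m_u.symm h_y_u.symm h_i_m h_i_y h_m_y

theorem cross_ker {i l m a b x y u w : V} (hG : ClawFree G) (hx : Ex3 G Fr i l m a b x y u w)
    (hd : [i, l, m, a, b, x, y, u, w].Nodup)
    (h_i_a : G.Adj i a) (h_i_b : G.Adj i b) (h_l_x : G.Adj l x) (h_l_y : G.Adj l y) (h_m_u : G.Adj m u) (h_m_w : G.Adj m w) (h_a_b : ¬ G.Adj a b)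
    (k0 : RV G i b a l x y)
    (k1 : ¬ G.Adj x y)
    (k2 : RL G i b a m u w)
    (k3 : ¬ G.Adj b m)
    (k4 : G.Adj m l)
    (k5 : ¬ G.Adj m x)
    : False := by
  simp only [List.nodup_cons, List.mem_cons, List.not_mem_nil, or_false, not_or, not_false_eq_true, List.nodup_nil, and_true, ← ne_eq] at hd
  obtain ⟨⟨n_i_l, n_i_m, n_i_a, n_i_b, n_i_x, n_i_y, n_i_u, n_i_w⟩, ⟨n_l_m, n_l_a, n_l_b, n_l_x, n_l_y, n_l_u, n_l_w⟩, ⟨n_m_a, n_m_b, n_m_x, n_m_y, n_m_u, n_m_w⟩, ⟨n_a_b, n_a_x, n_a_y, n_a_u, n_a_w⟩, ⟨n_b_x, n_b_y, n_b_u, n_b_w⟩, ⟨n_x_y, n_x_u, n_x_w⟩, ⟨n_y_u, n_y_w⟩, n_u_w⟩ := hd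
  rcases k0 with ⟨k0_0, k0_1, k0_2, k0_3, k0_4, k0_5⟩
  have h_i_l : G.Adj i l := k0_0
  have h_i_x : G.Adj i x := k0_1
  have h_i_y : ¬ G.Adj i y := k0_2
  have h_l_a : ¬ G.Adj l a := fun e => k0_3 e.symm
  have h_a_x : ¬ G.Adj a x := k0_4
  have h_b_y : ¬ G.Adj b y := k0_5
  have h_x_y : ¬ G.Adj x y := k1
  rcases k2 with ⟨k2_0, k2_1, k2_2, k2_3, k2_4⟩ | ⟨k2_0, k2_1, k2_2, k2_3, k2_4, k2_5⟩
  · have h_i_m : G.Adj i m := k2_0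
    have h_i_u : G.Adj i u := k2_1
    have h_a_u : ¬ G.Adj a u := k2_2
    have h_i_w : G.Adj i w := k2_3
    have h_a_w : ¬ G.Adj a w := k2_4
    have h_m_b : ¬ G.Adj m b := fun e => k3 e.symm
    have h_l_m : G.Adj l m := k4.symm
    have h_m_x : ¬ G.Adj m x := k5
    by_cases h_m_a : G.Adj m a
    · by_cases h_b_x : G.Adj b x
      · by_cases h_u_w : G.Adj u w
        · by_cases h_l_b : G.Adj l b
          · by_cases h_m_y : G.Adj m y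
            · exact Ex3.x12_2 hx (Or.inr (Or.inr (Or.inr (Or.inr (Or.inl rfl))))) (Or.inr (Or.inr (Or.inr (Or.inr (Or.inr (Or.inl rfl)))))) (Or.inr (Or.inl rfl)) (Or.inr (Or.inr (Or.inl rfl))) (Or.inl rfl) (Or.inr (Or.inr (Or.inr (Or.inl rfl)))) n_u_w n_b_u.symm n_x_u.symm n_a_u.symm n_y_u.symm n_b_w.symm n_x_w.symm n_a_w.symm n_y_w.symm n_b_x n_a_b.symm n_b_y n_a_x.symm n_x_y n_a_y h_i_u h_i_w h_l_b h_l_x h_m_a h_m_y h_x_y h_u_w h_b_x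
            exact claw hG n_m_x n_m_y n_x_y h_l_m h_l_x h_l_y h_m_x h_m_y h_x_y
          exact claw hG n_l_a n_l_b n_a_b h_i_l h_i_a h_i_b h_l_a h_l_b h_a_b
        exact claw hG n_a_u n_a_w n_u_w h_i_a h_i_u h_i_w h_a_u h_a_w h_u_w
      exact claw hG n_m_b n_m_x n_b_x h_i_m h_i_b h_i_x h_m_b h_m_x h_b_x
    exact claw hG n_m_a n_m_b n_a_b h_i_m h_i_a h_i_b h_m_a h_m_b h_a_b
  · have h_i_m : G.Adj i m := k2_0
    have h_i_u : G.Adj i u := k2_1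
    have h_a_u : ¬ G.Adj a u := k2_2
    have h_i_w : ¬ G.Adj i w := k2_3
    have h_m_b : G.Adj m b := k2_4.symm
    have h_b_w : G.Adj b w := k2_5
    exact ((fun e => k3 e.symm : ¬ G.Adj m b) h_m_b).elim

/-- one-sided conversion -/
theorem conv1 {i m a b u w : V} (hG : ClawFree G) (hx : Ex2 G Fr i m a b u w)
    (hd : [i, m, a, b, u, w].Nodup)
    (h_i_a : G.Adj i a) (h_i_b : G.Adj i b) (h_m_u : G.Adj m u) (h_m_w : G.Adj m w) (h_a_b : ¬ G.Adj a b)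
    (k0 : RL G i a b m u w)
    : (G.Adj m a ∧ G.Adj a w) ∨ (¬ G.Adj a m ∧ G.Adj m b ∧ G.Adj i w ∧ G.Adj a w) := by
  simp only [List.nodup_cons, List.mem_cons, List.not_mem_nil, or_false, not_or, not_false_eq_true, List.nodup_nil, and_true, ← ne_eq] at hd
  obtain ⟨⟨n_i_m, n_i_a, n_i_b, n_i_u, n_i_w⟩, ⟨n_m_a, n_m_b, n_m_u, n_m_w⟩, ⟨n_a_b, n_a_u, n_a_w⟩, ⟨n_b_u, n_b_w⟩, n_u_w⟩ := hd
  by_contra hgoal
  rcases k0 with ⟨k0_0, k0_1, k0_2, k0_3, k0_4⟩ | ⟨k0_0, k0_1, k0_2, k0_3, k0_4, k0_5⟩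
  · have h_i_m : G.Adj i m := k0_0
    have h_i_u : G.Adj i u := k0_1
    have h_b_u : ¬ G.Adj b u := k0_2
    have h_i_w : G.Adj i w := k0_3
    have h_b_w : ¬ G.Adj b w := k0_4
    by_cases h_a_w : G.Adj a w
    · by_cases h_m_a : G.Adj m a
      · exact hgoal (Or.inl ⟨h_m_a, h_a_w⟩)
      by_cases h_m_b : G.Adj m b
      · exact hgoal (Or.inr (⟨(fun e => h_m_a e.symm), h_m_b, h_i_w, h_a_w⟩))
      exact claw hG n_m_a n_m_b n_a_b h_i_m h_i_a h_i_b h_m_a h_m_b h_a_b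
    exact claw hG n_a_b n_a_w n_b_w h_i_a h_i_b h_i_w h_a_b h_a_w h_b_w
  · have h_i_m : G.Adj i m := k0_0
    have h_i_u : G.Adj i u := k0_1
    have h_b_u : ¬ G.Adj b u := k0_2
    have h_i_w : ¬ G.Adj i w := k0_3
    have h_m_a : G.Adj m a := k0_4.symm
    have h_a_w : G.Adj a w := k0_5
    exact hgoal (Or.inl ⟨h_m_a, h_a_w⟩)

/-- two-sided conversion -/
theorem conv2 {i l m a b x y u w : V} (hG : ClawFree G) (hx : Ex3 G Fr i l m a b x y u w)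
    (hd : [i, l, m, a, b, x, y, u, w].Nodup)
    (h_i_a : G.Adj i a) (h_i_b : G.Adj i b) (h_l_x : G.Adj l x) (h_l_y : G.Adj l y) (h_m_u : G.Adj m u) (h_m_w : G.Adj m w) (h_a_b : ¬ G.Adj a b)
    (k0 : RL G i a b l x y)
    (k1 : RL G i b a m u w)
    : (G.Adj l a ∧ G.Adj a y ∧ G.Adj m b ∧ G.Adj b w) ∨ (¬ G.Adj a l ∧ G.Adj l u ∧ G.Adj i y ∧ G.Adj a y ∧ G.Adj m b ∧ G.Adj b w) ∨ (¬ G.Adj b m ∧ G.Adj m x ∧ G.Adj i w ∧ G.Adj b w ∧ G.Adj l a ∧ G.Adj a y) ∨ (G.Adj m a ∧ G.Adj m y ∧ G.Adj a y ∧ G.Adj l b ∧ G.Adj l w ∧ G.Adj b w) := by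
  simp only [List.nodup_cons, List.mem_cons, List.not_mem_nil, or_false, not_or, not_false_eq_true, List.nodup_nil, and_true, ← ne_eq] at hd
  obtain ⟨⟨n_i_l, n_i_m, n_i_a, n_i_b, n_i_x, n_i_y, n_i_u, n_i_w⟩, ⟨n_l_m, n_l_a, n_l_b, n_l_x, n_l_y, n_l_u, n_l_w⟩, ⟨n_m_a, n_m_b, n_m_x, n_m_y, n_m_u, n_m_w⟩, ⟨n_a_b, n_a_x, n_a_y, n_a_u, n_a_w⟩, ⟨n_b_x, n_b_y, n_b_u, n_b_w⟩, ⟨n_x_y, n_x_u, n_x_w⟩, ⟨n_y_u, n_y_w⟩, n_u_w⟩ := hd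
  by_contra hgoal
  rcases k0 with ⟨k0_0, k0_1, k0_2, k0_3, k0_4⟩ | ⟨k0_0, k0_1, k0_2, k0_3, k0_4, k0_5⟩
  · have h_i_l : G.Adj i l := k0_0
    have h_i_x : G.Adj i x := k0_1
    have h_b_x : ¬ G.Adj b x := k0_2
    have h_i_y : G.Adj i y := k0_3
    have h_b_y : ¬ G.Adj b y := k0_4
    rcases k1 with ⟨k1_0, k1_1, k1_2, k1_3, k1_4⟩ | ⟨k1_0, k1_1, k1_2, k1_3, k1_4, k1_5⟩
    · have h_i_m : G.Adj i m := k1_0
      have h_i_u : G.Adj i u := k1_1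
      have h_a_u : ¬ G.Adj a u := k1_2
      have h_i_w : G.Adj i w := k1_3
      have h_a_w : ¬ G.Adj a w := k1_4
      by_cases h_a_y : G.Adj a y
      · by_cases h_b_w : G.Adj b w
        · by_cases h_l_a : G.Adj l a
          · by_cases h_m_b : G.Adj m b
            · exact hgoal (Or.inl ⟨h_l_a, h_a_y, h_m_b, h_b_w⟩)
            by_cases h_m_x : G.Adj m x
            · exact hgoal (Or.inr (Or.inr (Or.inl ⟨(fun e => h_m_b e.symm), h_m_x, h_i_w, h_b_w, h_l_a, h_a_y⟩)))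
            exact claw hG n_m_b n_m_x n_b_x h_i_m h_i_b h_i_x h_m_b h_m_x h_b_x
          by_cases h_l_u : G.Adj l u
          · by_cases h_m_b : G.Adj m b
            · exact hgoal (Or.inr (Or.inl ⟨(fun e => h_l_a e.symm), h_l_u, h_i_y, h_a_y, h_m_b, h_b_w⟩))
            by_cases h_l_b : G.Adj l b
            · by_cases h_m_a : G.Adj m a
              · by_cases h_l_w : G.Adj l w
                · by_cases h_m_y : G.Adj m y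
                  · exact hgoal (Or.inr (Or.inr (Or.inr (⟨h_m_a, h_m_y, h_a_y, h_l_b, h_l_w, h_b_w⟩))))
                  exact claw hG n_m_b n_m_y n_b_y h_i_m h_i_b h_i_y h_m_b h_m_y h_b_y
                exact claw hG n_l_a n_l_w n_a_w h_i_l h_i_a h_i_w h_l_a h_l_w h_a_w
              exact claw hG n_m_a n_m_b n_a_b h_i_m h_i_a h_i_b h_m_a h_m_b h_a_b
            exact claw hG n_l_a n_l_b n_a_b h_i_l h_i_a h_i_b h_l_a h_l_b h_a_b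
          exact claw hG n_l_a n_l_u n_a_u h_i_l h_i_a h_i_u h_l_a h_l_u h_a_u
        exact claw hG n_a_b n_a_w n_b_w h_i_a h_i_b h_i_w h_a_b h_a_w h_b_w
      exact claw hG n_a_b n_a_y n_b_y h_i_a h_i_b h_i_y h_a_b h_a_y h_b_y
    · have h_i_m : G.Adj i m := k1_0
      have h_i_u : G.Adj i u := k1_1
      have h_a_u : ¬ G.Adj a u := k1_2
      have h_i_w : ¬ G.Adj i w := k1_3
      have h_m_b : G.Adj m b := k1_4.symm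
      have h_b_w : G.Adj b w := k1_5
      by_cases h_a_y : G.Adj a y
      · by_cases h_l_a : G.Adj l a
        · exact hgoal (Or.inl ⟨h_l_a, h_a_y, h_m_b, h_b_w⟩)
        by_cases h_l_u : G.Adj l u
        · exact hgoal (Or.inr (Or.inl ⟨(fun e => h_l_a e.symm), h_l_u, h_i_y, h_a_y, h_m_b, h_b_w⟩))
        exact claw hG n_l_a n_l_u n_a_u h_i_l h_i_a h_i_u h_l_a h_l_u h_a_u
      exact claw hG n_a_b n_a_y n_b_y h_i_a h_i_b h_i_y h_a_b h_a_y h_b_y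
  · have h_i_l : G.Adj i l := k0_0
    have h_i_x : G.Adj i x := k0_1
    have h_b_x : ¬ G.Adj b x := k0_2
    have h_i_y : ¬ G.Adj i y := k0_3
    have h_l_a : G.Adj l a := k0_4.symm
    have h_a_y : G.Adj a y := k0_5
    rcases k1 with ⟨k1_0, k1_1, k1_2, k1_3, k1_4⟩ | ⟨k1_0, k1_1, k1_2, k1_3, k1_4, k1_5⟩
    · have h_i_m : G.Adj i m := k1_0
      have h_i_u : G.Adj i u := k1_1
      have h_a_u : ¬ G.Adj a u := k1_2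
      have h_i_w : G.Adj i w := k1_3
      have h_a_w : ¬ G.Adj a w := k1_4
      by_cases h_b_w : G.Adj b w
      · by_cases h_m_b : G.Adj m b
        · exact hgoal (Or.inl ⟨h_l_a, h_a_y, h_m_b, h_b_w⟩)
        by_cases h_m_x : G.Adj m x
        · exact hgoal (Or.inr (Or.inr (Or.inl ⟨(fun e => h_m_b e.symm), h_m_x, h_i_w, h_b_w, h_l_a, h_a_y⟩)))
        exact claw hG n_m_b n_m_x n_b_x h_i_m h_i_b h_i_x h_m_b h_m_x h_b_x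
      exact claw hG n_a_b n_a_w n_b_w h_i_a h_i_b h_i_w h_a_b h_a_w h_b_w
    · have h_i_m : G.Adj i m := k1_0
      have h_i_u : G.Adj i u := k1_1
      have h_a_u : ¬ G.Adj a u := k1_2
      have h_i_w : ¬ G.Adj i w := k1_3
      have h_m_b : G.Adj m b := k1_4.symm
      have h_b_w : G.Adj b w := k1_5
      exact hgoal (Or.inl ⟨h_l_a, h_a_y, h_m_b, h_b_w⟩)

end Pool.Agent.Lib.MP_6859a2_co
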