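import Pool.Agent.Lib.MP_6859a2_co.Step

/-!
A `2 k`-connected claw-free graph on at least `3 k` vertices separates any `k` vertices,
and `2 k - 1` does not suffice for any order.
-/

namespace Pool.Agent.Lib.MP_6859a2_co

open Finset Function

variable {V : Type} [Fintype V] [DecidableEq V] {G : SimpleGraph V} {k : ℕ} {v : Fin k → V}

theorem exists_sys (hc : IsConn G (2 * k)) (hn : 3 * k ≤ Fintype.card V) (hv : Injective v) :
    Nonempty (Sys G v) := by
  classical
  let t : Fin k × Bool → Finset V := fun p => univ.filter fun z => G.Adj (v p.1) z ∧ ∀ j, z ≠ v j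
  have hall : ∀ s : Finset (Fin k × Bool), #s ≤ #(s.biUnion t) := by
    intro s
    by_contra hlt
    set I := s.image Prod.fst
    set N := s.biUnion t
    have h1 : #s ≤ 2 * #I := by
      have : s ⊆ I ×ˢ (univ : Finset Bool) := fun p hp =>
        mem_product.2 ⟨mem_image_of_mem _ hp, mem_univ _⟩
      have := card_le_card this
      rw [card_product, card_univ, Fintype.card_bool] at this
      omega
    have h2 : #Iᶜ + #I = k := by
      rw [card_compl_add_card, Fintype.card_fin]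
    obtain ⟨m, hm⟩ : I.Nonempty := card_pos.1 (by omega)
    have h3 := card_union_le (Iᶜ.image v) N
    have h4 : #(Iᶜ.image v) ≤ #Iᶜ := card_image_le
    have h5 : #(I.image v) ≤ #I := card_image_le
    have h6 : v m ∉ Iᶜ.image v ∪ N := by
      simp only [mem_union, mem_image, mem_compl, N, t, mem_biUnion, mem_filter, not_or]
      exact ⟨fun ⟨j, hj, e⟩ => hj (hv e ▸ hm), fun ⟨p, _, _, _, h⟩ => h m rfl⟩
    have h7 : univ ⊆ (Iᶜ.image v ∪ N) ∪ I.image v := fun z _ => by
      by_cases hz : z ∈ Iᶜ.image v ∪ N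
      · exact mem_union_left _ hz
      refine mem_union_right _ (hc.closed _ (by omega) h6 hz (· ∈ I.image v)
        (mem_image_of_mem _ hm) fun p q hp hpq hq => ?_)
      obtain ⟨j, hj, rfl⟩ := mem_image.1 hp
      obtain ⟨r, hr, rfl⟩ := mem_image.1 hj
      rw [mem_union, not_or] at hq
      by_contra hn
      refine hq.2 (mem_biUnion.2 ⟨r, hr, mem_filter.2 ⟨mem_univ _, hpq, fun j e => ?_⟩⟩)
      by_cases hj : j ∈ I
      · exact hn (e ▸ mem_image_of_mem _ hj)
      · exact hq.1 (e ▸ mem_image_of_mem _ (mem_compl.2 hj))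
    have h8 := card_le_card h7
    have h9 := card_union_le (Iᶜ.image v ∪ N) (I.image v)
    rw [card_univ] at h8
    omega
  obtain ⟨f, f1, f2⟩ := (all_card_le_biUnion_card_iff_exists_injective t).1 hall
  exact ⟨⟨f, f1, fun p => (mem_filter.1 (f2 p)).2.1, fun p => (mem_filter.1 (f2 p)).2.2⟩⟩

theorem upper2k (hG : ClawFree G) (hc : IsConn G (2 * k)) (hn : 3 * k ≤ Fintype.card V)
    (hv : Injective v) : Separated G v := by
  obtain ⟨σ0⟩ := exists_sys hc hn hv
  obtain ⟨σ1, -, h1⟩ := exists_max_of_bdd (fun _ : Sys G v => True) Sys.g k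
    (fun σ _ => σ.g_le) ⟨σ0, trivial⟩
  obtain ⟨⟨σ, Λ⟩, ⟨ho, R, hL⟩, h2⟩ := exists_max_of_bdd
    (fun x : Sys G v × Finset (Fin k) => x.1.Opt ∧ ∃ R, x.1.Linked x.2 R) (fun x => #x.2) k
    (fun x _ => by simpa using card_le_univ x.2)
    ⟨(σ1, ∅), fun τ => h1 τ trivial, fun _ _ => False, by simp [Sys.Linked]⟩
  refine hL.separated hv fun m => ?_
  by_contra hm
  rw [not_or] at hm
  obtain ⟨ρ, Λ', R', r1, r2, r3⟩ := hL.step hG hv ho hc hm.1 hm.2
  have := h2 (ρ, Λ') ⟨r1, R', r2⟩
  simp only at this r3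
  omega

omit [Fintype V] in
/-- separated vertices together with their neighbours span at least `3 k` vertices -/
theorem card_ge_of_closed (h : Separated G v) (W : Finset V) (h1 : ∀ i, v i ∈ W)
    (h2 : ∀ i z, G.Adj (v i) z → z ∈ W) : 3 * k ≤ #W := by
  obtain ⟨C, c1, c2⟩ := h
  let t : Fin k → Finset V := fun i => {v i, (C i).snd, (C i).penultimate}
  have a1 : ∀ i, G.Adj (v i) (C i).snd := fun i => (C i).adj_snd (c1 i).not_nil
  have a2 : ∀ i, G.Adj (v i) (C i).penultimate := fun i =>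
    ((C i).adj_penultimate (c1 i).not_nil).symm
  have h3 : ∀ i, #(t i) = 3 := fun i =>
    card_eq_three.2 ⟨_, _, _, (a1 i).ne, (a2 i).ne, (c1 i).snd_ne_penultimate, rfl⟩
  have h4 : ∀ i, ∀ z ∈ t i, z ∈ (C i).support ∧ z ∈ W := fun i z hz => by
    simp only [t, mem_insert, mem_singleton] at hz
    rcases hz with rfl | rfl | rfl
    exacts [⟨(C i).start_mem_support, h1 i⟩, ⟨(C i).getVert_mem_support _, h2 i _ (a1 i)⟩,
      ⟨(C i).getVert_mem_support _, h2 i _ (a2 i)⟩]
  have h5 : #(univ.biUnion t) = ∑ i, #(t i) := card_biUnion fun i _ j _ hij =>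
    disjoint_left.2 fun z hi hj => c2 i j hij (h4 i z hi).1 (h4 j z hj).1
  have h6 : univ.biUnion t ⊆ W := fun z hz => by
    obtain ⟨i, -, hi⟩ := mem_biUnion.1 hz
    exact (h4 i z hi).2
  have h7 := card_le_card h6
  simp only [h3, sum_const, card_univ, Fintype.card_fin, smul_eq_mul] at h5
  omega

/-- the complete graph minus all edges between the first `k` vertices and the vertices
after the first `3 k - 1` -/
def Ext (k N : ℕ) : SimpleGraph (Fin N) where
  Adj i j := i ≠ j ∧ ¬ (i.1 < k ∧ 3 * k ≤ j.1 + 1) ∧ ¬ (j.1 < k ∧ 3 * k ≤ i.1 + 1)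
  symm := ⟨fun _ _ h => ⟨h.1.symm, h.2.2, h.2.1⟩⟩
  loopless := ⟨fun _ h => h.1 rfl⟩

theorem ext_clawFree (k N : ℕ) : ClawFree (Ext k N) := by
  intro _ a b c _ _ _ h1 h2 h3
  simp only [Ext, h1, h2, h3, ne_eq, not_false_eq_true, true_and]
  omega

theorem ext_conn {k N c : ℕ} (hN : 3 * k ≤ N) (hc : c < 2 * k) : IsConn (Ext k N) c := by
  refine ⟨by rw [Fintype.card_fin]; omega, fun S hS => ?_⟩
  let e : Fin (2 * k - 1) → Fin N := fun i => ⟨k + i, by omega⟩
  have he : Injective e := fun i j h => by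
    simp only [e, Fin.mk.injEq] at h
    exact Fin.ext (by omega)
  obtain ⟨w, hw, hwS⟩ := exists_mem_notMem_of_card_lt_card (s := S) (t := univ.image e)
    (by rw [card_image_of_injective _ he, card_univ, Fintype.card_fin]; omega)
  obtain ⟨i, -, rfl⟩ := mem_image.1 hw
  rw [SimpleGraph.connected_iff_exists_forall_reachable]
  refine ⟨⟨e i, hwS⟩, fun x => ?_⟩
  by_cases h : e i = x.1
  · exact (Subtype.ext h : (⟨e i, hwS⟩ : ((S : Set (Fin N))ᶜ : Set _)) = x) ▸ .refl _
  · have : (Ext k N).Adj (e i) x.1 := ⟨h, by simp only [e]; omega, by simp only [e]; omega⟩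
    exact SimpleGraph.Adj.reachable this

theorem ext_not_sep {k N : ℕ} (hk : 1 ≤ k) (hN : 3 * k ≤ N) :
    ¬ Separated (Ext k N) (Fin.castLE (by omega : k ≤ N)) := fun h => by
  let e : Fin (3 * k - 1) → Fin N := Fin.castLE (by omega)
  have me : ∀ z : Fin N, z.1 + 1 < 3 * k → z ∈ univ.image e := fun z hz =>
    mem_image.2 ⟨⟨z.1, by omega⟩, mem_univ _, rfl⟩
  have h1 := card_ge_of_closed h (univ.image e) (fun i => me _ (by simp; omega))
    fun i z hz => me _ (by
      have := hz.2.1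
      simp only [Fin.val_castLE, Fin.is_lt, true_and] at this
      omega)
  have h2 : #(univ.image e) ≤ #(univ : Finset (Fin (3 * k - 1))) := card_image_le
  rw [card_univ, Fintype.card_fin] at h2
  omega

end Pool.Agent.Lib.MP_6859a2_co
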