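import Pool.Agent.Lib.MP_6859a2_co.Sys

/-!
The two anticomplete sides attached to a bad player of an optimal system.
-/

namespace Pool.Agent.Lib.MP_6859a2_co

open Finset Function

variable {V : Type} {G : SimpleGraph V} {k : ℕ} {v : Fin k → V}

namespace Sys

/-- `x, y` is the pair held by `m`, in some order -/
def Pr (σ : Sys G v) (m : Fin k) (x y : V) : Prop := ∃ β, x = σ.h (m, β) ∧ y = σ.h (m, !β)

variable {σ : Sys G v} {i l m : Fin k} {a b x y u w c s : V}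

theorem pr (σ : Sys G v) (m : Fin k) (β : Bool) : σ.Pr m (σ.h (m, β)) (σ.h (m, !β)) :=
  ⟨β, rfl, rfl⟩

theorem Pr.symm (h : σ.Pr m x y) : σ.Pr m y x := by
  obtain ⟨β, rfl, rfl⟩ := h
  exact ⟨!β, rfl, by rw [Bool.not_not]⟩

theorem Pr.cases (h : σ.Pr m x y) (h' : σ.Pr m u w) : (u = x ∧ w = y) ∨ (u = y ∧ w = x) := by
  obtain ⟨β, rfl, rfl⟩ := h
  obtain ⟨γ, rfl, rfl⟩ := h'
  cases β <;> cases γ <;> simp

theorem Pr.adj1 (h : σ.Pr m x y) : G.Adj (v m) x := by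
  obtain ⟨β, rfl, rfl⟩ := h
  exact σ.adj (m, β)

theorem Pr.adj2 (h : σ.Pr m x y) : G.Adj (v m) y := h.symm.adj1

theorem Pr.good (h : σ.Pr m x y) : σ.Good m ↔ G.Adj x y := by
  obtain ⟨β, rfl, rfl⟩ := h
  exact σ.good_iff m β

theorem Pr.bad (h : σ.Pr m x y) (hm : ¬ σ.Good m) : ¬ G.Adj x y := fun e => hm (h.good.2 e)

theorem Pr.ex1 (ho : σ.Opt) (hi : ¬ σ.Good i) (h : σ.Pr i a b) : Ex1 G σ.Free (v i) a b := by
  obtain ⟨β, rfl, rfl⟩ := h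
  exact Sys.ex1 ho hi β

theorem Pr.ex2 (ho : σ.Opt) (hi : ¬ σ.Good i) (him : i ≠ m) (h : σ.Pr i a b) (h' : σ.Pr m u w) :
    Ex2 G σ.Free (v i) (v m) a b u w := by
  obtain ⟨β, rfl, rfl⟩ := h
  obtain ⟨γ, rfl, rfl⟩ := h'
  exact Sys.ex2 ho hi him β γ

theorem Pr.ex3 (ho : σ.Opt) (hi : ¬ σ.Good i) (hil : i ≠ l) (him : i ≠ m) (hlm : l ≠ m)
    (h : σ.Pr i a b) (h1 : σ.Pr l x y) (h2 : σ.Pr m u w) :
    Ex3 G σ.Free (v i) (v l) (v m) a b x y u w := by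
  obtain ⟨β, rfl, rfl⟩ := h
  obtain ⟨γ, rfl, rfl⟩ := h1
  obtain ⟨δ, rfl, rfl⟩ := h2
  exact Sys.ex3 ho hi hil him hlm β γ δ

theorem Pr.nd1 (h : σ.Pr i a b) (hc : σ.Free c) : [v i, a, b, c].Nodup := by
  obtain ⟨β, rfl, rfl⟩ := h
  exact σ.nd1 i β hc

theorem Pr.nd2 (hv : Injective v) (him : i ≠ m) (h : σ.Pr i a b) (h' : σ.Pr m u w) :
    [v i, v m, a, b, u, w].Nodup := by
  obtain ⟨β, rfl, rfl⟩ := h
  obtain ⟨γ, rfl, rfl⟩ := h'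
  exact σ.nd2 hv him β γ

theorem Pr.nd2c (hv : Injective v) (him : i ≠ m) (h : σ.Pr i a b) (h' : σ.Pr m u w)
    (hc : σ.Free c) : [v i, v m, a, b, u, w, c].Nodup := by
  obtain ⟨β, rfl, rfl⟩ := h
  obtain ⟨γ, rfl, rfl⟩ := h'
  exact σ.nd2c hv him β γ hc

theorem Pr.nd3 (hv : Injective v) (hil : i ≠ l) (him : i ≠ m) (hlm : l ≠ m)
    (h : σ.Pr i a b) (h1 : σ.Pr l x y) (h2 : σ.Pr m u w) :
    [v i, v l, v m, a, b, x, y, u, w].Nodup := by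
  obtain ⟨β, rfl, rfl⟩ := h
  obtain ⟨γ, rfl, rfl⟩ := h1
  obtain ⟨δ, rfl, rfl⟩ := h2
  exact σ.nd3 hv hil him hlm β γ δ

/-- `s` represents the block of `m` on the side of `a` -/
def Rep (σ : Sys G v) (i : Fin k) (a b : V) (e : Prop) (m : Fin k) (s : V) : Prop :=
  ∃ u t, σ.Pr m u t ∧ ((s = v m ∧ RV G (v i) a b (v m) u t) ∨
    (s = u ∧ (RL G (v i) a b (v m) u t ∨ RD G (v i) a b (v m) u t ∨
      (e ∧ RE G (v i) a b (v m) u t))))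

/-- the side of `a` -/
def Side (σ : Sys G v) (i : Fin k) (Λ : Finset (Fin k)) (a b : V) (e : Prop) (s : V) : Prop :=
  s = a ∨ ∃ m, i ≠ m ∧ m ∉ Λ ∧ σ.Rep i a b e m s

/-- the live part of the side of `a` -/
def Live (σ : Sys G v) (i : Fin k) (Λ : Finset (Fin k)) (a b : V) (s : V) : Prop :=
  s = a ∨ ∃ m t, i ≠ m ∧ m ∉ Λ ∧ σ.Pr m s t ∧ RL G (v i) a b (v m) s t

/-- the standing assumptions -/
structure Ctx (σ : Sys G v) (i : Fin k) (a b : V) : Prop where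
  hG : ClawFree G
  hv : Injective v
  ho : σ.Opt
  hi : ¬ σ.Good i
  hp : σ.Pr i a b

theorem Ctx.symm (C : σ.Ctx i a b) : σ.Ctx i b a := ⟨C.hG, C.hv, C.ho, C.hi, C.hp.symm⟩

theorem Ctx.nab (C : σ.Ctx i a b) : ¬ G.Adj a b := C.hp.bad C.hi

theorem Ctx.no_free (C : σ.Ctx i a b) (hc : σ.Free c) : ¬ G.Adj (v i) c := fun h =>
  bad_free C.hG (C.hp.ex1 C.ho C.hi) (C.hp.nd1 hc) hc C.hp.adj1 C.hp.adj2 C.nab h

variable {e e' : Prop} {Λ : Finset (Fin k)}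

theorem Ctx.rep_b (C : σ.Ctx i a b) (him : i ≠ m) (h : σ.Rep i a b e m s) : ¬ G.Adj s b := by
  obtain ⟨u, t, hp, ⟨rfl, h⟩ | ⟨rfl, h | h | ⟨-, h⟩⟩⟩ := h
  · exact fun e => h.2.2.2.1 e.symm
  · rcases h with h | h <;> exact fun e => h.2.2.1 e.symm
  · exact fun e => RD_b C.hG (C.hp.ex2 C.ho C.hi him hp) (C.hp.nd2 C.hv him hp) C.hp.adj1
      C.hp.adj2 hp.adj1 hp.adj2 C.nab h e
  · exact fun e => h.2.2.2 e.symm

theorem Ctx.rep_same (C : σ.Ctx i a b) (him : i ≠ m) (h : σ.Rep i a b e m s)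
    (h' : σ.Rep i b a (¬ e) m w) : False := by
  obtain ⟨u, t, hp, h⟩ := h
  obtain ⟨u', t', hp', h'⟩ := h'
  have X := C.hp.ex2 C.ho C.hi him hp
  have D := C.hp.nd2 C.hv him hp
  have a1 := C.hp.adj1
  have a2 := C.hp.adj2
  have a3 := hp.adj1
  have a4 := hp.adj2
  have n := C.nab
  have hG := C.hG
  rcases hp.cases hp' with ⟨rfl, rfl⟩ | ⟨rfl, rfl⟩ <;>
    rcases h with ⟨-, h⟩ | ⟨-, h | h | ⟨he, h⟩⟩ <;>
    rcases h' with ⟨-, h'⟩ | ⟨-, h' | h' | ⟨he', h'⟩⟩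
  exacts [same_RV_RV hG X D a1 a2 a3 a4 n h h', same_RV_RL hG X D a1 a2 a3 a4 n h h',
    same_RV_RD hG X D a1 a2 a3 a4 n h h', same_RV_RE hG X D a1 a2 a3 a4 n h h',
    same_RL_RV hG X D a1 a2 a3 a4 n h h', same_RL_RL hG X D a1 a2 a3 a4 n h h',
    same_RL_RD hG X D a1 a2 a3 a4 n h h', same_RL_RE hG X D a1 a2 a3 a4 n h h',
    same_RD_RV hG X D a1 a2 a3 a4 n h h', same_RD_RL hG X D a1 a2 a3 a4 n h h',
    same_RD_RD hG X D a1 a2 a3 a4 n h h', same_RD_RE hG X D a1 a2 a3 a4 n h h',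
    same_RE_RV hG X D a1 a2 a3 a4 n h h', same_RE_RL hG X D a1 a2 a3 a4 n h h',
    same_RE_RD hG X D a1 a2 a3 a4 n h h', he' he,
    opp_RV_RV hG X D a1 a2 a3 a4 n h h', opp_RV_RL hG X D a1 a2 a3 a4 n h h',
    opp_RV_RD hG X D a1 a2 a3 a4 n h h', opp_RV_RE hG X D a1 a2 a3 a4 n h h',
    opp_RL_RV hG X D a1 a2 a3 a4 n h h', opp_RL_RL hG X D a1 a2 a3 a4 n h h',
    opp_RL_RD hG X D a1 a2 a3 a4 n h h', opp_RL_RE hG X D a1 a2 a3 a4 n h h',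
    opp_RD_RV hG X D a1 a2 a3 a4 n h h', opp_RD_RL hG X D a1 a2 a3 a4 n h h',
    opp_RD_RD hG X D a1 a2 a3 a4 n h h', opp_RD_RE hG X D a1 a2 a3 a4 n h h',
    opp_RE_RV hG X D a1 a2 a3 a4 n h h', opp_RE_RL hG X D a1 a2 a3 a4 n h h',
    opp_RE_RD hG X D a1 a2 a3 a4 n h h', he' he]

theorem Ctx.rep_rep (C : σ.Ctx i a b) (hil : i ≠ l) (him : i ≠ m) (h : σ.Rep i a b e l s)
    (h' : σ.Rep i b a (¬ e) m w) : ¬ G.Adj s w := by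
  intro hsw
  by_cases hlm : l = m
  · subst hlm
    exact C.rep_same hil h h'
  obtain ⟨u, t, hp, h⟩ := h
  obtain ⟨u', t', hp', h'⟩ := h'
  have X := C.hp.ex3 C.ho C.hi hil him hlm hp hp'
  have D := C.hp.nd3 C.hv hil him hlm hp hp'
  have a1 := C.hp.adj1
  have a2 := C.hp.adj2
  have a3 := hp.adj1
  have a4 := hp.adj2
  have a5 := hp'.adj1
  have a6 := hp'.adj2
  have n := C.nab
  have hG := C.hG
  rcases h with ⟨rfl, h⟩ | ⟨rfl, h | h | ⟨he, h⟩⟩ <;>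
    rcases h' with ⟨rfl, h'⟩ | ⟨rfl, h' | h' | ⟨he', h'⟩⟩
  exacts [safe_RV_RV hG X D a1 a2 a3 a4 a5 a6 n h h' hsw,
    safe_RV_RL hG X D a1 a2 a3 a4 a5 a6 n h h' hsw, safe_RV_RD hG X D a1 a2 a3 a4 a5 a6 n h h' hsw,
    safe_RV_RE hG X D a1 a2 a3 a4 a5 a6 n h h' hsw, safe_RL_RV hG X D a1 a2 a3 a4 a5 a6 n h h' hsw,
    safe_RL_RL hG X D a1 a2 a3 a4 a5 a6 n h h' hsw, safe_RL_RD hG X D a1 a2 a3 a4 a5 a6 n h h' hsw,
    safe_RL_RE hG X D a1 a2 a3 a4 a5 a6 n h h' hsw, safe_RD_RV hG X D a1 a2 a3 a4 a5 a6 n h h' hsw,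
    safe_RD_RL hG X D a1 a2 a3 a4 a5 a6 n h h' hsw, safe_RD_RD hG X D a1 a2 a3 a4 a5 a6 n h h' hsw,
    safe_RD_RE hG X D a1 a2 a3 a4 a5 a6 n h h' hsw, safe_RE_RV hG X D a1 a2 a3 a4 a5 a6 n h h' hsw,
    safe_RE_RL hG X D a1 a2 a3 a4 a5 a6 n h h' hsw, safe_RE_RD hG X D a1 a2 a3 a4 a5 a6 n h h' hsw,
    he' he]

theorem Ctx.anti (C : σ.Ctx i a b) (h : σ.Side i Λ a b e s) (h' : σ.Side i Λ b a (¬ e) w) :
    ¬ G.Adj s w := by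
  rcases h with rfl | ⟨l, hl, -, h⟩ <;> rcases h' with rfl | ⟨m, hm, -, h'⟩
  · exact C.nab
  · exact fun e => C.symm.rep_b hm h' e.symm
  · exact C.rep_b hl h
  · exact C.rep_rep hl hm h h'

theorem Live.side (h : σ.Live i Λ a b s) (e : Prop) : σ.Side i Λ a b e s := by
  rcases h with rfl | ⟨m, t, h1, h2, h3, h4⟩
  · exact Or.inl rfl
  · exact Or.inr ⟨m, h1, h2, s, t, h3, Or.inr ⟨rfl, Or.inl h4⟩⟩

theorem Ctx.live (C : σ.Ctx i a b) (h : σ.Side i Λ a b e s) (hc : σ.Free c) (hsc : G.Adj s c) :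
    ∃ s', σ.Live i Λ a b s' ∧ G.Adj s' c := by
  rcases h with rfl | ⟨m, him, hm, u, t, hp, h⟩
  · exact ⟨s, Or.inl rfl, hsc⟩
  have X := C.hp.ex2 C.ho C.hi him hp
  have D := C.hp.nd2c C.hv him hp hc
  rcases h with ⟨rfl, h⟩ | ⟨rfl, h | h | ⟨-, h⟩⟩
  · exact (RV_free C.hG X D hc C.hp.adj1 C.hp.adj2 hp.adj1 hp.adj2 C.nab h hsc).elim
  · exact ⟨s, Or.inr ⟨m, t, him, hm, hp, h⟩, hsc⟩
  · refine ⟨a, Or.inl rfl, ?_⟩
    by_contra hn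
    exact RD_free C.hG X D hc C.hp.adj1 C.hp.adj2 hp.adj1 hp.adj2 C.nab h hsc hn
  · exact (RE_free C.hG X D hc C.hp.adj1 C.hp.adj2 hp.adj1 hp.adj2 C.nab h hsc).elim

/-- the side of `a` misses the kernel vertex `x` of a bad player on the side of `b` -/
theorem Ctx.ker (C : σ.Ctx i a b) (hil : i ≠ l) (hl : l ∈ Λ) (hb : ¬ σ.Good l)
    (hq : σ.Pr l x y) (hr : RV G (v i) b a (v l) x y) (h : σ.Side i Λ a b e s) :
    ¬ G.Adj s x := by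
  intro hsx
  rcases h with rfl | ⟨m, him, hm, u, t, hp, h⟩
  · exact hr.2.2.2.2.1 hsx
  have hlm : l ≠ m := fun e => hm (e ▸ hl)
  have X := C.hp.ex3 C.ho C.hi hil him hlm hq hp
  have D := C.hp.nd3 C.hv hil him hlm hq hp
  rcases h with ⟨rfl, h⟩ | ⟨rfl, h | h | ⟨-, h⟩⟩
  exacts [ker_RV C.hG X D C.hp.adj1 C.hp.adj2 hq.adj1 hq.adj2 hp.adj1 hp.adj2 C.nab hr
      (hq.bad hb) h hsx,
    ker_RL C.hG X D C.hp.adj1 C.hp.adj2 hq.adj1 hq.adj2 hp.adj1 hp.adj2 C.nab hr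
      (hq.bad hb) h hsx,
    ker_RD C.hG X D C.hp.adj1 C.hp.adj2 hq.adj1 hq.adj2 hp.adj1 hp.adj2 C.nab hr
      (hq.bad hb) h hsx,
    ker_RE C.hG X D C.hp.adj1 C.hp.adj2 hq.adj1 hq.adj2 hp.adj1 hp.adj2 C.nab hr
      (hq.bad hb) h hsx]

/-- the side of `b` misses the petal `y` of a bad player on the side of `b` -/
theorem Ctx.pet (C : σ.Ctx i a b) (hil : i ≠ l) (hl : l ∈ Λ) (hb : ¬ σ.Good l)
    (hq : σ.Pr l x y) (hr : RV G (v i) b a (v l) x y) (h : σ.Side i Λ b a e w) :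
    ¬ G.Adj y w := by
  intro hyw
  rcases h with rfl | ⟨m, him, hm, u, t, hp, h⟩
  · exact hr.2.2.2.2.2 hyw.symm
  have hlm : l ≠ m := fun e => hm (e ▸ hl)
  have X := C.hp.ex3 C.ho C.hi hil him hlm hq hp
  have D := C.hp.nd3 C.hv hil him hlm hq hp
  rcases h with ⟨rfl, h⟩ | ⟨rfl, h | h | ⟨-, h⟩⟩
  exacts [pet_RV C.hG X D C.hp.adj1 C.hp.adj2 hq.adj1 hq.adj2 hp.adj1 hp.adj2 C.nab hr
      (hq.bad hb) h hyw,
    pet_RL C.hG X D C.hp.adj1 C.hp.adj2 hq.adj1 hq.adj2 hp.adj1 hp.adj2 C.nab hr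
      (hq.bad hb) h hyw,
    pet_RD C.hG X D C.hp.adj1 C.hp.adj2 hq.adj1 hq.adj2 hp.adj1 hp.adj2 C.nab hr
      (hq.bad hb) h hyw,
    pet_RE C.hG X D C.hp.adj1 C.hp.adj2 hq.adj1 hq.adj2 hp.adj1 hp.adj2 C.nab hr
      (hq.bad hb) h hyw]

end Sys

end Pool.Agent.Lib.MP_6859a2_co
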