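import Pool.Agent.Lib.MP_6859a2_co.Link

/-!
The augmentation step: one more bad player can be linked.
-/

namespace Pool.Agent.Lib.MP_6859a2_co

open Finset Function Relation

variable {V : Type} {G : SimpleGraph V} {k : ℕ} {v : Fin k → V}

namespace Sys

variable {σ : Sys G v} {i : Fin k} {a b : V} {Λ : Finset (Fin k)}
  {R : Fin k → V → Prop} {κ π : Fin k → V}

theorem relink (ho : σ.Opt) (S T : Fin k → V) (p : Fin k → Fin k)
    (h1 : ∀ m ∈ Λ, σ.Pr m (S m) (T m)) (h2 : ∀ m ∈ Λ, ¬ σ.Good m) (h3 : ∀ m ∈ Λ, p m ∈ Λ)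
    (h4 : ∀ m ∈ Λ, ∀ m' ∈ Λ, p m = p m' → m = m') (h5 : ∀ m ∈ Λ, ∀ m' ∈ Λ, G.Adj (v m) (T m'))
    (h6 : ∀ m ∈ Λ, ∀ z, R m z → σ.Free z) (h7 : ∀ m ∈ Λ, ∀ m' ∈ Λ, ∀ z, R m z → R m' z → m = m')
    (h8 : ∀ m ∈ Λ, Reach G (fun z => R m z ∨ z = S m ∨ z = T (p m)) (S m) (T (p m))) :
    ∃ ρ : Sys G v, ρ.Opt ∧ ρ.Linked Λ R := by
  classical
  have hv : ∀ q : {m // m ∈ Λ} × Bool, ∃ r : {m // m ∈ Λ} × Bool,
      (if q.2 then T (p q.1) else S q.1) = σ.h (r.1, r.2) := by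
    rintro ⟨t, β⟩
    cases β
    · obtain ⟨γ, e, -⟩ := h1 t t.2
      exact ⟨(t, γ), e⟩
    · obtain ⟨γ, -, e⟩ := h1 _ (h3 t t.2)
      exact ⟨(⟨_, h3 t t.2⟩, !γ), e⟩
  have hST : ∀ m ∈ Λ, ∀ m' ∈ Λ, S m ≠ T m' := fun m hm m' hm' => by
    by_cases e : m = m'
    · subst e
      exact (h1 m hm).ne'
    · exact (h1 m hm).ne (h1 m' hm').symm e
  obtain ⟨ρ, e1, e2, e3⟩ := σ.exchange (ι := {m // m ∈ Λ}) Subtype.val Subtype.val_injective
    (fun q => if q.2 then T (p q.1) else S q.1) (by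
      rintro ⟨t, β⟩ ⟨t', β'⟩ e
      cases β <;> cases β' <;> simp only [Bool.false_eq_true, if_false, if_true] at e
      · by_contra hn
        exact (h1 t t.2).ne (h1 t' t'.2) (fun e' => hn (by rw [Subtype.ext e'])) e
      · exact (hST _ t.2 _ (h3 _ t'.2) e).elim
      · exact (hST _ t'.2 _ (h3 _ t.2) e.symm).elim
      · by_contra hn
        exact (h1 _ (h3 _ t.2)).symm.ne (h1 _ (h3 _ t'.2)).symm
          (fun e' => hn (by rw [Subtype.ext (h4 _ t.2 _ t'.2 e')])) e) (by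
      rintro ⟨t, β⟩
      cases β
      · exact (h1 t t.2).adj1
      · exact h5 _ t.2 _ (h3 _ t.2)) fun q => Or.inl (hv q)
  rw [sum_eq_zero fun t _ => ind_f (h2 t.1 t.2)] at e3
  have e4 := ho ρ
  have e5 : ∀ m ∈ Λ, ρ.h (m, false) = S m := fun m hm => e1 ⟨m, hm⟩ false
  have e6 : ∀ m ∈ Λ, ρ.h (m, true) = T (p m) := fun m hm => e1 ⟨m, hm⟩ true
  refine ⟨ρ, fun τ => ?_, fun m hm z hz => free_of_held ?_ (h6 m hm z hz), h7, fun m hm => ⟨?_, ?_⟩⟩
  · have := ho τ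
    omega
  · rintro ⟨j, β⟩
    by_cases hj : j ∈ Λ
    · obtain ⟨r, hr⟩ := hv (⟨j, hj⟩, β)
      exact ⟨_, (e1 ⟨j, hj⟩ β).trans hr⟩
    · exact ⟨_, e2 j (fun t e => hj (e ▸ t.2)) β⟩
  · intro hg
    unfold Good at hg
    rw [e5 m hm, e6 m hm] at hg
    have := single_le_sum (f := fun t : {m // m ∈ Λ} => ind (G.Adj (S t) (T (p t))))
      (fun _ _ => Nat.zero_le _) (mem_univ ⟨m, hm⟩)
    simp only [ind_t hg] at this
    simp only [Bool.false_eq_true, if_false, if_true] at e3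
    omega
  · have := h8 m hm
    rw [← e5 m hm, ← e6 m hm] at this
    simpa [or_assoc] using this

variable [Fintype V] [DecidableEq V]

theorem Ctx.route (C : σ.Ctx i a b) (hc : IsConn G (2 * k)) (hi : i ∉ Λ) (hL : σ.Linked Λ R)
    (hK : σ.Ker i Λ a b κ π) (f : V → V)
    (f1 : ∀ x ∉ insert b (Λ.image κ), ∀ y ∉ insert b (Λ.image κ), f x = f y → x = y)
    (f2 : ∀ z ∉ insert b (Λ.image κ), f z ∉ insert a (Λ.image π) ∧
      (f z = z ∨ σ.Aux i Λ a b κ π z (f z))) :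
    ∃ (ρ : Sys G v) (Λ' : Finset (Fin k)) (R' : Fin k → V → Prop),
      ρ.Opt ∧ ρ.Linked Λ' R' ∧ #Λ' = #Λ + 1 := by
  set X := insert a (Λ.image π) with hX
  set Y := insert b (Λ.image κ) with hY
  have ne : ∀ {j}, j ∈ Λ → i ≠ j := fun hj e => hi (e ▸ hj)
  have pj : ∀ j ∈ Λ, σ.Pr j (κ j) (π j) := fun j hj => (hK j hj).2.1
  have mY : ∀ z, z ∈ Y ↔ z = b ∨ ∃ j ∈ Λ, κ j = z := fun z => by simp [Y]
  have mX : ∀ z, z ∈ X ↔ z = a ∨ ∃ j ∈ Λ, π j = z := fun z => by simp [X]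
  have aY : a ∉ Y := by
    rw [mY]
    rintro (e | ⟨j, hj, e⟩)
    exacts [C.hp.ne' e, C.hp.ne (pj j hj) (ne hj) e.symm]
  have πY : ∀ j ∈ Λ, π j ∉ Y := fun j hj => by
    rw [mY]
    rintro (e | ⟨j', hj', e⟩)
    · exact C.hp.symm.ne (pj j hj).symm (ne hj) e.symm
    · by_cases e' : j' = j
      · subst e'
        exact (pj j' hj).ne' e
      · exact (pj j' hj').ne (pj j hj).symm e' e
  have na : ¬ (σ.Free a ∨ ∃ j ∈ Λ, a = π j) := by
    rintro (e | ⟨j, hj, e⟩)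
    exacts [C.hp.nf e, C.hp.ne (pj j hj).symm (ne hj) e]
  have nb : ¬ (σ.Free b ∨ ∃ j ∈ Λ, b = κ j) := by
    rintro (e | ⟨j, hj, e⟩)
    exacts [C.hp.symm.nf e, C.hp.symm.ne (pj j hj) (ne hj) e]
  have fY : ∀ z ∈ Y, ¬ σ.Free z := fun z hz => by
    rcases (mY z).1 hz with rfl | ⟨j, hj, rfl⟩
    exacts [C.hp.symm.nf, (pj j hj).nf]
  obtain ⟨hfa, s, hs, hsa⟩ : σ.Free (f a) ∧ ∃ s, σ.Live i Λ a b s ∧ G.Adj s (f a) := by
    obtain ⟨h1, h2 | h2 | h2 | h2⟩ := f2 a aY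
    exacts [(h1 (by rw [h2]; exact mem_insert_self _ _)).elim, (na h2.1).elim, h2.2,
      (na (Or.inl h2.1)).elim]
  obtain ⟨w, hw, hwb⟩ : ∃ w, σ.Live i Λ b a w ∧ ∀ d ∉ Y, f d = b → G.Adj w d := by
    by_cases h : ∃ d ∉ Y, f d = b
    · obtain ⟨d, hd, e⟩ := h
      obtain ⟨-, h2 | h2 | h2 | ⟨-, -, w, h3, h4⟩⟩ := f2 d hd
      · exact (hd (by rw [← h2, e]; exact mem_insert_self _ _)).elim
      · exact (nb (e ▸ h2.2.1)).elim
      · exact (nb (Or.inl (e ▸ h2.2.1))).elim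
      · exact ⟨w, h3, fun d' hd' e' => f1 d hd d' hd' (e.trans e'.symm) ▸ h4⟩
    · exact ⟨b, Or.inl rfl, fun d hd e => (h ⟨d, hd, e⟩).elim⟩
  obtain ⟨τ, i', hi', t1, t2, t3, t4, t5⟩ := C.conv hc hi hK (fun j hj => hL.free hj) hs hw
  have ne' : ∀ {j}, j ∈ Λ → j ≠ i' := fun hj e => hi' (e ▸ hj)
  let src : Fin k → V := fun m => if m = i' then a else π m
  let tgt : Fin k → V := fun m => if m = i' then b else κ m
  let S : Fin k → V := fun m => if m = i' then s else π m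
  let T : Fin k → V := fun m => if m = i' then w else κ m
  have cs : ∀ m ∈ insert i' Λ, (m = i' ∧ src m = a ∧ tgt m = b ∧ S m = s ∧ T m = w) ∨
      (m ∈ Λ ∧ src m = π m ∧ tgt m = κ m ∧ S m = π m ∧ T m = κ m) := fun m hm => by
    rcases mem_insert.1 hm with rfl | h
    · simp [src, tgt, S, T]
    · simp [src, tgt, S, T, h, ne' h]
  have sX : ∀ m ∈ insert i' Λ, src m ∈ X := fun m hm => by
    rcases cs m hm with h | h
    exacts [(mX _).2 (Or.inl h.2.1), (mX _).2 (Or.inr ⟨m, h.1, h.2.1.symm⟩)]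
  have tY : ∀ m ∈ insert i' Λ, tgt m ∈ Y := fun m hm => by
    rcases cs m hm with h | h
    exacts [(mY _).2 (Or.inl h.2.2.1), (mY _).2 (Or.inr ⟨m, h.1, h.2.2.1.symm⟩)]
  have sinj : ∀ m ∈ insert i' Λ, ∀ m' ∈ insert i' Λ, src m = src m' → m = m' := by
    intro m hm m' hm' e
    rcases cs m hm with h | h <;> rcases cs m' hm' with h' | h' <;> rw [h.2.1, h'.2.1] at e
    · exact h.1.trans h'.1.symm
    · exact (na (Or.inr ⟨_, h'.1, e⟩)).elim
    · exact (na (Or.inr ⟨_, h.1, e.symm⟩)).elim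
    · by_contra hn
      exact (pj m h.1).symm.ne (pj m' h'.1).symm hn e
  have f2' : ∀ z ∉ Y, f z ∉ X := fun z hz => (f2 z hz).1
  have ex : ∀ m, ∃ m', m ∈ insert i' Λ →
      m' ∈ insert i' Λ ∧ ReflTransGen (Nxt Y f) (src m) (tgt m') := fun m => by
    by_cases hm : m ∈ insert i' Λ
    · obtain ⟨y, hy, h⟩ := orbit_end f1 f2' (sX m hm)
      rcases (mY y).1 hy with rfl | ⟨j, hj, rfl⟩
      · exact ⟨i', fun _ => ⟨mem_insert_self _ _, by simpa [tgt] using h⟩⟩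
      · exact ⟨j, fun _ => ⟨mem_insert_of_mem hj, by simpa [tgt, ne' hj] using h⟩⟩
    · exact ⟨m, fun h => (hm h).elim⟩
  choose p hp using ex
  have tp : ∀ j ∈ Λ, τ.Pr j (π j) (κ j) := fun j hj => by
    obtain ⟨β, e1, e2⟩ := (pj j hj).symm
    exact ⟨β, by rw [t3 j hj, e1], by rw [t3 j hj, e2]⟩
  have h1 : ∀ m ∈ insert i' Λ, τ.Pr m (S m) (T m) := fun m hm => by
    rcases cs m hm with h | h <;> rw [h.2.2.2.1, h.2.2.2.2]
    exacts [h.1 ▸ t2, tp m h.1]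
  obtain ⟨ρ, r1, r2⟩ := relink (Λ := insert i' Λ)
    (R := fun m z => σ.Free z ∧ ReflTransGen (Nxt Y f) (src m) z) t1 S T p h1
    (fun m hm => by
      rcases cs m hm with h | h
      · rw [h.1, t2.good]
        exact C.anti (hs.side True) (hw.side _)
      · rw [(tp m h.1).good, ← (pj m h.1).symm.good]
        exact (hK m h.1).1)
    (fun m hm => (hp m hm).1)
    (fun m hm m' hm' e => sinj m hm m' hm'
      (orbit_disj f1 f2' (sX m hm) (sX m' hm') (hp m hm).2 (e ▸ (hp m' hm').2)))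
    (fun m hm m' hm' => by
      rcases cs m hm with h | h <;> rcases cs m' hm' with h' | h' <;> rw [h'.2.2.2.2]
      exacts [h.1 ▸ t2.adj2, h.1 ▸ t5 m' h'.1, C.ker_live hK hw h.1,
        C.ker_ker hi hK h'.1 (hK m h.1).2.2.1 (hK m h.1).2.2.2.2.2.1])
    (fun m hm z hz => t4 z hz.1)
    (fun m hm m' hm' z h h' => sinj m hm m' hm'
      (orbit_disj f1 f2' (sX m hm) (sX m' hm') h.2 h'.2))
    (fun m hm => by
      set U : V → Prop := fun z => (σ.Free z ∧ ReflTransGen (Nxt Y f) (src m) z) ∨ z = S m ∨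
        z = T (p m) with hU
      have pm := (hp m hm).1
      have sY : src m ∉ Y := by
        rcases cs m hm with h | h <;> rw [h.2.1]
        exacts [aY, πY m h.1]
      have inv : ∀ z, ReflTransGen (Nxt Y f) (src m) z → z = src m ∨
          (σ.Free z ∧ Reach G U (S m) z) ∨ (z ∈ Y ∧ Reach G U (S m) (T (p m))) := by
        intro z hz
        induction hz with
        | refl => exact Or.inl rfl
        | @tail q z hq e ih =>
          obtain ⟨qY, rfl⟩ := e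
          have hz : ReflTransGen (Nxt Y f) (src m) (f q) := hq.tail ⟨qY, rfl⟩
          have en : f q ∈ Y → f q = tgt (p m) := fun h =>
            orbit_end_unique h (tY _ pm) hz (hp m hm).2
          have k1 : q ≠ a → Reach G U (S m) q ∧ U q := fun hqa => by
            rcases ih with h | h | h
            · rcases cs m hm with h' | h'
              · exact (hqa (h.trans h'.2.1)).elim
              · have : q = S m := by rw [h, h'.2.1, h'.2.2.2.1]
                exact ⟨this ▸ ReflTransGen.refl, Or.inr (Or.inl this)⟩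
            · exact ⟨h.2, Or.inl ⟨h.1, hq⟩⟩
            · exact (qY h.1).elim
          obtain ⟨-, h2 | ⟨h2, h3, h4⟩ | ⟨rfl, h3, -⟩ | ⟨h2, h3, -⟩⟩ := f2 q qY
          · rw [h2]
            exact ih
          · obtain ⟨k2, k3⟩ := k1 fun e => na (e ▸ h2)
            rcases h3 with h3 | ⟨j, hj, h3⟩
            · exact Or.inr (Or.inl ⟨h3, k2.tail ⟨h4, k3, Or.inl ⟨h3, hz⟩⟩⟩)
            · have k4 : f q ∈ Y := (mY _).2 (Or.inr ⟨j, hj, h3.symm⟩)
              have k5 : f q = T (p m) := by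
                rcases cs _ pm with h' | h'
                · exact (nb (Or.inr ⟨j, hj, by rw [← h3, en k4, h'.2.2.1]⟩)).elim
                · rw [en k4, h'.2.2.1, h'.2.2.2.2]
              exact Or.inr (Or.inr ⟨k4, k2.tail ⟨k5 ▸ h4, k3, Or.inr (Or.inr rfl)⟩⟩)
          · have k2 : S m = s := by
              rcases ih with h | h | h
              · rcases cs m hm with h' | h'
                · exact h'.2.2.2.1
                · exact (na (Or.inr ⟨m, h'.1, h.trans h'.2.1⟩)).elim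
              · exact (na (Or.inl h.1)).elim
              · exact (qY h.1).elim
            exact Or.inr (Or.inl ⟨h3, ReflTransGen.single
              ⟨k2 ▸ hsa, Or.inr (Or.inl rfl), Or.inl ⟨h3, hz⟩⟩⟩)
          · obtain ⟨k2, k3⟩ := k1 fun e => na (Or.inl (e ▸ h2))
            have k4 : f q ∈ Y := (mY _).2 (Or.inl h3)
            have k5 : T (p m) = w := by
              rcases cs _ pm with h' | h'
              · exact h'.2.2.2.2
              · exact (nb (Or.inr ⟨_, h'.1, by rw [← h3, en k4, h'.2.2.1]⟩)).elim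
            exact Or.inr (Or.inr ⟨k4, k2.tail
              ⟨k5 ▸ (hwb q qY h3).symm, k3, Or.inr (Or.inr rfl)⟩⟩)
      rcases inv _ (hp m hm).2 with h | h | h
      exacts [(sY (h ▸ tY _ pm)).elim, (fY _ (tY _ pm) h.1).elim, h.2])
  exact ⟨ρ, _, _, r1, r2, card_insert_of_notMem hi'⟩

theorem Linked.step (hL : σ.Linked Λ R) (hG : ClawFree G) (hv : Injective v) (ho : σ.Opt)
    (hc : IsConn G (2 * k)) (hi : ¬ σ.Good i) (hiΛ : i ∉ Λ) :
    ∃ (ρ : Sys G v) (Λ' : Finset (Fin k)) (R' : Fin k → V → Prop),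
      ρ.Opt ∧ ρ.Linked Λ' R' ∧ #Λ' = #Λ + 1 := by
  obtain ⟨a, b, κ, π, C, hK⟩ := hL.orient hG hv ho hc hi hiΛ
  rcases route_or_cut (σ.Aux i Λ a b κ π) (insert a (Λ.image π)) (insert b (Λ.image κ)) with
    ⟨f, f1, f2⟩ | ⟨Q, Γ, h0, h1, h2, h3⟩
  · exact C.route hc hiΛ hL hK f f1 f2
  · have e1 := card_insert_le a (Λ.image π)
    have e2 : #(Λ.image π) ≤ #Λ := card_image_le
    exact (C.no_cut hc hiΛ hL hK Q Γ (by omega) h1 h2 h3).elim

end Sys

end Pool.Agent.Lib.MP_6859a2_co
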