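import Pool.Agent.Lib.MP_6859a2_co.Basic
import Pool.Agent.Lib.MP_6859a2_co.Local

/-!
Systems of disjoint pairs of neighbours, optimal systems and exchanges.
-/

namespace Pool.Agent.Lib.MP_6859a2_co

open Finset Function

variable {V : Type} {G : SimpleGraph V} {k : ℕ} {v : Fin k → V}

theorem exists_max_of_bdd {α : Type} (p : α → Prop) (f : α → ℕ) (B : ℕ)
    (hB : ∀ x, p x → f x ≤ B) (h : ∃ x, p x) : ∃ x, p x ∧ ∀ y, p y → f y ≤ f x := by
  classical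
  have h1 : ∃ n, ∃ x, p x ∧ B - f x = n := by
    obtain ⟨x, hx⟩ := h
    exact ⟨_, x, hx, rfl⟩
  obtain ⟨x, hx, e⟩ := Nat.find_spec h1
  refine ⟨x, hx, fun y hy => ?_⟩
  have h2 := Nat.find_min' h1 ⟨y, hy, rfl⟩
  have := hB x hx
  have := hB y hy
  omega

/-- every player holds two of its neighbours outside the set of players, all distinct -/
structure Sys (G : SimpleGraph V) (v : Fin k → V) where
  h : Fin k × Bool → V
  inj : Injective h
  adj : ∀ p, G.Adj (v p.1) (h p)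
  nv : ∀ p j, h p ≠ v j

namespace Sys

variable (σ : Sys G v)

/-- neither a player nor held by a player -/
def Free (z : V) : Prop := (∀ j, z ≠ v j) ∧ ∀ p, z ≠ σ.h p

/-- the pair of `m` is an edge -/
def Good (m : Fin k) : Prop := G.Adj (σ.h (m, false)) (σ.h (m, true))

/-- number of good players -/
noncomputable def g : ℕ := ∑ m, ind (σ.Good m)

/-- the number of good players is maximal -/
def Opt : Prop := ∀ τ : Sys G v, τ.g ≤ σ.g

theorem good_iff (m : Fin k) (β : Bool) :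
    σ.Good m ↔ G.Adj (σ.h (m, β)) (σ.h (m, !β)) := by
  cases β
  · exact Iff.rfl
  · exact ⟨fun h => h.symm, fun h => h.symm⟩

theorem g_le : σ.g ≤ k := by
  have : σ.g ≤ ∑ _m : Fin k, 1 := sum_le_sum fun m _ => ind_le _
  simpa using this

theorem exchange {ι : Type} [Fintype ι] (P : ι → Fin k) (hP : Injective P)
    (N : ι × Bool → V) (hN : Injective N) (hadj : ∀ q, G.Adj (v (P q.1)) (N q))
    (hval : ∀ q, (∃ r : ι × Bool, N q = σ.h (P r.1, r.2)) ∨ σ.Free (N q)) :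
    ∃ τ : Sys G v, (∀ t β, τ.h (P t, β) = N (t, β)) ∧
      (∀ m, (∀ t, P t ≠ m) → ∀ β, τ.h (m, β) = σ.h (m, β)) ∧
      τ.g + ∑ t, ind (σ.Good (P t)) = σ.g + ∑ t, ind (G.Adj (N (t, false)) (N (t, true))) := by
  classical
  let h' : Fin k × Bool → V := fun p =>
    if e : ∃ t, P t = p.1 then N (e.choose, p.2) else σ.h p
  have e1 : ∀ t β, h' (P t, β) = N (t, β) := fun t β => by
    have e : ∃ s, P s = (P t, β).1 := ⟨t, rfl⟩
    simp only [h', dif_pos e]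
    rw [hP e.choose_spec]
  have e2 : ∀ m, (∀ t, P t ≠ m) → ∀ β, h' (m, β) = σ.h (m, β) := fun m hm β => by
    have e : ¬ ∃ s, P s = (m, β).1 := fun ⟨s, hs⟩ => hm s hs
    simp only [h', dif_neg e]
  have cs : ∀ m, (∃ t, P t = m) ∨ ∀ t, P t ≠ m := fun m => by
    by_cases e : ∃ t, P t = m
    · exact Or.inl e
    · exact Or.inr fun t ht => e ⟨t, ht⟩
  have mix : ∀ t β m γ, (∀ t, P t ≠ m) → N (t, β) ≠ σ.h (m, γ) := fun t β m γ hm e => by
    rcases hval (t, β) with ⟨r, hr⟩ | hf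
    · exact hm r.1 (congrArg Prod.fst (σ.inj (hr.symm.trans e)))
    · exact hf.2 _ e
  let τ : Sys G v :=
    { h := h'
      inj := by
        rintro ⟨m, β⟩ ⟨m', γ⟩ e
        rcases cs m with ⟨t, rfl⟩ | hm <;> rcases cs m' with ⟨t', rfl⟩ | hm'
        · rw [e1, e1] at e
          have := hN e
          rw [Prod.mk.injEq] at this
          rw [this.1, this.2]
        · rw [e1, e2 _ hm'] at e
          exact (mix _ _ _ _ hm' e).elim
        · rw [e1, e2 _ hm] at e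
          exact (mix _ _ _ _ hm e.symm).elim
        · rw [e2 _ hm, e2 _ hm'] at e
          exact σ.inj e
      adj := by
        rintro ⟨m, β⟩
        rcases cs m with ⟨t, rfl⟩ | hm
        · rw [e1]
          exact hadj (t, β)
        · rw [e2 _ hm]
          exact σ.adj (m, β)
      nv := by
        rintro ⟨m, β⟩ j
        rcases cs m with ⟨t, rfl⟩ | hm
        · rw [e1]
          rcases hval (t, β) with ⟨r, hr⟩ | hf
          · rw [hr]
            exact σ.nv _ _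
          · exact hf.1 j
        · rw [e2 _ hm]
          exact σ.nv _ _ }
  refine ⟨τ, e1, e2, ?_⟩
  have s1 : ∀ f : Fin k → ℕ, ∑ m, f m = ∑ m ∈ (univ.image P)ᶜ, f m + ∑ t, f (P t) := fun f => by
    rw [← sum_compl_add_sum (univ.image P), sum_image fun a _ b _ e => hP e]
  have s2 : ∑ m ∈ (univ.image P)ᶜ, ind (τ.Good m) = ∑ m ∈ (univ.image P)ᶜ, ind (σ.Good m) := by
    refine sum_congr rfl fun m hm => ?_
    have hm' : ∀ t, P t ≠ m := fun t ht => by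
      rw [mem_compl] at hm
      exact hm (mem_image.2 ⟨t, mem_univ _, ht⟩)
    show ind (G.Adj (h' _) (h' _)) = _
    rw [e2 _ hm', e2 _ hm']
    rfl
  have s3 : ∑ t, ind (τ.Good (P t)) = ∑ t, ind (G.Adj (N (t, false)) (N (t, true))) := by
    refine sum_congr rfl fun t _ => ?_
    show ind (G.Adj (h' _) (h' _)) = _
    rw [e1, e1]
  unfold g
  rw [s1 fun m => ind (τ.Good m), s1 fun m => ind (σ.Good m), s2, s3]
  omega

variable {σ}

theorem ind_good (m : Fin k) (β : Bool) :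
    ind (σ.Good m) = ind (G.Adj (σ.h (m, β)) (σ.h (m, !β))) := by
  rw [propext (σ.good_iff m β)]

theorem ex1 (ho : σ.Opt) {i : Fin k} (hi : ¬ σ.Good i) (β : Bool) :
    Ex1 G σ.Free (v i) (σ.h (i, β)) (σ.h (i, !β)) := by
  intro p1 q1 m0 m1 d0 a0 a1
  obtain ⟨τ, -, -, e⟩ := σ.exchange (fun _ : Unit => i) (fun _ _ _ => rfl)
    (fun q => if q.2 then q1 else p1) (by
      rintro ⟨t, β⟩ ⟨t', β'⟩
      cases β <;> cases β' <;> simp [d0, d0.symm]) (by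
      rintro ⟨t, β⟩
      cases β <;> simpa) (by
      rintro ⟨t, γ⟩
      cases γ
      · rcases m0 with h | h | h
        exacts [Or.inl ⟨((), β), h⟩, Or.inl ⟨((), !β), h⟩, Or.inr h]
      · rcases m1 with h | h | h
        exacts [Or.inl ⟨((), β), h⟩, Or.inl ⟨((), !β), h⟩, Or.inr h])
  have := ho τ
  simp only [Fintype.sum_unique, ind_f hi, Bool.false_eq_true, if_false, if_true] at e
  omega

/-- exchange between two players -/
theorem exchange2 (σ : Sys G v) {i m : Fin k} (him : i ≠ m) (β δ : Bool) {p1 q1 p2 q2 : V}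
    (hm : ∀ z ∈ [p1, q1, p2, q2], z = σ.h (i, β) ∨ z = σ.h (i, !β) ∨ z = σ.h (m, δ) ∨
      z = σ.h (m, !δ) ∨ σ.Free z) (hd : [p1, q1, p2, q2].Nodup)
    (a0 : G.Adj (v i) p1) (a1 : G.Adj (v i) q1) (a2 : G.Adj (v m) p2) (a3 : G.Adj (v m) q2) :
    ∃ τ : Sys G v, τ.h (i, false) = p1 ∧ τ.h (i, true) = q1 ∧ τ.h (m, false) = p2 ∧
      τ.h (m, true) = q2 ∧ (∀ j, j ≠ i → j ≠ m → ∀ β, τ.h (j, β) = σ.h (j, β)) ∧
      τ.g + (ind (σ.Good i) + ind (σ.Good m)) =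
        σ.g + (ind (G.Adj p1 q1) + ind (G.Adj p2 q2)) := by
  have hm' : ∀ z ∈ [p1, q1, p2, q2],
      (∃ r : Fin 2 × Bool, z = σ.h (![i, m] r.1, r.2)) ∨ σ.Free z := fun z hz => by
    rcases hm z hz with h | h | h | h | h
    exacts [Or.inl ⟨(0, β), h⟩, Or.inl ⟨(0, !β), h⟩, Or.inl ⟨(1, δ), h⟩, Or.inl ⟨(1, !δ), h⟩,
      Or.inr h]
  simp only [List.nodup_cons, List.mem_cons, List.not_mem_nil, or_false, not_or,
    not_false_eq_true, List.nodup_nil, and_true] at hd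
  obtain ⟨⟨d1, d2, d3⟩, ⟨d4, d5⟩, d6⟩ := hd
  obtain ⟨τ, e1, e2, e⟩ := σ.exchange ![i, m] (by
      intro t t'
      fin_cases t <;> fin_cases t' <;> simp [him, him.symm])
    (fun q => if q.2 then ![q1, q2] q.1 else ![p1, p2] q.1) (by
      rintro ⟨t, β⟩ ⟨t', β'⟩
      fin_cases t <;> fin_cases t' <;> cases β <;> cases β' <;>
        simp [d1, d2, d3, d4, d5, d6, Ne.symm d1, Ne.symm d2, Ne.symm d3, Ne.symm d4, Ne.symm d5,
          Ne.symm d6]) (by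
      rintro ⟨t, β⟩
      fin_cases t <;> cases β <;> simpa) (by
      rintro ⟨t, γ⟩
      fin_cases t <;> cases γ <;> exact hm' _ (by simp))
  refine ⟨τ, e1 0 false, e1 0 true, e1 1 false, e1 1 true, fun j h1 h2 => e2 j fun t => ?_, ?_⟩
  · fin_cases t
    exacts [h1.symm, h2.symm]
  · simpa [Fin.sum_univ_two] using e

/-- exchange between three players -/
theorem exchange3 (σ : Sys G v) {i l m : Fin k} (hil : i ≠ l) (him : i ≠ m) (hlm : l ≠ m)
    (β γ δ : Bool) {p1 q1 p2 q2 p3 q3 : V}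
    (hm : ∀ z ∈ [p1, q1, p2, q2, p3, q3], z = σ.h (i, β) ∨ z = σ.h (i, !β) ∨ z = σ.h (l, γ) ∨
      z = σ.h (l, !γ) ∨ z = σ.h (m, δ) ∨ z = σ.h (m, !δ) ∨ σ.Free z)
    (hd : [p1, q1, p2, q2, p3, q3].Nodup)
    (a0 : G.Adj (v i) p1) (a1 : G.Adj (v i) q1) (a2 : G.Adj (v l) p2) (a3 : G.Adj (v l) q2)
    (a4 : G.Adj (v m) p3) (a5 : G.Adj (v m) q3) :
    ∃ τ : Sys G v, τ.h (i, false) = p1 ∧ τ.h (i, true) = q1 ∧ τ.h (l, false) = p2 ∧
      τ.h (l, true) = q2 ∧ τ.h (m, false) = p3 ∧ τ.h (m, true) = q3 ∧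
      (∀ j, j ≠ i → j ≠ l → j ≠ m → ∀ β, τ.h (j, β) = σ.h (j, β)) ∧
      τ.g + (ind (σ.Good i) + ind (σ.Good l) + ind (σ.Good m)) =
        σ.g + (ind (G.Adj p1 q1) + ind (G.Adj p2 q2) + ind (G.Adj p3 q3)) := by
  have hm' : ∀ z ∈ [p1, q1, p2, q2, p3, q3],
      (∃ r : Fin 3 × Bool, z = σ.h (![i, l, m] r.1, r.2)) ∨ σ.Free z := fun z hz => by
    rcases hm z hz with h | h | h | h | h | h | h
    exacts [Or.inl ⟨(0, β), h⟩, Or.inl ⟨(0, !β), h⟩, Or.inl ⟨(1, γ), h⟩, Or.inl ⟨(1, !γ), h⟩,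
      Or.inl ⟨(2, δ), h⟩, Or.inl ⟨(2, !δ), h⟩, Or.inr h]
  simp only [List.nodup_cons, List.mem_cons, List.not_mem_nil, or_false, not_or,
    not_false_eq_true, List.nodup_nil, and_true] at hd
  obtain ⟨⟨d1, d2, d3, d4, d5⟩, ⟨d6, d7, d8, d9⟩, ⟨d10, d11, d12⟩, ⟨d13, d14⟩, d15⟩ := hd
  obtain ⟨τ, e1, e2, e⟩ := σ.exchange ![i, l, m] (by
      intro t t'
      fin_cases t <;> fin_cases t' <;> simp [hil, him, hlm, hil.symm, him.symm, hlm.symm])
    (fun q => if q.2 then ![q1, q2, q3] q.1 else ![p1, p2, p3] q.1) (by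
      rintro ⟨t, β⟩ ⟨t', β'⟩
      fin_cases t <;> fin_cases t' <;> cases β <;> cases β' <;>
        simp [d1, d2, d3, d4, d5, d6, d7, d8, d9, d10, d11, d12, d13, d14, d15,
          Ne.symm d1, Ne.symm d2, Ne.symm d3, Ne.symm d4, Ne.symm d5, Ne.symm d6, Ne.symm d7,
          Ne.symm d8, Ne.symm d9, Ne.symm d10, Ne.symm d11, Ne.symm d12, Ne.symm d13,
          Ne.symm d14, Ne.symm d15]) (by
      rintro ⟨t, β⟩
      fin_cases t <;> cases β <;> simpa) (by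
      rintro ⟨t, γ⟩
      fin_cases t <;> cases γ <;> exact hm' _ (by simp))
  refine ⟨τ, e1 0 false, e1 0 true, e1 1 false, e1 1 true, e1 2 false, e1 2 true,
    fun j h1 h2 h3 => e2 j fun t => ?_, ?_⟩
  · fin_cases t
    exacts [h1.symm, h2.symm, h3.symm]
  · simpa [Fin.sum_univ_three] using e

theorem ex2 (ho : σ.Opt) {i m : Fin k} (hi : ¬ σ.Good i) (him : i ≠ m) (β δ : Bool) :
    Ex2 G σ.Free (v i) (v m) (σ.h (i, β)) (σ.h (i, !β)) (σ.h (m, δ)) (σ.h (m, !δ)) := by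
  intro p1 q1 p2 q2 m0 m1 m2 m3 d1 d2 d3 d4 d5 d6 a0 a1 a2 a3
  obtain ⟨τ, -, -, -, -, -, e⟩ := σ.exchange2 him β δ (by simp [m0, m1, m2, m3])
    (by simp [d1, d2, d3, d4, d5, d6]) a0 a1 a2 a3
  have := ho τ
  rw [ind_f hi, ind_good m δ] at e
  omega

theorem ex3 (ho : σ.Opt) {i l m : Fin k} (hi : ¬ σ.Good i) (hil : i ≠ l) (him : i ≠ m)
    (hlm : l ≠ m) (β γ δ : Bool) :
    Ex3 G σ.Free (v i) (v l) (v m) (σ.h (i, β)) (σ.h (i, !β)) (σ.h (l, γ)) (σ.h (l, !γ))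
      (σ.h (m, δ)) (σ.h (m, !δ)) := by
  intro p1 q1 p2 q2 p3 q3 m0 m1 m2 m3 m4 m5 d1 d2 d3 d4 d5 d6 d7 d8 d9 d10 d11 d12 d13 d14 d15
    a0 a1 a2 a3 a4 a5
  obtain ⟨τ, -, -, -, -, -, -, -, e⟩ := σ.exchange3 hil him hlm β γ δ
    (by simp [m0, m1, m2, m3, m4, m5])
    (by simp [d1, d2, d3, d4, d5, d6, d7, d8, d9, d10, d11, d12, d13, d14, d15])
    a0 a1 a2 a3 a4 a5
  have := ho τ
  rw [ind_f hi, ind_good l γ, ind_good m δ] at e
  omega

theorem nd1 (σ : Sys G v) (i : Fin k) (β : Bool) {c : V} (hc : σ.Free c) :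
    [v i, σ.h (i, β), σ.h (i, !β), c].Nodup := by
  simp [σ.inj.eq_iff, (σ.nv _ _).symm, (hc.1 _).symm, (hc.2 _).symm]

theorem nd2 (σ : Sys G v) (hv : Injective v) {i m : Fin k} (him : i ≠ m) (β δ : Bool) :
    [v i, v m, σ.h (i, β), σ.h (i, !β), σ.h (m, δ), σ.h (m, !δ)].Nodup := by
  simp [σ.inj.eq_iff, hv.eq_iff, (σ.nv _ _).symm, him]

theorem nd2c (σ : Sys G v) (hv : Injective v) {i m : Fin k} (him : i ≠ m) (β δ : Bool) {c : V}
    (hc : σ.Free c) :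
    [v i, v m, σ.h (i, β), σ.h (i, !β), σ.h (m, δ), σ.h (m, !δ), c].Nodup := by
  simp [σ.inj.eq_iff, hv.eq_iff, (σ.nv _ _).symm, him, (hc.1 _).symm, (hc.2 _).symm]

theorem nd3 (σ : Sys G v) (hv : Injective v) {i l m : Fin k} (hil : i ≠ l) (him : i ≠ m)
    (hlm : l ≠ m) (β γ δ : Bool) :
    [v i, v l, v m, σ.h (i, β), σ.h (i, !β), σ.h (l, γ), σ.h (l, !γ), σ.h (m, δ),
      σ.h (m, !δ)].Nodup := by
  simp [σ.inj.eq_iff, hv.eq_iff, (σ.nv _ _).symm, hil, him, hlm]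

end Sys

end Pool.Agent.Lib.MP_6859a2_co
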